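import Pool.Agent.TH7.PG.HalfB
import Pool.Agent.TH7.PG.Ratio2

/-! # The multiplicative energy of a weight which is smooth along an interval and small primes -/

set_option autoImplicit false

namespace Pool.Agent.H58BU

open Finset Pool.Agent.TH7.PG

/-- the active frequencies, for a general function -/
theorem act_sumF {p : ℕ} [Fact p.Prime] (Y : Finset ℕ) (W : ℝ) (Y0 T r : ℕ)
    (hW : 2 * (Y0 * W) < p) (hY : ∀ y ∈ Y, y.Prime) (hY0 : ∀ y ∈ Y, y ≤ Y0) (hYp : Y0 < p)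
    (hT : ∀ y ∈ Y, T ≤ y) (hr : p < T ^ (r + 1)) (f : ZMod p → ℂ) :
    ∑ ξ : ZMod p, (∑ y ∈ act Y W ξ, ‖ft f ((y : ZMod p) * ξ)‖) ^ 2 ≤
      (Y.card : ℝ) ^ 2 * (∑ x, ‖f x‖) ^ 2 + (1 + r) * Y.card * (p * ∑ x, ‖f x‖ ^ 2) := by
  classical
  set F : ZMod p → ℝ := fun u => ‖ft f u‖ ^ 2 with hF
  have hF0 : ∀ u, 0 ≤ F u := fun u => sq_nonneg _
  have hpar : ∑ u, F u = p * ∑ x, ‖f x‖ ^ 2 := by
    rw [hF, parseval]
  set S1 : ℝ := ∑ x, ‖f x‖ with hS1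
  set S2 : ℝ := ∑ x, ‖f x‖ ^ 2 with hS2
  have hyz : ∀ y ∈ Y, ((y : ℕ) : ZMod p) ≠ 0 := by
    intro y hy h
    rw [ZMod.natCast_eq_zero_iff] at h
    have := Nat.le_of_dvd (hY y hy).pos h
    have := hY0 y hy
    omega
  -- the zero frequency
  rw [← Finset.add_sum_erase Finset.univ _ (Finset.mem_univ (0 : ZMod p))]
  have hzero : (∑ y ∈ act Y W (0 : ZMod p), ‖ft f ((y : ZMod p) * 0)‖) ^ 2 ≤
      (Y.card : ℝ) ^ 2 * S1 ^ 2 := by
    rw [← mul_pow]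
    refine pow_le_pow_left₀ (Finset.sum_nonneg fun _ _ => norm_nonneg _) ?_ 2
    calc ∑ y ∈ act Y W (0 : ZMod p), ‖ft f ((y : ZMod p) * 0)‖
        ≤ ∑ _y ∈ act Y W (0 : ZMod p), S1 := by
          refine Finset.sum_le_sum fun y _ => ?_
          exact ft_norm_le _ _
      _ = (act Y W (0 : ZMod p)).card * S1 := by rw [Finset.sum_const, nsmul_eq_mul]
      _ ≤ Y.card * S1 := by
          refine mul_le_mul_of_nonneg_right ?_ (Finset.sum_nonneg fun _ _ => norm_nonneg _)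
          unfold act
          exact_mod_cast card_filter_le _ _
  refine add_le_add hzero ?_
  -- the other frequencies
  have h1 : ∀ ξ ∈ (Finset.univ : Finset (ZMod p)).erase 0,
      (∑ y ∈ act Y W ξ, ‖ft f ((y : ZMod p) * ξ)‖) ^ 2 ≤
      ∑ y ∈ Y, F ((y : ZMod p) * ξ) + Y.card *
        ∑ y ∈ Y, if ((y : ℤ) ∣ ((y : ZMod p) * ξ).valMinAbs ∧ (y : ZMod p) * ξ ≠ 0) then
          F ((y : ZMod p) * ξ) else 0 := by
    intro ξ hξ
    have hξ0 : ξ ≠ 0 := (mem_erase.1 hξ).1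
    refine (sq_act Y W Y0 hW hY hY0 ξ (fun y => ‖ft f ((y : ZMod p) * ξ)‖)
      fun y => norm_nonneg _).trans ?_
    refine add_le_add le_rfl (mul_le_mul_of_nonneg_left ?_ (Nat.cast_nonneg _))
    rw [Finset.sum_filter]
    refine Finset.sum_le_sum fun y hy => ?_
    by_cases hd : (y : ℤ) ∣ ((y : ZMod p) * ξ).valMinAbs
    · rw [if_pos hd, if_pos ⟨hd, mul_ne_zero (hyz y hy) hξ0⟩]
    · rw [if_neg hd, if_neg fun h => hd h.1]
  refine (Finset.sum_le_sum h1).trans ?_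
  refine (Finset.sum_le_sum_of_subset_of_nonneg (Finset.erase_subset _ _) fun ξ _ _ => ?_).trans ?_
  · refine add_nonneg (Finset.sum_nonneg fun y _ => hF0 _) (mul_nonneg (Nat.cast_nonneg _)
      (Finset.sum_nonneg fun y _ => ?_))
    split_ifs
    · exact hF0 _
    · exact le_rfl
  rw [Finset.sum_add_distrib, ← Finset.mul_sum, Finset.sum_comm, Finset.sum_comm (s := univ)]
  have h2 : ∑ y ∈ Y, ∑ ξ : ZMod p, F ((y : ZMod p) * ξ) = Y.card * (p * S2) := by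
    have h2' : ∀ y ∈ Y, ∑ ξ : ZMod p, F ((y : ZMod p) * ξ) = p * S2 := fun y hy =>
      (dil_sum F (y : ZMod p) (hyz y hy)).trans hpar
    rw [Finset.sum_congr rfl h2', Finset.sum_const, nsmul_eq_mul]
  have h3 : ∑ y ∈ Y, ∑ ξ : ZMod p, (if ((y : ℤ) ∣ ((y : ZMod p) * ξ).valMinAbs ∧
      (y : ZMod p) * ξ ≠ 0) then F ((y : ZMod p) * ξ) else 0) ≤ r * (p * S2) := by
    have h4 : ∀ y ∈ Y, ∑ ξ : ZMod p, (if ((y : ℤ) ∣ ((y : ZMod p) * ξ).valMinAbs ∧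
        (y : ZMod p) * ξ ≠ 0) then F ((y : ZMod p) * ξ) else 0) =
        ∑ u : ZMod p, (if ((y : ℤ) ∣ u.valMinAbs ∧ u ≠ 0) then F u else 0) := fun y hy =>
      dil_sum (fun u => if ((y : ℤ) ∣ u.valMinAbs ∧ u ≠ 0) then F u else 0) (y : ZMod p) (hyz y hy)
    rw [Finset.sum_congr rfl h4, Finset.sum_comm, ← hpar, Finset.mul_sum]
    refine Finset.sum_le_sum fun u _ => ?_
    by_cases hu : u = 0
    · have : ∀ y ∈ Y, (if ((y : ℤ) ∣ u.valMinAbs ∧ u ≠ 0) then F u else 0) = 0 := fun y _ =>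
        if_neg fun h => h.2 hu
      rw [Finset.sum_eq_zero this]
      exact mul_nonneg (Nat.cast_nonneg _) (hF0 _)
    · have h5 : ∑ y ∈ Y, (if ((y : ℤ) ∣ u.valMinAbs ∧ u ≠ 0) then F u else 0) =
          (Y.filter fun y : ℕ => (y : ℤ) ∣ u.valMinAbs).card * F u := by
        rw [← nsmul_eq_mul, ← Finset.sum_const, Finset.sum_filter]
        refine Finset.sum_congr rfl fun y _ => ?_
        by_cases hd : (y : ℤ) ∣ u.valMinAbs
        · rw [if_pos hd, if_pos ⟨hd, hu⟩]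
        · rw [if_neg hd, if_neg fun h => hd h.1]
      rw [h5]
      refine mul_le_mul_of_nonneg_right ?_ (hF0 _)
      exact_mod_cast few_divisors Y T r hY hT hr u hu
  rw [h2]
  calc (Y.card : ℝ) * (p * S2) + Y.card * _ ≤ Y.card * (p * S2) +
        Y.card * (r * (p * S2)) :=
        add_le_add le_rfl (mul_le_mul_of_nonneg_left h3 (Nat.cast_nonneg _))
    _ = _ := by ring

/-- the mean over `h` steps -/
noncomputable def av {p : ℕ} (h : ℕ) (f : ZMod p → ℝ) (t : ZMod p) : ℝ :=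
  (∑ s ∈ range h, f (t - (s : ZMod p))) / h

theorem av_nonneg {p : ℕ} (h : ℕ) (f : ZMod p → ℝ) (hf : ∀ t, 0 ≤ f t) (t : ZMod p) :
    0 ≤ av h f t := by
  unfold av
  exact div_nonneg (sum_nonneg fun _ _ => hf _) (Nat.cast_nonneg _)

theorem av_mono {p : ℕ} (h : ℕ) (f g : ZMod p → ℝ) (hfg : ∀ t, f t ≤ g t) (t : ZMod p) :
    av h f t ≤ av h g t := by
  unfold av
  exact div_le_div_of_nonneg_right (sum_le_sum fun _ _ => hfg _) (Nat.cast_nonneg _)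

theorem iter_nonneg {p : ℕ} (h k : ℕ) (f : ZMod p → ℝ) (hf : ∀ t, 0 ≤ f t) (t : ZMod p) :
    0 ≤ (av h)^[k] f t := by
  induction k generalizing t with
  | zero => exact hf t
  | succ k ih =>
    rw [Function.iterate_succ_apply']
    exact av_nonneg h _ (fun t => ih t) t

theorem ft_av {p : ℕ} [NeZero p] (h : ℕ) (f : ZMod p → ℝ) (ξ : ZMod p) :
    ft (fun t => ((av h f t : ℝ) : ℂ)) ξ = ft (fun t => ((f t : ℝ) : ℂ)) ξ * (DD h ξ / h) := by
  unfold ft av DD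
  have h1 : ∀ x : ZMod p, (((∑ s ∈ range h, f (x - (s : ZMod p))) / h : ℝ) : ℂ) *
      ZMod.stdAddChar (x * ξ) = (∑ s ∈ range h, ((f (x - (s : ZMod p)) : ℝ) : ℂ) *
        ZMod.stdAddChar (x * ξ)) / h := by
    intro x
    push_cast
    rw [Finset.sum_div, Finset.sum_div, Finset.sum_mul]
    refine Finset.sum_congr rfl fun s _ => ?_
    ring
  rw [Finset.sum_congr rfl fun x _ => h1 x, ← Finset.sum_div, Finset.sum_comm, mul_div_assoc']
  congr 1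
  rw [Finset.mul_sum]
  refine Finset.sum_congr rfl fun s _ => ?_
  rw [Finset.sum_mul]
  rw [← Equiv.sum_comp (Equiv.addRight (s : ZMod p))]
  refine Finset.sum_congr rfl fun x _ => ?_
  simp only [Equiv.coe_addRight, add_sub_cancel_right]
  rw [add_mul, AddChar.map_add_eq_mul]
  ring

theorem ft_iter {p : ℕ} [NeZero p] (h k : ℕ) (f : ZMod p → ℝ) (ξ : ZMod p) :
    ft (fun t => (((av h)^[k] f t : ℝ) : ℂ)) ξ =
      ft (fun t => ((f t : ℝ) : ℂ)) ξ * (DD h ξ / h) ^ k := by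
  induction k with
  | zero => simp
  | succ k ih =>
    simp only [Function.iterate_succ_apply']
    rw [ft_av, ih, pow_succ]
    ring

theorem ft_dil {p : ℕ} [Fact p.Prime] (f : ZMod p → ℂ) (y : ZMod p) (hy : y ≠ 0) (ξ : ZMod p) :
    ft (fun u => f (u / y)) ξ = ft f (y * ξ) := by
  unfold ft
  rw [← Equiv.sum_comp (Equiv.mulRight₀ y hy)]
  refine Finset.sum_congr rfl fun x _ => ?_
  show f (x * y / y) * ZMod.stdAddChar (x * y * ξ) = _
  rw [mul_div_cancel_right₀ _ hy, mul_assoc]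

theorem energy {p : ℕ} [Fact p.Prime] (Y : Finset ℕ) (W : ℝ) (Y0 T r k h : ℕ)
    (hW0 : 0 < W) (hW : 2 * (Y0 * W) < p) (hY : ∀ y ∈ Y, y.Prime) (hY0 : ∀ y ∈ Y, y ≤ Y0)
    (hYp : Y0 < p) (hT : ∀ y ∈ Y, T ≤ y) (hr : p < T ^ (r + 1)) (hh : 1 ≤ h)
    (hδ : (p : ℝ) * (p / (2 * W)) ^ k ≤ (h : ℝ) ^ k) (f₀ f : ZMod p → ℝ)
    (h₀ : ∀ t, 0 ≤ f₀ t) (hf : ∀ t, 0 ≤ f t) (hmaj : ∀ t, f₀ t ≤ (av h)^[k] f t) :
    ∑ u : ZMod p, (∑ y ∈ Y, f₀ (u / (y : ZMod p))) ^ 2 ≤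
      4 * ((Y.card : ℝ) ^ 2 * (∑ t, f t) ^ 2 / p) + 2 * (1 + r) * (Y.card * ∑ t, f t ^ 2) := by
  have hp : (0 : ℝ) < p := by exact_mod_cast (Fact.out : p.Prime).pos
  have hhpos : (0 : ℝ) < h := by exact_mod_cast hh
  have hhk : (0 : ℝ) < (h : ℝ) ^ k := by positivity
  set S1 : ℝ := ∑ t, f t with hS1
  set S2 : ℝ := ∑ t, f t ^ 2 with hS2
  have hS10 : 0 ≤ S1 := sum_nonneg fun t _ => hf t
  set G : ZMod p → ℝ := (av h)^[k] f with hG
  set R : ZMod p → ℂ := fun u => ∑ y ∈ Y, ((G (u / (y : ZMod p)) : ℝ) : ℂ) with hR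
  have hyz : ∀ y ∈ Y, ((y : ℕ) : ZMod p) ≠ 0 := by
    intro y hy h
    rw [ZMod.natCast_eq_zero_iff] at h
    have := Nat.le_of_dvd (hY y hy).pos h
    have := hY0 y hy
    omega
  set e₁ : ℝ := Y.card * S1 / p with he1
  have he0 : 0 ≤ e₁ := by positivity
  have hft : ∀ ξ : ZMod p, ‖ft R ξ‖ ≤
      ∑ y ∈ act Y W ξ, ‖ft (fun t => ((f t : ℝ) : ℂ)) ((y : ZMod p) * ξ)‖ + e₁ := by
    intro ξ
    have h1 : ft R ξ = ∑ y ∈ Y, ft (fun t => ((f t : ℝ) : ℂ)) ((y : ZMod p) * ξ) *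
        (DD h ((y : ZMod p) * ξ) / h) ^ k := by
      have e1 : ft R ξ = ∑ y ∈ Y, ft (fun u => ((G (u / (y : ZMod p)) : ℝ) : ℂ)) ξ := by
        unfold ft
        rw [hR]
        simp only [Finset.sum_mul]
        rw [Finset.sum_comm]
      rw [e1]
      refine Finset.sum_congr rfl fun y hy => ?_
      rw [ft_dil (fun t => ((G t : ℝ) : ℂ)) (y : ZMod p) (hyz y hy) ξ, hG, ft_iter]
    rw [h1]
    refine (norm_sum_le _ _).trans ?_
    have hsplit : ∑ y ∈ Y, ‖ft (fun t => ((f t : ℝ) : ℂ)) ((y : ZMod p) * ξ) *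
        (DD h ((y : ZMod p) * ξ) / h) ^ k‖ =
        ∑ y ∈ act Y W ξ, ‖ft (fun t => ((f t : ℝ) : ℂ)) ((y : ZMod p) * ξ) *
          (DD h ((y : ZMod p) * ξ) / h) ^ k‖ +
        ∑ y ∈ Y.filter (fun y : ℕ => ¬ |((((y : ZMod p) * ξ).valMinAbs : ℤ) : ℝ)| ≤ W),
          ‖ft (fun t => ((f t : ℝ) : ℂ)) ((y : ZMod p) * ξ) *
            (DD h ((y : ZMod p) * ξ) / h) ^ k‖ := by
      classical
      unfold act
      rw [← Finset.sum_filter_add_sum_filter_not Y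
        (fun y : ℕ => |((((y : ZMod p) * ξ).valMinAbs : ℤ) : ℝ)| ≤ W)]
    rw [hsplit]
    refine add_le_add ?_ ?_
    · refine Finset.sum_le_sum fun y _ => ?_
      rw [norm_mul, norm_pow, norm_div]
      refine mul_le_of_le_one_right (norm_nonneg _) (pow_le_one₀ (by positivity) ?_)
      rw [Complex.norm_natCast, div_le_one hhpos]
      exact DD_le h _
    · have h1 : ∀ y ∈ Y.filter (fun y : ℕ => ¬ |((((y : ZMod p) * ξ).valMinAbs : ℤ) : ℝ)| ≤ W),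
          ‖ft (fun t => ((f t : ℝ) : ℂ)) ((y : ZMod p) * ξ) *
            (DD h ((y : ZMod p) * ξ) / h) ^ k‖ ≤ S1 / p := by
        intro y hy
        have h2 := not_le.1 (mem_filter.1 hy).2
        have h3 := geom_bound h ((y : ZMod p) * ξ)
        have h4 : ‖DD h ((y : ZMod p) * ξ)‖ ≤ p / (2 * W) := by
          rw [le_div_iff₀ (by positivity)]
          refine le_trans (mul_le_mul_of_nonneg_left ?_ (norm_nonneg _)) h3
          linarith
        have h5 : ‖(DD h ((y : ZMod p) * ξ) / h) ^ k‖ ≤ 1 / p := by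
          rw [norm_pow, norm_div, Complex.norm_natCast, div_pow, div_le_div_iff₀ hhk hp]
          have := (mul_le_mul_of_nonneg_left (pow_le_pow_left₀ (norm_nonneg _) h4 k) hp.le).trans hδ
          linarith
        rw [norm_mul]
        have h6 : ‖ft (fun t => ((f t : ℝ) : ℂ)) ((y : ZMod p) * ξ)‖ ≤ S1 := by
          refine (ft_norm_le _ _).trans (le_of_eq ?_)
          rw [hS1]
          refine Finset.sum_congr rfl fun t _ => ?_
          rw [Complex.norm_real, Real.norm_of_nonneg (hf t)]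
        calc _ ≤ S1 * (1 / p) := mul_le_mul h6 h5 (norm_nonneg _) hS10
          _ = S1 / p := by ring
      refine (Finset.sum_le_card_nsmul _ _ _ h1).trans ?_
      rw [nsmul_eq_mul]
      have h6 : ((Y.filter (fun y : ℕ =>
          ¬ |((((y : ZMod p) * ξ).valMinAbs : ℤ) : ℝ)| ≤ W)).card : ℝ) ≤ Y.card := by
        exact_mod_cast card_filter_le _ _
      calc _ ≤ (Y.card : ℝ) * (S1 / p) :=
            mul_le_mul_of_nonneg_right h6 (by positivity)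
        _ = e₁ := by rw [he1]; ring
  have hsq : ∀ ξ : ZMod p, ‖ft R ξ‖ ^ 2 ≤
        2 * (∑ y ∈ act Y W ξ, ‖ft (fun t => ((f t : ℝ) : ℂ)) ((y : ZMod p) * ξ)‖) ^ 2 +
          2 * e₁ ^ 2 := by
    intro ξ
    refine (pow_le_pow_left₀ (norm_nonneg _) (hft ξ) 2).trans ?_
    nlinarith [sq_nonneg (∑ y ∈ act Y W ξ,
      ‖ft (fun t => ((f t : ℝ) : ℂ)) ((y : ZMod p) * ξ)‖ - e₁)]
  have hN1 : ∑ x, ‖((f x : ℝ) : ℂ)‖ = S1 := by
    rw [hS1]
    refine Finset.sum_congr rfl fun t _ => ?_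
    rw [Complex.norm_real, Real.norm_of_nonneg (hf t)]
  have hN2 : ∑ x, ‖((f x : ℝ) : ℂ)‖ ^ 2 = S2 := by
    rw [hS2]
    refine Finset.sum_congr rfl fun t _ => ?_
    rw [Complex.norm_real, Real.norm_of_nonneg (hf t)]
  have hsum : ∑ ξ : ZMod p, ‖ft R ξ‖ ^ 2 ≤
        (2 * ((Y.card : ℝ) ^ 2 * S1 ^ 2 + (1 + r) * Y.card * (p * S2)) +
          2 * (p * e₁ ^ 2)) := by
    refine (Finset.sum_le_sum fun ξ _ => hsq ξ).trans ?_
    rw [Finset.sum_add_distrib, ← Finset.mul_sum, Finset.sum_const,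
      Finset.card_univ, ZMod.card, nsmul_eq_mul]
    have := act_sumF Y W Y0 T r hW hY hY0 hYp hT hr (fun t => ((f t : ℝ) : ℂ))
    rw [hN1, hN2] at this
    linarith
  rw [parseval] at hsum
  have hlow : ∑ u : ZMod p, (∑ y ∈ Y, f₀ (u / (y : ZMod p))) ^ 2 ≤ ∑ u : ZMod p, ‖R u‖ ^ 2 := by
    refine Finset.sum_le_sum fun u _ => ?_
    have e1 : R u = ((∑ y ∈ Y, G (u / (y : ZMod p)) : ℝ) : ℂ) := by
      rw [hR]
      push_cast
      rfl
    have e2 : 0 ≤ ∑ y ∈ Y, G (u / (y : ZMod p)) :=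
      sum_nonneg fun y _ => iter_nonneg h k f hf _
    rw [e1, Complex.norm_real, Real.norm_of_nonneg e2]
    exact pow_le_pow_left₀ (sum_nonneg fun y _ => h₀ _) (sum_le_sum fun y _ => hmaj _) 2
  have hp1 : (1 : ℝ) ≤ p := by exact_mod_cast (Fact.out : p.Prime).one_lt.le
  have h9 : p * e₁ ^ 2 ≤ (Y.card : ℝ) ^ 2 * S1 ^ 2 := by
    have e2 : p * e₁ ^ 2 = (Y.card : ℝ) ^ 2 * S1 ^ 2 / p := by
      rw [he1]
      field_simp
    rw [e2]
    exact div_le_self (by positivity) hp1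
  have h7 : (p : ℝ) * ∑ u : ZMod p, (∑ y ∈ Y, f₀ (u / (y : ZMod p))) ^ 2 ≤
      4 * ((Y.card : ℝ) ^ 2 * S1 ^ 2) + 2 * (1 + r) * (Y.card * S2) * p := by
    refine (mul_le_mul_of_nonneg_left hlow hp.le).trans (hsum.trans ?_)
    linarith
  have h8 : (∑ u : ZMod p, (∑ y ∈ Y, f₀ (u / (y : ZMod p))) ^ 2) * p ≤
      (4 * ((Y.card : ℝ) ^ 2 * S1 ^ 2 / p) + 2 * (1 + r) * (Y.card * S2)) * p := by
    calc _ = (p : ℝ) * ∑ u : ZMod p, (∑ y ∈ Y, f₀ (u / (y : ZMod p))) ^ 2 := by ring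
      _ ≤ _ := h7
      _ = _ := by
          field_simp
  exact le_of_mul_le_mul_right h8 hp

end Pool.Agent.H58BU
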