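import Pool.Agent.H58BU.A

/-! # Windows of a weight and their energy -/

set_option autoImplicit false

namespace Pool.Agent.H58BU

open Finset Pool.Agent.TH7.PG

/-- the windows `[t - N, t + j h]` of a weight -/
noncomputable def wn {p : ℕ} (N h : ℕ) (w : ZMod p → ℝ) (j : ℕ) (t : ZMod p) : ℝ :=
  ∑ i ∈ range (N + j * h), w (t + ((j * h : ℕ) : ZMod p) - (i : ZMod p))

theorem wn_nonneg {p : ℕ} (N h : ℕ) (w : ZMod p → ℝ) (hw : ∀ t, 0 ≤ w t) (j : ℕ) (t : ZMod p) :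
    0 ≤ wn N h w j t := sum_nonneg fun _ _ => hw _

theorem wn_zero {p : ℕ} (N h : ℕ) (w : ZMod p → ℝ) (t : ZMod p) :
    wn N h w 0 t = ∑ i ∈ range N, w (t - (i : ZMod p)) := by
  unfold wn
  simp

theorem wn_step {p : ℕ} (N h : ℕ) (hh : 1 ≤ h) (w : ZMod p → ℝ) (hw : ∀ t, 0 ≤ w t) (j : ℕ)
    (t : ZMod p) : wn N h w j t ≤ av h (wn N h w (j + 1)) t := by
  unfold av
  have hh0 : (0 : ℝ) < h := by exact_mod_cast hh
  rw [le_div_iff₀ hh0]
  have key : ∀ s ∈ range h, wn N h w j t ≤ wn N h w (j + 1) (t - (s : ZMod p)) := by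
    intro s hs
    have hs' : s < h := mem_range.1 hs
    unfold wn
    have h1 : ∑ i ∈ range (N + j * h), w (t + ((j * h : ℕ) : ZMod p) - (i : ZMod p)) =
        ∑ i ∈ (range (N + j * h)).image (fun i => i + (h - s)),
          w (t - (s : ZMod p) + (((j + 1) * h : ℕ) : ZMod p) - (i : ZMod p)) := by
      rw [Finset.sum_image (fun a _ b _ hab => by simpa using hab)]
      refine Finset.sum_congr rfl fun i _ => ?_
      congr 1
      have : ((h - s : ℕ) : ZMod p) = (h : ZMod p) - (s : ZMod p) := by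
        rw [Nat.cast_sub hs'.le]
      push_cast
      rw [this]
      ring
    rw [h1]
    refine Finset.sum_le_sum_of_subset_of_nonneg ?_ fun _ _ _ => hw _
    intro i hi
    obtain ⟨i', hi', rfl⟩ := mem_image.1 hi
    have := mem_range.1 hi'
    rw [mem_range]
    have e : (j + 1) * h = j * h + h := by ring
    omega
  calc wn N h w j t * h = ∑ _s ∈ range h, wn N h w j t := by
        rw [Finset.sum_const, card_range, nsmul_eq_mul, mul_comm]
    _ ≤ _ := Finset.sum_le_sum key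

theorem iter_mono {p : ℕ} (h k : ℕ) (f g : ZMod p → ℝ) (hfg : ∀ t, f t ≤ g t) (t : ZMod p) :
    (av h)^[k] f t ≤ (av h)^[k] g t := by
  induction k generalizing t with
  | zero => exact hfg t
  | succ k ih =>
    rw [Function.iterate_succ_apply', Function.iterate_succ_apply']
    exact av_mono h _ _ (fun t => ih t) t

theorem wn_maj {p : ℕ} (N h : ℕ) (hh : 1 ≤ h) (w : ZMod p → ℝ) (hw : ∀ t, 0 ≤ w t) (k : ℕ)
    (t : ZMod p) : wn N h w 0 t ≤ (av h)^[k] (wn N h w k) t := by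
  induction k with
  | zero => exact le_rfl
  | succ k ih =>
    refine ih.trans ?_
    rw [Function.iterate_succ_apply]
    exact iter_mono h k _ _ (fun t => wn_step N h hh w hw k t) t

theorem wn_le {p : ℕ} (N h k : ℕ) (hN : 1 ≤ N) (hkh : k * h ≤ N) (w : ZMod p → ℝ)
    (hw : ∀ t, 0 ≤ w t) (M : ℝ) (hM : ∀ t : ZMod p, ∑ i ∈ range N, w (t + (i : ZMod p)) ≤ M)
    (t : ZMod p) : wn N h w k t ≤ 2 * M := by
  have h1 : ∀ c : ZMod p, ∑ i ∈ range N, w (c - (i : ZMod p)) ≤ M := by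
    intro c
    refine le_trans (le_of_eq ?_) (hM (c - ((N - 1 : ℕ) : ZMod p)))
    rw [← Finset.sum_range_reflect]
    refine Finset.sum_congr rfl fun i hi => ?_
    have hi' := mem_range.1 hi
    congr 1
    have : ((N - 1 - i : ℕ) : ZMod p) = ((N - 1 : ℕ) : ZMod p) - (i : ZMod p) := by
      rw [Nat.cast_sub (by omega)]
    rw [this]
    ring
  unfold wn
  have hsub : ∑ i ∈ range (N + k * h), w (t + ((k * h : ℕ) : ZMod p) - (i : ZMod p)) ≤
      ∑ i ∈ range (N + N), w (t + ((k * h : ℕ) : ZMod p) - (i : ZMod p)) := by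
    refine Finset.sum_le_sum_of_subset_of_nonneg ?_ fun _ _ _ => hw _
    intro i hi
    have := mem_range.1 hi
    rw [mem_range]
    omega
  refine hsub.trans ?_
  rw [Finset.sum_range_add]
  have h2 : ∑ x ∈ range N, w (t + ((k * h : ℕ) : ZMod p) - ((N + x : ℕ) : ZMod p)) =
      ∑ x ∈ range N, w (t + ((k * h : ℕ) : ZMod p) - (N : ZMod p) - (x : ZMod p)) := by
    refine Finset.sum_congr rfl fun i _ => ?_
    congr 1
    push_cast
    ring
  rw [h2]
  have h3 := h1 (t + ((k * h : ℕ) : ZMod p))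
  have h4 := h1 (t + ((k * h : ℕ) : ZMod p) - (N : ZMod p))
  linarith

theorem wn_sum {p : ℕ} [NeZero p] (N h k : ℕ) (w : ZMod p → ℝ) :
    ∑ t, wn N h w k t = (N + k * h : ℕ) * ∑ t, w t := by
  unfold wn
  rw [Finset.sum_comm]
  have h1 : ∀ i ∈ range (N + k * h), ∑ t : ZMod p,
      w (t + ((k * h : ℕ) : ZMod p) - (i : ZMod p)) = ∑ t, w t := by
    intro i _
    rw [← Equiv.sum_comp (Equiv.addRight (((k * h : ℕ) : ZMod p) - (i : ZMod p))) w]
    refine Finset.sum_congr rfl fun t _ => ?_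
    simp only [Equiv.coe_addRight]
    congr 1
    ring
  rw [Finset.sum_congr rfl h1, Finset.sum_const, card_range, nsmul_eq_mul]

/-- the energy of the windows and small primes -/
theorem energyW {p : ℕ} [Fact p.Prime] (Y : Finset ℕ) (W : ℝ) (Y0 T r k h N : ℕ)
    (hW0 : 0 < W) (hW : 2 * (Y0 * W) < p) (hY : ∀ y ∈ Y, y.Prime) (hY0 : ∀ y ∈ Y, y ≤ Y0)
    (hYp : Y0 < p) (hT : ∀ y ∈ Y, T ≤ y) (hr : p < T ^ (r + 1)) (hh : 1 ≤ h)
    (hδ : (p : ℝ) * (p / (2 * W)) ^ k ≤ (h : ℝ) ^ k) (hN : 1 ≤ N) (hkh : k * h ≤ N)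
    (w : ZMod p → ℝ) (hw : ∀ t, 0 ≤ w t) (M : ℝ)
    (hM : ∀ t : ZMod p, ∑ i ∈ range N, w (t + (i : ZMod p)) ≤ M) :
    ∑ u : ZMod p, (∑ y ∈ Y, wn N h w 0 (u / (y : ZMod p))) ^ 2 ≤
      16 * ((Y.card : ℝ) ^ 2 * (N * ∑ t, w t) ^ 2 / p) +
        8 * (1 + r) * (Y.card * (M * (N * ∑ t, w t))) := by
  have hp : (0 : ℝ) < p := by exact_mod_cast (Fact.out : p.Prime).pos
  have h1 := energy Y W Y0 T r k h hW0 hW hY hY0 hYp hT hr hh hδ (wn N h w 0) (wn N h w k)
    (wn_nonneg N h w hw 0) (wn_nonneg N h w hw k) (wn_maj N h hh w hw k)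
  refine h1.trans ?_
  set S : ℝ := ∑ t, w t with hS
  have hS0 : 0 ≤ S := sum_nonneg fun t _ => hw t
  have hM0 : 0 ≤ M := le_trans (sum_nonneg fun _ _ => hw _) (hM 0)
  have hsum : ∑ t, wn N h w k t ≤ 2 * (N * S) := by
    rw [wn_sum, ← hS]
    have : ((N + k * h : ℕ) : ℝ) ≤ 2 * N := by
      have : N + k * h ≤ 2 * N := by omega
      exact_mod_cast this
    nlinarith
  have hsum0 : 0 ≤ ∑ t, wn N h w k t := sum_nonneg fun t _ => wn_nonneg N h w hw k t
  have hsq : ∑ t, wn N h w k t ^ 2 ≤ 4 * (M * (N * S)) := by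
    calc ∑ t, wn N h w k t ^ 2 ≤ ∑ t, 2 * M * wn N h w k t := by
          refine Finset.sum_le_sum fun t _ => ?_
          rw [sq]
          exact mul_le_mul_of_nonneg_right (wn_le N h k hN hkh w hw M hM t)
            (wn_nonneg N h w hw k t)
      _ = 2 * M * ∑ t, wn N h w k t := by rw [Finset.mul_sum]
      _ ≤ 2 * M * (2 * (N * S)) := mul_le_mul_of_nonneg_left hsum (by positivity)
      _ = _ := by ring
  refine add_le_add ?_ ?_
  · have h2 : (∑ t, wn N h w k t) ^ 2 ≤ (2 * (N * S)) ^ 2 := pow_le_pow_left₀ hsum0 hsum 2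
    have h3 : (Y.card : ℝ) ^ 2 * (∑ t, wn N h w k t) ^ 2 / p ≤
        (Y.card : ℝ) ^ 2 * (2 * (N * S)) ^ 2 / p :=
      div_le_div_of_nonneg_right (mul_le_mul_of_nonneg_left h2 (by positivity)) hp.le
    calc _ ≤ 4 * ((Y.card : ℝ) ^ 2 * (2 * (N * S)) ^ 2 / p) := by linarith
      _ = _ := by ring
  · have h3 : (Y.card : ℝ) * ∑ t, wn N h w k t ^ 2 ≤ Y.card * (4 * (M * (N * S))) :=
      mul_le_mul_of_nonneg_left hsq (Nat.cast_nonneg _)
    calc _ ≤ 2 * (1 + (r : ℝ)) * (Y.card * (4 * (M * (N * S)))) :=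
          mul_le_mul_of_nonneg_left h3 (by positivity)
      _ = _ := by ring

/-- quotients and products give the same energy -/
theorem energy_symm {p : ℕ} [Fact p.Prime] (Y : Finset ℕ) (hY : ∀ y ∈ Y, ((y : ℕ) : ZMod p) ≠ 0)
    (g : ZMod p → ℝ) :
    ∑ u : ZMod p, (∑ y ∈ Y, g (u * (y : ZMod p))) ^ 2 =
      ∑ u : ZMod p, (∑ y ∈ Y, g (u / (y : ZMod p))) ^ 2 := by
  have h1 : ∀ F : ℕ → ZMod p → ℝ, ∑ u : ZMod p, (∑ y ∈ Y, F y u) ^ 2 =
      ∑ x ∈ Y, ∑ y ∈ Y, ∑ u : ZMod p, F x u * F y u := by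
    intro F
    simp only [sq, Finset.sum_mul_sum]
    rw [Finset.sum_comm]
    refine Finset.sum_congr rfl fun x _ => ?_
    rw [Finset.sum_comm]
  rw [h1 (fun y u => g (u * (y : ZMod p))), h1 (fun y u => g (u / (y : ZMod p)))]
  rw [Finset.sum_comm]
  refine Finset.sum_congr rfl fun x hx => Finset.sum_congr rfl fun y hy => ?_
  have hx0 := hY x hx
  have hy0 := hY y hy
  rw [← Equiv.sum_comp (Equiv.mulRight₀ ((x : ZMod p) * (y : ZMod p)) (mul_ne_zero hx0 hy0))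
    (fun u => g (u / (x : ZMod p)) * g (u / (y : ZMod p)))]
  refine Finset.sum_congr rfl fun u _ => ?_
  show g (u * (y : ZMod p)) * g (u * (x : ZMod p)) =
    g (u * ((x : ZMod p) * (y : ZMod p)) / (x : ZMod p)) *
      g (u * ((x : ZMod p) * (y : ZMod p)) / (y : ZMod p))
  congr 2
  · field_simp
  · field_simp

end Pool.Agent.H58BU
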