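import Pool.Agent.H58BU.B
import Pool.Agent.H435R3.Paley.All

/-! # The amplification: shifts by `n + x y` -/

set_option autoImplicit false

namespace Pool.Agent.H58BU

open Finset Pool.Agent.TH7.PG Pool.Agent.H435R3.Paley

theorem shift_step {p : ℕ} (B : Finset (ZMod p)) (F : ZMod p → ℂ) (hF : ∀ x, ‖F x‖ ≤ 1)
    (s : ZMod p) :
    ‖∑ b ∈ B, F b - ∑ b ∈ B, F (b + s)‖ ≤ 2 * (((B.image fun b => b + s) \ B).card : ℝ) := by
  have h1 : ∑ b ∈ B, F (b + s) = ∑ x ∈ B.image (fun b => b + s), F x := by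
    rw [Finset.sum_image (fun a _ b _ hab => by simpa using hab)]
  rw [h1, ← Finset.sum_sdiff_sub_sum_sdiff]
  have hc : (B \ (B.image fun b => b + s)).card = ((B.image fun b => b + s) \ B).card :=
    Finset.card_sdiff_comm (Finset.card_image_of_injective _ (add_left_injective s)).symm
  have hb : ∀ S : Finset (ZMod p), ‖∑ x ∈ S, F x‖ ≤ S.card := by
    intro S
    refine (norm_sum_le _ _).trans ?_
    refine (Finset.sum_le_card_nsmul _ _ 1 fun x _ => hF x).trans ?_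
    simp
  refine (norm_sub_le _ _).trans ?_
  have h2 := hb (B \ (B.image fun b => b + s))
  have h3 := hb ((B.image fun b => b + s) \ B)
  rw [hc] at h2
  linarith

theorem shift_many {p : ℕ} (B : Finset (ZMod p)) (F : ZMod p → ℂ) (hF : ∀ x, ‖F x‖ ≤ 1)
    (m : ℕ) :
    ‖∑ b ∈ B, F b - ∑ b ∈ B, F (b + (m : ZMod p))‖ ≤
      2 * m * (((B.image fun b => b + 1) \ B).card : ℝ) := by
  induction m with
  | zero => simp
  | succ m ih =>
    have h1 := shift_step B (fun x => F (x + (m : ZMod p))) (fun x => hF _) 1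
    have e1 : ∑ b ∈ B, F (b + ((m + 1 : ℕ) : ZMod p)) =
        ∑ b ∈ B, F (b + 1 + (m : ZMod p)) := by
      refine Finset.sum_congr rfl fun b _ => ?_
      congr 1
      push_cast
      ring
    rw [e1]
    calc _ = ‖(∑ b ∈ B, F b - ∑ b ∈ B, F (b + (m : ZMod p))) +
          (∑ b ∈ B, F (b + (m : ZMod p)) - ∑ b ∈ B, F (b + 1 + (m : ZMod p)))‖ := by
          congr 1
          ring
      _ ≤ _ := norm_add_le _ _
      _ ≤ 2 * m * (((B.image fun b => b + 1) \ B).card : ℝ) +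
          2 * (((B.image fun b => b + 1) \ B).card : ℝ) := add_le_add ih h1
      _ = _ := by
          push_cast
          ring

/-- the number of representations as a sum -/
noncomputable def rp {p : ℕ} (A B : Finset (ZMod p)) (s : ZMod p) : ℝ :=
  (((A ×ˢ B).filter fun x => x.1 + x.2 = s).card : ℝ)

theorem rp_nonneg {p : ℕ} (A B : Finset (ZMod p)) (s : ZMod p) : 0 ≤ rp A B s :=
  Nat.cast_nonneg _

theorem sum_rp {p : ℕ} [NeZero p] (A B : Finset (ZMod p)) (H : ZMod p → ℝ) :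
    ∑ a ∈ A, ∑ b ∈ B, H (a + b) = ∑ s, rp A B s * H s := by
  rw [← Finset.sum_product' A B (fun a b => H (a + b))]
  rw [← Finset.sum_fiberwise_of_maps_to (s := A ×ˢ B) (t := (univ : Finset (ZMod p)))
    (g := fun w : ZMod p × ZMod p => w.1 + w.2) (fun _ _ => mem_univ _)]
  refine Finset.sum_congr rfl fun s _ => ?_
  unfold rp
  rw [← nsmul_eq_mul, ← Finset.sum_const]
  refine Finset.sum_congr rfl fun w hw => ?_
  rw [(mem_filter.1 hw).2]

theorem sum_rp_one {p : ℕ} [NeZero p] (A B : Finset (ZMod p)) :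
    ∑ s, rp A B s = A.card * B.card := by
  have := sum_rp A B (fun _ => 1)
  simp only [mul_one] at this
  rw [← this]
  simp

theorem main_ineq {p : ℕ} [Fact p.Prime] (χ : DirichletCharacter ℂ p) (A B : Finset (ZMod p))
    (N L Y0 h : ℕ) (Y : Finset ℕ) (hY : ∀ y ∈ Y, ((y : ℕ) : ZMod p) ≠ 0)
    (hY0 : ∀ y ∈ Y, y ≤ Y0) :
    (N * Y.card * L : ℝ) * ∑ a ∈ A, ‖∑ b ∈ B, χ (a + b)‖ ≤
      (N * Y.card * L : ℝ) * (2 * (N + Y0 * L) * (((B.image fun b => b + 1) \ B).card : ℝ) *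
        A.card) +
      ∑ u : ZMod p, (∑ y ∈ Y, wn N h (rp A B) 0 (u * (y : ZMod p))) *
        ‖∑ l ∈ range L, χ (u + (l : ZMod p))‖ := by
  set D : ℝ := (((B.image fun b => b + 1) \ B).card : ℝ) with hD
  have hD0 : 0 ≤ D := Nat.cast_nonneg _
  set H : ZMod p → ℝ := fun u => ‖∑ l ∈ range L, χ (u + (l : ZMod p))‖ with hH
  -- one pair `n, x`
  have h1 : ∀ a ∈ A, ∀ n ∈ range N, ∀ x ∈ Y, (L : ℝ) * ‖∑ b ∈ B, χ (a + b)‖ ≤
      L * (2 * (N + Y0 * L) * D) + ∑ b ∈ B, H ((a + b + (n : ZMod p)) / (x : ZMod p)) := by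
    intro a _ n hn x hx
    have hn' := mem_range.1 hn
    have hx0 := hY x hx
    have e1 : (L : ℝ) * ‖∑ b ∈ B, χ (a + b)‖ = ‖∑ _l ∈ range L, ∑ b ∈ B, χ (a + b)‖ := by
      rw [Finset.sum_const, card_range, nsmul_eq_mul, norm_mul, Complex.norm_natCast]
    have e2 : ∑ _l ∈ range L, ∑ b ∈ B, χ (a + b) =
        ∑ l ∈ range L, (∑ b ∈ B, χ (a + b) -
          ∑ b ∈ B, χ (a + (b + ((n + x * l : ℕ) : ZMod p)))) +
        ∑ b ∈ B, ∑ l ∈ range L, χ (a + (b + ((n + x * l : ℕ) : ZMod p))) := by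
      rw [Finset.sum_comm (s := B), ← Finset.sum_add_distrib]
      refine Finset.sum_congr rfl fun l _ => ?_
      ring
    rw [e1, e2]
    refine (norm_add_le _ _).trans (add_le_add ?_ ?_)
    · refine (norm_sum_le _ _).trans ?_
      have h2 : ∀ l ∈ range L, ‖∑ b ∈ B, χ (a + b) -
          ∑ b ∈ B, χ (a + (b + ((n + x * l : ℕ) : ZMod p)))‖ ≤ 2 * (N + Y0 * L) * D := by
        intro l hl
        have hl' := mem_range.1 hl
        refine (shift_many B (fun y => χ (a + y)) (fun y => χ.norm_le_one _) (n + x * l)).trans ?_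
        refine mul_le_mul_of_nonneg_right ?_ hD0
        have : n + x * l ≤ N + Y0 * L :=
          Nat.add_le_add hn'.le (Nat.mul_le_mul (hY0 x hx) hl'.le)
        have : ((n + x * l : ℕ) : ℝ) ≤ N + Y0 * L := by exact_mod_cast this
        linarith
      refine (Finset.sum_le_card_nsmul _ _ _ h2).trans ?_
      rw [card_range, nsmul_eq_mul]
    · refine (norm_sum_le _ _).trans (Finset.sum_le_sum fun b _ => ?_)
      rw [hH]
      simp only
      have e3 : ∑ l ∈ range L, χ (a + (b + ((n + x * l : ℕ) : ZMod p))) =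
          χ (x : ZMod p) * ∑ l ∈ range L, χ ((a + b + (n : ZMod p)) / (x : ZMod p) +
            (l : ZMod p)) := by
        rw [Finset.mul_sum]
        refine Finset.sum_congr rfl fun l _ => ?_
        rw [← map_mul]
        congr 1
        push_cast
        field_simp
        ring
      rw [e3, norm_mul]
      exact mul_le_of_le_one_left (norm_nonneg _) (χ.norm_le_one _)
  -- sum over `n`, `x`
  have h2 : ∀ a ∈ A, (N * Y.card * L : ℝ) * ‖∑ b ∈ B, χ (a + b)‖ ≤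
      (N * Y.card * L : ℝ) * (2 * (N + Y0 * L) * D) +
        ∑ n ∈ range N, ∑ x ∈ Y, ∑ b ∈ B, H ((a + b + (n : ZMod p)) / (x : ZMod p)) := by
    intro a ha
    have h3 : ∑ n ∈ range N, ∑ x ∈ Y, (L : ℝ) * ‖∑ b ∈ B, χ (a + b)‖ ≤
        ∑ n ∈ range N, ∑ x ∈ Y, (L * (2 * (N + Y0 * L) * D) +
          ∑ b ∈ B, H ((a + b + (n : ZMod p)) / (x : ZMod p))) :=
      Finset.sum_le_sum fun n hn => Finset.sum_le_sum fun x hx => h1 a ha n hn x hx
    simp only [Finset.sum_add_distrib, Finset.sum_const, card_range, nsmul_eq_mul] at h3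
    calc _ = (N : ℝ) * (Y.card * (L * ‖∑ b ∈ B, χ (a + b)‖)) := by ring
      _ ≤ _ := h3
      _ = _ := by ring
  rw [Finset.mul_sum]
  refine (Finset.sum_le_sum h2).trans ?_
  rw [Finset.sum_add_distrib, Finset.sum_const, nsmul_eq_mul]
  refine add_le_add (le_of_eq (by ring)) (le_of_eq ?_)
  -- rearrange
  have h4 : ∑ a ∈ A, ∑ n ∈ range N, ∑ x ∈ Y, ∑ b ∈ B, H ((a + b + (n : ZMod p)) / (x : ZMod p)) =
      ∑ x ∈ Y, ∑ n ∈ range N, ∑ a ∈ A, ∑ b ∈ B, H ((a + b + (n : ZMod p)) / (x : ZMod p)) := by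
    rw [Finset.sum_comm]
    rw [Finset.sum_congr rfl fun n _ => Finset.sum_comm, Finset.sum_comm]
  rw [h4]
  have h5 : ∑ u : ZMod p, (∑ y ∈ Y, wn N h (rp A B) 0 (u * (y : ZMod p))) * H u =
      ∑ x ∈ Y, ∑ u : ZMod p, wn N h (rp A B) 0 (u * (x : ZMod p)) * H u := by
    rw [Finset.sum_comm]
    refine Finset.sum_congr rfl fun u _ => ?_
    rw [Finset.sum_mul]
  show _ = ∑ u : ZMod p, (∑ y ∈ Y, wn N h (rp A B) 0 (u * (y : ZMod p))) * H u
  rw [h5]
  refine Finset.sum_congr rfl fun x hx => ?_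
  have hx0 := hY x hx
  rw [← Equiv.sum_comp (Equiv.mulRight₀ ((x : ZMod p))⁻¹ (inv_ne_zero hx0))
    (fun u => wn N h (rp A B) 0 (u * (x : ZMod p)) * H u)]
  have h6 : ∀ n ∈ range N, ∑ a ∈ A, ∑ b ∈ B, H ((a + b + (n : ZMod p)) / (x : ZMod p)) =
      ∑ t : ZMod p, rp A B (t - (n : ZMod p)) * H (t / (x : ZMod p)) := by
    intro n _
    rw [sum_rp A B (fun s => H ((s + (n : ZMod p)) / (x : ZMod p)))]
    rw [← Equiv.sum_comp (Equiv.addRight (n : ZMod p))
      (fun t => rp A B (t - (n : ZMod p)) * H (t / (x : ZMod p)))]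
    refine Finset.sum_congr rfl fun s _ => ?_
    simp only [Equiv.coe_addRight, add_sub_cancel_right]
  rw [Finset.sum_congr rfl h6, Finset.sum_comm]
  refine Finset.sum_congr rfl fun t _ => ?_
  show _ = wn N h (rp A B) 0 (t * ((x : ZMod p))⁻¹ * (x : ZMod p)) * H (t * ((x : ZMod p))⁻¹)
  rw [inv_mul_cancel_right₀ hx0, wn_zero, Finset.sum_mul, div_eq_mul_inv]

/-- the number of representations for a family of pairs of sets -/
noncomputable def rpF {p : ℕ} [NeZero p] (A B : ZMod p → Finset (ZMod p)) (s : ZMod p) : ℝ :=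
  ∑ z : ZMod p, rp (A z) (B z) s

theorem rpF_nonneg {p : ℕ} [NeZero p] (A B : ZMod p → Finset (ZMod p)) (s : ZMod p) :
    0 ≤ rpF A B s := sum_nonneg fun z _ => rp_nonneg (A z) (B z) s

theorem sum_rpF {p : ℕ} [NeZero p] (A B : ZMod p → Finset (ZMod p)) :
    ∑ s, rpF A B s = ∑ z, ((A z).card : ℝ) * (B z).card := by
  unfold rpF
  rw [Finset.sum_comm]
  exact Finset.sum_congr rfl fun z _ => sum_rp_one (A z) (B z)

theorem wn_rpF {p : ℕ} [NeZero p] (N h : ℕ) (A B : ZMod p → Finset (ZMod p)) (t : ZMod p) :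
    wn N h (rpF A B) 0 t = ∑ z, wn N h (rp (A z) (B z)) 0 t := by
  unfold wn rpF
  rw [Finset.sum_comm]

theorem main_ineqF {p : ℕ} [Fact p.Prime] (χ : DirichletCharacter ℂ p)
    (A B : ZMod p → Finset (ZMod p))
    (N L Y0 h : ℕ) (Y : Finset ℕ) (hY : ∀ y ∈ Y, ((y : ℕ) : ZMod p) ≠ 0)
    (hY0 : ∀ y ∈ Y, y ≤ Y0) :
    (N * Y.card * L : ℝ) * ∑ z, ∑ a ∈ A z, ‖∑ b ∈ B z, χ (a + b)‖ ≤
      (N * Y.card * L : ℝ) * (2 * (N + Y0 * L) *
        ∑ z, (((A z).card : ℝ) * (((B z).image fun b => b + 1) \ B z).card)) +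
      ∑ u : ZMod p, (∑ y ∈ Y, wn N h (rpF A B) 0 (u * (y : ZMod p))) *
        ‖∑ l ∈ range L, χ (u + (l : ZMod p))‖ := by
  have h1 : ∀ z : ZMod p, _ := fun z => main_ineq χ (A z) (B z) N L Y0 h Y hY hY0
  have h2 := Finset.sum_le_sum fun z (_ : z ∈ (univ : Finset (ZMod p))) => h1 z
  rw [← Finset.mul_sum, Finset.sum_add_distrib] at h2
  refine h2.trans (add_le_add (le_of_eq ?_) (le_of_eq ?_))
  · rw [Finset.mul_sum, Finset.mul_sum]
    refine Finset.sum_congr rfl fun z _ => ?_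
    ring
  · rw [Finset.sum_comm]
    refine Finset.sum_congr rfl fun u _ => ?_
    rw [← Finset.sum_mul]
    congr 1
    rw [Finset.sum_comm]
    refine Finset.sum_congr rfl fun y _ => ?_
    rw [wn_rpF]

end Pool.Agent.H58BU
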