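import Pool.Agent.H58BU.C

/-! # Power saving for difference `1` -/

set_option autoImplicit false

namespace Pool.Agent.H58BU

open Finset Pool.Agent.TH7.PG Pool.Agent.H435R3.Paley Pool.Agent.H471R4.BW

/-- the moment of a short interval -/
theorem moment {p : ℕ} [Fact p.Prime] (χ : DirichletCharacter ℂ p) (hχ : χ ≠ 1) (k L : ℕ)
    (hk : 1 ≤ k) (hLp : L ≤ p) (hL : (p : ℝ) ≤ (L : ℝ) ^ k) :
    ∑ u : ZMod p, ‖∑ l ∈ range L, χ (u + (l : ZMod p))‖ ^ (2 * k) ≤
      ((k : ℝ) ^ (2 * k) + 2 * k) * ((L : ℝ) ^ (2 * k) * Real.sqrt p) := by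
  have hp1 : (1 : ℝ) ≤ p := by exact_mod_cast (Fact.out : p.Prime).one_lt.le
  have hp0 : (0 : ℝ) < p := by linarith
  have h := momF χ k (2 * k) hk (by positivity) ((range L).image fun l : ℕ => (l : ZMod p))
    (good_all p χ hχ k hk)
  have hinj : ∀ a ∈ range L, ∀ b ∈ range L, ((a : ℕ) : ZMod p) = (b : ZMod p) → a = b := by
    intro a ha b hb hab
    have ha' := mem_range.1 ha
    have hb' := mem_range.1 hb
    have := (ZMod.natCast_eq_natCast_iff' a b p).1 hab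
    rwa [Nat.mod_eq_of_lt (by omega), Nat.mod_eq_of_lt (by omega)] at this
  rw [Finset.card_image_of_injOn (fun a ha b hb hab => hinj a ha b hb hab), card_range] at h
  have e1 : ∀ u : ZMod p, ∑ b ∈ (range L).image (fun l : ℕ => (l : ZMod p)), χ (u + b) =
      ∑ l ∈ range L, χ (u + (l : ZMod p)) := by
    intro u
    rw [Finset.sum_image hinj]
  simp only [e1] at h
  refine h.trans ?_
  have hs : Real.sqrt p ≤ p := by
    rw [Real.sqrt_le_left hp0.le]
    nlinarith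
  have hss : Real.sqrt p * Real.sqrt p = p := Real.mul_self_sqrt hp0.le
  have hs0 : 0 ≤ Real.sqrt p := Real.sqrt_nonneg _
  have h1 : (L : ℝ) ^ k * p ≤ (L : ℝ) ^ (2 * k) * Real.sqrt p := by
    calc (L : ℝ) ^ k * p = (L : ℝ) ^ k * Real.sqrt p * Real.sqrt p := by rw [mul_assoc, hss]
      _ ≤ (L : ℝ) ^ k * (L : ℝ) ^ k * Real.sqrt p := by
          refine mul_le_mul_of_nonneg_right ?_ hs0
          exact mul_le_mul_of_nonneg_left (hs.trans hL) (by positivity)
      _ = _ := by rw [two_mul, pow_add]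
  calc (k : ℝ) ^ (2 * k) * (L : ℝ) ^ k * p + 2 * k * (L : ℝ) ^ (2 * k) * Real.sqrt p
      = (k : ℝ) ^ (2 * k) * ((L : ℝ) ^ k * p) + 2 * k * ((L : ℝ) ^ (2 * k) * Real.sqrt p) := by
        ring
    _ ≤ (k : ℝ) ^ (2 * k) * ((L : ℝ) ^ (2 * k) * Real.sqrt p) +
        2 * k * ((L : ℝ) ^ (2 * k) * Real.sqrt p) :=
        add_le_add (mul_le_mul_of_nonneg_left h1 (by positivity)) le_rfl
    _ = _ := by ring

/-- the numerical part of the bound of the bilinear sum -/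
theorem num (P E HH C₁ L x b S Yc N₁ M N : ℝ) (k : ℕ) (hx : 1 ≤ x) (hb : 1 ≤ b)
    (hk : 1 ≤ k) (hP : P = Yc * (N₁ * S)) (hS : 0 < S) (hYc : 0 < Yc) (hN₁ : 0 < N₁)
    (hL : 0 ≤ L) (hC₁ : 0 ≤ C₁) (hM : M * Real.sqrt x ≤ N ^ 2 / b ^ 32 * S)
    (hYN : N ^ 2 ≤ 4 * b ^ 8 * (Yc * N₁)) (hxb : b ^ 16 ≤ Real.sqrt x)
    (hE : E ≤ 16 * (Yc ^ 2 * (N₁ * S) ^ 2 / x) + 8 * (1 + k) * (Yc * (M * (N₁ * S))))
    (hHH : HH ≤ C₁ * (L ^ (2 * k) * Real.sqrt x)) (hHH0 : 0 ≤ HH)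
    (hC₃ : 48 * (1 + k) * C₁ ≤ b ^ 8) :
    P ^ (2 * k - 2) * E * HH ≤ (P * L) ^ (2 * k) / b ^ 8 := by
  have hb0 : 0 < b := by linarith
  have hx0 : 0 < x := by linarith
  have hs0 : 0 < Real.sqrt x := Real.sqrt_pos.2 hx0
  have hss : Real.sqrt x * Real.sqrt x = x := Real.mul_self_sqrt hx0.le
  have hP0 : 0 < P := by rw [hP]; positivity
  have hk0 : (1 : ℝ) ≤ k := by exact_mod_cast hk
  -- `E √x`
  have h1 : Yc ^ 2 * (N₁ * S) ^ 2 / x * Real.sqrt x ≤ P ^ 2 / b ^ 16 := by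
    have e1 : Yc ^ 2 * (N₁ * S) ^ 2 / x * Real.sqrt x = P ^ 2 / Real.sqrt x := by
      rw [hP, div_mul_eq_mul_div, div_eq_div_iff hx0.ne' hs0.ne', mul_assoc, hss]
      ring
    rw [e1]
    exact div_le_div_of_nonneg_left (by positivity) (by positivity) hxb
  have h2 : Yc * (M * (N₁ * S)) * Real.sqrt x ≤ 4 * P ^ 2 / b ^ 16 := by
    calc Yc * (M * (N₁ * S)) * Real.sqrt x = (M * Real.sqrt x) * (Yc * (N₁ * S)) := by ring
      _ ≤ (N ^ 2 / b ^ 32 * S) * (Yc * (N₁ * S)) :=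
          mul_le_mul_of_nonneg_right hM (by positivity)
      _ ≤ (4 * b ^ 8 * (Yc * N₁) / b ^ 32 * S) * (Yc * (N₁ * S)) := by
          refine mul_le_mul_of_nonneg_right (mul_le_mul_of_nonneg_right ?_ hS.le) (by positivity)
          exact div_le_div_of_nonneg_right hYN (by positivity)
      _ = 4 * P ^ 2 / b ^ 24 := by
          rw [hP]
          field_simp
      _ ≤ 4 * P ^ 2 / b ^ 16 :=
          div_le_div_of_nonneg_left (by positivity) (by positivity)
            (pow_le_pow_right₀ hb (by norm_num))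
  have h3 : E * Real.sqrt x ≤ 48 * (1 + k) * (P ^ 2 / b ^ 16) := by
    calc E * Real.sqrt x ≤ (16 * (Yc ^ 2 * (N₁ * S) ^ 2 / x) +
          8 * (1 + k) * (Yc * (M * (N₁ * S)))) * Real.sqrt x :=
          mul_le_mul_of_nonneg_right hE hs0.le
      _ = 16 * (Yc ^ 2 * (N₁ * S) ^ 2 / x * Real.sqrt x) +
          8 * (1 + k) * (Yc * (M * (N₁ * S)) * Real.sqrt x) := by ring
      _ ≤ 16 * (P ^ 2 / b ^ 16) + 8 * (1 + k) * (4 * P ^ 2 / b ^ 16) := by
          refine add_le_add (mul_le_mul_of_nonneg_left h1 (by norm_num))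
            (mul_le_mul_of_nonneg_left h2 (by positivity))
      _ = (16 + 32 * (1 + k)) * (P ^ 2 / b ^ 16) := by ring
      _ ≤ _ := by
          refine mul_le_mul_of_nonneg_right ?_ (by positivity)
          nlinarith
  have hPk : P ^ (2 * k) = P ^ (2 * k - 2) * P ^ 2 := by
    rw [← pow_add]
    congr 1
    omega
  by_cases hE0 : E ≤ 0
  · have : P ^ (2 * k - 2) * E * HH ≤ 0 :=
      mul_nonpos_of_nonpos_of_nonneg
        (mul_nonpos_of_nonneg_of_nonpos (by positivity) hE0) hHH0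
    exact this.trans (by positivity)
  push Not at hE0
  calc P ^ (2 * k - 2) * E * HH ≤ P ^ (2 * k - 2) * E * (C₁ * (L ^ (2 * k) * Real.sqrt x)) :=
        mul_le_mul_of_nonneg_left hHH (by positivity)
    _ = P ^ (2 * k - 2) * C₁ * L ^ (2 * k) * (E * Real.sqrt x) := by ring
    _ ≤ P ^ (2 * k - 2) * C₁ * L ^ (2 * k) * (48 * (1 + k) * (P ^ 2 / b ^ 16)) :=
        mul_le_mul_of_nonneg_left h3 (by positivity)
    _ = (48 * (1 + k) * C₁) * (P ^ (2 * k) * L ^ (2 * k) / b ^ 16) := by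
        rw [hPk]
        ring
    _ ≤ b ^ 8 * (P ^ (2 * k) * L ^ (2 * k) / b ^ 16) :=
        mul_le_mul_of_nonneg_right hC₃ (by positivity)
    _ = (P * L) ^ (2 * k) / b ^ 8 := by
        rw [mul_pow]
        field_simp

theorem zero_case {p : ℕ} [Fact p.Prime] (χ : DirichletCharacter ℂ p) (hχ : χ ≠ 1)
    (B : Finset (ZMod p)) (hB : (((B.image fun b => b + 1) \ B).card : ℝ) = 0) (a : ZMod p) :
    ∑ b ∈ B, χ (a + b) = 0 := by
  have h1 : ∀ m : ℕ, ∑ b ∈ B, χ (a + b) = ∑ b ∈ B, χ (a + (b + (m : ZMod p))) := by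
    intro m
    have := shift_many B (fun y => χ (a + y)) (fun y => χ.norm_le_one _) m
    rw [hB, mul_zero] at this
    exact sub_eq_zero.1 (norm_le_zero_iff.1 this)
  have hp0 : (p : ℂ) ≠ 0 := by exact_mod_cast (Fact.out : p.Prime).ne_zero
  have h2 : (p : ℂ) * ∑ b ∈ B, χ (a + b) = 0 := by
    calc (p : ℂ) * ∑ b ∈ B, χ (a + b) = ∑ _m : ZMod p, ∑ b ∈ B, χ (a + b) := by
          rw [Finset.sum_const, card_univ, ZMod.card, nsmul_eq_mul]
      _ = ∑ m : ZMod p, ∑ b ∈ B, χ (a + (b + m)) := by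
          refine Finset.sum_congr rfl fun m _ => ?_
          have := h1 m.val
          rw [ZMod.natCast_zmod_val] at this
          exact this
      _ = ∑ b ∈ B, ∑ m : ZMod p, χ (a + (b + m)) := Finset.sum_comm
      _ = ∑ b ∈ B, 0 := by
          refine Finset.sum_congr rfl fun b _ => ?_
          have := MulChar.sum_eq_zero_of_ne_one hχ
          rw [← Equiv.sum_comp (Equiv.addLeft (a + b))] at this
          rw [← this]
          refine Finset.sum_congr rfl fun m _ => ?_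
          congr 1
          simp only [Equiv.coe_addLeft]
          ring
      _ = 0 := by simp
  exact (mul_eq_zero.1 h2).resolve_left hp0

end Pool.Agent.H58BU
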