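import Pool.Agent.H58BU.D

/-! # Power saving: the choice of the parameters -/

set_option autoImplicit false

namespace Pool.Agent.H58BU

open Finset Pool.Agent.TH7.PG Pool.Agent.H435R3.Paley Pool.Agent.H471R4.BW

theorem floor_ge (t : ℝ) (ht : 2 ≤ t) : t / 2 ≤ (⌊t⌋₊ : ℝ) := by
  have := Nat.lt_floor_add_one t
  linarith

theorem main_fam (ε : ℝ) (hε : 0 < ε) (hε1 : ε ≤ 1) : ∃ τ : ℝ, 0 < τ ∧ ∃ p₀ : ℕ,
    ∀ (p : ℕ) [Fact p.Prime], p₀ ≤ p → ∀ χ : DirichletCharacter ℂ p, χ ≠ 1 →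
    ∀ (A B : ZMod p → Finset (ZMod p)) (N : ℕ), (p : ℝ) ^ ε ≤ N → N ≤ p →
      (N : ℝ) * (∑ z, (((A z).card : ℝ) * (((B z).image fun b => b + 1) \ B z).card)) ≤
        ∑ z, ((A z).card : ℝ) * (B z).card →
      (∀ t : ZMod p, ∑ i ∈ range N, rpF A B (t + (i : ZMod p)) ≤
        (N : ℝ) ^ 2 / (p : ℝ) ^ (1 / 2 + ε) * ∑ z, ((A z).card : ℝ) * (B z).card) →
      ∑ z, ∑ a ∈ A z, ‖∑ b ∈ B z, χ (a + b)‖ ≤
        (p : ℝ) ^ (-τ) * ∑ z, ((A z).card : ℝ) * (B z).card := by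
  set κ : ℝ := ε / 16 with hκ
  have hκ0 : 0 < κ := by positivity
  have hκ1 : κ ≤ 1 / 16 := by rw [hκ]; linarith
  set k : ℕ := ⌈4 / κ⌉₊ with hk
  have hk4 : 4 ≤ κ * k := by
    have h1 : 4 / κ ≤ k := Nat.le_ceil _
    rw [div_le_iff₀ hκ0] at h1
    linarith
  have hk64 : (64 : ℝ) ≤ k := by
    have : 4 / κ ≤ k := Nat.le_ceil _
    refine le_trans ?_ this
    rw [le_div_iff₀ hκ0]
    linarith
  have hk1 : 1 ≤ k := by
    have : (1 : ℝ) ≤ k := by linarith
    exact_mod_cast this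
  have hkpos : (0 : ℝ) < k := by linarith
  set C₁ : ℝ := (k : ℝ) ^ (2 * k) + 2 * k with hC₁
  have hC₁0 : 0 ≤ C₁ := by positivity
  obtain ⟨p₁, hp₁⟩ := primes_many κ hκ0
  obtain ⟨p₂, hp₂⟩ := large (16 * k) (κ / 2) (by positivity)
  obtain ⟨p₃, hp₃⟩ := large (48 * (1 + k) * C₁) (4 * κ) (by positivity)
  obtain ⟨p₄, hp₄⟩ := large 5 (κ / k) (by positivity)
  refine ⟨κ / k, by positivity, max (max p₁ p₂) (max p₃ p₄), ?_⟩
  intro p hpf hp χ hχ A B N hN hNp hBr hwin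
  have hp1 := hp₁ p (((le_max_left _ _).trans (le_max_left _ _)).trans hp)
  have hp2 := hp₂ p (((le_max_right _ _).trans (le_max_left _ _)).trans hp)
  have hp3 := hp₃ p (((le_max_left _ _).trans (le_max_right _ _)).trans hp)
  have hp4 := hp₄ p (((le_max_right _ _).trans (le_max_right _ _)).trans hp)
  have hpprime : p.Prime := Fact.out
  have hx2 : (2 : ℝ) ≤ p := by exact_mod_cast hpprime.two_le
  set x : ℝ := (p : ℝ) with hx
  have hx1 : 1 ≤ x := by linarith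
  have hx0 : 0 < x := by linarith
  -- trivial cases
  obtain ⟨S, hS⟩ : ∃ S : ℝ, S = ∑ z, ((A z).card : ℝ) * (B z).card := ⟨_, rfl⟩
  rw [← hS] at hBr ⊢
  simp only [← hS] at hwin
  have hS00 : 0 ≤ S := by
    rw [hS]
    exact sum_nonneg fun z _ => by positivity
  have hle : ∑ z, ∑ a ∈ A z, ‖∑ b ∈ B z, χ (a + b)‖ ≤ S := by
    rw [hS]
    refine Finset.sum_le_sum fun z _ => ?_
    calc ∑ a ∈ A z, ‖∑ b ∈ B z, χ (a + b)‖ ≤ ∑ _a ∈ A z, ((B z).card : ℝ) := by
          refine Finset.sum_le_sum fun a _ => ?_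
          refine (norm_sum_le _ _).trans ?_
          refine (Finset.sum_le_card_nsmul _ _ 1 fun x _ => χ.norm_le_one _).trans ?_
          simp
      _ = _ := by rw [Finset.sum_const, nsmul_eq_mul]
  by_cases hS0 : S = 0
  · rw [hS0, mul_zero]
    rw [hS0] at hle
    exact hle
  have hSpos : 0 < S := lt_of_le_of_ne hS00 (Ne.symm hS0)
  obtain ⟨D, hD⟩ : ∃ D : ℝ, D = ∑ z, (((A z).card : ℝ) *
    (((B z).image fun b => b + 1) \ B z).card) := ⟨_, rfl⟩
  rw [← hD] at hBr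
  -- the basic unit
  set b : ℝ := x ^ (κ / 2) with hb
  have hb16 : 16 * (k : ℝ) ≤ b := hp2
  have hb1 : 1 ≤ b := by linarith
  have hb0 : 0 < b := by linarith
  have hbpow : ∀ n : ℕ, b ^ n = x ^ (κ / 2 * n) := by
    intro n
    rw [hb, ← Real.rpow_natCast, ← Real.rpow_mul hx0.le]
  have hb2 : b ^ 2 = x ^ κ := by
    rw [hbpow]
    congr 1
    push_cast
    ring
  have hb32 : b ^ 32 = x ^ ε := by
    rw [hbpow]
    congr 1
    rw [hκ]
    push_cast
    ring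
  have hNb : b ^ 32 ≤ (N : ℝ) := by rw [hb32]; exact hN
  have hN0 : (0 : ℝ) < N := lt_of_lt_of_le (by positivity) hNb
  have hbk : x ^ (2 : ℝ) ≤ b ^ k := by
    rw [hbpow]
    refine Real.rpow_le_rpow_of_exponent_le hx1 ?_
    have : κ / 2 * k = κ * k / 2 := by ring
    linarith
  have hbkx : x ≤ b ^ k := by
    refine le_trans ?_ hbk
    rw [Real.rpow_two]
    exact le_self_pow₀ hx1 (by norm_num)
  have hxb : b ^ 16 ≤ Real.sqrt x := by
    rw [hbpow, Real.sqrt_eq_rpow]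
    refine Real.rpow_le_rpow_of_exponent_le hx1 ?_
    push_cast
    linarith
  -- the parameters
  set N₁ : ℕ := ⌊(N : ℝ) / b ^ 2⌋₊ with hN₁
  set Y0 : ℕ := ⌊(N : ℝ) / b ^ 4⌋₊ with hY0
  set L : ℕ := ⌊b⌋₊ with hL
  have hbig : ∀ j : ℕ, j ≤ 31 → b * b ^ 0 ≤ (N : ℝ) / b ^ j := by
    intro j hj
    rw [le_div_iff₀ (by positivity), pow_zero, mul_one]
    calc b * b ^ j = b ^ (j + 1) := by ring
      _ ≤ b ^ 32 := pow_le_pow_right₀ hb1 (by omega)
      _ ≤ N := hNb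
  have hN₁le : (N₁ : ℝ) ≤ N / b ^ 2 := Nat.floor_le (by positivity)
  have hN₁ge : (N : ℝ) / b ^ 2 / 2 ≤ N₁ := floor_ge _ (by
    have := hbig 2 (by norm_num)
    rw [pow_zero, mul_one] at this
    linarith)
  have hY0le : (Y0 : ℝ) ≤ N / b ^ 4 := Nat.floor_le (by positivity)
  have hY0ge : (N : ℝ) / b ^ 4 / 2 ≤ Y0 := floor_ge _ (by
    have := hbig 4 (by norm_num)
    rw [pow_zero, mul_one] at this
    linarith)
  have hLle : (L : ℝ) ≤ b := Nat.floor_le hb0.le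
  have hLge : b / 2 ≤ L := floor_ge _ (by linarith)
  have hN₁b : b ≤ (N : ℝ) / b ^ 2 := by
    have := hbig 2 (by norm_num)
    rwa [pow_zero, mul_one] at this
  have hN₁2k : 2 * (k : ℝ) ≤ N₁ := by linarith
  have hN₁pos : (0 : ℝ) < N₁ := by linarith
  have hN₁1 : 1 ≤ N₁ := by exact_mod_cast (show (1 : ℝ) ≤ N₁ by linarith)
  have hY0b : b ^ 6 ≤ Y0 := by
    refine le_trans ?_ hY0ge
    rw [le_div_iff₀ (by norm_num), le_div_iff₀ (by positivity)]
    calc b ^ 6 * 2 * b ^ 4 = 2 * b ^ 10 := by ring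
      _ ≤ b * b ^ 10 := mul_le_mul_of_nonneg_right (by linarith) (by positivity)
      _ = b ^ 11 := by ring
      _ ≤ b ^ 32 := pow_le_pow_right₀ hb1 (by norm_num)
      _ ≤ N := hNb
  have hY0pos : (0 : ℝ) < Y0 := lt_of_lt_of_le (by positivity) hY0b
  have hY0N : (Y0 : ℝ) < N := by
    refine lt_of_le_of_lt hY0le ?_
    rw [div_lt_iff₀ (by positivity)]
    have : (1 : ℝ) < b ^ 4 := one_lt_pow₀ (by linarith) (by norm_num)
    exact lt_mul_of_one_lt_right hN0 this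
  have hY0p : Y0 < p := lt_of_lt_of_le (by exact_mod_cast hY0N) hNp
  obtain ⟨Y, hY, hYc⟩ := hp1 Y0 hY0p.le (by
    have : x ^ (3 * κ) = b ^ 6 := by
      rw [hbpow]
      congr 1
      push_cast
      ring
    rw [this]
    exact hY0b)
  have hYc' : (Y0 : ℝ) / b ^ 2 ≤ Y.card := by
    have e : x ^ (-κ) = (b ^ 2)⁻¹ := by rw [hb2, Real.rpow_neg hx0.le]
    rw [e] at hYc
    rw [div_eq_mul_inv]
    exact hYc
  have hYpos : (0 : ℝ) < Y.card := lt_of_lt_of_le (by positivity) hYc'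
  have hYz : ∀ y ∈ Y, ((y : ℕ) : ZMod p) ≠ 0 := by
    intro y hy h
    rw [ZMod.natCast_eq_zero_iff] at h
    have := Nat.le_of_dvd (hY y hy).1.pos h
    have := (hY y hy).2.2
    omega
  set T : ℕ := ⌈x ^ κ⌉₊ with hT
  have hTk : p < T ^ (k + 1) := by
    have h1 : b ^ 2 ≤ T := by rw [hb2]; exact Nat.le_ceil _
    have h2 : x < (T : ℝ) ^ (k + 1) := by
      calc x ≤ b ^ k := hbkx
        _ < b ^ k * b ^ (k + 2) := by
            have h3 : (1 : ℝ) < b ^ (k + 2) := one_lt_pow₀ (by linarith) (by omega)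
            have h4 : 0 < b ^ k := by positivity
            exact lt_mul_of_one_lt_right h4 h3
        _ = (b ^ 2) ^ (k + 1) := by ring
        _ ≤ (T : ℝ) ^ (k + 1) := pow_le_pow_left₀ (by positivity) h1 _
    rw [hx] at h2
    exact_mod_cast h2
  -- the step of the convolution
  set h : ℕ := N₁ / k with hh
  have hkh : k * h ≤ N₁ := Nat.mul_div_le _ _
  have hhge : (N₁ : ℝ) / (2 * k) ≤ h := by
    have h1 : N₁ < k * (h + 1) := Nat.lt_mul_div_succ N₁ (by omega)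
    have h2 : (N₁ : ℝ) < k * (h + 1) := by exact_mod_cast h1
    rw [div_le_iff₀ (by positivity)]
    have e1 : (k : ℝ) * (h + 1) = k * h + k := by ring
    have e2 : (h : ℝ) * (2 * k) = 2 * (k * h) := by ring
    rw [e1] at h2
    rw [e2]
    linarith
  have hh1' : (1 : ℝ) ≤ h := by
    refine le_trans ?_ hhge
    rw [le_div_iff₀ (by positivity)]
    linarith
  have hh1 : 1 ≤ h := by exact_mod_cast hh1'
  set W : ℝ := x / (4 * Y0) with hW
  have hW0 : 0 < W := by positivity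
  have hWY : 2 * ((Y0 : ℝ) * W) < x := by
    have : 2 * ((Y0 : ℝ) * W) = x / 2 := by
      rw [hW]
      field_simp
      norm_num
    linarith
  have hδ : x * (x / (2 * W)) ^ k ≤ (h : ℝ) ^ k := by
    have e1 : x / (2 * W) = 2 * Y0 := by
      rw [hW]
      field_simp
      norm_num
    have h1 : b * (2 * Y0) ≤ h := by
      have h2 : (N : ℝ) / b ^ 2 / 2 / (2 * k) ≤ h :=
        le_trans (div_le_div_of_nonneg_right hN₁ge (by positivity)) hhge
      refine le_trans ?_ h2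
      calc b * (2 * Y0) ≤ b * (2 * (N / b ^ 4)) :=
            mul_le_mul_of_nonneg_left (by linarith) hb0.le
        _ = 2 * N / b ^ 3 := by
            field_simp
        _ ≤ _ := by
            rw [div_div, div_div, div_le_div_iff₀ (by positivity) (by positivity)]
            calc 2 * (N : ℝ) * (b ^ 2 * (2 * (2 * k))) = N * b ^ 2 * (8 * k) := by ring
              _ ≤ N * b ^ 2 * b := mul_le_mul_of_nonneg_left (by linarith) (by positivity)
              _ = N * b ^ 3 := by ring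
    rw [e1]
    calc x * (2 * (Y0 : ℝ)) ^ k ≤ b ^ k * (2 * (Y0 : ℝ)) ^ k :=
          mul_le_mul_of_nonneg_right hbkx (by positivity)
      _ = (b * (2 * Y0)) ^ k := (mul_pow _ _ _).symm
      _ ≤ _ := pow_le_pow_left₀ (by positivity) h1 k
  -- the window
  obtain ⟨M, hM⟩ : ∃ M : ℝ, M = (N : ℝ) ^ 2 / x ^ (1 / 2 + ε) * S := ⟨_, rfl⟩
  simp only [← hM] at hwin
  have hwin' : ∀ t : ZMod p, ∑ i ∈ range N₁, rpF A B (t + (i : ZMod p)) ≤ M := by
    intro t
    refine le_trans (Finset.sum_le_sum_of_subset_of_nonneg ?_ fun _ _ _ => rpF_nonneg _ _ _)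
      (hwin t)
    refine Finset.range_subset_range.2 ?_
    have h1 : (N₁ : ℝ) ≤ N := by
      refine hN₁le.trans (div_le_self hN0.le ?_)
      exact one_le_pow₀ hb1
    exact_mod_cast h1
  have hE := energyW Y W Y0 T k k h N₁ hW0 hWY (fun y hy => (hY y hy).1)
    (fun y hy => (hY y hy).2.2) hY0p (fun y hy => (hY y hy).2.1) hTk hh1 hδ hN₁1 hkh
    (rpF A B) (rpF_nonneg A B) M hwin'
  rw [sum_rpF, ← energy_symm Y hYz, ← hS] at hE
  set v : ZMod p → ℝ := fun u => ∑ y ∈ Y, wn N₁ h (rpF A B) 0 (u * (y : ZMod p)) with hv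
  set H : ZMod p → ℝ := fun u => ‖∑ l ∈ range L, χ (u + (l : ZMod p))‖ with hH
  have hv0 : ∀ u, 0 ≤ v u := fun u => sum_nonneg fun y _ => wn_nonneg _ _ _ (rpF_nonneg A B) _ _
  have hH0 : ∀ u, 0 ≤ H u := fun u => norm_nonneg _
  have hvsum : ∑ u, v u = Y.card * (N₁ * S) := by
    rw [hv, Finset.sum_comm]
    have h1 : ∀ y ∈ Y, ∑ u : ZMod p, wn N₁ h (rpF A B) 0 (u * (y : ZMod p)) = N₁ * S := by
      intro y hy
      have h2 := Equiv.sum_comp (Equiv.mulRight₀ (y : ZMod p) (hYz y hy)) (wn N₁ h (rpF A B) 0)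
      have h3 := wn_sum N₁ h 0 (rpF A B)
      rw [sum_rpF] at h3
      simp only [zero_mul, add_zero] at h3
      rw [← hS] at h3
      rw [← h3, ← h2]
      rfl
    rw [Finset.sum_congr rfl h1, Finset.sum_const, nsmul_eq_mul]
  have hhol := hol (ZMod p) k hk1 v H hv0 hH0
  rw [hvsum] at hhol
  have hLp : L ≤ p := by
    have h1 : (L : ℝ) ≤ x := by
      refine hLle.trans ?_
      calc b = x ^ (κ / 2) := rfl
        _ ≤ x ^ (1 : ℝ) := Real.rpow_le_rpow_of_exponent_le hx1 (by linarith)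
        _ = x := Real.rpow_one x
    rw [hx] at h1
    exact_mod_cast h1
  have hLk : x ≤ (L : ℝ) ^ k := by
    have h1 : b ≤ (b / 2) ^ 2 := by
      have h4 : (4 : ℝ) ≤ b := by linarith
      have e : (b / 2) ^ 2 = b * b / 4 := by ring
      have := mul_le_mul_of_nonneg_right h4 hb0.le
      rw [e]
      linarith
    have h2 : x ^ 2 ≤ ((b / 2) ^ k) ^ 2 := by
      calc x ^ 2 = x ^ (2 : ℝ) := (Real.rpow_two x).symm
        _ ≤ b ^ k := hbk
        _ ≤ ((b / 2) ^ 2) ^ k := pow_le_pow_left₀ hb0.le h1 k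
        _ = _ := by rw [← pow_mul, ← pow_mul, mul_comm]
    have h3 : x ≤ (b / 2) ^ k := by
      refine le_of_sq_le_sq ?_ (by positivity)
      exact h2
    exact h3.trans (pow_le_pow_left₀ (by positivity) hLge k)
  have hmom := moment χ hχ k L hk1 hLp hLk
  have hMs : M * Real.sqrt x ≤ (N : ℝ) ^ 2 / b ^ 32 * S := by
    have e1 : x ^ (1 / 2 + ε) = Real.sqrt x * b ^ 32 := by
      rw [Real.rpow_add hx0, hb32, Real.sqrt_eq_rpow]
    have hs0 : 0 < Real.sqrt x := Real.sqrt_pos.2 hx0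
    rw [hM, e1]
    refine le_of_eq ?_
    field_simp
  have hYN : (N : ℝ) ^ 2 ≤ 4 * b ^ 8 * (Y.card * N₁) := by
    have h1 : (N : ℝ) / b ^ 4 / 2 / b ^ 2 ≤ Y.card :=
      le_trans (div_le_div_of_nonneg_right hY0ge (by positivity)) hYc'
    calc (N : ℝ) ^ 2 = 4 * b ^ 8 * ((N / b ^ 4 / 2 / b ^ 2) * (N / b ^ 2 / 2)) := by
          field_simp
          norm_num
      _ ≤ 4 * b ^ 8 * (Y.card * N₁) := by
          refine mul_le_mul_of_nonneg_left ?_ (by positivity)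
          exact mul_le_mul h1 hN₁ge (by positivity) (by positivity)
  have hC₃ : 48 * (1 + (k : ℝ)) * C₁ ≤ b ^ 8 := by
    refine hp3.trans (le_of_eq ?_)
    rw [hbpow]
    congr 1
    push_cast
    ring
  have hnum := num (Y.card * (N₁ * S)) _ _ C₁ L x b S Y.card N₁ M N k hx1 hb1 hk1 rfl hSpos hYpos
    hN₁pos (Nat.cast_nonneg L) hC₁0 hMs hYN hxb hE hmom
    (sum_nonneg fun u _ => pow_nonneg (hH0 u) _) hC₃
  have hfin := hhol.trans hnum
  -- the root
  obtain ⟨P, hP⟩ : ∃ P : ℝ, P = Y.card * (N₁ * S) := ⟨_, rfl⟩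
  rw [← hP] at hfin
  have hP0 : 0 < P := by
    rw [hP]
    exact mul_pos hYpos (mul_pos hN₁pos hSpos)
  have hroot : ∑ u, v u * H u ≤ P * L * x ^ (-(2 * κ / k)) := by
    have hLpos : (0 : ℝ) ≤ L := Nat.cast_nonneg L
    have e1 : (P * L * x ^ (-(2 * κ / k))) ^ (2 * k) = (P * L) ^ (2 * k) / b ^ 8 := by
      rw [mul_pow, div_eq_mul_inv]
      congr 1
      rw [← Real.rpow_natCast, ← Real.rpow_mul hx0.le, hbpow, ← Real.rpow_neg hx0.le]
      congr 1
      push_cast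
      field_simp
      ring
    rw [← e1] at hfin
    exact le_of_pow_le_pow_left₀ (by omega) (by positivity) hfin
  -- conclusion
  have hmain := main_ineqF χ A B N₁ L Y0 h Y hYz (fun y hy => (hY y hy).2.2)
  have hLpos : (0 : ℝ) < L := by linarith
  obtain ⟨Q, hQ⟩ : ∃ Q : ℝ, Q = (N₁ : ℝ) * Y.card * L := ⟨_, rfl⟩
  rw [← hQ, ← hD] at hmain
  have hQ0 : 0 < Q := by
    rw [hQ]
    exact mul_pos (mul_pos hN₁pos hYpos) hLpos
  have hstep : Q * ∑ z, ∑ a ∈ A z, ‖∑ b ∈ B z, χ (a + b)‖ ≤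
      Q * (4 / b ^ 2 * S + S * x ^ (-(2 * κ / k))) := by
    refine hmain.trans ?_
    rw [mul_add Q (4 / b ^ 2 * S)]
    refine add_le_add ?_ ?_
    · refine mul_le_mul_of_nonneg_left ?_ hQ0.le
      have h1 : (N₁ : ℝ) + Y0 * L ≤ 2 * (N / b ^ 2) := by
        have h2 : (Y0 : ℝ) * L ≤ N / b ^ 4 * b :=
          mul_le_mul hY0le hLle (Nat.cast_nonneg _) (by positivity)
        have h3 : (N : ℝ) / b ^ 4 * b ≤ N / b ^ 2 := by
          rw [div_mul_eq_mul_div, div_le_div_iff₀ (by positivity) (by positivity)]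
          calc (N : ℝ) * b * b ^ 2 = N * b ^ 3 := by ring
            _ ≤ N * b ^ 4 := mul_le_mul_of_nonneg_left
                (pow_le_pow_right₀ hb1 (by norm_num)) hN0.le
        linarith
      have hDn : 0 ≤ D := by
        rw [hD]
        exact sum_nonneg fun z _ => by positivity
      calc 2 * ((N₁ : ℝ) + Y0 * L) * D ≤ 2 * (2 * (N / b ^ 2)) * D := by
            refine mul_le_mul_of_nonneg_right ?_ hDn
            linarith
        _ = 4 / b ^ 2 * (N * D) := by ring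
        _ ≤ 4 / b ^ 2 * S :=
            mul_le_mul_of_nonneg_left hBr (by positivity)
    · calc _ = ∑ u, v u * H u := rfl
        _ ≤ P * L * x ^ (-(2 * κ / k)) := hroot
        _ = _ := by
            rw [hP, hQ]
            ring
  have hstep2 := le_of_mul_le_mul_left hstep hQ0
  refine hstep2.trans ?_
  have hy : x ^ (-(2 * κ / k)) = x ^ (-(κ / k)) * x ^ (-(κ / k)) := by
    rw [← Real.rpow_add hx0]
    congr 1
    ring
  have hb2le : 4 / b ^ 2 ≤ 4 * x ^ (-(2 * κ / k)) := by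
    rw [div_eq_mul_inv, hb2, ← Real.rpow_neg hx0.le]
    refine mul_le_mul_of_nonneg_left ?_ (by norm_num)
    refine Real.rpow_le_rpow_of_exponent_le hx1 ?_
    rw [neg_le_neg_iff, div_le_iff₀ hkpos]
    have := mul_le_mul_of_nonneg_left (show (2 : ℝ) ≤ k by linarith) hκ0.le
    linarith
  have h5 : 5 * x ^ (-(κ / k)) ≤ 1 := by
    rw [Real.rpow_neg hx0.le, ← div_eq_mul_inv, div_le_one (by positivity)]
    exact hp4
  calc 4 / b ^ 2 * S + S * x ^ (-(2 * κ / k)) ≤ 5 * x ^ (-(2 * κ / k)) * S := by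
        have := mul_le_mul_of_nonneg_right hb2le hSpos.le
        linarith
    _ = (5 * x ^ (-(κ / k))) * (x ^ (-(κ / k)) * S) := by rw [hy]; ring
    _ ≤ 1 * (x ^ (-(κ / k)) * S) := mul_le_mul_of_nonneg_right h5 (by positivity)
    _ = _ := by rw [one_mul]

end Pool.Agent.H58BU
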