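import Pool.Agent.H58BU.E

/-! # Sets which are unions of progressions with arbitrary differences -/

set_option autoImplicit false

namespace Pool.Agent.H58BU

open Finset

open Classical in
/-- the elements of `B` with difference `z`, divided by `z` -/
noncomputable def Bz {p : ℕ} [Fact p.Prime] (B : Finset (ZMod p)) (ζ : ZMod p → ZMod p) (z : ZMod p) :
    Finset (ZMod p) :=
  (B.filter fun b => ζ b = z).image fun b => b / z

/-- the set `A` divided by `z` -/
noncomputable def Az {p : ℕ} [Fact p.Prime] (A : Finset (ZMod p)) (z : ZMod p) : Finset (ZMod p) :=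
  A.image fun a => a / z

theorem dinj {p : ℕ} [Fact p.Prime] {z : ZMod p} (hz : z ≠ 0) :
    Function.Injective fun b : ZMod p => b / z := fun _ _ h => (div_left_inj' hz).1 h

open Classical in
theorem Bz_zero {p : ℕ} [Fact p.Prime] (B : Finset (ZMod p)) (ζ : ZMod p → ZMod p) (hζ : ∀ b ∈ B, ζ b ≠ 0) :
    Bz B ζ 0 = ∅ := by
  unfold Bz
  rw [Finset.filter_false_of_mem hζ, Finset.image_empty]

open Classical in
theorem card_Bz {p : ℕ} [Fact p.Prime] (B : Finset (ZMod p)) (ζ : ZMod p → ZMod p)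
    (z : ZMod p) (hz : z ≠ 0) : (Bz B ζ z).card = (B.filter fun b => ζ b = z).card := by
  unfold Bz
  exact Finset.card_image_of_injective _ (dinj hz)

theorem card_Az {p : ℕ} [Fact p.Prime] (A : Finset (ZMod p)) (z : ZMod p) (hz : z ≠ 0) :
    (Az A z).card = A.card := by
  unfold Az
  exact Finset.card_image_of_injective _ (dinj hz)

open Classical in
theorem mass {p : ℕ} [Fact p.Prime] (A B : Finset (ZMod p)) (ζ : ZMod p → ZMod p)
    (hζ : ∀ b ∈ B, ζ b ≠ 0) :
    ∑ z, ((Az A z).card : ℝ) * (Bz B ζ z).card = A.card * B.card := by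
  have h1 : ∀ z : ZMod p, ((Az A z).card : ℝ) * (Bz B ζ z).card =
      A.card * ((B.filter fun b => ζ b = z).card : ℝ) := by
    intro z
    by_cases hz : z = 0
    · rw [hz, Bz_zero B ζ hζ, Finset.filter_false_of_mem hζ]
      simp
    · rw [card_Az A z hz, card_Bz B ζ z hz]
  rw [Finset.sum_congr rfl fun z _ => h1 z, ← Finset.mul_sum]
  congr 1
  have h2 := Finset.card_eq_sum_card_fiberwise (f := ζ) (s := B)
    (t := (univ : Finset (ZMod p))) (fun _ _ => mem_univ _)
  rw [h2]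
  push_cast
  rfl

open Classical in
theorem ends_le {p : ℕ} [Fact p.Prime] (A B : Finset (ZMod p)) (ζ : ZMod p → ZMod p)
    (hζ : ∀ b ∈ B, ζ b ≠ 0) :
    ∑ z, (((Az A z).card : ℝ) * (((Bz B ζ z).image fun b => b + 1) \ Bz B ζ z).card) ≤
      A.card * ((B.filter fun b => ¬(b + ζ b ∈ B ∧ ζ (b + ζ b) = ζ b)).card : ℝ) := by
  set En : Finset (ZMod p) := B.filter fun b => ¬(b + ζ b ∈ B ∧ ζ (b + ζ b) = ζ b) with hEn
  have h1 : ∀ z : ZMod p, ((Az A z).card : ℝ) *
      (((Bz B ζ z).image fun b => b + 1) \ Bz B ζ z).card ≤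
      A.card * ((En.filter fun b => ζ b = z).card : ℝ) := by
    intro z
    by_cases hz : z = 0
    · rw [hz, Bz_zero B ζ hζ]
      simp
      positivity
    · rw [card_Az A z hz]
      refine mul_le_mul_of_nonneg_left ?_ (Nat.cast_nonneg _)
      have h2 : (((Bz B ζ z).image fun b => b + 1) \ Bz B ζ z) ⊆
          (En.filter fun b => ζ b = z).image fun b => b / z + 1 := by
        intro y hy
        obtain ⟨h3, h4⟩ := mem_sdiff.1 hy
        obtain ⟨c, hc, rfl⟩ := mem_image.1 h3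
        unfold Bz at hc h4
        obtain ⟨b, hb, rfl⟩ := mem_image.1 hc
        obtain ⟨hbB, hbz⟩ := mem_filter.1 hb
        refine mem_image.2 ⟨b, mem_filter.2 ⟨?_, hbz⟩, rfl⟩
        rw [hEn, mem_filter]
        refine ⟨hbB, ?_⟩
        rintro ⟨h5, h6⟩
        apply h4
        rw [hbz] at h5 h6
        refine mem_image.2 ⟨b + z, mem_filter.2 ⟨h5, h6⟩, ?_⟩
        rw [add_div, div_self hz]
      exact_mod_cast (card_le_card h2).trans card_image_le
  refine (Finset.sum_le_sum fun z _ => h1 z).trans (le_of_eq ?_)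
  rw [← Finset.mul_sum]
  congr 1
  have h2 := Finset.card_eq_sum_card_fiberwise (f := ζ) (s := En)
    (t := (univ : Finset (ZMod p))) (fun _ _ => mem_univ _)
  rw [h2]
  push_cast
  rfl

open Classical in
theorem window {p : ℕ} [Fact p.Prime] (A B : Finset (ZMod p)) (ζ : ZMod p → ZMod p)
    (hζ : ∀ b ∈ B, ζ b ≠ 0) (N : ℕ) (hN : N ≤ p) (t : ZMod p) :
    ∑ i ∈ range N, rpF (Az A) (Bz B ζ) (t + (i : ZMod p)) ≤
      (((A ×ˢ B).filter fun x => ∃ n < N, x.1 + x.2 = (t + (n : ZMod p)) * ζ x.2).card : ℝ) := by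
  -- each difference
  have h1 : ∀ z : ZMod p, ∀ i : ℕ, rp (Az A z) (Bz B ζ z) (t + (i : ZMod p)) ≤
      (((A ×ˢ B).filter fun x => ζ x.2 = z ∧ x.1 + x.2 = (t + (i : ZMod p)) * z).card : ℝ) := by
    intro z i
    by_cases hz : z = 0
    · unfold rp
      rw [hz, Bz_zero B ζ hζ]
      simp
    · unfold rp
      have h2 : ((Az A z ×ˢ Bz B ζ z).filter fun x => x.1 + x.2 = t + (i : ZMod p)) ⊆
          ((A ×ˢ B).filter fun x => ζ x.2 = z ∧ x.1 + x.2 = (t + (i : ZMod p)) * z).image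
            fun x => (x.1 / z, x.2 / z) := by
        intro x hx
        obtain ⟨h3, h4⟩ := mem_filter.1 hx
        obtain ⟨h5, h6⟩ := mem_product.1 h3
        obtain ⟨a, ha, ha2⟩ := mem_image.1 (show x.1 ∈ A.image fun a => a / z from h5)
        obtain ⟨b, hb, hb2⟩ := mem_image.1
          (show x.2 ∈ (B.filter fun b => ζ b = z).image fun b => b / z from h6)
        obtain ⟨hb3, hb4⟩ := mem_filter.1 hb
        refine mem_image.2 ⟨(a, b), mem_filter.2 ⟨mem_product.2 ⟨ha, hb3⟩, hb4, ?_⟩, ?_⟩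
        · rw [← h4, ← ha2, ← hb2]
          show a + b = (a / z + b / z) * z
          field_simp
        · exact Prod.ext ha2 hb2
      exact_mod_cast (card_le_card h2).trans card_image_le
  have h2 : ∑ i ∈ range N, rpF (Az A) (Bz B ζ) (t + (i : ZMod p)) ≤
      ∑ i ∈ range N, ∑ z : ZMod p, (((A ×ˢ B).filter fun x => ζ x.2 = z ∧
        x.1 + x.2 = (t + (i : ZMod p)) * z).card : ℝ) := by
    refine Finset.sum_le_sum fun i _ => ?_
    unfold rpF
    exact Finset.sum_le_sum fun z _ => h1 z i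
  refine h2.trans ?_
  have h3 : ∀ i ∈ range N, ∑ z : ZMod p, (((A ×ˢ B).filter fun x => ζ x.2 = z ∧
        x.1 + x.2 = (t + (i : ZMod p)) * z).card : ℝ) =
      (((A ×ˢ B).filter fun x => x.1 + x.2 = (t + (i : ZMod p)) * ζ x.2).card : ℝ) := by
    intro i _
    have h4 := Finset.card_eq_sum_card_fiberwise (f := fun x : ZMod p × ZMod p => ζ x.2)
      (s := (A ×ˢ B).filter fun x => x.1 + x.2 = (t + (i : ZMod p)) * ζ x.2)
      (t := (univ : Finset (ZMod p))) (fun _ _ => mem_univ _)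
    rw [h4]
    push_cast
    refine Finset.sum_congr rfl fun z _ => ?_
    congr 2
    ext x
    simp only [mem_filter]
    constructor
    · rintro ⟨h5, h6, h7⟩
      exact ⟨⟨h5, by rw [h6]; exact h7⟩, h6⟩
    · rintro ⟨⟨h5, h7⟩, h6⟩
      exact ⟨h5, h6, by rw [← h6]; exact h7⟩
  rw [Finset.sum_congr rfl h3]
  have h4 : ((range N : Finset ℕ) : Set ℕ).PairwiseDisjoint fun i : ℕ =>
      (A ×ˢ B).filter fun x => x.1 + x.2 = (t + (i : ZMod p)) * ζ x.2 := by
    intro i hi j hj hij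
    refine Finset.disjoint_left.2 fun x hx hy => hij ?_
    obtain ⟨h5, h6⟩ := mem_filter.1 hx
    obtain ⟨_, h7⟩ := mem_filter.1 hy
    rw [h6] at h7
    have h8 := mul_right_cancel₀ (hζ x.2 (mem_product.1 h5).2) h7
    have h9 : ((i : ℕ) : ZMod p) = (j : ZMod p) := add_left_cancel h8
    have hi' := mem_range.1 hi
    have hj' := mem_range.1 hj
    have := (ZMod.natCast_eq_natCast_iff' i j p).1 h9
    rwa [Nat.mod_eq_of_lt (by omega), Nat.mod_eq_of_lt (by omega)] at this
  have h5 := Finset.card_biUnion h4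
  have h6 : ((range N).biUnion fun i : ℕ =>
      (A ×ˢ B).filter fun x => x.1 + x.2 = (t + (i : ZMod p)) * ζ x.2) ⊆
      (A ×ˢ B).filter fun x => ∃ n < N, x.1 + x.2 = (t + (n : ZMod p)) * ζ x.2 := by
    intro x hx
    obtain ⟨i, hi, h7⟩ := mem_biUnion.1 hx
    obtain ⟨h8, h9⟩ := mem_filter.1 h7
    exact mem_filter.2 ⟨h8, i, mem_range.1 hi, h9⟩
  have h7 := card_le_card h6
  rw [h5] at h7
  exact_mod_cast h7

open Classical in
theorem split {p : ℕ} [Fact p.Prime] (χ : DirichletCharacter ℂ p) (A B : Finset (ZMod p))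
    (ζ : ZMod p → ZMod p) (hζ : ∀ b ∈ B, ζ b ≠ 0) :
    ∑ a ∈ A, ‖∑ b ∈ B, χ (a + b)‖ ≤
      ∑ z, ∑ a ∈ Az A z, ‖∑ b ∈ Bz B ζ z, χ (a + b)‖ := by
  rw [show ∑ a ∈ A, ‖∑ b ∈ B, χ (a + b)‖ =
    ∑ a ∈ A, ‖∑ z : ZMod p, ∑ b ∈ B.filter (fun b => ζ b = z), χ (a + b)‖ from
      Finset.sum_congr rfl fun a _ => by
        rw [Finset.sum_fiberwise_of_maps_to (fun _ _ => mem_univ _)]]
  refine (Finset.sum_le_sum fun a _ => norm_sum_le _ _).trans ?_
  rw [Finset.sum_comm]
  refine Finset.sum_le_sum fun z _ => ?_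
  by_cases hz : z = 0
  · rw [hz, Bz_zero B ζ hζ, Finset.filter_false_of_mem hζ]
    simp
  · unfold Az
    rw [Finset.sum_image (fun a _ b _ hab => dinj hz hab)]
    refine Finset.sum_le_sum fun a _ => ?_
    have h1 : ∑ b ∈ B.filter (fun b => ζ b = z), χ (a + b) =
        χ z * ∑ b ∈ Bz B ζ z, χ (a / z + b) := by
      unfold Bz
      rw [Finset.sum_image (fun a _ b _ hab => dinj hz hab), Finset.mul_sum]
      refine Finset.sum_congr rfl fun b _ => ?_
      rw [← map_mul]
      congr 1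
      field_simp
    rw [h1, norm_mul]
    exact mul_le_of_le_one_left (norm_nonneg _) (χ.norm_le_one _)

open Classical in
theorem main (ε : ℝ) (hε : 0 < ε) : ∃ τ : ℝ, 0 < τ ∧ ∃ p₀ : ℕ,
    ∀ (p : ℕ) [Fact p.Prime], p₀ ≤ p → ∀ χ : DirichletCharacter ℂ p, χ ≠ 1 →
    ∀ (A B : Finset (ZMod p)) (ζ : ZMod p → ZMod p) (N : ℕ), (p : ℝ) ^ ε ≤ N →
      (∀ b ∈ B, ζ b ≠ 0) →
      N * (B.filter fun b => ¬(b + ζ b ∈ B ∧ ζ (b + ζ b) = ζ b)).card ≤ B.card →
      (∀ t : ZMod p, (((A ×ˢ B).filter fun x =>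
          ∃ n < N, x.1 + x.2 = (t + (n : ZMod p)) * ζ x.2).card : ℝ) ≤
        (N : ℝ) ^ 2 / (p : ℝ) ^ (1 / 2 + ε) * (A.card * B.card)) →
      ∑ a ∈ A, ‖∑ b ∈ B, χ (a + b)‖ ≤ (p : ℝ) ^ (-τ) * (A.card * B.card) := by
  have hε' : 0 < min ε 1 := lt_min hε one_pos
  obtain ⟨τ, hτ, p₀, h⟩ := main_fam (min ε 1) hε' (min_le_right _ _)
  refine ⟨τ, hτ, p₀, ?_⟩
  intro p _ hp χ hχ A B ζ N hN hζ hends hwin
  have hp1 : (1 : ℝ) ≤ p := by exact_mod_cast (Fact.out : p.Prime).one_lt.le
  have hp0 : (0 : ℝ) < p := by linarith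
  have hsplit := split χ A B ζ hζ
  have hE := ends_le A B ζ hζ
  set En : Finset (ZMod p) := B.filter fun b => ¬(b + ζ b ∈ B ∧ ζ (b + ζ b) = ζ b) with hEn
  by_cases hE0 : En.card = 0
  · refine hsplit.trans ?_
    rw [hE0] at hE
    have h1 : ∀ z : ZMod p, ∑ a ∈ Az A z, ‖∑ b ∈ Bz B ζ z, χ (a + b)‖ = 0 := by
      intro z
      have h2 : ((Az A z).card : ℝ) *
          (((Bz B ζ z).image fun b => b + 1) \ Bz B ζ z).card ≤ 0 := by
        refine le_trans ?_ (hE.trans (le_of_eq (by simp)))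
        exact Finset.single_le_sum (f := fun z : ZMod p => ((Az A z).card : ℝ) *
          (((Bz B ζ z).image fun b => b + 1) \ Bz B ζ z).card) (fun z _ => by positivity)
          (mem_univ z)
      have h3 : ((Az A z).card : ℝ) *
          (((Bz B ζ z).image fun b => b + 1) \ Bz B ζ z).card = 0 :=
        le_antisymm h2 (by positivity)
      rcases mul_eq_zero.1 h3 with h4 | h4
      · have : Az A z = ∅ := Finset.card_eq_zero.1 (by exact_mod_cast h4)
        rw [this]
        simp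
      · refine Finset.sum_eq_zero fun a _ => ?_
        rw [zero_case χ hχ _ h4 a, norm_zero]
    rw [Finset.sum_eq_zero fun z _ => h1 z]
    positivity
  have hNp : N ≤ p := by
    have h2 : B.card ≤ p := by
      have := Finset.card_le_univ B
      rwa [ZMod.card] at this
    calc N = N * 1 := (mul_one N).symm
      _ ≤ N * En.card := Nat.mul_le_mul_left _ (by omega)
      _ ≤ B.card := hends
      _ ≤ p := h2
  have hmass := mass A B ζ hζ
  have hfin := h p hp χ hχ (Az A) (Bz B ζ) N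
    ((Real.rpow_le_rpow_of_exponent_le hp1 (min_le_left _ _)).trans hN) hNp
    (by
      rw [hmass]
      refine (mul_le_mul_of_nonneg_left hE (Nat.cast_nonneg N)).trans ?_
      have : (N : ℝ) * En.card ≤ B.card := by exact_mod_cast hends
      calc (N : ℝ) * (A.card * En.card) = A.card * (N * En.card) := by ring
        _ ≤ _ := mul_le_mul_of_nonneg_left this (Nat.cast_nonneg _))
    (by
      intro t
      rw [hmass]
      refine (window A B ζ hζ N hNp t).trans ((hwin t).trans ?_)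
      refine mul_le_mul_of_nonneg_right ?_ (by positivity)
      refine div_le_div_of_nonneg_left (by positivity) (by positivity) ?_
      exact Real.rpow_le_rpow_of_exponent_le hp1 (by
        have := min_le_left ε 1
        linarith))
  rw [hmass] at hfin
  exact hsplit.trans hfin

end Pool.Agent.H58BU
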