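import Pool.Agent.H58BU.C

/-! # The energy of a family of smooth weights and small primes -/

set_option autoImplicit false

namespace Pool.Agent.H58BU

open Finset Pool.Agent.TH7.PG

/-- the multipliers for which `ξ / y` is small -/
noncomputable def actP {p : ℕ} [Fact p.Prime] (Y : Finset ℕ) (W : ℝ) (ξ : ZMod p) : Finset ℕ :=
  open Classical in Y.filter fun y => |(((ξ / (y : ZMod p)).valMinAbs : ℤ) : ℝ)| ≤ W

theorem actP_dvd {p : ℕ} [Fact p.Prime] (Y : Finset ℕ) (W : ℝ) (Y0 : ℕ)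
    (hW : 2 * (Y0 * W) < p) (hYz : ∀ y ∈ Y, ((y : ℕ) : ZMod p) ≠ 0) (hY0 : ∀ y ∈ Y, y ≤ Y0)
    (ξ : ZMod p) : actP Y W ξ ⊆ Y.filter fun y : ℕ => (y : ℤ) ∣ ξ.valMinAbs := by
  classical
  intro y hy
  unfold actP at hy
  obtain ⟨h1, h2⟩ := mem_filter.1 hy
  refine mem_filter.2 ⟨h1, ?_⟩
  set m : ℤ := (ξ / (y : ZMod p)).valMinAbs with hm
  have hm1 : ((m : ℤ) : ZMod p) = ξ / (y : ZMod p) := ZMod.coe_valMinAbs _
  have h3 : ξ.valMinAbs = (y : ℤ) * m := by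
    refine (ZMod.valMinAbs_spec ξ ((y : ℤ) * m)).2 ⟨?_, ?_⟩
    · push_cast
      rw [hm1]
      have := hYz y h1
      field_simp
    · have hW0 : 0 ≤ W := (abs_nonneg _).trans h2
      have h4 : |((((y : ℤ) * m) * 2 : ℤ) : ℝ)| < p := by
        push_cast
        rw [abs_mul, abs_mul, Nat.abs_cast, abs_two]
        calc (y : ℝ) * |(m : ℝ)| * 2 ≤ Y0 * W * 2 := by
              refine mul_le_mul_of_nonneg_right ?_ (by norm_num)
              exact mul_le_mul (by exact_mod_cast hY0 y h1) h2 (abs_nonneg _)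
                (Nat.cast_nonneg _)
          _ = 2 * (Y0 * W) := by ring
          _ < p := hW
      have h5 : |((y : ℤ) * m) * 2| < (p : ℤ) := by
        have : ((|((y : ℤ) * m) * 2| : ℤ) : ℝ) < ((p : ℤ) : ℝ) := by
          rw [Int.cast_abs]
          exact_mod_cast h4
        exact_mod_cast this
      rw [abs_lt] at h5
      exact ⟨h5.1, h5.2.le⟩
  rw [h3]
  exact dvd_mul_right _ _

theorem ft_mul {p : ℕ} [Fact p.Prime] (f : ZMod p → ℂ) (y : ZMod p) (hy : y ≠ 0) (ξ : ZMod p) :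
    ft (fun u => f (u * y)) ξ = ft f (ξ / y) := by
  unfold ft
  rw [← Equiv.sum_comp (Equiv.mulRight₀ y hy) (fun x => f x * ZMod.stdAddChar (x * (ξ / y)))]
  refine Finset.sum_congr rfl fun x _ => ?_
  show f (x * y) * ZMod.stdAddChar (x * ξ) = f (x * y) * ZMod.stdAddChar (x * y * (ξ / y))
  congr 2
  field_simp

theorem div_sum {p : ℕ} [Fact p.Prime] (f : ZMod p → ℝ) (y : ZMod p) (hy : y ≠ 0) :
    ∑ ξ : ZMod p, f (ξ / y) = ∑ ξ : ZMod p, f ξ := by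
  have := Equiv.sum_comp (Equiv.mulRight₀ y⁻¹ (inv_ne_zero hy)) f
  rw [← this]
  refine Finset.sum_congr rfl fun ξ _ => ?_
  rw [div_eq_mul_inv]
  rfl

theorem energyP {p : ℕ} [Fact p.Prime] (Y : Finset ℕ) (W : ℝ) (Y0 T r k h : ℕ)
    (hW0 : 0 < W) (hW : 2 * (Y0 * W) < p) (hY : ∀ y ∈ Y, y.Prime) (hY0 : ∀ y ∈ Y, y ≤ Y0)
    (hYp : Y0 < p) (hT : ∀ y ∈ Y, T ≤ y) (hr : p < T ^ (r + 1)) (hh : 1 ≤ h)
    (hδ : (p : ℝ) * (p / (2 * W)) ^ k ≤ (h : ℝ) ^ k) (f₀ f : ℕ → ZMod p → ℝ)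
    (h₀ : ∀ y t, 0 ≤ f₀ y t) (hf : ∀ y t, 0 ≤ f y t)
    (hmaj : ∀ y t, f₀ y t ≤ (av h)^[k] (f y) t) :
    ∑ u : ZMod p, (∑ y ∈ Y, f₀ y (u * (y : ZMod p))) ^ 2 ≤
      4 * (Y.card * (∑ y ∈ Y, (∑ t, f y t) ^ 2) / p) + 2 * r * ∑ y ∈ Y, ∑ t, f y t ^ 2 := by
  have hp : (0 : ℝ) < p := by exact_mod_cast (Fact.out : p.Prime).pos
  have hp1 : (1 : ℝ) ≤ p := by exact_mod_cast (Fact.out : p.Prime).one_lt.le
  have hhpos : (0 : ℝ) < h := by exact_mod_cast hh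
  have hhk : (0 : ℝ) < (h : ℝ) ^ k := by positivity
  obtain ⟨S1, hS1⟩ : ∃ S1 : ℕ → ℝ, ∀ y, S1 y = ∑ t, f y t := ⟨_, fun _ => rfl⟩
  obtain ⟨S2, hS2⟩ : ∃ S2 : ℕ → ℝ, ∀ y, S2 y = ∑ t, f y t ^ 2 := ⟨_, fun _ => rfl⟩
  simp only [← hS1, ← hS2]
  have hS10 : ∀ y, 0 ≤ S1 y := fun y => by rw [hS1]; exact sum_nonneg fun t _ => hf y t
  have hS20 : ∀ y, 0 ≤ S2 y := fun y => by rw [hS2]; exact sum_nonneg fun t _ => sq_nonneg _
  set G : ℕ → ZMod p → ℝ := fun y => (av h)^[k] (f y) with hG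
  set F : ℕ → ZMod p → ℂ := fun y t => ((f y t : ℝ) : ℂ) with hF
  set R : ZMod p → ℂ := fun u => ∑ y ∈ Y, ((G y (u * (y : ZMod p)) : ℝ) : ℂ) with hR
  have hyz : ∀ y ∈ Y, ((y : ℕ) : ZMod p) ≠ 0 := by
    intro y hy h
    rw [ZMod.natCast_eq_zero_iff] at h
    have := Nat.le_of_dvd (hY y hy).pos h
    have := hY0 y hy
    omega
  have hN1 : ∀ y, ∑ x, ‖F y x‖ = S1 y := by
    intro y
    rw [hS1]
    refine Finset.sum_congr rfl fun t _ => ?_
    rw [hF]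
    simp only
    rw [Complex.norm_real, Real.norm_of_nonneg (hf y t)]
  have hN2 : ∀ y, ∑ x, ‖F y x‖ ^ 2 = S2 y := by
    intro y
    rw [hS2]
    refine Finset.sum_congr rfl fun t _ => ?_
    rw [hF]
    simp only
    rw [Complex.norm_real, Real.norm_of_nonneg (hf y t)]
  have hft1 : ∀ y ξ, ‖ft (F y) ξ‖ ≤ S1 y := fun y ξ => (ft_norm_le _ _).trans (le_of_eq (hN1 y))
  set Sg : ℝ := ∑ y ∈ Y, S1 y with hSg
  have hSg0 : 0 ≤ Sg := sum_nonneg fun y _ => hS10 y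
  have hft : ∀ ξ : ZMod p, ‖ft R ξ‖ ≤
      ∑ y ∈ actP Y W ξ, ‖ft (F y) (ξ / (y : ZMod p))‖ + Sg / p := by
    intro ξ
    have h1 : ft R ξ = ∑ y ∈ Y, ft (F y) (ξ / (y : ZMod p)) *
        (DD h (ξ / (y : ZMod p)) / h) ^ k := by
      have e1 : ft R ξ = ∑ y ∈ Y, ft (fun u => ((G y (u * (y : ZMod p)) : ℝ) : ℂ)) ξ := by
        unfold ft
        rw [hR]
        simp only [Finset.sum_mul]
        rw [Finset.sum_comm]
      rw [e1]
      refine Finset.sum_congr rfl fun y hy => ?_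
      rw [ft_mul (fun t => ((G y t : ℝ) : ℂ)) (y : ZMod p) (hyz y hy) ξ, hG, ft_iter]
    rw [h1]
    refine (norm_sum_le _ _).trans ?_
    have hsplit : ∑ y ∈ Y, ‖ft (F y) (ξ / (y : ZMod p)) * (DD h (ξ / (y : ZMod p)) / h) ^ k‖ =
        ∑ y ∈ actP Y W ξ, ‖ft (F y) (ξ / (y : ZMod p)) *
          (DD h (ξ / (y : ZMod p)) / h) ^ k‖ +
        ∑ y ∈ Y.filter (fun y : ℕ => ¬ |(((ξ / (y : ZMod p)).valMinAbs : ℤ) : ℝ)| ≤ W),
          ‖ft (F y) (ξ / (y : ZMod p)) * (DD h (ξ / (y : ZMod p)) / h) ^ k‖ := by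
      classical
      unfold actP
      rw [← Finset.sum_filter_add_sum_filter_not Y
        (fun y : ℕ => |(((ξ / (y : ZMod p)).valMinAbs : ℤ) : ℝ)| ≤ W)]
    rw [hsplit]
    refine add_le_add ?_ ?_
    · refine Finset.sum_le_sum fun y _ => ?_
      rw [norm_mul, norm_pow, norm_div]
      refine mul_le_of_le_one_right (norm_nonneg _) (pow_le_one₀ (by positivity) ?_)
      rw [Complex.norm_natCast, div_le_one hhpos]
      exact DD_le h _
    · have h1 : ∀ y ∈ Y.filter (fun y : ℕ => ¬ |(((ξ / (y : ZMod p)).valMinAbs : ℤ) : ℝ)| ≤ W),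
          ‖ft (F y) (ξ / (y : ZMod p)) * (DD h (ξ / (y : ZMod p)) / h) ^ k‖ ≤ S1 y / p := by
        intro y hy
        have h2 := not_le.1 (mem_filter.1 hy).2
        have h3 := geom_bound h (ξ / (y : ZMod p))
        have h4 : ‖DD h (ξ / (y : ZMod p))‖ ≤ p / (2 * W) := by
          rw [le_div_iff₀ (by positivity)]
          refine le_trans (mul_le_mul_of_nonneg_left ?_ (norm_nonneg _)) h3
          linarith
        have h5 : ‖(DD h (ξ / (y : ZMod p)) / h) ^ k‖ ≤ 1 / p := by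
          rw [norm_pow, norm_div, Complex.norm_natCast, div_pow, div_le_div_iff₀ hhk hp]
          have := (mul_le_mul_of_nonneg_left (pow_le_pow_left₀ (norm_nonneg _) h4 k) hp.le).trans hδ
          linarith
        rw [norm_mul]
        calc _ ≤ S1 y * (1 / p) := mul_le_mul (hft1 y _) h5 (norm_nonneg _) (hS10 y)
          _ = S1 y / p := by ring
      refine (Finset.sum_le_sum h1).trans ?_
      rw [← Finset.sum_div]
      refine div_le_div_of_nonneg_right ?_ hp.le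
      exact Finset.sum_le_sum_of_subset_of_nonneg (filter_subset _ _) fun y _ _ => hS10 y
  have hsq : ∀ ξ : ZMod p, ‖ft R ξ‖ ^ 2 ≤
        2 * (∑ y ∈ actP Y W ξ, ‖ft (F y) (ξ / (y : ZMod p))‖) ^ 2 + 2 * (Sg / p) ^ 2 := by
    intro ξ
    refine (pow_le_pow_left₀ (norm_nonneg _) (hft ξ) 2).trans ?_
    nlinarith [sq_nonneg (∑ y ∈ actP Y W ξ, ‖ft (F y) (ξ / (y : ZMod p))‖ - Sg / p)]
  -- the active frequencies
  have hSgsq : Sg ^ 2 ≤ Y.card * ∑ y ∈ Y, S1 y ^ 2 := sq_sum_le_card_mul_sum_sq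
  have hact : ∑ ξ : ZMod p, (∑ y ∈ actP Y W ξ, ‖ft (F y) (ξ / (y : ZMod p))‖) ^ 2 ≤
      Y.card * ∑ y ∈ Y, S1 y ^ 2 + r * ∑ y ∈ Y, p * S2 y := by
    classical
    have hsub : ∀ ξ : ZMod p, actP Y W ξ ⊆ Y := fun ξ => by
      unfold actP
      exact filter_subset _ _
    rw [← Finset.add_sum_erase Finset.univ _ (Finset.mem_univ (0 : ZMod p))]
    refine add_le_add ?_ ?_
    · refine le_trans ?_ hSgsq
      refine pow_le_pow_left₀ (Finset.sum_nonneg fun _ _ => norm_nonneg _) ?_ 2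
      refine (Finset.sum_le_sum fun y _ => hft1 y _).trans ?_
      exact Finset.sum_le_sum_of_subset_of_nonneg (hsub 0) fun y _ _ => hS10 y
    · have h1 : ∀ ξ ∈ (Finset.univ : Finset (ZMod p)).erase 0,
          (∑ y ∈ actP Y W ξ, ‖ft (F y) (ξ / (y : ZMod p))‖) ^ 2 ≤
          r * ∑ y ∈ Y, ‖ft (F y) (ξ / (y : ZMod p))‖ ^ 2 := by
        intro ξ hξ
        have hξ0 : ξ ≠ 0 := (mem_erase.1 hξ).1
        have h2 : (actP Y W ξ).card ≤ r :=
          (card_le_card (actP_dvd Y W Y0 hW hyz hY0 ξ)).trans (few_divisors Y T r hY hT hr ξ hξ0)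
        refine (sq_sum_le_card_mul_sum_sq (s := actP Y W ξ)
          (f := fun y => ‖ft (F y) (ξ / (y : ZMod p))‖)).trans ?_
        refine mul_le_mul (by exact_mod_cast h2) ?_ (sum_nonneg fun _ _ => sq_nonneg _)
          (Nat.cast_nonneg _)
        exact Finset.sum_le_sum_of_subset_of_nonneg (hsub ξ) fun y _ _ => sq_nonneg _
      refine (Finset.sum_le_sum h1).trans ?_
      rw [← Finset.mul_sum]
      refine mul_le_mul_of_nonneg_left ?_ (Nat.cast_nonneg _)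
      refine (Finset.sum_le_sum_of_subset_of_nonneg (Finset.erase_subset _ _)
        fun ξ _ _ => sum_nonneg fun _ _ => sq_nonneg _).trans ?_
      rw [Finset.sum_comm]
      refine Finset.sum_le_sum fun y hy => ?_
      rw [div_sum (fun ξ => ‖ft (F y) ξ‖ ^ 2) (y : ZMod p) (hyz y hy), parseval, hN2]
  have hsum : (p : ℝ) * ∑ u : ZMod p, ‖R u‖ ^ 2 ≤
      2 * (Y.card * ∑ y ∈ Y, S1 y ^ 2 + r * ∑ y ∈ Y, p * S2 y) +
        2 * (p * (Sg / p) ^ 2) := by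
    rw [← parseval]
    refine (Finset.sum_le_sum fun ξ _ => hsq ξ).trans ?_
    rw [Finset.sum_add_distrib, ← Finset.mul_sum, Finset.sum_const,
      Finset.card_univ, ZMod.card, nsmul_eq_mul]
    linarith
  have hlow : ∑ u : ZMod p, (∑ y ∈ Y, f₀ y (u * (y : ZMod p))) ^ 2 ≤
      ∑ u : ZMod p, ‖R u‖ ^ 2 := by
    refine Finset.sum_le_sum fun u _ => ?_
    have e1 : R u = ((∑ y ∈ Y, G y (u * (y : ZMod p)) : ℝ) : ℂ) := by
      rw [hR]
      push_cast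
      rfl
    have e2 : 0 ≤ ∑ y ∈ Y, G y (u * (y : ZMod p)) :=
      sum_nonneg fun y _ => iter_nonneg h k (f y) (hf y) _
    rw [e1, Complex.norm_real, Real.norm_of_nonneg e2]
    exact pow_le_pow_left₀ (sum_nonneg fun y _ => h₀ y _) (sum_le_sum fun y _ => hmaj y _) 2
  have h9 : p * (Sg / p) ^ 2 ≤ Y.card * ∑ y ∈ Y, S1 y ^ 2 := by
    have e2 : p * (Sg / p) ^ 2 = Sg ^ 2 / p := by
      field_simp
    rw [e2]
    exact (div_le_self (by positivity) hp1).trans hSgsq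
  have h7 : (p : ℝ) * ∑ u : ZMod p, (∑ y ∈ Y, f₀ y (u * (y : ZMod p))) ^ 2 ≤
      4 * (Y.card * ∑ y ∈ Y, S1 y ^ 2) + 2 * r * (∑ y ∈ Y, S2 y) * p := by
    refine (mul_le_mul_of_nonneg_left hlow hp.le).trans (hsum.trans ?_)
    rw [← Finset.mul_sum]
    linarith
  have h8 : (∑ u : ZMod p, (∑ y ∈ Y, f₀ y (u * (y : ZMod p))) ^ 2) * p ≤
      (4 * (Y.card * (∑ y ∈ Y, S1 y ^ 2) / p) + 2 * r * ∑ y ∈ Y, S2 y) * p := by
    calc _ = (p : ℝ) * ∑ u : ZMod p, (∑ y ∈ Y, f₀ y (u * (y : ZMod p))) ^ 2 := by ring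
      _ ≤ _ := h7
      _ = _ := by
          field_simp
  exact le_of_mul_le_mul_right h8 hp

end Pool.Agent.H58BU
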