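import Pool.Agent.H58BU.G
import Pool.Agent.TH7.PG.HalfE

/-! # Pairs of representations: the counting lemmas -/

set_option autoImplicit false

namespace Pool.Agent.H58BU

open Finset Pool.Agent.TH7.PG

/-- the points of `B` whose translate by `d` lies in `B` -/
noncomputable def tr {p : ℕ} (B : Finset (ZMod p)) (d : ZMod p) : Finset (ZMod p) :=
  open Classical in B.filter fun b => b + d ∈ B

theorem mem_tr {p : ℕ} (B : Finset (ZMod p)) (d b : ZMod p) :
    b ∈ tr B d ↔ b ∈ B ∧ b + d ∈ B := by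
  classical
  unfold tr
  rw [mem_filter]

theorem tr_le {p : ℕ} (B : Finset (ZMod p)) (d : ZMod p) : (tr B d).card ≤ B.card := by
  classical
  unfold tr
  exact card_filter_le _ _

theorem sum_tr {p : ℕ} [NeZero p] (B : Finset (ZMod p)) :
    ∑ d, ((tr B d).card : ℝ) = (B.card : ℝ) ^ 2 := by
  classical
  have h1 : ∀ d, ((tr B d).card : ℝ) = ∑ b ∈ B, if b + d ∈ B then (1 : ℝ) else 0 := by
    intro d
    unfold tr
    rw [Finset.sum_boole]
  simp only [h1]
  rw [Finset.sum_comm]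
  have h2 : ∀ b ∈ B, ∑ d : ZMod p, (if b + d ∈ B then (1 : ℝ) else 0) = B.card := by
    intro b _
    have h3 : ∑ d : ZMod p, (if b + d ∈ B then (1 : ℝ) else 0) =
        ∑ x : ZMod p, if x ∈ B then (1 : ℝ) else 0 :=
      Equiv.sum_comp (Equiv.addLeft b) (fun x => if x ∈ B then (1 : ℝ) else 0)
    rw [h3, Finset.sum_boole]
    congr 2
    ext x
    simp
  rw [Finset.sum_congr rfl h2, Finset.sum_const, nsmul_eq_mul, sq]

theorem sum_tr_sq {p : ℕ} [NeZero p] (B : Finset (ZMod p)) :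
    ∑ d, ((tr B d).card : ℝ) ^ 2 ≤ (B.card : ℝ) ^ 3 := by
  calc ∑ d, ((tr B d).card : ℝ) ^ 2 ≤ ∑ d, (B.card : ℝ) * (tr B d).card := by
        refine Finset.sum_le_sum fun d _ => ?_
        rw [sq]
        refine mul_le_mul_of_nonneg_right ?_ (Nat.cast_nonneg _)
        exact_mod_cast tr_le B d
    _ = B.card ^ 3 := by
        rw [← Finset.mul_sum, sum_tr]
        ring

/-- one pair of representations -/
theorem count_pt {p : ℕ} [Fact p.Prime] (U B : Finset (ZMod p)) (n y : ZMod p)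
    (w : ZMod p × ZMod p) :
    (((((U.image fun u => u + n) ×ˢ (B ×ˢ B)).filter fun t =>
      t.1 + t.2.1 = w.1 * y ∧ t.1 + t.2.2 = w.2 * y).card : ℕ) : ℝ) ≤
      rp U (tr B ((w.2 - w.1) * y)) (w.1 * y - n) := by
  classical
  unfold rp
  norm_cast
  refine Finset.card_le_card_of_injOn (fun t => (t.1 - n, t.2.1)) ?_ ?_
  · intro t ht
    have ht' := mem_filter.1 (Finset.mem_coe.1 ht)
    have h1 := mem_product.1 ht'.1
    have h2 := mem_product.1 h1.2
    obtain ⟨u, hu, hu2⟩ := mem_image.1 h1.1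
    refine Finset.mem_coe.2 (mem_filter.2 ⟨mem_product.2 ⟨?_, ?_⟩, ?_⟩)
    · show t.1 - n ∈ U
      rw [← hu2, add_sub_cancel_right]
      exact hu
    · show t.2.1 ∈ tr B ((w.2 - w.1) * y)
      rw [mem_tr]
      refine ⟨h2.1, ?_⟩
      have h3 : t.2.1 + (w.2 - w.1) * y = t.2.2 := by
        rw [sub_mul, ← ht'.2.1, ← ht'.2.2]
        ring
      rw [h3]
      exact h2.2
    · show t.1 - n + t.2.1 = w.1 * y - n
      rw [← ht'.2.1]
      ring
  · intro t ht t' ht' h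
    have h1 := (mem_filter.1 (Finset.mem_coe.1 ht)).2
    have h1' := (mem_filter.1 (Finset.mem_coe.1 ht')).2
    have h2 : t.1 - n = t'.1 - n := (Prod.ext_iff.1 h).1
    have h3 : t.2.1 = t'.2.1 := (Prod.ext_iff.1 h).2
    have h4 : t.1 = t'.1 := by
      have := congrArg (fun x => x + n) h2
      simpa using this
    have h5 : t.2.2 = t'.2.2 := by
      have e1 : t.2.2 = w.2 * y - t.1 := by rw [← h1.2]; ring
      have e2 : t'.2.2 = w.2 * y - t'.1 := by rw [← h1'.2]; ring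
      rw [e1, e2, h4]
    exact Prod.ext h4 (Prod.ext h3 h5)

theorem count_X {p : ℕ} [Fact p.Prime] (U B : Finset (ZMod p)) (n y : ZMod p) (hy : y ≠ 0)
    (X : Finset (ZMod p × ZMod p)) :
    (((((U.image fun u => u + n) ×ˢ (B ×ˢ B)).filter fun t =>
      ((t.1 + t.2.1) / y, (t.1 + t.2.2) / y) ∈ X).card : ℕ) : ℝ) ≤
      ∑ w ∈ X, rp U (tr B ((w.2 - w.1) * y)) (w.1 * y - n) := by
  classical
  set S := ((U.image fun u => u + n) ×ˢ (B ×ˢ B)).filter fun t =>
      ((t.1 + t.2.1) / y, (t.1 + t.2.2) / y) ∈ X with hS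
  have h1 : S.card = ∑ w ∈ X, (S.filter fun t =>
      ((t.1 + t.2.1) / y, (t.1 + t.2.2) / y) = w).card :=
    Finset.card_eq_sum_card_fiberwise fun t ht => (mem_filter.1 (Finset.mem_coe.1 ht)).2
  rw [h1]
  push_cast
  refine Finset.sum_le_sum fun w _ => ?_
  refine le_trans ?_ (count_pt U B n y w)
  norm_cast
  refine Finset.card_le_card fun t ht => ?_
  have h2 := mem_filter.1 ht
  have h3 := (mem_filter.1 h2.1).1
  refine mem_filter.2 ⟨h3, ?_, ?_⟩
  · have h4 : (t.1 + t.2.1) / y = w.1 := (Prod.ext_iff.1 h2.2).1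
    rw [← h4, div_mul_cancel₀ _ hy]
  · have h4 : (t.1 + t.2.2) / y = w.2 := (Prod.ext_iff.1 h2.2).2
    rw [← h4, div_mul_cancel₀ _ hy]

/-- the weight of a pair -/
noncomputable def vp {p : ℕ} (Y : Finset ℕ) (N h : ℕ) (U B : Finset (ZMod p))
    (w : ZMod p × ZMod p) : ℝ :=
  ∑ y ∈ Y, wn N h (rp U (tr B ((w.2 - w.1) * (y : ZMod p)))) 0 (w.1 * (y : ZMod p))

theorem count_all {p : ℕ} [Fact p.Prime] (Y : Finset ℕ) (hY : ∀ y ∈ Y, ((y : ℕ) : ZMod p) ≠ 0)
    (N h : ℕ) (U B : Finset (ZMod p)) (X : Finset (ZMod p × ZMod p)) :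
    ∑ n ∈ range N, ∑ y ∈ Y, (((((U.image fun u => u + (n : ZMod p)) ×ˢ (B ×ˢ B)).filter
      fun t => ((t.1 + t.2.1) / (y : ZMod p), (t.1 + t.2.2) / (y : ZMod p)) ∈ X).card : ℕ) : ℝ) ≤
      ∑ w ∈ X, vp Y N h U B w := by
  have h1 : ∀ n ∈ range N, ∀ y ∈ Y, _ := fun n _ y hy =>
    count_X U B (n : ZMod p) (y : ZMod p) (hY y hy) X
  refine (Finset.sum_le_sum fun n hn => Finset.sum_le_sum fun y hy => h1 n hn y hy).trans ?_
  refine le_of_eq ?_
  unfold vp
  simp only [wn_zero]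
  have h2 : ∀ n ∈ range N, ∑ y ∈ Y, ∑ w ∈ X, rp U (tr B ((w.2 - w.1) * (y : ZMod p)))
      (w.1 * (y : ZMod p) - (n : ZMod p)) = ∑ w ∈ X, ∑ y ∈ Y,
      rp U (tr B ((w.2 - w.1) * (y : ZMod p))) (w.1 * (y : ZMod p) - (n : ZMod p)) :=
    fun n _ => Finset.sum_comm
  rw [Finset.sum_congr rfl h2, Finset.sum_comm]
  refine Finset.sum_congr rfl fun w _ => ?_
  rw [Finset.sum_comm]

theorem sum_vp {p : ℕ} [Fact p.Prime] (Y : Finset ℕ) (N h : ℕ) (U B : Finset (ZMod p)) :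
    ∑ w : ZMod p × ZMod p, vp Y N h U B w ^ 2 = ∑ δ : ZMod p, ∑ s : ZMod p,
      (∑ y ∈ Y, wn N h (rp U (tr B (δ * (y : ZMod p)))) 0 (s * (y : ZMod p))) ^ 2 := by
  rw [Fintype.sum_prod_type, Finset.sum_comm' (t' := univ) (s' := fun _ => univ) (by simp)]
  rw [Finset.sum_comm]
  have h1 : ∀ s : ZMod p, ∑ s' : ZMod p, vp Y N h U B (s, s') ^ 2 =
      ∑ δ : ZMod p, (∑ y ∈ Y, wn N h (rp U (tr B (δ * (y : ZMod p)))) 0
        (s * (y : ZMod p))) ^ 2 := by
    intro s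
    rw [← Equiv.sum_comp (Equiv.addLeft s)]
    refine Finset.sum_congr rfl fun δ _ => ?_
    unfold vp
    simp only [Equiv.coe_addLeft, add_sub_cancel_left]
  rw [Finset.sum_congr rfl fun s _ => h1 s, Finset.sum_comm]

/-- pairs of representations with close sums -/
noncomputable def cl {p : ℕ} (K : ℕ) (U V : Finset (ZMod p)) :
    Finset ((ZMod p × ZMod p) × (ZMod p × ZMod p)) :=
  open Classical in ((U ×ˢ V) ×ˢ (U ×ˢ V)).filter fun x =>
    ∃ m : ℤ, |m| < K ∧ (x.1.1 + x.1.2) - (x.2.1 + x.2.2) = (m : ZMod p)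

theorem sqwin {p : ℕ} [Fact p.Prime] (K : ℕ) (hK : K ≤ p) (U V : Finset (ZMod p)) (c : ZMod p) :
    ∑ t : ZMod p, (∑ i ∈ range K, rp U V (t + c - (i : ZMod p))) ^ 2 ≤
      K * ((cl K U V).card : ℝ) := by
  classical
  set cx : ZMod p → ZMod p → ℝ := fun s t =>
    ∑ i ∈ range K, if s = t + c - (i : ZMod p) then (1 : ℝ) else 0 with hcx
  have hcx0 : ∀ s t, 0 ≤ cx s t := fun s t => sum_nonneg fun i _ => by
    split_ifs
    · exact zero_le_one
    · exact le_rfl
  have hcx1 : ∀ s t, cx s t ≤ 1 := by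
    intro s t
    rw [hcx]
    simp only
    rw [Finset.sum_boole]
    have h1 : ((range K).filter fun i : ℕ => s = t + c - (i : ZMod p)).card ≤ 1 := by
      refine Finset.card_le_one.2 fun a ha b hb => ?_
      have ha' := mem_filter.1 ha
      have hb' := mem_filter.1 hb
      have h2 : ((a : ℕ) : ZMod p) = (b : ZMod p) := by
        have e1 : (a : ZMod p) = t + c - s := by rw [ha'.2]; ring
        have e2 : (b : ZMod p) = t + c - s := by rw [hb'.2]; ring
        rw [e1, e2]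
      have ha2 := mem_range.1 ha'.1
      have hb2 := mem_range.1 hb'.1
      have := (ZMod.natCast_eq_natCast_iff' a b p).1 h2
      rwa [Nat.mod_eq_of_lt (by omega), Nat.mod_eq_of_lt (by omega)] at this
    exact_mod_cast h1
  have hcxs : ∀ s, ∑ t, cx s t = K := by
    intro s
    rw [hcx]
    simp only
    rw [Finset.sum_comm]
    have h1 : ∀ i ∈ range K, ∑ t : ZMod p, (if s = t + c - (i : ZMod p) then (1 : ℝ) else 0) =
        1 := by
      intro i _
      rw [Finset.sum_eq_single (s - c + (i : ZMod p))]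
      · rw [if_pos]
        ring
      · intro t _ ht
        rw [if_neg]
        intro h
        apply ht
        rw [h]
        ring
      · intro h
        exact absurd (mem_univ _) h
    rw [Finset.sum_congr rfl h1]
    simp
  have hW : ∀ t, ∑ i ∈ range K, rp U V (t + c - (i : ZMod p)) =
      ∑ x ∈ U ×ˢ V, cx (x.1 + x.2) t := by
    intro t
    rw [hcx]
    simp only
    rw [Finset.sum_comm]
    refine Finset.sum_congr rfl fun i _ => ?_
    unfold rp
    rw [Finset.sum_boole]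
  simp only [hW, sq, Finset.sum_mul_sum]
  rw [Finset.sum_comm]
  have h1 : ∀ x ∈ U ×ˢ V, ∑ t : ZMod p, ∑ x' ∈ U ×ˢ V, cx (x.1 + x.2) t * cx (x'.1 + x'.2) t ≤
      ∑ x' ∈ U ×ˢ V, (if ∃ m : ℤ, |m| < K ∧ (x.1 + x.2) - (x'.1 + x'.2) = (m : ZMod p) then
        (K : ℝ) else 0) := by
    intro x _
    rw [Finset.sum_comm]
    refine Finset.sum_le_sum fun x' _ => ?_
    by_cases hm : ∃ m : ℤ, |m| < K ∧ (x.1 + x.2) - (x'.1 + x'.2) = (m : ZMod p)
    · rw [if_pos hm, ← hcxs (x.1 + x.2)]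
      refine Finset.sum_le_sum fun t _ => ?_
      exact mul_le_of_le_one_right (hcx0 _ _) (hcx1 _ _)
    · rw [if_neg hm]
      refine le_of_eq (Finset.sum_eq_zero fun t _ => ?_)
      by_contra hne
      have h2 := left_ne_zero_of_mul hne
      have h3 := right_ne_zero_of_mul hne
      rw [hcx] at h2 h3
      simp only at h2 h3
      obtain ⟨i, hi, hi2⟩ := Finset.exists_ne_zero_of_sum_ne_zero h2
      obtain ⟨j, hj, hj2⟩ := Finset.exists_ne_zero_of_sum_ne_zero h3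
      have hi3 : x.1 + x.2 = t + c - (i : ZMod p) := by
        by_contra hcon
        exact hi2 (if_neg hcon)
      have hj3 : x'.1 + x'.2 = t + c - (j : ZMod p) := by
        by_contra hcon
        exact hj2 (if_neg hcon)
      apply hm
      refine ⟨(j : ℤ) - (i : ℤ), ?_, ?_⟩
      · have := mem_range.1 hi
        have := mem_range.1 hj
        rw [abs_lt]
        constructor <;> omega
      · rw [hi3, hj3]
        push_cast
        ring
  refine (Finset.sum_le_sum h1).trans (le_of_eq ?_)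
  unfold cl
  rw [← Finset.sum_product' (U ×ˢ V) (U ×ˢ V) (fun x x' =>
    if ∃ m : ℤ, |m| < K ∧ (x.1 + x.2) - (x'.1 + x'.2) = (m : ZMod p) then (K : ℝ) else 0)]
  rw [← Finset.sum_filter, Finset.sum_const, nsmul_eq_mul, mul_comm]

/-- the quadruples with equal differences and close sums -/
noncomputable def TT {p : ℕ} (z : ZMod p) (K : ℕ) (U B : Finset (ZMod p)) :
    Finset ((ZMod p × ZMod p) × ((ZMod p × ZMod p) × (ZMod p × ZMod p))) :=
  open Classical in ((U ×ˢ U) ×ˢ ((B ×ˢ B) ×ˢ (B ×ˢ B))).filter fun t =>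
    t.2.1.2 - t.2.1.1 = t.2.2.2 - t.2.2.1 ∧
      ∃ m : ℤ, |m| < K ∧ (t.1.1 + t.2.1.1) - (t.1.2 + t.2.2.1) = (m : ZMod p) * z

theorem sum_cl {p : ℕ} [Fact p.Prime] (K : ℕ) (U B : Finset (ZMod p)) :
    ∑ d : ZMod p, ((cl K U (tr B d)).card : ℝ) ≤ ((TT 1 K U B).card : ℝ) := by
  classical
  have h1 : (TT 1 K U B).card = ∑ d : ZMod p, ((TT 1 K U B).filter fun t =>
      t.2.1.2 - t.2.1.1 = d).card :=
    Finset.card_eq_sum_card_fiberwise fun t _ => Finset.mem_coe.2 (mem_univ _)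
  rw [h1]
  push_cast
  refine Finset.sum_le_sum fun d _ => ?_
  norm_cast
  refine Finset.card_le_card_of_injOn (fun x => ((x.1.1, x.2.1),
    ((x.1.2, x.1.2 + d), (x.2.2, x.2.2 + d)))) ?_ ?_
  · intro x hx
    have hx' : x ∈ cl K U (tr B d) := Finset.mem_coe.1 hx
    unfold cl at hx'
    obtain ⟨h2, m, hm, hm2⟩ := mem_filter.1 hx'
    obtain ⟨h3, h4⟩ := mem_product.1 h2
    obtain ⟨h5, h6⟩ := mem_product.1 h3
    obtain ⟨h7, h8⟩ := mem_product.1 h4
    rw [mem_tr] at h6 h8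
    refine Finset.mem_coe.2 (mem_filter.2 ⟨?_, ?_⟩)
    · unfold TT
      refine mem_filter.2 ⟨mem_product.2 ⟨mem_product.2 ⟨h5, h7⟩, mem_product.2
        ⟨mem_product.2 ⟨h6.1, h6.2⟩, mem_product.2 ⟨h8.1, h8.2⟩⟩⟩, ?_, m, hm, ?_⟩
      · show x.1.2 + d - x.1.2 = x.2.2 + d - x.2.2
        ring
      · show (x.1.1 + x.1.2) - (x.2.1 + x.2.2) = (m : ZMod p) * 1
        rw [hm2, mul_one]
    · show x.1.2 + d - x.1.2 = d
      ring
  · intro x _ x' _ h
    simp only [Prod.mk.injEq] at h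
    exact Prod.ext (Prod.ext h.1.1 h.2.1.1) (Prod.ext h.1.2 h.2.2.1)

end Pool.Agent.H58BU
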