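import Pool.Agent.H58BU.H

/-! # One set nearly invariant, the other arbitrary: the bound by the energy, difference one -/

set_option autoImplicit false
set_option linter.unusedSectionVars false

namespace Pool.Agent.H58BU

open Finset Pool.Agent.TH7.PG

theorem ite_num (x q C₁ Z Xc a b Yc V r N N₁ T : ℝ) (hx : 0 < x) (hq : 1 ≤ q)
    (hC₁ : 0 ≤ C₁) (hr : 0 ≤ r) (ha : 0 ≤ a) (hb : 0 ≤ b) (hY : 0 ≤ Yc) (hV0 : 0 ≤ V)
    (hN0 : 0 ≤ N) (hN1 : 0 ≤ N₁) (hT0 : 0 ≤ T) (hXc0 : 0 ≤ Xc)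
    (hXc : Xc ≤ C₁ * (x * q ^ 4)) (hV : V ≤ q * a) (hb1 : q ^ 15 ≤ b) (hNN : N ≤ 4 * N₁)
    (hNY : N ≤ 2 * q ^ 3 * Yc) (hT : T * (x * q ^ 64) ≤ N ^ 2 * (V ^ 2 * b ^ 4))
    (h8 : 128 * (1 + r) * C₁ ≤ q)
    (hZ : Z ^ 2 ≤ Xc * (4 * (Yc * (Yc * ((N * V) ^ 2 * b ^ 3)) / x) + 2 * r * (Yc * (N * T)))) :
    Z ^ 2 * q ^ 8 ≤ (N₁ * Yc * (a * b ^ 2)) ^ 2 := by
  have hq0 : 0 < q := by linarith
  obtain ⟨P, hP⟩ : ∃ P : ℝ, P = N₁ ^ 2 * Yc ^ 2 * a ^ 2 := ⟨_, rfl⟩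
  have hP0 : 0 ≤ P := by rw [hP]; positivity
  have h1 : Z ^ 2 * q ^ 8 ≤ C₁ * q ^ 12 * (4 * (Yc ^ 2 * N ^ 2 * V ^ 2 * b ^ 3)) +
      2 * r * C₁ * q ^ 12 * (Yc * N * (T * x)) := by
    calc Z ^ 2 * q ^ 8 ≤ (Xc * (4 * (Yc * (Yc * ((N * V) ^ 2 * b ^ 3)) / x) +
          2 * r * (Yc * (N * T)))) * q ^ 8 := mul_le_mul_of_nonneg_right hZ (by positivity)
      _ ≤ ((C₁ * (x * q ^ 4)) * (4 * (Yc * (Yc * ((N * V) ^ 2 * b ^ 3)) / x) +
          2 * r * (Yc * (N * T)))) * q ^ 8 := by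
          refine mul_le_mul_of_nonneg_right (mul_le_mul_of_nonneg_right hXc ?_) (by positivity)
          positivity
      _ = _ := by
          field_simp
  have hN2 : N ^ 2 ≤ 16 * N₁ ^ 2 := by
    have := pow_le_pow_left₀ hN0 hNN 2
    rw [mul_pow] at this
    norm_num at this
    exact this
  have hV2 : V ^ 2 ≤ q ^ 2 * a ^ 2 := by
    have := pow_le_pow_left₀ hV0 hV 2
    rwa [mul_pow] at this
  have hb3 : q ^ 15 * b ^ 3 ≤ b ^ 4 := by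
    calc q ^ 15 * b ^ 3 ≤ b * b ^ 3 := mul_le_mul_of_nonneg_right hb1 (by positivity)
      _ = b ^ 4 := by ring
  have hC : 128 * C₁ ≤ q := by
    refine le_trans ?_ h8
    nlinarith
  have hCr : 128 * (r * C₁) ≤ q := by
    refine le_trans ?_ h8
    nlinarith
  have h2 : C₁ * q ^ 12 * (4 * (Yc ^ 2 * N ^ 2 * V ^ 2 * b ^ 3)) ≤ P * b ^ 4 / 2 := by
    calc C₁ * q ^ 12 * (4 * (Yc ^ 2 * N ^ 2 * V ^ 2 * b ^ 3)) ≤
          C₁ * q ^ 12 * (4 * (Yc ^ 2 * (16 * N₁ ^ 2) * (q ^ 2 * a ^ 2) * b ^ 3)) := by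
          gcongr
      _ = (128 * C₁) * q ^ 14 * (P * b ^ 3) / 2 := by rw [hP]; ring
      _ ≤ q * q ^ 14 * (P * b ^ 3) / 2 := by
          have := mul_le_mul_of_nonneg_right hC (show 0 ≤ q ^ 14 * (P * b ^ 3) by positivity)
          linarith
      _ = P * (q ^ 15 * b ^ 3) / 2 := by ring
      _ ≤ P * b ^ 4 / 2 := by
          have := mul_le_mul_of_nonneg_left hb3 hP0
          linarith
  have hTx : T * x ≤ N ^ 2 * (V ^ 2 * b ^ 4) / q ^ 64 := by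
    rw [le_div_iff₀ (by positivity)]
    calc T * x * q ^ 64 = T * (x * q ^ 64) := by ring
      _ ≤ _ := hT
  have h3 : 2 * r * C₁ * q ^ 12 * (Yc * N * (T * x)) ≤ P * b ^ 4 / 2 := by
    calc 2 * r * C₁ * q ^ 12 * (Yc * N * (T * x)) ≤
          2 * r * C₁ * q ^ 12 * (Yc * N * (N ^ 2 * (V ^ 2 * b ^ 4) / q ^ 64)) := by
          gcongr
      _ ≤ 2 * r * C₁ * q ^ 12 * (Yc * (2 * q ^ 3 * Yc) * ((16 * N₁ ^ 2) * ((q ^ 2 * a ^ 2) *
          b ^ 4) / q ^ 64)) := by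
          gcongr
      _ = (128 * (r * C₁)) * q ^ 17 * (P * b ^ 4) / q ^ 64 / 2 := by rw [hP]; ring
      _ ≤ q * q ^ 17 * (P * b ^ 4) / q ^ 64 / 2 := by
          have h4 := mul_le_mul_of_nonneg_right hCr
            (show 0 ≤ q ^ 17 * (P * b ^ 4) / q ^ 64 by positivity)
          have e1 : 128 * (r * C₁) * (q ^ 17 * (P * b ^ 4) / q ^ 64) =
            (128 * (r * C₁)) * q ^ 17 * (P * b ^ 4) / q ^ 64 := by ring
          have e2 : q * (q ^ 17 * (P * b ^ 4) / q ^ 64) =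
            q * q ^ 17 * (P * b ^ 4) / q ^ 64 := by ring
          linarith
      _ ≤ P * b ^ 4 / 2 := by
          refine div_le_div_of_nonneg_right ?_ (by norm_num)
          rw [div_le_iff₀ (by positivity)]
          calc q * q ^ 17 * (P * b ^ 4) = P * b ^ 4 * q ^ 18 := by ring
            _ ≤ P * b ^ 4 * q ^ 64 := mul_le_mul_of_nonneg_left
                (pow_le_pow_right₀ hq (by norm_num)) (by positivity)
  calc Z ^ 2 * q ^ 8 ≤ P * b ^ 4 / 2 + P * b ^ 4 / 2 := h1.trans (add_le_add h2 h3)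
    _ = _ := by rw [hP]; ring

theorem cl_mono {p : ℕ} (K K' : ℕ) (h : K ≤ K') (U V : Finset (ZMod p)) :
    (cl K U V).card ≤ (cl K' U V).card := by
  classical
  refine card_le_card fun x hx => ?_
  unfold cl at hx ⊢
  obtain ⟨h1, m, hm, hm2⟩ := mem_filter.1 hx
  refine mem_filter.2 ⟨h1, m, lt_of_lt_of_le hm ?_, hm2⟩
  exact_mod_cast h

/-- the second moment of the weights of the pairs -/
theorem vp_sq {p : ℕ} [Fact p.Prime] (Y : Finset ℕ) (W : ℝ) (Y0 T r k h N₁ N : ℕ)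
    (hW0 : 0 < W) (hW : 2 * (Y0 * W) < p) (hY : ∀ y ∈ Y, y.Prime) (hY0 : ∀ y ∈ Y, y ≤ Y0)
    (hYp : Y0 < p) (hT : ∀ y ∈ Y, T ≤ y) (hr : p < T ^ (r + 1)) (hh : 1 ≤ h)
    (hδ : (p : ℝ) * (p / (2 * W)) ^ k ≤ (h : ℝ) ^ k) (hkh : N₁ + k * h ≤ N) (hNp : N ≤ p)
    (U B : Finset (ZMod p)) :
    ∑ w : ZMod p × ZMod p, vp Y N₁ h U B w ^ 2 ≤
      4 * ((Y.card : ℝ) * (Y.card * ((N * U.card) ^ 2 * (B.card : ℝ) ^ 3)) / p) +
        2 * r * (Y.card * (N * ((TT 1 N U B).card : ℝ))) := by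
  have hp : (0 : ℝ) < p := by exact_mod_cast (Fact.out : p.Prime).pos
  have hyz : ∀ y ∈ Y, ((y : ℕ) : ZMod p) ≠ 0 := by
    intro y hy h
    rw [ZMod.natCast_eq_zero_iff] at h
    have := Nat.le_of_dvd (hY y hy).pos h
    have := hY0 y hy
    omega
  rw [sum_vp]
  have h1 : ∀ δ : ZMod p, ∑ s : ZMod p,
      (∑ y ∈ Y, wn N₁ h (rp U (tr B (δ * (y : ZMod p)))) 0 (s * (y : ZMod p))) ^ 2 ≤
      4 * (Y.card * (∑ y ∈ Y, (∑ t, wn N₁ h (rp U (tr B (δ * (y : ZMod p)))) k t) ^ 2) / p) +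
        2 * r * ∑ y ∈ Y, ∑ t, wn N₁ h (rp U (tr B (δ * (y : ZMod p)))) k t ^ 2 := fun δ =>
    energyP Y W Y0 T r k h hW0 hW hY hY0 hYp hT hr hh hδ
      (fun y t => wn N₁ h (rp U (tr B (δ * (y : ZMod p)))) 0 t)
      (fun y t => wn N₁ h (rp U (tr B (δ * (y : ZMod p)))) k t)
      (fun y t => wn_nonneg _ _ _ (rp_nonneg _ _) _ _)
      (fun y t => wn_nonneg _ _ _ (rp_nonneg _ _) _ _)
      (fun y t => wn_maj N₁ h hh _ (rp_nonneg _ _) k t)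
  refine (Finset.sum_le_sum fun δ _ => h1 δ).trans ?_
  rw [Finset.sum_add_distrib, ← Finset.mul_sum, ← Finset.mul_sum]
  have hNR : ((N₁ + k * h : ℕ) : ℝ) ≤ N := by exact_mod_cast hkh
  refine add_le_add ?_ ?_
  · refine mul_le_mul_of_nonneg_left ?_ (by norm_num)
    rw [← Finset.sum_div, ← Finset.mul_sum]
    refine div_le_div_of_nonneg_right (mul_le_mul_of_nonneg_left ?_ (Nat.cast_nonneg _)) hp.le
    rw [Finset.sum_comm, ← nsmul_eq_mul]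
    refine Finset.sum_le_card_nsmul _ _ _ fun y hy => ?_
    have h2 : ∀ δ : ZMod p, (∑ t, wn N₁ h (rp U (tr B (δ * (y : ZMod p)))) k t) ^ 2 ≤
        (N * U.card) ^ 2 * ((tr B (δ * (y : ZMod p))).card : ℝ) ^ 2 := by
      intro δ
      rw [wn_sum, sum_rp_one, ← mul_pow]
      refine pow_le_pow_left₀ (by positivity) ?_ 2
      rw [mul_assoc (N : ℝ)]
      exact mul_le_mul_of_nonneg_right hNR (by positivity)
    refine (Finset.sum_le_sum fun δ _ => h2 δ).trans ?_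
    rw [← Finset.mul_sum]
    refine mul_le_mul_of_nonneg_left ?_ (by positivity)
    have h3 := Equiv.sum_comp (Equiv.mulRight₀ (y : ZMod p) (hyz y hy))
      (fun d => ((tr B d).card : ℝ) ^ 2)
    have h4 := sum_tr_sq B
    rw [← h3] at h4
    exact h4
  · refine mul_le_mul_of_nonneg_left ?_ (by positivity)
    rw [Finset.sum_comm, ← nsmul_eq_mul]
    refine Finset.sum_le_card_nsmul _ _ _ fun y hy => ?_
    have h2 : ∀ δ : ZMod p, ∑ t, wn N₁ h (rp U (tr B (δ * (y : ZMod p)))) k t ^ 2 ≤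
        N * ((cl N U (tr B (δ * (y : ZMod p)))).card : ℝ) := by
      intro δ
      refine (sqwin (N₁ + k * h) (hkh.trans hNp) U (tr B (δ * (y : ZMod p)))
        ((k * h : ℕ) : ZMod p)).trans ?_
      refine mul_le_mul hNR ?_ (Nat.cast_nonneg _) (Nat.cast_nonneg _)
      exact_mod_cast cl_mono _ _ hkh U _
    refine (Finset.sum_le_sum fun δ _ => h2 δ).trans ?_
    rw [← Finset.mul_sum]
    refine mul_le_mul_of_nonneg_left ?_ (Nat.cast_nonneg _)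
    have h3 := Equiv.sum_comp (Equiv.mulRight₀ (y : ZMod p) (hyz y hy))
      (fun d => ((cl N U (tr B d)).card : ℝ))
    have h4 := sum_cl N U B
    rw [← h3] at h4
    exact h4

/-- averaging the shifted bound over the multipliers and the short shifts -/
theorem ite_avg {p : ℕ} [Fact p.Prime] (χ : DirichletCharacter ℂ p) (L : ℕ) (hL : 1 ≤ L)
    (Bd : ℝ) (hBd : 0 ≤ Bd) (Y : Finset ℕ) (hY : ∀ y ∈ Y, ((y : ℕ) : ZMod p) ≠ 0) (N₁ h : ℕ)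
    (A₀ B₀ U : Finset (ZMod p))
    (hU : ∀ n ∈ range N₁, ∀ y ∈ Y, ∀ a ∈ A₀, ∀ i : Fin L,
      a - ((i : ℕ) : ZMod p) * (y : ZMod p) - (n : ZMod p) ∈ U)
    (g : ZMod p → ℂ) (hg : ∀ x, ‖g x‖ ≤ 1) (Z : ℝ)
    (hZ : ∑ w ∈ Bad2 χ L Bd, vp Y N₁ h U B₀ w ≤ N₁ * Y.card * Z) (hY0 : 0 < Y.card)
    (hN0 : 0 < N₁) :
    ∑ a ∈ A₀, ‖∑ b ∈ B₀, g b * χ (a + b)‖ ^ 2 ≤
      Bd / L * ((U.card : ℝ) * (B₀.card : ℝ) ^ 2) + Z := by
  classical
  have hYpos : (0 : ℝ) < N₁ * Y.card := by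
    have h1 : (0 : ℝ) < N₁ := by exact_mod_cast hN0
    have h2 : (0 : ℝ) < Y.card := by exact_mod_cast hY0
    exact mul_pos h1 h2
  have h1 : ∑ n ∈ range N₁, ∑ y ∈ Y, ∑ a ∈ A₀, ‖∑ b ∈ B₀, g b * χ (a + b)‖ ^ 2 ≤
      ∑ n ∈ range N₁, ∑ y ∈ Y, (Bd / L * ((U.card : ℝ) * (B₀.card : ℝ) ^ 2) +
      (((((U.image fun u => u + (n : ZMod p)) ×ˢ (B₀ ×ˢ B₀)).filter fun t =>
        ((t.1 + t.2.1) / (y : ZMod p), (t.1 + t.2.2) / (y : ZMod p)) ∈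
          Bad2 χ L Bd).card : ℕ) : ℝ)) := by
    refine Finset.sum_le_sum fun n hn => Finset.sum_le_sum fun y hy => ?_
    have h2 := shift_one χ L hL Bd hBd (y : ZMod p) (hY y hy) A₀ B₀
      (U.image fun u => u + (n : ZMod p)) (fun a ha i => mem_image.2
        ⟨_, hU n hn y hy a ha i, sub_add_cancel _ _⟩) g hg
    rw [card_image_of_injective _ (add_left_injective (n : ZMod p))] at h2
    exact h2
  simp only [Finset.sum_add_distrib, Finset.sum_const, nsmul_eq_mul, card_range] at h1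
  have h3 := count_all Y hY N₁ h U B₀ (Bad2 χ L Bd)
  have h2 : ((N₁ : ℝ) * Y.card) * ∑ a ∈ A₀, ‖∑ b ∈ B₀, g b * χ (a + b)‖ ^ 2 ≤
      (N₁ * Y.card) * (Bd / L * ((U.card : ℝ) * (B₀.card : ℝ) ^ 2) + Z) := by
    rw [mul_add, mul_assoc, mul_assoc (N₁ : ℝ) (Y.card : ℝ) (Bd / L * _)]
    linarith
  exact le_of_mul_le_mul_left h2 hYpos

end Pool.Agent.H58BU
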