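import Pool.Agent.H58BU.I

/-! # One set nearly invariant, the other arbitrary: power saving from the energy -/

set_option autoImplicit false
set_option linter.unusedSectionVars false

namespace Pool.Agent.H58BU

open Finset Pool.Agent.TH7.PG

theorem e_aux (n y s q : ℝ) (hq : 0 < q) :
    (n * y * (1 / q ^ 4 * s)) ^ 2 = (n * y * s) ^ 2 / q ^ 8 := by
  field_simp

theorem ite_one (ε : ℝ) (hε : 0 < ε) (hε1 : ε ≤ 1) : ∃ τ : ℝ, 0 < τ ∧ ∃ p₀ : ℕ,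
    ∀ (p : ℕ) [Fact p.Prime], p₀ ≤ p → ∀ χ : DirichletCharacter ℂ p, χ ≠ 1 →
    ∀ (A U B : Finset (ZMod p)) (N : ℕ), (p : ℝ) ^ ε ≤ N → N ≤ p →
      (∀ a ∈ A, ∀ n < N, a - (n : ZMod p) ∈ U) → (U.card : ℝ) ≤ (p : ℝ) ^ τ * A.card →
      (p : ℝ) ^ ε ≤ B.card →
      ((TT 1 N U B).card : ℝ) * (p : ℝ) ^ (1 + ε) ≤
        (N : ℝ) ^ 2 * ((U.card : ℝ) ^ 2 * (B.card : ℝ) ^ 4) →
      ∀ f g : ZMod p → ℂ, ‖∑ a ∈ A, ∑ b ∈ B, f a * g b * χ (a + b)‖ ≤ (p : ℝ) ^ (-τ) *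
        ((Real.sqrt A.card * Real.sqrt B.card) *
          (Real.sqrt (∑ a ∈ A, ‖f a‖ ^ 2) * Real.sqrt (∑ b ∈ B, ‖g b‖ ^ 2))) := by
  classical
  obtain ⟨κ, hκ⟩ : ∃ κ : ℝ, κ = ε / 64 := ⟨_, rfl⟩
  have hεκ : ε = 64 * κ := by rw [hκ]; ring
  have hκ0 : 0 < κ := by rw [hκ]; positivity
  have hκ64 : κ ≤ 1 / 64 := by rw [hκ]; linarith
  have hκ1 : κ ≤ 1 := by linarith
  have hκκ0 : 0 < κ * κ := mul_pos hκ0 hκ0
  set k : ℕ := ⌈1 / κ⌉₊ with hk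
  have hk1 : 1 ≤ κ * k := by
    have h1 : 1 / κ ≤ k := Nat.le_ceil _
    rw [div_le_iff₀ hκ0] at h1
    linarith
  have hk2 : κ * k ≤ 2 := by
    have h1 : (k : ℝ) < 1 / κ + 1 := Nat.ceil_lt_add_one (by positivity)
    have h2 : κ * k < κ * (1 / κ + 1) := mul_lt_mul_of_pos_left h1 hκ0
    have h3 : κ * (1 / κ + 1) = 1 + κ := by
      field_simp
    linarith
  have hkn : 1 ≤ k := by
    rw [hk]
    exact Nat.one_le_ceil_iff.2 (by positivity)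
  set C₁ : ℝ := (k : ℝ) ^ (2 * k) * 2 ^ k + (2 * k) ^ 2 with hC₁
  have hC0 : 0 ≤ C₁ := by positivity
  obtain ⟨p₁, hp₁⟩ := large 4 κ hκ0
  obtain ⟨p₂, hp₂⟩ := large (128 * (1 + k) * C₁) κ hκ0
  obtain ⟨p₃, hp₃⟩ := large 3 (κ * κ / 16) (by positivity)
  obtain ⟨p₄, hp₄⟩ := large 3 (κ * κ / 4 / 12) (by positivity)
  obtain ⟨p₅, hp₅⟩ := half_params κ hκ0 hκ64 k hk1 hkn
  refine ⟨κ * κ / 16, by positivity, max p₅ (max (max p₁ p₂) (max p₃ p₄)), ?_⟩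
  intro p hpf hp' χ hχ A U B N hN hNp hAU hA hB hT
  have hp5 := hp₅ p ((le_max_left _ _).trans hp')
  have hp : max (max p₁ p₂) (max p₃ p₄) ≤ p := (le_max_right _ _).trans hp'
  have hp1 := hp₁ p (((le_max_left _ _).trans (le_max_left _ _)).trans hp)
  have hp2 := hp₂ p (((le_max_right _ _).trans (le_max_left _ _)).trans hp)
  have hp3 := hp₃ p (((le_max_left _ _).trans (le_max_right _ _)).trans hp)
  have hp4 := hp₄ p (((le_max_right _ _).trans (le_max_right _ _)).trans hp)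
  have hpR : (1 : ℝ) ≤ p := by exact_mod_cast (Fact.out : p.Prime).one_lt.le
  have hp0 : (0 : ℝ) < p := by linarith
  have hab0 : (0 : ℝ) ≤ (A.card : ℝ) * B.card := mul_nonneg (Nat.cast_nonneg _) (Nat.cast_nonneg _)
  rw [hεκ] at hN hB hT
  obtain ⟨h, Y0, W, Y, hh1, hkh, hW0, hYW, hδ, hY0p, hY, hYc, hLY, hY01, hYpos⟩ :=
    hp5 N hN hNp
  set L : ℕ := ⌊(p : ℝ) ^ κ⌋₊ with hL
  have hLle : (L : ℝ) ≤ (p : ℝ) ^ κ := Nat.floor_le (by positivity)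
  have hLge : (p : ℝ) ^ κ / 2 ≤ L := by
    have := Nat.lt_floor_add_one ((p : ℝ) ^ κ)
    rw [← hL] at this
    linarith
  have hL1 : 1 ≤ L := by
    rw [hL]
    exact Nat.le_floor (by push_cast; linarith)
  have hL1' : (1 : ℝ) ≤ L := by exact_mod_cast hL1
  have hLp : L ≤ p := by
    have h1 : (L : ℝ) ≤ p := by
      refine hLle.trans ?_
      calc (p : ℝ) ^ κ ≤ (p : ℝ) ^ (1 : ℝ) := Real.rpow_le_rpow_of_exponent_le hpR hκ1
        _ = p := Real.rpow_one _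
    exact_mod_cast h1
  have hLpos : (0 : ℝ) < L := by linarith
  set Bd : ℝ := (L : ℝ) ^ (1 - κ) with hBd
  have hBd0 : 0 < Bd := by positivity
  have hX : ((Bad2 χ L Bd).card : ℝ) ≤ C₁ * (p : ℝ) ^ (1 + 4 * κ) :=
    (bad2_card χ hχ k L hkn hLp Bd hBd0).trans
      (M2_num p κ κ k L hpR hκ0 hκ0 (by linarith) hk1 hk2 hL1' hLge hLle)
  -- the short shifts
  have hN4 : (4 : ℝ) ≤ N := by
    refine (hp1.trans ?_).trans hN
    exact Real.rpow_le_rpow_of_exponent_le hpR (by linarith)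
  have hN4' : 4 ≤ N := by exact_mod_cast hN4
  obtain ⟨N₁, hN₁⟩ : ∃ N₁ : ℕ, N₁ = N / 2 := ⟨_, rfl⟩
  rw [← hN₁] at hkh hLY
  have hN₁4 : (N : ℝ) ≤ 4 * N₁ := by
    have h1 : N ≤ 4 * N₁ := by omega
    exact_mod_cast h1
  have hN₁0 : 0 < N₁ := by omega
  have hYz : ∀ y ∈ Y, ((y : ℕ) : ZMod p) ≠ 0 := by
    intro y hy h
    rw [ZMod.natCast_eq_zero_iff] at h
    have := Nat.le_of_dvd (hY y hy).1.pos h
    have := (hY y hy).2.2
    omega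
  have hUmem : ∀ n ∈ range N₁, ∀ y ∈ Y, ∀ a ∈ A, ∀ i : Fin L,
      a - ((i : ℕ) : ZMod p) * (y : ZMod p) - (n : ZMod p) ∈ U := by
    intro n hn y hy a ha i
    have hn' := mem_range.1 hn
    have h1 : (i : ℕ) * y + n < N := by
      have h2 : ((i : ℕ) + 1) * y ≤ L * Y0 := Nat.mul_le_mul i.2 (hY y hy).2.2
      have h3 : 0 < y := (hY y hy).1.pos
      have h4 : ((i : ℕ) + 1) * y = (i : ℕ) * y + y := by ring
      omega
    have h2 := hAU a ha ((i : ℕ) * y + n) h1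
    have h3 : a - ((i : ℕ) : ZMod p) * (y : ZMod p) - (n : ZMod p) =
        a - (((i : ℕ) * y + n : ℕ) : ZMod p) := by
      push_cast
      ring
    rw [h3]
    exact h2
  have hr : p < ⌈(p : ℝ) ^ κ⌉₊ ^ (k + 1) := by
    have h1 : (p : ℝ) < ((⌈(p : ℝ) ^ κ⌉₊ ^ (k + 1) : ℕ) : ℝ) := by
      push_cast
      calc (p : ℝ) = (p : ℝ) ^ (1 : ℝ) := (Real.rpow_one _).symm
        _ < (p : ℝ) ^ (κ * (k + 1 : ℕ)) := by
            refine Real.rpow_lt_rpow_of_exponent_lt ?_ ?_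
            · exact_mod_cast (Fact.out : p.Prime).one_lt
            · push_cast
              linarith
        _ = ((p : ℝ) ^ κ) ^ (k + 1) := by rw [Real.rpow_mul hp0.le, Real.rpow_natCast]
        _ ≤ ((⌈(p : ℝ) ^ κ⌉₊ : ℕ) : ℝ) ^ (k + 1) :=
            pow_le_pow_left₀ (by positivity) (Nat.le_ceil _) _
    exact_mod_cast h1
  have hen := vp_sq Y W Y0 ⌈(p : ℝ) ^ κ⌉₊ k k h N₁ N hW0 hYW (fun y hy => (hY y hy).1)
    (fun y hy => (hY y hy).2.2) hY0p (fun y hy => (hY y hy).2.1) hr hh1 hδ hkh hNp U B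
  obtain ⟨Z, hZ⟩ : ∃ Z : ℝ, Z = ∑ w ∈ Bad2 χ L Bd, vp Y N₁ h U B w := ⟨_, rfl⟩
  -- powers of `q = p ^ κ`
  obtain ⟨q, hq⟩ : ∃ q : ℝ, q = (p : ℝ) ^ κ := ⟨_, rfl⟩
  have hqn : ∀ n : ℕ, q ^ n = (p : ℝ) ^ (n * κ) := by
    intro n
    rw [hq, ← Real.rpow_natCast, ← Real.rpow_mul hp0.le]
    congr 1
    ring
  have hq1 : 1 ≤ q := by
    rw [hq]
    linarith
  have hq0 : 0 < q := by linarith
  have hUA : (U.card : ℝ) ≤ q * A.card := by
    refine hA.trans (mul_le_mul_of_nonneg_right ?_ (Nat.cast_nonneg _))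
    rw [hq]
    exact Real.rpow_le_rpow_of_exponent_le hpR (by nlinarith)
  have hZle : Z ≤ N₁ * Y.card * ((p : ℝ) ^ (-(4 * κ)) * (A.card * (B.card : ℝ) ^ 2)) := by
    have hcs : Z ^ 2 ≤ (Bad2 χ L Bd).card * ∑ w : ZMod p × ZMod p, vp Y N₁ h U B w ^ 2 := by
      rw [hZ]
      refine (sq_sum_le_card_mul_sum_sq (s := Bad2 χ L Bd)
        (f := fun w => vp Y N₁ h U B w)).trans ?_
      refine mul_le_mul_of_nonneg_left ?_ (Nat.cast_nonneg _)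
      exact Finset.sum_le_sum_of_subset_of_nonneg (subset_univ _) fun _ _ _ => sq_nonneg _
    have h1 : Z ^ 2 * q ^ 8 ≤ (N₁ * Y.card * (A.card * (B.card : ℝ) ^ 2)) ^ 2 := by
      refine ite_num p q C₁ Z (Bad2 χ L Bd).card A.card B.card Y.card U.card k N N₁
        (TT 1 N U B).card hp0 hq1 hC0
        (Nat.cast_nonneg _) (Nat.cast_nonneg _) (Nat.cast_nonneg _) (Nat.cast_nonneg _)
        (Nat.cast_nonneg _) (Nat.cast_nonneg _) (Nat.cast_nonneg _) (Nat.cast_nonneg _)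
        (Nat.cast_nonneg _) ?_ hUA ?_ hN₁4 ?_ ?_ ?_ ?_
      · refine hX.trans (le_of_eq ?_)
        rw [hqn, Real.rpow_add hp0, Real.rpow_one]
        norm_num
      · rw [hqn]
        refine le_trans (Real.rpow_le_rpow_of_exponent_le hpR ?_) hB
        push_cast
        linarith
      · have h2 : (N : ℝ) * (p : ℝ) ^ (-(3 * κ)) ≤ 2 * Y.card := by linarith
        have h3 : (p : ℝ) ^ (-(3 * κ)) * q ^ 3 = 1 := by
          rw [hqn, ← Real.rpow_add hp0]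
          norm_num
        calc (N : ℝ) = N * (p : ℝ) ^ (-(3 * κ)) * q ^ 3 := by rw [mul_assoc, h3, mul_one]
          _ ≤ 2 * Y.card * q ^ 3 := mul_le_mul_of_nonneg_right h2 (by positivity)
          _ = 2 * q ^ 3 * Y.card := by ring
      · refine le_trans (le_of_eq ?_) hT
        rw [hqn, Real.rpow_add hp0, Real.rpow_one]
        norm_num
      · rw [hq]
        exact hp2
      · exact hcs.trans (mul_le_mul_of_nonneg_left hen (Nat.cast_nonneg _))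
    have h4 : (p : ℝ) ^ (-(4 * κ)) = 1 / q ^ 4 := by
      rw [hqn, Real.rpow_neg hp0.le, one_div]
      norm_num
    have h2 : Z ^ 2 ≤ (N₁ * Y.card * ((p : ℝ) ^ (-(4 * κ)) * (A.card * (B.card : ℝ) ^ 2))) ^ 2 := by
      have e1 : (N₁ * Y.card * ((p : ℝ) ^ (-(4 * κ)) * (A.card * (B.card : ℝ) ^ 2))) ^ 2 =
          (N₁ * Y.card * (A.card * (B.card : ℝ) ^ 2)) ^ 2 / q ^ 8 := by
        rw [h4]
        exact e_aux _ _ _ q hq0
      rw [e1, le_div_iff₀ (pow_pos hq0 8)]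
      exact h1
    refine le_of_sq_le_sq h2 ?_
    exact mul_nonneg (mul_nonneg (Nat.cast_nonneg _) (Nat.cast_nonneg _))
      (mul_nonneg (Real.rpow_nonneg hp0.le _) (mul_nonneg (Nat.cast_nonneg _)
        (pow_nonneg (Nat.cast_nonneg _) 2)))
  have hR : Bd / L ≤ 2 * (p : ℝ) ^ (-(κ * κ)) :=
    R2_num p κ κ L hpR hκ0 (by linarith) hκ0 hL1' hLge
  have hbdd : ∀ f g : ZMod p → ℂ, (∀ x, ‖f x‖ ≤ 1) → (∀ x, ‖g x‖ ≤ 1) →
      ‖∑ a ∈ A, ∑ b ∈ B, f a * g b * χ (a + b)‖ ≤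
        (p : ℝ) ^ (-(κ * κ / 4)) * (A.card * B.card) := by
    intro f g hf hg
    have hsb := ite_avg χ L hL1 Bd hBd0.le Y hYz N₁ h A B U hUmem g hg
      ((p : ℝ) ^ (-(4 * κ)) * (A.card * (B.card : ℝ) ^ 2)) (hZ ▸ hZle) hYpos hN₁0
    have hcs : ‖∑ a ∈ A, ∑ b ∈ B, f a * g b * χ (a + b)‖ ^ 2 ≤
        A.card * ∑ a ∈ A, ‖∑ b ∈ B, g b * χ (a + b)‖ ^ 2 := by
      have h1 : ‖∑ a ∈ A, ∑ b ∈ B, f a * g b * χ (a + b)‖ ≤
          ∑ a ∈ A, ‖f a‖ * ‖∑ b ∈ B, g b * χ (a + b)‖ := by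
        refine (norm_sum_le _ _).trans (Finset.sum_le_sum fun a _ => ?_)
        rw [← norm_mul, Finset.mul_sum]
        simp only [mul_assoc]
        exact le_rfl
      have h2 := Finset.sum_mul_sq_le_sq_mul_sq A (fun a => ‖f a‖)
        (fun a => ‖∑ b ∈ B, g b * χ (a + b)‖)
      have h3 : ∑ a ∈ A, ‖f a‖ ^ 2 ≤ A.card := by
        calc ∑ a ∈ A, ‖f a‖ ^ 2 ≤ ∑ _a ∈ A, (1 : ℝ) :=
              Finset.sum_le_sum fun a _ => pow_le_one₀ (norm_nonneg _) (hf a)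
          _ = A.card := by simp
      calc _ ≤ (∑ a ∈ A, ‖f a‖ * ‖∑ b ∈ B, g b * χ (a + b)‖) ^ 2 :=
            pow_le_pow_left₀ (norm_nonneg _) h1 2
        _ ≤ _ := h2
        _ ≤ _ := mul_le_mul_of_nonneg_right h3 (Finset.sum_nonneg fun _ _ => by positivity)
    have hfin : ‖∑ a ∈ A, ∑ b ∈ B, f a * g b * χ (a + b)‖ ^ 2 ≤
        ((p : ℝ) ^ (-(κ * κ / 4)) * (A.card * B.card)) ^ 2 := by
      refine hcs.trans ((mul_le_mul_of_nonneg_left hsb (Nat.cast_nonneg _)).trans ?_)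
      have h1 := one_num p κ κ (4 * κ) A.card B.card U.card 1 (Bd / L) hpR hκ0 hκ0
        le_rfl (by nlinarith) (Nat.cast_nonneg _) (Nat.cast_nonneg _) hA
        (Nat.cast_nonneg _) (by linarith) zero_le_one hR hp3
      rw [one_mul] at h1
      exact h1
    exact le_of_sq_le_sq hfin (mul_nonneg (Real.rpow_nonneg hp0.le _) hab0)
  intro f g
  have h1 := linf_to_l2_pow A B (fun a b => χ (a + b)) (fun a b => χ.norm_le_one _) p (κ * κ / 4)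
    hpR hp4 hbdd f g
  have e1 : κ * κ / 4 / 4 = κ * κ / 16 := by ring
  rw [e1] at h1
  exact h1

end Pool.Agent.H58BU
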