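import Pool.Agent.H58BU.K
import Mathlib.Combinatorics.Additive.Energy

/-! # The energy bounds the number of pairs of representations -/

set_option autoImplicit false
set_option linter.unusedSectionVars false

namespace Pool.Agent.H58BU

open Finset Pool.Agent.TH7.PG

open Classical in
theorem TT_energy {p : ℕ} [Fact p.Prime] (z : ZMod p) (N : ℕ) (U B : Finset (ZMod p)) :
    (TT z N U B).card ≤ 2 * N * (U.card * addEnergy B B) := by
  set E : Finset ((ZMod p × ZMod p) × (ZMod p × ZMod p)) :=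
    ((B ×ˢ B) ×ˢ (B ×ˢ B)).filter fun x => x.1.1 + x.2.1 = x.1.2 + x.2.2 with hE
  have hEc : addEnergy B B = E.card := rfl
  set F : ((ZMod p × ZMod p) × ((ZMod p × ZMod p) × (ZMod p × ZMod p))) →
    ZMod p × ((ZMod p × ZMod p) × (ZMod p × ZMod p)) := fun t =>
      (t.1.1, ((t.2.1.2, t.2.2.2), (t.2.2.1, t.2.1.1))) with hF
  have h1 : ∀ a ∈ (TT z N U B).image F, ((TT z N U B).filter fun x => F x = a).card ≤ 2 * N := by
    intro a _
    have h2 : ((TT z N U B).filter fun x => F x = a) ⊆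
        (Ioo (-(N : ℤ)) N).image fun m : ℤ =>
          ((a.1, a.1 + a.2.2.2 - a.2.2.1 - (m : ZMod p) * z),
            ((a.2.2.2, a.2.1.1), (a.2.2.1, a.2.1.2))) := by
      intro t ht
      obtain ⟨h3, h4⟩ := mem_filter.1 ht
      unfold TT at h3
      obtain ⟨_, _, m, hm, hm2⟩ := mem_filter.1 h3
      refine mem_image.2 ⟨m, mem_Ioo.2 (abs_lt.1 hm), ?_⟩
      rw [← h4]
      refine Prod.ext (Prod.ext rfl ?_) rfl
      show t.1.1 + t.2.1.1 - t.2.2.1 - (m : ZMod p) * z = t.1.2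
      rw [← hm2]
      ring
    refine (card_le_card h2).trans (card_image_le.trans ?_)
    rw [Int.card_Ioo]
    omega
  have h2 : (TT z N U B).image F ⊆ U ×ˢ E := by
    intro a ha
    obtain ⟨t, ht, rfl⟩ := mem_image.1 ha
    unfold TT at ht
    obtain ⟨h3, h4, _⟩ := mem_filter.1 ht
    obtain ⟨h5, h6⟩ := mem_product.1 h3
    obtain ⟨h7, h8⟩ := mem_product.1 h6
    obtain ⟨h9, h10⟩ := mem_product.1 h7
    obtain ⟨h11, h12⟩ := mem_product.1 h8
    refine mem_product.2 ⟨(mem_product.1 h5).1, mem_filter.2 ⟨mem_product.2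
      ⟨mem_product.2 ⟨h10, h12⟩, mem_product.2 ⟨h11, h9⟩⟩, ?_⟩⟩
    show t.2.1.2 + t.2.2.1 = t.2.2.2 + t.2.1.1
    have e : t.2.1.2 = t.2.2.2 - t.2.2.1 + t.2.1.1 := by rw [← h4]; ring
    rw [e]
    ring
  have h3 := Finset.card_le_mul_card_image (TT z N U B) (2 * N) h1
  refine h3.trans (Nat.mul_le_mul_left _ ?_)
  refine (card_le_card h2).trans (le_of_eq ?_)
  rw [card_product, hEc]

open Classical in
theorem ite_final (ε : ℝ) (hε : 0 < ε) : ∃ τ : ℝ, 0 < τ ∧ ∃ p₀ : ℕ,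
    ∀ (p : ℕ) [Fact p.Prime], p₀ ≤ p → ∀ χ : DirichletCharacter ℂ p, χ ≠ 1 →
    ∀ (A U B : Finset (ZMod p)) (z : ZMod p) (N : ℕ), z ≠ 0 → (p : ℝ) ^ ε ≤ N → N ≤ p →
      (∀ a ∈ A, ∀ n < N, a + (n : ZMod p) * z ∈ U) → (U.card : ℝ) ≤ (p : ℝ) ^ τ * A.card →
      (p : ℝ) ^ ε ≤ B.card →
      ((addEnergy B B : ℝ) * (p : ℝ) ^ (1 + ε) ≤ N * (A.card * (B.card : ℝ) ^ 4) ∨
        ((TT z N U B).card : ℝ) * (p : ℝ) ^ (1 + ε) ≤
          (N : ℝ) ^ 2 * ((U.card : ℝ) ^ 2 * (B.card : ℝ) ^ 4)) →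
      ∀ f g : ZMod p → ℂ, ‖∑ a ∈ A, ∑ b ∈ B, f a * g b * χ (a + b)‖ ≤ (p : ℝ) ^ (-τ) *
        ((Real.sqrt A.card * Real.sqrt B.card) *
          (Real.sqrt (∑ a ∈ A, ‖f a‖ ^ 2) * Real.sqrt (∑ b ∈ B, ‖g b‖ ^ 2))) := by
  obtain ⟨τ, hτ, p₁, h⟩ := ite_any (ε / 2) (by linarith)
  obtain ⟨p₂, hp₂⟩ := large 2 (ε / 2) (by linarith)
  refine ⟨τ, hτ, max p₁ p₂, ?_⟩
  intro p hpf hp χ hχ A U B z N hz hN hNp hAU hA hB hT f g
  have hp2 := hp₂ p ((le_max_right _ _).trans hp)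
  have hpR : (1 : ℝ) ≤ p := by exact_mod_cast (Fact.out : p.Prime).one_lt.le
  have hp0 : (0 : ℝ) < p := by linarith
  have hle : (p : ℝ) ^ (ε / 2) ≤ (p : ℝ) ^ ε :=
    Real.rpow_le_rpow_of_exponent_le hpR (by linarith)
  have hle2 : (p : ℝ) ^ (1 + ε / 2) ≤ (p : ℝ) ^ (1 + ε) :=
    Real.rpow_le_rpow_of_exponent_le hpR (by linarith)
  refine h p ((le_max_left _ _).trans hp) χ hχ A U B z N hz (hle.trans hN) hNp hAU hA
    (hle.trans hB) ?_ f g
  rcases hT with hE | hT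
  · have hN1 : 0 < N := by
      have : (0 : ℝ) < N := lt_of_lt_of_le (by positivity) hN
      exact_mod_cast this
    have hAU2 : (A.card : ℝ) ≤ U.card := by
      have h1 : A ⊆ U := fun a ha => by simpa using hAU a ha 0 hN1
      exact_mod_cast card_le_card h1
    have h1 : ((TT z N U B).card : ℝ) ≤ 2 * N * (U.card * addEnergy B B) := by
      exact_mod_cast TT_energy z N U B
    have e1 : (p : ℝ) ^ (1 + ε) = (p : ℝ) ^ (ε / 2) * (p : ℝ) ^ (1 + ε / 2) := by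
      rw [← Real.rpow_add hp0]
      congr 1
      ring
    calc ((TT z N U B).card : ℝ) * (p : ℝ) ^ (1 + ε / 2) ≤
          2 * N * (U.card * addEnergy B B) * (p : ℝ) ^ (1 + ε / 2) :=
          mul_le_mul_of_nonneg_right h1 (by positivity)
      _ = N * U.card * (addEnergy B B * (2 * (p : ℝ) ^ (1 + ε / 2))) := by ring
      _ ≤ N * U.card * (addEnergy B B * ((p : ℝ) ^ (ε / 2) * (p : ℝ) ^ (1 + ε / 2))) := by
          gcongr
      _ = N * U.card * (addEnergy B B * (p : ℝ) ^ (1 + ε)) := by rw [e1]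
      _ ≤ N * U.card * (N * (A.card * (B.card : ℝ) ^ 4)) :=
          mul_le_mul_of_nonneg_left hE (by positivity)
      _ ≤ N * U.card * (N * (U.card * (B.card : ℝ) ^ 4)) := by
          gcongr
      _ = _ := by ring
  · exact (mul_le_mul_of_nonneg_left hle2 (Nat.cast_nonneg _)).trans hT

end Pool.Agent.H58BU
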