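import Pool.Agent.H58BU.K

/-! # Two sets nearly invariant under short progressions of different differences -/

set_option autoImplicit false
set_option linter.unusedSectionVars false

namespace Pool.Agent.H58BU

open Finset Pool.Agent.TH7.PG

theorem two_num (x q C₁ Z Xc u ab Yc r N Nm N₁ Q : ℝ) (hx : 0 < x) (hq : 1 ≤ q)
    (hC₁ : 0 ≤ C₁) (hr : 0 ≤ r) (hab : 0 ≤ ab) (hu0 : 0 ≤ u) (hY : 0 ≤ Yc)
    (hN0 : 0 ≤ N) (hNm0 : 0 ≤ Nm) (hQ0 : 0 ≤ Q)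
    (hXc : Xc ≤ C₁ * (Real.sqrt x * q ^ 6)) (hu : u ≤ q ^ 2 * ab)
    (hqx : q ^ 19 ≤ Real.sqrt x) (hNN : N ≤ 4 * N₁)
    (hNY : Nm ≤ 2 * q ^ 3 * Yc) (hQ : Q * (Real.sqrt x * q ^ 64) ≤ N * Nm * u ^ 2)
    (h8 : 128 * (1 + r) * C₁ ≤ q)
    (hZ : Z ^ 2 ≤ Xc * (4 * (Yc ^ 2 * (N * u) ^ 2 / x) + 2 * (1 + r) * (Yc * (N * Q)))) :
    Z ^ 2 * q ^ 8 ≤ (N₁ * Yc * ab) ^ 2 := by
  have hq0 : 0 < q := by linarith
  obtain ⟨s, hs⟩ : ∃ s, s = Real.sqrt x := ⟨_, rfl⟩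
  have hs0 : 0 < s := by rw [hs]; exact Real.sqrt_pos.2 hx
  have hxs : x = s * s := by rw [hs, Real.mul_self_sqrt hx.le]
  rw [← hs] at hXc hqx hQ
  obtain ⟨P, hP⟩ : ∃ P : ℝ, P = N₁ ^ 2 * Yc ^ 2 * ab ^ 2 := ⟨_, rfl⟩
  have hP0 : 0 ≤ P := by rw [hP]; positivity
  have h1 : Z ^ 2 * q ^ 8 ≤ 4 * C₁ * q ^ 14 * (Yc ^ 2 * N ^ 2 * u ^ 2) / s +
      2 * (1 + r) * C₁ * q ^ 14 * (Yc * N * (Q * s)) := by
    calc Z ^ 2 * q ^ 8 ≤ (Xc * (4 * (Yc ^ 2 * (N * u) ^ 2 / x) +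
          2 * (1 + r) * (Yc * (N * Q)))) * q ^ 8 := mul_le_mul_of_nonneg_right hZ (by positivity)
      _ ≤ ((C₁ * (s * q ^ 6)) * (4 * (Yc ^ 2 * (N * u) ^ 2 / x) +
          2 * (1 + r) * (Yc * (N * Q)))) * q ^ 8 := by
          refine mul_le_mul_of_nonneg_right (mul_le_mul_of_nonneg_right hXc ?_) (by positivity)
          positivity
      _ = _ := by
          rw [hxs]
          field_simp
  have hN2 : N ^ 2 ≤ 16 * N₁ ^ 2 := by
    have := pow_le_pow_left₀ hN0 hNN 2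
    rw [mul_pow] at this
    norm_num at this
    exact this
  have hu2 : u ^ 2 ≤ q ^ 4 * ab ^ 2 := by
    have := pow_le_pow_left₀ hu0 hu 2
    rw [mul_pow, ← pow_mul] at this
    exact this
  have hC : 128 * C₁ ≤ q := by
    refine le_trans ?_ h8
    nlinarith
  have hCr : 128 * ((1 + r) * C₁) ≤ q := by
    refine le_trans (le_of_eq ?_) h8
    ring
  have h2 : 4 * C₁ * q ^ 14 * (Yc ^ 2 * N ^ 2 * u ^ 2) / s ≤ P / 2 := by
    rw [div_le_iff₀ hs0]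
    calc 4 * C₁ * q ^ 14 * (Yc ^ 2 * N ^ 2 * u ^ 2) ≤
          4 * C₁ * q ^ 14 * (Yc ^ 2 * (16 * N₁ ^ 2) * (q ^ 4 * ab ^ 2)) := by
          gcongr
      _ = (128 * C₁) * (q ^ 18 * P) / 2 := by rw [hP]; ring
      _ ≤ q * (q ^ 18 * P) / 2 := by
          have := mul_le_mul_of_nonneg_right hC (show 0 ≤ q ^ 18 * P by positivity)
          linarith
      _ = P / 2 * q ^ 19 := by ring
      _ ≤ P / 2 * s := mul_le_mul_of_nonneg_left hqx (by positivity)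
  have hQs : Q * s ≤ N * Nm * u ^ 2 / q ^ 64 := by
    rw [le_div_iff₀ (by positivity)]
    calc Q * s * q ^ 64 = Q * (s * q ^ 64) := by ring
      _ ≤ _ := hQ
  have h3 : 2 * (1 + r) * C₁ * q ^ 14 * (Yc * N * (Q * s)) ≤ P / 2 := by
    calc 2 * (1 + r) * C₁ * q ^ 14 * (Yc * N * (Q * s)) ≤
          2 * (1 + r) * C₁ * q ^ 14 * (Yc * N * (N * Nm * u ^ 2 / q ^ 64)) := by
          gcongr
      _ = 2 * (1 + r) * C₁ * q ^ 14 * (Yc * Nm * (N ^ 2 * u ^ 2) / q ^ 64) := by ring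
      _ ≤ 2 * (1 + r) * C₁ * q ^ 14 * (Yc * (2 * q ^ 3 * Yc) * ((16 * N₁ ^ 2) *
          (q ^ 4 * ab ^ 2)) / q ^ 64) := by
          gcongr
      _ = (128 * ((1 + r) * C₁)) * (q ^ 21 * P / q ^ 64) / 2 := by rw [hP]; ring
      _ ≤ q * (q ^ 21 * P / q ^ 64) / 2 := by
          have h4 := mul_le_mul_of_nonneg_right hCr
            (show 0 ≤ q ^ 21 * P / q ^ 64 by positivity)
          linarith
      _ = q ^ 22 * P / q ^ 64 / 2 := by ring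
      _ ≤ P / 2 := by
          refine div_le_div_of_nonneg_right ?_ (by norm_num)
          rw [div_le_iff₀ (by positivity)]
          calc q ^ 22 * P = P * q ^ 22 := by ring
            _ ≤ P * q ^ 64 := mul_le_mul_of_nonneg_left
                (pow_le_pow_right₀ hq (by norm_num)) hP0
  calc Z ^ 2 * q ^ 8 ≤ P / 2 + P / 2 := h1.trans (add_le_add h2 h3)
    _ = _ := by rw [hP]; ring

/-- the second moment of the weights -/
theorem v_sq {p : ℕ} [Fact p.Prime] (Y : Finset ℕ) (W : ℝ) (Y0 T r k h N₁ N : ℕ)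
    (hW0 : 0 < W) (hW : 2 * (Y0 * W) < p) (hY : ∀ y ∈ Y, y.Prime) (hY0 : ∀ y ∈ Y, y ≤ Y0)
    (hYp : Y0 < p) (hT : ∀ y ∈ Y, T ≤ y) (hr : p < T ^ (r + 1)) (hh : 1 ≤ h)
    (hδ : (p : ℝ) * (p / (2 * W)) ^ k ≤ (h : ℝ) ^ k) (hkh : N₁ + k * h ≤ N) (hNp : N ≤ p)
    (U V : Finset (ZMod p)) :
    ∑ w : ZMod p, (∑ y ∈ Y, wn N₁ h (rp U V) 0 (w * (y : ZMod p))) ^ 2 ≤
      4 * ((Y.card : ℝ) ^ 2 * (N * ((U.card : ℝ) * V.card)) ^ 2 / p) +
        2 * (1 + r) * (Y.card * (N * ((cl N U V).card : ℝ))) := by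
  have hp : (0 : ℝ) < p := by exact_mod_cast (Fact.out : p.Prime).pos
  have hyz : ∀ y ∈ Y, ((y : ℕ) : ZMod p) ≠ 0 := by
    intro y hy h
    rw [ZMod.natCast_eq_zero_iff] at h
    have := Nat.le_of_dvd (hY y hy).pos h
    have := hY0 y hy
    omega
  rw [energy_symm Y hyz]
  refine (energy Y W Y0 T r k h hW0 hW hY hY0 hYp hT hr hh hδ (wn N₁ h (rp U V) 0)
    (wn N₁ h (rp U V) k) (wn_nonneg _ _ _ (rp_nonneg _ _) _) (wn_nonneg _ _ _ (rp_nonneg _ _) _)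
    (wn_maj N₁ h hh _ (rp_nonneg _ _) k)).trans ?_
  have hNR : ((N₁ + k * h : ℕ) : ℝ) ≤ N := by exact_mod_cast hkh
  refine add_le_add ?_ ?_
  · refine mul_le_mul_of_nonneg_left ?_ (by norm_num)
    refine div_le_div_of_nonneg_right (mul_le_mul_of_nonneg_left ?_ (by positivity)) hp.le
    rw [wn_sum, sum_rp_one]
    refine pow_le_pow_left₀ (by positivity) ?_ 2
    exact mul_le_mul_of_nonneg_right hNR (by positivity)
  · refine mul_le_mul_of_nonneg_left ?_ (by positivity)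
    refine mul_le_mul_of_nonneg_left ?_ (Nat.cast_nonneg _)
    refine (sqwin (N₁ + k * h) (hkh.trans hNp) U V ((k * h : ℕ) : ZMod p)).trans ?_
    refine mul_le_mul hNR ?_ (Nat.cast_nonneg _) (Nat.cast_nonneg _)
    exact_mod_cast cl_mono _ _ hkh U V

/-- the number of pairs with the sum in a given set -/
theorem count_two {p : ℕ} [Fact p.Prime] (Y : Finset ℕ) (hY : ∀ y ∈ Y, ((y : ℕ) : ZMod p) ≠ 0)
    (N h : ℕ) (U V : Finset (ZMod p)) (X : Finset (ZMod p)) :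
    ∑ n ∈ range N, ∑ y ∈ Y, (((((U.image fun u => u + (n : ZMod p)) ×ˢ V).filter
      fun t => (t.1 + t.2) / (y : ZMod p) ∈ X).card : ℕ) : ℝ) ≤
      ∑ w ∈ X, ∑ y ∈ Y, wn N h (rp U V) 0 (w * (y : ZMod p)) := by
  classical
  have h1 : ∀ n ∈ range N, ∀ y ∈ Y, (((((U.image fun u => u + (n : ZMod p)) ×ˢ V).filter
      fun t => (t.1 + t.2) / (y : ZMod p) ∈ X).card : ℕ) : ℝ) ≤
      ∑ w ∈ X, rp U V (w * (y : ZMod p) - (n : ZMod p)) := by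
    intro n _ y hy
    have hy0 := hY y hy
    set S := ((U.image fun u => u + (n : ZMod p)) ×ˢ V).filter
      fun t => (t.1 + t.2) / (y : ZMod p) ∈ X with hS
    have h2 : S.card = ∑ w ∈ X, (S.filter fun t => (t.1 + t.2) / (y : ZMod p) = w).card :=
      Finset.card_eq_sum_card_fiberwise fun t ht => (mem_filter.1 (Finset.mem_coe.1 ht)).2
    rw [h2]
    push_cast
    refine Finset.sum_le_sum fun w _ => ?_
    unfold rp
    norm_cast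
    refine Finset.card_le_card_of_injOn (fun t => (t.1 - (n : ZMod p), t.2)) ?_ ?_
    · intro t ht
      obtain ⟨h3, h4⟩ := mem_filter.1 (Finset.mem_coe.1 ht)
      have h5 := mem_product.1 (mem_filter.1 h3).1
      obtain ⟨u, hu, hu2⟩ := mem_image.1 h5.1
      refine Finset.mem_coe.2 (mem_filter.2 ⟨mem_product.2 ⟨?_, h5.2⟩, ?_⟩)
      · show t.1 - (n : ZMod p) ∈ U
        rw [← hu2, add_sub_cancel_right]
        exact hu
      · show t.1 - (n : ZMod p) + t.2 = w * (y : ZMod p) - (n : ZMod p)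
        rw [← h4, div_mul_cancel₀ _ hy0]
        ring
    · intro t _ t' _ h
      have h3 : t.1 - (n : ZMod p) = t'.1 - (n : ZMod p) := (Prod.ext_iff.1 h).1
      have h4 : t.2 = t'.2 := (Prod.ext_iff.1 h).2
      exact Prod.ext (sub_left_injective h3) h4
  refine (Finset.sum_le_sum fun n hn => Finset.sum_le_sum fun y hy => h1 n hn y hy).trans ?_
  refine le_of_eq ?_
  simp only [wn_zero]
  have h2 : ∀ n ∈ range N, ∑ y ∈ Y, ∑ w ∈ X, rp U V (w * (y : ZMod p) - (n : ZMod p)) =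
      ∑ w ∈ X, ∑ y ∈ Y, rp U V (w * (y : ZMod p) - (n : ZMod p)) := fun n _ => Finset.sum_comm
  rw [Finset.sum_congr rfl h2, Finset.sum_comm]
  refine Finset.sum_congr rfl fun w _ => ?_
  rw [Finset.sum_comm]

/-- averaging the shifted bound over the multipliers and the short shifts -/
theorem two_avg {p : ℕ} [Fact p.Prime] (χ : DirichletCharacter ℂ p) (L : ℕ) (hL : 1 ≤ L)
    (Bd : ℝ) (hBd : 0 ≤ Bd) (Y : Finset ℕ) (hY : ∀ y ∈ Y, ((y : ℕ) : ZMod p) ≠ 0) (N₁ h : ℕ)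
    (θ : ZMod p) (A₀ B₀ U V : Finset (ZMod p))
    (hU : ∀ n ∈ range N₁, ∀ y ∈ Y, ∀ a ∈ A₀, ∀ i : Fin L,
      a - ((i : ℕ) : ZMod p) * (y : ZMod p) - (n : ZMod p) ∈ U)
    (hV : ∀ y ∈ Y, ∀ b ∈ B₀, ∀ j : Fin L, b - ((j : ℕ) : ZMod p) * ((y : ZMod p) * θ) ∈ V)
    (f g : ZMod p → ℂ) (hf : ∀ x, ‖f x‖ ≤ 1) (hg : ∀ x, ‖g x‖ ≤ 1) (Z : ℝ)
    (hZ : ∑ w ∈ Bad χ L Bd θ, ∑ y ∈ Y, wn N₁ h (rp U V) 0 (w * (y : ZMod p)) ≤
      N₁ * Y.card * Z) (hY0 : 0 < Y.card) (hN0 : 0 < N₁) :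
    ‖∑ a ∈ A₀, ∑ b ∈ B₀, f a * g b * χ (a + b)‖ ≤
      Real.sqrt ((1 + Bd) / L) * ((U.card : ℝ) * V.card) + Z := by
  classical
  have hYpos : (0 : ℝ) < N₁ * Y.card := by
    have h1 : (0 : ℝ) < N₁ := by exact_mod_cast hN0
    have h2 : (0 : ℝ) < Y.card := by exact_mod_cast hY0
    exact mul_pos h1 h2
  have h1 : ∑ n ∈ range N₁, ∑ y ∈ Y, ‖∑ a ∈ A₀, ∑ b ∈ B₀, f a * g b * χ (a + b)‖ ≤
      ∑ n ∈ range N₁, ∑ y ∈ Y, (Real.sqrt ((1 + Bd) / L) * ((U.card : ℝ) * V.card) +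
      (((((U.image fun u => u + (n : ZMod p)) ×ˢ V).filter
        fun t => (t.1 + t.2) / (y : ZMod p) ∈ Bad χ L Bd θ).card : ℕ) : ℝ)) := by
    refine Finset.sum_le_sum fun n hn => Finset.sum_le_sum fun y hy => ?_
    have h2 := shift_bound χ L hL Bd hBd (y : ZMod p) ((y : ZMod p) * θ) (hY y hy) A₀ B₀
      (U.image fun u => u + (n : ZMod p)) V (fun a ha i => mem_image.2
        ⟨_, hU n hn y hy a ha i, sub_add_cancel _ _⟩) (fun b hb j => hV y hy b hb j) f g hf hg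
    rw [card_image_of_injective _ (add_left_injective (n : ZMod p)),
      mul_div_cancel_left₀ _ (hY y hy)] at h2
    exact h2
  simp only [Finset.sum_add_distrib, Finset.sum_const, nsmul_eq_mul, card_range] at h1
  have h3 := count_two Y hY N₁ h U V (Bad χ L Bd θ)
  have h2 : ((N₁ : ℝ) * Y.card) * ‖∑ a ∈ A₀, ∑ b ∈ B₀, f a * g b * χ (a + b)‖ ≤
      (N₁ * Y.card) * (Real.sqrt ((1 + Bd) / L) * ((U.card : ℝ) * V.card) + Z) := by
    rw [mul_add, mul_assoc, mul_assoc (N₁ : ℝ) (Y.card : ℝ) (Real.sqrt ((1 + Bd) / L) * _)]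
    linarith
  exact le_of_mul_le_mul_left h2 hYpos

end Pool.Agent.H58BU
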