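import Pool.Agent.H58BU.M

/-! # Two sets nearly invariant under short progressions: power saving -/

set_option autoImplicit false
set_option linter.unusedSectionVars false

namespace Pool.Agent.H58BU

open Finset Pool.Agent.TH7.PG

theorem two_one (ε : ℝ) (hε : 0 < ε) (hε1 : ε ≤ 1) : ∃ τ : ℝ, 0 < τ ∧ ∃ p₀ : ℕ,
    ∀ (p : ℕ) [Fact p.Prime], p₀ ≤ p → ∀ χ : DirichletCharacter ℂ p, χ ≠ 1 →
    ∀ (A U B V : Finset (ZMod p)) (θ : ZMod p) (N N' : ℕ), θ ≠ 0 → (p : ℝ) ^ ε ≤ N →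
      (p : ℝ) ^ ε ≤ N' → N ≤ p →
      (∀ a ∈ A, ∀ n < N, a - (n : ZMod p) ∈ U) → (U.card : ℝ) ≤ (p : ℝ) ^ τ * A.card →
      (∀ b ∈ B, ∀ n < N', b - (n : ZMod p) * θ ∈ V) → (V.card : ℝ) ≤ (p : ℝ) ^ τ * B.card →
      ((cl N U V).card : ℝ) * (p : ℝ) ^ (1 / 2 + ε) ≤
        N * (min N N' : ℕ) * ((U.card : ℝ) * V.card) ^ 2 →
      ∀ f g : ZMod p → ℂ, ‖∑ a ∈ A, ∑ b ∈ B, f a * g b * χ (a + b)‖ ≤ (p : ℝ) ^ (-τ) *
        ((Real.sqrt A.card * Real.sqrt B.card) *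
          (Real.sqrt (∑ a ∈ A, ‖f a‖ ^ 2) * Real.sqrt (∑ b ∈ B, ‖g b‖ ^ 2))) := by
  classical
  obtain ⟨κ, hκ⟩ : ∃ κ : ℝ, κ = ε / 64 := ⟨_, rfl⟩
  have hεκ : ε = 64 * κ := by rw [hκ]; ring
  have hκ0 : 0 < κ := by rw [hκ]; positivity
  have hκ64 : κ ≤ 1 / 64 := by rw [hκ]; linarith
  have hκ1 : κ ≤ 1 := by linarith
  have hκκ0 : 0 < κ * κ := mul_pos hκ0 hκ0
  set k : ℕ := ⌈1 / κ⌉₊ with hk
  have hk1 : 1 ≤ κ * k := by
    have h1 : 1 / κ ≤ k := Nat.le_ceil _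
    rw [div_le_iff₀ hκ0] at h1
    linarith
  have hk2 : κ * k ≤ 2 := by
    have h1 : (k : ℝ) < 1 / κ + 1 := Nat.ceil_lt_add_one (by positivity)
    have h2 : κ * k < κ * (1 / κ + 1) := mul_lt_mul_of_pos_left h1 hκ0
    have h3 : κ * (1 / κ + 1) = 1 + κ := by
      field_simp
    linarith
  have hkn : 1 ≤ k := by
    rw [hk]
    exact Nat.one_le_ceil_iff.2 (by positivity)
  set C₁ : ℝ := (4 * k : ℝ) ^ (2 * k) * 2 ^ k + 4 * k with hC₁
  have hC0 : 0 ≤ C₁ := by positivity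
  obtain ⟨p₁, hp₁⟩ := large 4 κ hκ0
  obtain ⟨p₂, hp₂⟩ := large (128 * (1 + k) * C₁) κ hκ0
  obtain ⟨p₃, hp₃⟩ := large 3 (κ * κ / 8) (by positivity)
  obtain ⟨p₄, hp₄⟩ := large 3 (κ * κ / 4 / 12) (by positivity)
  obtain ⟨p₅, hp₅⟩ := half_params κ hκ0 hκ64 k hk1 hkn
  refine ⟨κ * κ / 16, by positivity, max p₅ (max (max p₁ p₂) (max p₃ p₄)), ?_⟩
  intro p hpf hp' χ hχ A U B V θ N N' hθ hN hN' hNp hAU hA hBV hB hQ
  have hp5 := hp₅ p ((le_max_left _ _).trans hp')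
  have hp : max (max p₁ p₂) (max p₃ p₄) ≤ p := (le_max_right _ _).trans hp'
  have hp1 := hp₁ p (((le_max_left _ _).trans (le_max_left _ _)).trans hp)
  have hp2 := hp₂ p (((le_max_right _ _).trans (le_max_left _ _)).trans hp)
  have hp3 := hp₃ p (((le_max_left _ _).trans (le_max_right _ _)).trans hp)
  have hp4 := hp₄ p (((le_max_right _ _).trans (le_max_right _ _)).trans hp)
  have hpR : (1 : ℝ) ≤ p := by exact_mod_cast (Fact.out : p.Prime).one_lt.le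
  have hp0 : (0 : ℝ) < p := by linarith
  have hab0 : (0 : ℝ) ≤ (A.card : ℝ) * B.card := mul_nonneg (Nat.cast_nonneg _) (Nat.cast_nonneg _)
  rw [hεκ] at hN hN' hQ
  obtain ⟨Nm, hNm⟩ : ∃ Nm : ℕ, Nm = min N N' := ⟨_, rfl⟩
  rw [← hNm] at hQ
  have hNmN : Nm ≤ N := by rw [hNm]; exact min_le_left _ _
  have hNmN' : Nm ≤ N' := by rw [hNm]; exact min_le_right _ _
  have hNm1 : (p : ℝ) ^ (64 * κ) ≤ Nm := by
    rcases le_total N N' with h1 | h1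
    · rw [hNm, min_eq_left h1]
      exact hN
    · rw [hNm, min_eq_right h1]
      exact hN'
  obtain ⟨h, Y0, W, Y, hh1, hkh0, hW0, hYW, hδ, hY0p, hY, hYc, hLY, hY01, hYpos⟩ :=
    hp5 Nm hNm1 (hNmN.trans hNp)
  set L : ℕ := ⌊(p : ℝ) ^ κ⌋₊ with hL
  have hLle : (L : ℝ) ≤ (p : ℝ) ^ κ := Nat.floor_le (by positivity)
  have hLge : (p : ℝ) ^ κ / 2 ≤ L := by
    have := Nat.lt_floor_add_one ((p : ℝ) ^ κ)
    rw [← hL] at this
    linarith
  have hL1 : 1 ≤ L := by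
    rw [hL]
    exact Nat.le_floor (by push_cast; linarith)
  have hL1' : (1 : ℝ) ≤ L := by exact_mod_cast hL1
  have hLp : L ≤ p := by
    have h1 : (L : ℝ) ≤ p := by
      refine hLle.trans ?_
      calc (p : ℝ) ^ κ ≤ (p : ℝ) ^ (1 : ℝ) := Real.rpow_le_rpow_of_exponent_le hpR hκ1
        _ = p := Real.rpow_one _
    exact_mod_cast h1
  have hLpos : (0 : ℝ) < L := by linarith
  set Bd : ℝ := (L : ℝ) ^ (1 - κ) with hBd
  have hBd0 : 0 < Bd := by positivity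
  set G : ℝ := ((4 * k : ℝ) ^ (2 * k) * (L : ℝ) ^ k * p +
    (4 * k) * (L : ℝ) ^ (2 * k) * Real.sqrt p) / Bd ^ (2 * k) with hG
  have hG0 : 0 ≤ G := by positivity
  have hX : ((Bad χ L Bd θ).card : ℝ) ≤ C₁ * (p : ℝ) ^ (1 / 2 + 4 * κ + 2 * κ) :=
    (bad_card χ L hLp Bd G hG0 (fun h hh => G_bound χ hχ k L hL1 hLp Bd hBd0 h hh) _ hθ).trans
      (M_num p κ κ k L hpR hκ0 hκ0 (by linarith) hk1 hk2 hL1' hLge hLle)
  -- the short shifts
  have hN4 : (4 : ℝ) ≤ N := by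
    refine (hp1.trans ?_).trans hN
    exact Real.rpow_le_rpow_of_exponent_le hpR (by linarith)
  have hN4' : 4 ≤ N := by exact_mod_cast hN4
  obtain ⟨N₁, hN₁⟩ : ∃ N₁ : ℕ, N₁ = N / 2 := ⟨_, rfl⟩
  have hkh : N₁ + k * h ≤ N := by
    have e1 : Nm / 2 + k * h ≤ Nm := hkh0
    omega
  have hLY' : L * Y0 ≤ Nm / 2 := hLY
  have hN₁4 : (N : ℝ) ≤ 4 * N₁ := by
    have h1 : N ≤ 4 * N₁ := by omega
    exact_mod_cast h1
  have hN₁0 : 0 < N₁ := by omega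
  have hYz : ∀ y ∈ Y, ((y : ℕ) : ZMod p) ≠ 0 := by
    intro y hy h
    rw [ZMod.natCast_eq_zero_iff] at h
    have := Nat.le_of_dvd (hY y hy).1.pos h
    have := (hY y hy).2.2
    omega
  have hiy : ∀ y ∈ Y, ∀ i : Fin L, (i : ℕ) * y < Nm / 2 := by
    intro y hy i
    have h2 : ((i : ℕ) + 1) * y ≤ L * Y0 := Nat.mul_le_mul i.2 (hY y hy).2.2
    have h3 : 0 < y := (hY y hy).1.pos
    have h4 : ((i : ℕ) + 1) * y = (i : ℕ) * y + y := by ring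
    omega
  have hUmem : ∀ n ∈ range N₁, ∀ y ∈ Y, ∀ a ∈ A, ∀ i : Fin L,
      a - ((i : ℕ) : ZMod p) * (y : ZMod p) - (n : ZMod p) ∈ U := by
    intro n hn y hy a ha i
    have hn' := mem_range.1 hn
    have h1 : (i : ℕ) * y + n < N := by
      have := hiy y hy i
      omega
    have h2 := hAU a ha ((i : ℕ) * y + n) h1
    have h3 : a - ((i : ℕ) : ZMod p) * (y : ZMod p) - (n : ZMod p) =
        a - (((i : ℕ) * y + n : ℕ) : ZMod p) := by
      push_cast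
      ring
    rw [h3]
    exact h2
  have hVmem : ∀ y ∈ Y, ∀ b ∈ B, ∀ j : Fin L,
      b - ((j : ℕ) : ZMod p) * ((y : ZMod p) * θ) ∈ V := by
    intro y hy b hb j
    have h1 : (j : ℕ) * y < N' := by
      have := hiy y hy j
      omega
    have h2 := hBV b hb ((j : ℕ) * y) h1
    have h3 : b - ((j : ℕ) : ZMod p) * ((y : ZMod p) * θ) =
        b - (((j : ℕ) * y : ℕ) : ZMod p) * θ := by
      push_cast
      ring
    rw [h3]
    exact h2
  have hr : p < ⌈(p : ℝ) ^ κ⌉₊ ^ (k + 1) := by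
    have h1 : (p : ℝ) < ((⌈(p : ℝ) ^ κ⌉₊ ^ (k + 1) : ℕ) : ℝ) := by
      push_cast
      calc (p : ℝ) = (p : ℝ) ^ (1 : ℝ) := (Real.rpow_one _).symm
        _ < (p : ℝ) ^ (κ * (k + 1 : ℕ)) := by
            refine Real.rpow_lt_rpow_of_exponent_lt ?_ ?_
            · exact_mod_cast (Fact.out : p.Prime).one_lt
            · push_cast
              linarith
        _ = ((p : ℝ) ^ κ) ^ (k + 1) := by rw [Real.rpow_mul hp0.le, Real.rpow_natCast]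
        _ ≤ ((⌈(p : ℝ) ^ κ⌉₊ : ℕ) : ℝ) ^ (k + 1) :=
            pow_le_pow_left₀ (by positivity) (Nat.le_ceil _) _
    exact_mod_cast h1
  have hen := v_sq Y W Y0 ⌈(p : ℝ) ^ κ⌉₊ k k h N₁ N hW0 hYW (fun y hy => (hY y hy).1)
    (fun y hy => (hY y hy).2.2) hY0p (fun y hy => (hY y hy).2.1) hr hh1 hδ hkh hNp U V
  obtain ⟨Z, hZ⟩ : ∃ Z : ℝ, Z = ∑ w ∈ Bad χ L Bd θ, ∑ y ∈ Y,
    wn N₁ h (rp U V) 0 (w * (y : ZMod p)) := ⟨_, rfl⟩
  -- powers of `q = p ^ κ`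
  obtain ⟨q, hq⟩ : ∃ q : ℝ, q = (p : ℝ) ^ κ := ⟨_, rfl⟩
  have hqn : ∀ n : ℕ, q ^ n = (p : ℝ) ^ (n * κ) := by
    intro n
    rw [hq, ← Real.rpow_natCast, ← Real.rpow_mul hp0.le]
    congr 1
    ring
  have hq1 : 1 ≤ q := by
    rw [hq]
    linarith
  have hq0 : 0 < q := by linarith
  have hUA : (U.card : ℝ) ≤ q * A.card := by
    refine hA.trans (mul_le_mul_of_nonneg_right ?_ (Nat.cast_nonneg _))
    rw [hq]
    exact Real.rpow_le_rpow_of_exponent_le hpR (by nlinarith)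
  have hVB : (V.card : ℝ) ≤ q * B.card := by
    refine hB.trans (mul_le_mul_of_nonneg_right ?_ (Nat.cast_nonneg _))
    rw [hq]
    exact Real.rpow_le_rpow_of_exponent_le hpR (by nlinarith)
  have hUV : (U.card : ℝ) * V.card ≤ q ^ 2 * (A.card * B.card) := by
    calc (U.card : ℝ) * V.card ≤ (q * A.card) * (q * B.card) :=
          mul_le_mul hUA hVB (Nat.cast_nonneg _) (mul_nonneg hq0.le (Nat.cast_nonneg _))
      _ = _ := by ring
  have hsq : (p : ℝ) ^ (1 / 2 : ℝ) = Real.sqrt p := (Real.sqrt_eq_rpow _).symm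
  have hZle : Z ≤ N₁ * Y.card * ((p : ℝ) ^ (-(4 * κ)) * (A.card * B.card)) := by
    have hcs : Z ^ 2 ≤ (Bad χ L Bd θ).card * ∑ w : ZMod p, (∑ y ∈ Y,
        wn N₁ h (rp U V) 0 (w * (y : ZMod p))) ^ 2 := by
      rw [hZ]
      refine (sq_sum_le_card_mul_sum_sq (s := Bad χ L Bd θ)
        (f := fun w => ∑ y ∈ Y, wn N₁ h (rp U V) 0 (w * (y : ZMod p)))).trans ?_
      refine mul_le_mul_of_nonneg_left ?_ (Nat.cast_nonneg _)
      exact Finset.sum_le_sum_of_subset_of_nonneg (subset_univ _) fun _ _ _ => sq_nonneg _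
    have h1 : Z ^ 2 * q ^ 8 ≤ (N₁ * Y.card * (A.card * B.card)) ^ 2 := by
      refine two_num p q C₁ Z (Bad χ L Bd θ).card (U.card * V.card) (A.card * B.card) Y.card k
        N Nm N₁ (cl N U V).card hp0 hq1 hC0
        (Nat.cast_nonneg _) hab0 (mul_nonneg (Nat.cast_nonneg _) (Nat.cast_nonneg _))
        (Nat.cast_nonneg _) (Nat.cast_nonneg _) (Nat.cast_nonneg _) (Nat.cast_nonneg _)
        ?_ hUV ?_ hN₁4 ?_ ?_ ?_ ?_
      · refine hX.trans (le_of_eq ?_)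
        rw [hqn, add_assoc, Real.rpow_add hp0, hsq]
        congr 3
        push_cast
        ring
      · rw [hqn, ← hsq]
        refine Real.rpow_le_rpow_of_exponent_le hpR ?_
        push_cast
        linarith
      · have h2 : (Nm : ℝ) * (p : ℝ) ^ (-(3 * κ)) ≤ 2 * Y.card := by linarith
        have h3 : (p : ℝ) ^ (-(3 * κ)) * q ^ 3 = 1 := by
          rw [hqn, ← Real.rpow_add hp0]
          norm_num
        calc (Nm : ℝ) = Nm * (p : ℝ) ^ (-(3 * κ)) * q ^ 3 := by rw [mul_assoc, h3, mul_one]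
          _ ≤ 2 * Y.card * q ^ 3 := mul_le_mul_of_nonneg_right h2 (by positivity)
          _ = 2 * q ^ 3 * Y.card := by ring
      · refine le_trans (le_of_eq ?_) hQ
        rw [hqn, Real.rpow_add hp0, hsq]
        norm_num
      · rw [hq]
        exact hp2
      · exact hcs.trans (mul_le_mul_of_nonneg_left hen (Nat.cast_nonneg _))
    have h4 : (p : ℝ) ^ (-(4 * κ)) = 1 / q ^ 4 := by
      rw [hqn, Real.rpow_neg hp0.le, one_div]
      norm_num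
    have h2 : Z ^ 2 ≤ (N₁ * Y.card * ((p : ℝ) ^ (-(4 * κ)) * (A.card * B.card))) ^ 2 := by
      have e1 : (N₁ * Y.card * ((p : ℝ) ^ (-(4 * κ)) * (A.card * B.card))) ^ 2 =
          (N₁ * Y.card * ((A.card : ℝ) * B.card)) ^ 2 / q ^ 8 := by
        rw [h4]
        exact e_aux _ _ _ q hq0
      rw [e1, le_div_iff₀ (pow_pos hq0 8)]
      exact h1
    refine le_of_sq_le_sq h2 ?_
    exact mul_nonneg (mul_nonneg (Nat.cast_nonneg _) (Nat.cast_nonneg _))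
      (mul_nonneg (Real.rpow_nonneg hp0.le _) hab0)
  have hR : Real.sqrt ((1 + Bd) / L) ≤ 2 * (p : ℝ) ^ (-(κ * κ / 2)) :=
    R_num p κ κ L hpR hκ0 hκ0 (by linarith) hL1' hLge
  have hbdd : ∀ f g : ZMod p → ℂ, (∀ x, ‖f x‖ ≤ 1) → (∀ x, ‖g x‖ ≤ 1) →
      ‖∑ a ∈ A, ∑ b ∈ B, f a * g b * χ (a + b)‖ ≤
        (p : ℝ) ^ (-(κ * κ / 4)) * (A.card * B.card) := by
    intro f g hf hg
    have hsb := two_avg χ L hL1 Bd hBd0.le Y hYz N₁ h θ A B U V hUmem hVmem f g hf hg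
      ((p : ℝ) ^ (-(4 * κ)) * (A.card * B.card)) (hZ ▸ hZle) hYpos hN₁0
    refine hsb.trans ?_
    have hU : (U.card : ℝ) * V.card ≤
        ((p : ℝ) ^ (κ * κ / 16)) ^ 2 * ((A.card : ℝ) * B.card) := by
      calc _ ≤ ((p : ℝ) ^ (κ * κ / 16) * A.card) * ((p : ℝ) ^ (κ * κ / 16) * B.card) :=
            mul_le_mul hA hB (Nat.cast_nonneg _)
              (mul_nonneg (Real.rpow_nonneg hp0.le _) (Nat.cast_nonneg _))
        _ = _ := by ring
    have h1 := local_num p κ κ (4 * κ) (4 * κ) ((A.card : ℝ) * B.card)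
      ((U.card : ℝ) * V.card) 1 hpR hκ0 hκ0 le_rfl
      (by nlinarith) le_rfl hab0 hU (mul_nonneg (Nat.cast_nonneg _) (Nat.cast_nonneg _))
      (by linarith) zero_le_one _ hR
      (Real.sqrt_nonneg _) hp3
    rw [one_pow, one_mul] at h1
    exact h1
  intro f g
  have h1 := linf_to_l2_pow A B (fun a b => χ (a + b)) (fun a b => χ.norm_le_one _) p (κ * κ / 4)
    hpR hp4 hbdd f g
  have e1 : κ * κ / 4 / 4 = κ * κ / 16 := by ring
  rw [e1] at h1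
  exact h1

end Pool.Agent.H58BU
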