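import Pool.Agent.H58BU.N

/-! # Two sets nearly invariant under short progressions of any differences -/

set_option autoImplicit false
set_option linter.unusedSectionVars false

namespace Pool.Agent.H58BU

open Finset Pool.Agent.TH7.PG

/-- pairs of representations with close sums, difference `z` -/
noncomputable def clz {p : ℕ} (z : ZMod p) (K : ℕ) (U V : Finset (ZMod p)) :
    Finset ((ZMod p × ZMod p) × (ZMod p × ZMod p)) :=
  open Classical in ((U ×ˢ V) ×ˢ (U ×ˢ V)).filter fun x =>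
    ∃ m : ℤ, |m| < K ∧ (x.1.1 + x.1.2) - (x.2.1 + x.2.2) = (m : ZMod p) * z

theorem cl_scale {p : ℕ} [Fact p.Prime] (z : ZMod p) (hz : z ≠ 0) (N : ℕ)
    (U V : Finset (ZMod p)) :
    (cl N (U.image fun x => x * (-z)⁻¹) (V.image fun x => x * (-z)⁻¹)).card ≤
      (clz z N U V).card := by
  classical
  have hw : -z ≠ 0 := neg_ne_zero.2 hz
  have hzz : ∀ x : ZMod p, x * (-z)⁻¹ * (-z) = x := fun x => by
    rw [mul_assoc, inv_mul_cancel₀ hw, mul_one]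
  refine Finset.card_le_card_of_injOn (fun t => ((t.1.1 * (-z), t.1.2 * (-z)),
    (t.2.1 * (-z), t.2.2 * (-z)))) ?_ ?_
  · intro t ht
    have ht' : t ∈ cl N (U.image fun x => x * (-z)⁻¹) (V.image fun x => x * (-z)⁻¹) :=
      Finset.mem_coe.1 ht
    unfold cl at ht'
    obtain ⟨h1, m, hm, hm2⟩ := mem_filter.1 ht'
    obtain ⟨h3, h4⟩ := mem_product.1 h1
    obtain ⟨h5, h6⟩ := mem_product.1 h3
    obtain ⟨h7, h8⟩ := mem_product.1 h4
    have hB : ∀ (S : Finset (ZMod p)) x, x ∈ (S.image fun x => x * (-z)⁻¹) → x * (-z) ∈ S := by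
      intro S x hx
      obtain ⟨y, hy, rfl⟩ := mem_image.1 hx
      rw [hzz]
      exact hy
    refine Finset.mem_coe.2 ?_
    unfold clz
    refine mem_filter.2 ⟨mem_product.2 ⟨mem_product.2 ⟨hB _ _ h5, hB _ _ h6⟩, mem_product.2
      ⟨hB _ _ h7, hB _ _ h8⟩⟩, -m, by rwa [abs_neg], ?_⟩
    show (t.1.1 * (-z) + t.1.2 * (-z)) - (t.2.1 * (-z) + t.2.2 * (-z)) =
      ((-m : ℤ) : ZMod p) * z
    rw [← add_mul, ← add_mul, ← sub_mul, hm2]
    push_cast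
    ring
  · intro t _ t' _ h
    simp only [Prod.mk.injEq] at h
    have hinj : ∀ x y : ZMod p, x * (-z) = y * (-z) → x = y := fun x y h =>
      mul_right_cancel₀ hw h
    exact Prod.ext (Prod.ext (hinj _ _ h.1.1) (hinj _ _ h.1.2))
      (Prod.ext (hinj _ _ h.2.1) (hinj _ _ h.2.2))

theorem two_any (ε : ℝ) (hε : 0 < ε) : ∃ τ : ℝ, 0 < τ ∧ ∃ p₀ : ℕ,
    ∀ (p : ℕ) [Fact p.Prime], p₀ ≤ p → ∀ χ : DirichletCharacter ℂ p, χ ≠ 1 →
    ∀ (A U B V : Finset (ZMod p)) (z z' : ZMod p) (N N' : ℕ), z ≠ 0 → z' ≠ 0 →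
      (p : ℝ) ^ ε ≤ N → (p : ℝ) ^ ε ≤ N' → N ≤ p →
      (∀ a ∈ A, ∀ n < N, a + (n : ZMod p) * z ∈ U) → (U.card : ℝ) ≤ (p : ℝ) ^ τ * A.card →
      (∀ b ∈ B, ∀ n < N', b + (n : ZMod p) * z' ∈ V) → (V.card : ℝ) ≤ (p : ℝ) ^ τ * B.card →
      ((clz z N U V).card : ℝ) * (p : ℝ) ^ (1 / 2 + ε) ≤
        N * (min N N' : ℕ) * ((U.card : ℝ) * V.card) ^ 2 →
      ∀ f g : ZMod p → ℂ, ‖∑ a ∈ A, ∑ b ∈ B, f a * g b * χ (a + b)‖ ≤ (p : ℝ) ^ (-τ) *
        ((Real.sqrt A.card * Real.sqrt B.card) *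
          (Real.sqrt (∑ a ∈ A, ‖f a‖ ^ 2) * Real.sqrt (∑ b ∈ B, ‖g b‖ ^ 2))) := by
  classical
  set ε' : ℝ := min ε 1 with hε'
  have hε'0 : 0 < ε' := lt_min hε one_pos
  have hε'1 : ε' ≤ 1 := min_le_right _ _
  have hε'ε : ε' ≤ ε := min_le_left _ _
  obtain ⟨τ, hτ, p₀, h⟩ := two_one ε' hε'0 hε'1
  refine ⟨τ, hτ, p₀, ?_⟩
  intro p hpf hp χ hχ A U B V z z' N N' hz hz'' hN hN' hNp hAU hA hBV hB hT f g
  have hpR : (1 : ℝ) ≤ p := by exact_mod_cast (Fact.out : p.Prime).one_lt.le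
  have hp0 : (0 : ℝ) < p := by linarith
  have hw : -z ≠ 0 := neg_ne_zero.2 hz
  have hz' : (-z)⁻¹ ≠ 0 := inv_ne_zero hw
  have hinj : Function.Injective fun x : ZMod p => x * (-z)⁻¹ := mul_left_injective₀ hz'
  have hle : (p : ℝ) ^ ε' ≤ (p : ℝ) ^ ε := Real.rpow_le_rpow_of_exponent_le hpR hε'ε
  have hle2 : (p : ℝ) ^ (1 / 2 + ε') ≤ (p : ℝ) ^ (1 / 2 + ε) :=
    Real.rpow_le_rpow_of_exponent_le hpR (by linarith)
  set A' : Finset (ZMod p) := A.image fun x => x * (-z)⁻¹ with hA'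
  set U' : Finset (ZMod p) := U.image fun x => x * (-z)⁻¹ with hU'
  set B' : Finset (ZMod p) := B.image fun x => x * (-z)⁻¹ with hB'
  set V' : Finset (ZMod p) := V.image fun x => x * (-z)⁻¹ with hV'
  have hcA : A'.card = A.card := card_image_of_injective _ hinj
  have hcU : U'.card = U.card := card_image_of_injective _ hinj
  have hcB : B'.card = B.card := card_image_of_injective _ hinj
  have hcV : V'.card = V.card := card_image_of_injective _ hinj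
  have hAU' : ∀ a ∈ A', ∀ n < N, a - (n : ZMod p) ∈ U' := by
    intro a' ha' n hn
    obtain ⟨a, ha, rfl⟩ := mem_image.1 ha'
    refine mem_image.2 ⟨a + (n : ZMod p) * z, hAU a ha n hn, ?_⟩
    show (a + (n : ZMod p) * z) * (-z)⁻¹ = a * (-z)⁻¹ - (n : ZMod p)
    have h1 : z * (-z)⁻¹ = -1 := by
      rw [inv_neg, mul_neg, mul_inv_cancel₀ hz]
    rw [add_mul, mul_assoc, h1]
    ring
  have hBV' : ∀ b ∈ B', ∀ n < N', b - (n : ZMod p) * (-(z' * (-z)⁻¹)) ∈ V' := by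
    intro b' hb' n hn
    obtain ⟨b, hb, rfl⟩ := mem_image.1 hb'
    refine mem_image.2 ⟨b + (n : ZMod p) * z', hBV b hb n hn, ?_⟩
    show (b + (n : ZMod p) * z') * (-z)⁻¹ = b * (-z)⁻¹ - (n : ZMod p) * (-(z' * (-z)⁻¹))
    ring
  have hT' : ((cl N U' V').card : ℝ) * (p : ℝ) ^ (1 / 2 + ε') ≤
      N * (min N N' : ℕ) * ((U'.card : ℝ) * V'.card) ^ 2 := by
    rw [hcU, hcV]
    refine le_trans ?_ hT
    refine mul_le_mul ?_ hle2 (by positivity) (Nat.cast_nonneg _)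
    exact_mod_cast cl_scale z hz N U V
  have hmain := h p hp χ hχ A' U' B' V' (-(z' * (-z)⁻¹)) N N'
    (neg_ne_zero.2 (mul_ne_zero hz'' hz')) (hle.trans hN) (hle.trans hN') hNp hAU'
    (by rw [hcA, hcU]; exact hA) hBV' (by rw [hcB, hcV]; exact hB) hT'
    (fun x => f (x * (-z)) * χ (-z)) (fun x => g (x * (-z)))
  have hzz : ∀ x : ZMod p, x * (-z)⁻¹ * (-z) = x := fun x => by
    rw [mul_assoc, inv_mul_cancel₀ hw, mul_one]
  have e1 : ∑ a ∈ A', ∑ b ∈ B', f (a * (-z)) * χ (-z) * g (b * (-z)) * χ (a + b) =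
      ∑ a ∈ A, ∑ b ∈ B, f a * g b * χ (a + b) := by
    rw [hA', Finset.sum_image fun a _ b _ hab => hinj hab]
    refine Finset.sum_congr rfl fun a _ => ?_
    rw [hB', Finset.sum_image fun a _ b _ hab => hinj hab]
    refine Finset.sum_congr rfl fun b _ => ?_
    rw [hzz, hzz]
    have e2 : χ (a + b) = χ (-z) * χ (a * (-z)⁻¹ + b * (-z)⁻¹) := by
      rw [← map_mul]
      congr 1
      rw [mul_add, mul_comm (-z) (a * (-z)⁻¹), mul_comm (-z) (b * (-z)⁻¹), hzz, hzz]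
    rw [e2]
    ring
  have e3 : ∑ a ∈ A', ‖f (a * (-z)) * χ (-z)‖ ^ 2 ≤ ∑ a ∈ A, ‖f a‖ ^ 2 := by
    rw [hA', Finset.sum_image fun a _ b _ hab => hinj hab]
    refine Finset.sum_le_sum fun a _ => ?_
    rw [hzz, norm_mul]
    refine pow_le_pow_left₀ (mul_nonneg (norm_nonneg _) (norm_nonneg _)) ?_ 2
    exact mul_le_of_le_one_right (norm_nonneg _) (χ.norm_le_one _)
  have e4 : ∑ b ∈ B', ‖g (b * (-z))‖ ^ 2 = ∑ b ∈ B, ‖g b‖ ^ 2 := by
    rw [hB', Finset.sum_image fun a _ b _ hab => hinj hab]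
    refine Finset.sum_congr rfl fun b _ => ?_
    rw [hzz]
  rw [e1, hcA, hcB, e4] at hmain
  refine hmain.trans ?_
  refine mul_le_mul_of_nonneg_left (mul_le_mul_of_nonneg_left (mul_le_mul_of_nonneg_right
    (Real.sqrt_le_sqrt e3) (Real.sqrt_nonneg _)) (mul_nonneg (Real.sqrt_nonneg _)
      (Real.sqrt_nonneg _))) (Real.rpow_nonneg hp0.le _)

end Pool.Agent.H58BU
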