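import Pool.Agent.H58BU.O

/-! # Cutting the heavy cells; popular elements -/

set_option autoImplicit false
set_option linter.unusedSectionVars false

namespace Pool.Agent.H58BU

open Finset Pool.Agent.TH7.PG

/-- the heavy cells of length `M` -/
theorem cut {p : ℕ} [Fact p.Prime] (M : ℕ) (hM : 1 ≤ M) (hMp : M ≤ p) (r : ZMod p → ℝ)
    (hr : ∀ s, 0 ≤ r s) (lam : ℝ) (hl : 0 ≤ lam) : ∃ J : Finset ℕ,
      (J.card : ℝ) * lam ≤ ∑ s, r s ∧
      ∀ t : ZMod p, ∑ i ∈ range M, (if (t + (i : ZMod p)).val / M ∈ J then 0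
        else r (t + (i : ZMod p))) ≤ 3 * lam := by
  classical
  set J : Finset ℕ := (range p).filter fun j =>
    lam < ∑ s ∈ (univ : Finset (ZMod p)).filter (fun s => s.val / M = j), r s with hJ
  have hval : ∀ s : ZMod p, s.val / M < p := fun s =>
    lt_of_le_of_lt (Nat.div_le_self _ _) (ZMod.val_lt s)
  refine ⟨J, ?_, ?_⟩
  · have h1 : (J.card : ℝ) * lam ≤
        ∑ j ∈ J, ∑ s ∈ (univ : Finset (ZMod p)).filter (fun s => s.val / M = j), r s := by
      rw [← nsmul_eq_mul, ← Finset.sum_const]
      exact Finset.sum_le_sum fun j hj => (mem_filter.1 hj).2.le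
    refine h1.trans ?_
    have h2 : ∑ j ∈ range p, ∑ s ∈ (univ : Finset (ZMod p)).filter (fun s => s.val / M = j), r s =
        ∑ s, r s := Finset.sum_fiberwise_of_maps_to (fun s _ => mem_range.2 (hval s)) _
    rw [← h2]
    exact Finset.sum_le_sum_of_subset_of_nonneg (filter_subset _ _) fun j _ _ =>
      sum_nonneg fun s _ => hr s
  · intro t
    set g : ZMod p → ℝ := fun s => if s.val / M ∈ J then 0 else r s with hg
    have hg0 : ∀ s, 0 ≤ g s := by
      intro s
      rw [hg]
      dsimp only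
      split_ifs
      · exact le_rfl
      · exact hr s
    have hcell : ∀ j, ∑ s ∈ (univ : Finset (ZMod p)).filter (fun s => s.val / M = j), g s ≤
        lam := by
      intro j
      by_cases hj : j ∈ J
      · have h1 : ∑ s ∈ (univ : Finset (ZMod p)).filter (fun s => s.val / M = j), g s = 0 := by
          refine sum_eq_zero fun s hs => ?_
          rw [hg]
          dsimp only
          rw [(mem_filter.1 hs).2, if_pos hj]
        rw [h1]
        exact hl
      · have h1 : ∑ s ∈ (univ : Finset (ZMod p)).filter (fun s => s.val / M = j), g s =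
            ∑ s ∈ (univ : Finset (ZMod p)).filter (fun s => s.val / M = j), r s := by
          refine sum_congr rfl fun s hs => ?_
          rw [hg]
          dsimp only
          rw [(mem_filter.1 hs).2, if_neg hj]
        rw [h1]
        by_cases hjp : j < p
        · by_contra hc
          push Not at hc
          exact hj (mem_filter.2 ⟨mem_range.2 hjp, hc⟩)
        · have h2 : (univ : Finset (ZMod p)).filter (fun s => s.val / M = j) = ∅ := by
            refine filter_eq_empty_iff.2 fun s _ hs => ?_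
            have := hval s
            omega
          rw [h2, sum_empty]
          exact hl
    have hinj : Set.InjOn (fun i : ℕ => t + (i : ZMod p)) (range M : Finset ℕ) := by
      intro i hi j hj hij
      have hi' := mem_range.1 (mem_coe.1 hi)
      have hj' := mem_range.1 (mem_coe.1 hj)
      have h1 : (i : ZMod p) = (j : ZMod p) := add_left_cancel hij
      have := (ZMod.natCast_eq_natCast_iff' i j p).1 h1
      rwa [Nat.mod_eq_of_lt (by omega), Nat.mod_eq_of_lt (by omega)] at this
    have e2 : ∑ i ∈ range M, g (t + (i : ZMod p)) =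
        ∑ s ∈ (range M).image (fun i : ℕ => t + (i : ZMod p)), g s := (sum_image hinj).symm
    have hsub : (range M).image (fun i : ℕ => t + (i : ZMod p)) ⊆
        ({t.val / M, t.val / M + 1, 0} : Finset ℕ).biUnion
          (fun j => (univ : Finset (ZMod p)).filter fun s => s.val / M = j) := by
      intro s hs
      obtain ⟨i, hi, rfl⟩ := mem_image.1 hs
      have hi' := mem_range.1 hi
      refine mem_biUnion.2 ⟨(t + (i : ZMod p)).val / M, ?_, mem_filter.2 ⟨mem_univ _, rfl⟩⟩
      have hv : (t + (i : ZMod p)).val = (t.val + i) % p := by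
        rw [ZMod.val_add, ZMod.val_natCast, Nat.mod_eq_of_lt (show i < p by omega)]
      have ht := ZMod.val_lt t
      simp only [mem_insert, mem_singleton]
      rcases lt_or_ge (t.val + i) p with h1 | h1
      · rw [hv, Nat.mod_eq_of_lt h1]
        have h2 : t.val / M ≤ (t.val + i) / M := Nat.div_le_div_right (by omega)
        have h3 : (t.val + i) / M ≤ (t.val + M) / M := Nat.div_le_div_right (by omega)
        rw [Nat.add_div_right _ (by omega)] at h3
        omega
      · have h2 : (t.val + i) % p = t.val + i - p := by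
          rw [Nat.mod_eq_sub_mod h1, Nat.mod_eq_of_lt (by omega)]
        rw [hv, h2]
        right; right
        exact Nat.div_eq_of_lt (by omega)
    show ∑ i ∈ range M, g (t + (i : ZMod p)) ≤ 3 * lam
    rw [e2]
    calc ∑ s ∈ (range M).image (fun i : ℕ => t + (i : ZMod p)), g s
        ≤ ∑ s ∈ ({t.val / M, t.val / M + 1, 0} : Finset ℕ).biUnion
          (fun j => (univ : Finset (ZMod p)).filter fun s => s.val / M = j), g s :=
          Finset.sum_le_sum_of_subset_of_nonneg hsub fun s _ _ => hg0 s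
      _ = ∑ j ∈ ({t.val / M, t.val / M + 1, 0} : Finset ℕ),
          ∑ s ∈ (univ : Finset (ZMod p)).filter (fun s => s.val / M = j), g s := by
          refine Finset.sum_biUnion ?_
          intro j _ j' _ hjj
          refine Finset.disjoint_left.2 fun s hs hs' => hjj ?_
          rw [← (mem_filter.1 hs).2, (mem_filter.1 hs').2]
      _ ≤ ∑ j ∈ ({t.val / M, t.val / M + 1, 0} : Finset ℕ), lam :=
          Finset.sum_le_sum fun j _ => hcell j
      _ = (({t.val / M, t.val / M + 1, 0} : Finset ℕ).card : ℝ) * lam := by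
          rw [Finset.sum_const, nsmul_eq_mul]
      _ ≤ 3 * lam := by
          refine mul_le_mul_of_nonneg_right ?_ hl
          exact_mod_cast Finset.card_le_three

/-- the mass of the windows over a set of quotients -/
theorem wn_mass {p : ℕ} [Fact p.Prime] (Y : Finset ℕ) (hY : ∀ y ∈ Y, ((y : ℕ) : ZMod p) ≠ 0)
    (N h : ℕ) (r : ZMod p → ℝ) (hr : ∀ s, 0 ≤ r s) (X : Finset (ZMod p)) :
    ∑ w ∈ X, ∑ y ∈ Y, wn N h r 0 (w * (y : ZMod p)) ≤ N * Y.card * ∑ s, r s := by
  rw [Finset.sum_comm]
  have h1 : ∀ y ∈ Y, ∑ w ∈ X, wn N h r 0 (w * (y : ZMod p)) ≤ N * ∑ s, r s := by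
    intro y hy
    calc ∑ w ∈ X, wn N h r 0 (w * (y : ZMod p)) ≤ ∑ w, wn N h r 0 (w * (y : ZMod p)) :=
          Finset.sum_le_sum_of_subset_of_nonneg (subset_univ _) fun w _ _ =>
            wn_nonneg N h r hr 0 _
      _ = ∑ t, wn N h r 0 t := Equiv.sum_comp (Equiv.mulRight₀ (y : ZMod p) (hY y hy)) _
      _ = N * ∑ s, r s := by
          rw [wn_sum]
          simp
  refine (Finset.sum_le_sum h1).trans (le_of_eq ?_)
  rw [Finset.sum_const, nsmul_eq_mul]
  ring

/-- the elements of `U` with many translates in `A` -/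
noncomputable def pop {p : ℕ} (A U : Finset (ZMod p)) (z : ZMod p) (N : ℕ) (q : ℝ) :
    Finset (ZMod p) :=
  open Classical in U.filter fun u =>
    (N : ℝ) ≤ q * (((range N).filter fun n : ℕ => u + (n : ZMod p) * z ∈ A).card : ℝ)

theorem pop_sub {p : ℕ} (A U : Finset (ZMod p)) (z : ZMod p) (N : ℕ) (q : ℝ) :
    pop A U z N q ⊆ U := by
  classical
  exact filter_subset _ _

theorem pop_err {p : ℕ} [Fact p.Prime] (A U : Finset (ZMod p)) (z : ZMod p) (N : ℕ) (q : ℝ)
    (hU : ∀ a ∈ A, ∀ n < N, a - (n : ZMod p) * z ∈ U) :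
    q * (((A ×ˢ range N).filter fun t : ZMod p × ℕ =>
      t.1 - (t.2 : ZMod p) * z ∉ pop A U z N q).card : ℝ) ≤ U.card * N := by
  classical
  set S := (A ×ˢ range N).filter fun t : ZMod p × ℕ =>
      t.1 - (t.2 : ZMod p) * z ∉ pop A U z N q with hS
  have h1 : S.card = ∑ u ∈ U.filter (fun u => u ∉ pop A U z N q),
      (S.filter fun t => t.1 - (t.2 : ZMod p) * z = u).card := by
    refine Finset.card_eq_sum_card_fiberwise fun t ht => ?_
    have ht' := mem_filter.1 (Finset.mem_coe.1 ht)
    have ht2 := mem_product.1 ht'.1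
    exact Finset.mem_coe.2 (mem_filter.2 ⟨hU _ ht2.1 _ (mem_range.1 ht2.2), ht'.2⟩)
  have h2 : ∀ u ∈ U.filter (fun u => u ∉ pop A U z N q),
      q * ((S.filter fun t => t.1 - (t.2 : ZMod p) * z = u).card : ℝ) ≤ N := by
    intro u hu
    obtain ⟨hu1, hu2⟩ := mem_filter.1 hu
    have h3 : ¬ ((N : ℝ) ≤ q * (((range N).filter fun n : ℕ =>
        u + (n : ZMod p) * z ∈ A).card : ℝ)) := by
      intro hc
      exact hu2 (by unfold pop; exact mem_filter.2 ⟨hu1, hc⟩)
    push Not at h3
    have h4 : (S.filter fun t => t.1 - (t.2 : ZMod p) * z = u).card ≤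
        ((range N).filter fun n : ℕ => u + (n : ZMod p) * z ∈ A).card := by
      refine Finset.card_le_card_of_injOn (fun t => t.2) ?_ ?_
      · intro t ht
        obtain ⟨ht1, ht2⟩ := mem_filter.1 (Finset.mem_coe.1 ht)
        have ht3 := mem_product.1 (mem_filter.1 ht1).1
        refine Finset.mem_coe.2 (mem_filter.2 ⟨ht3.2, ?_⟩)
        rw [← ht2, sub_add_cancel]
        exact ht3.1
      · intro t ht t' ht' htt
        have ht2 := (mem_filter.1 (Finset.mem_coe.1 ht)).2
        have ht2' := (mem_filter.1 (Finset.mem_coe.1 ht')).2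
        have e : t.2 = t'.2 := htt
        refine Prod.ext ?_ e
        rw [e] at ht2
        have : t.1 - (t'.2 : ZMod p) * z = t'.1 - (t'.2 : ZMod p) * z := ht2.trans ht2'.symm
        exact sub_left_injective this
    have h5 : ((S.filter fun t => t.1 - (t.2 : ZMod p) * z = u).card : ℝ) ≤
        (((range N).filter fun n : ℕ => u + (n : ZMod p) * z ∈ A).card : ℝ) := by
      exact_mod_cast h4
    rcases le_or_gt 0 q with hq | hq
    · exact (mul_le_mul_of_nonneg_left h5 hq).trans h3.le
    · exact (mul_nonpos_of_nonpos_of_nonneg hq.le (Nat.cast_nonneg _)).trans (Nat.cast_nonneg _)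
  rw [h1]
  push_cast
  rw [Finset.mul_sum]
  refine (Finset.sum_le_sum h2).trans ?_
  rw [Finset.sum_const, nsmul_eq_mul]
  refine mul_le_mul_of_nonneg_right ?_ (Nat.cast_nonneg _)
  exact_mod_cast Finset.card_le_card (filter_subset _ _)

/-- popular pairs with the sum in a set -/
theorem pop_conc {p : ℕ} [Fact p.Prime] (A U B V : Finset (ZMod p)) (z θ : ZMod p) (N M : ℕ)
    (q : ℝ) (hq : 0 < q) (P : ZMod p → Prop) [DecidablePred P] :
    (((pop A U z N q ×ˢ pop B V θ M q).filter fun t => P (t.1 + t.2)).card : ℝ) * (N * M) ≤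
      q ^ 2 * ∑ n ∈ range N, ∑ m ∈ range M, (((A ×ˢ B).filter fun t =>
        P ((t.1 - (n : ZMod p) * z) + (t.2 - (m : ZMod p) * θ))).card : ℝ) := by
  classical
  set S := (pop A U z N q ×ˢ pop B V θ M q).filter fun t => P (t.1 + t.2) with hS
  have h1 : ∀ t ∈ S, (N : ℝ) * M ≤ q ^ 2 * ∑ n ∈ range N, ∑ m ∈ range M,
      (if t.1 + (n : ZMod p) * z ∈ A ∧ t.2 + (m : ZMod p) * θ ∈ B then (1 : ℝ) else 0) := by
    intro t ht
    obtain ⟨h2, h3⟩ := mem_filter.1 ht
    obtain ⟨h4, h5⟩ := mem_product.1 h2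
    unfold pop at h4 h5
    have h6 := (mem_filter.1 h4).2
    have h7 := (mem_filter.1 h5).2
    have e1 : ∑ n ∈ range N, ∑ m ∈ range M,
        (if t.1 + (n : ZMod p) * z ∈ A ∧ t.2 + (m : ZMod p) * θ ∈ B then (1 : ℝ) else 0) =
        (((range N).filter fun n : ℕ => t.1 + (n : ZMod p) * z ∈ A).card : ℝ) *
        (((range M).filter fun n : ℕ => t.2 + (n : ZMod p) * θ ∈ B).card : ℝ) := by
      rw [← Finset.sum_boole, ← Finset.sum_boole, Finset.sum_mul_sum]
      refine sum_congr rfl fun n _ => sum_congr rfl fun m _ => ?_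
      by_cases hA : t.1 + (n : ZMod p) * z ∈ A <;> by_cases hB : t.2 + (m : ZMod p) * θ ∈ B <;>
        simp [hA, hB]
    rw [e1]
    calc (N : ℝ) * M ≤ (q * (((range N).filter fun n : ℕ =>
          t.1 + (n : ZMod p) * z ∈ A).card : ℝ)) * (q * (((range M).filter fun n : ℕ =>
          t.2 + (n : ZMod p) * θ ∈ B).card : ℝ)) := mul_le_mul h6 h7 (Nat.cast_nonneg _)
            (mul_nonneg hq.le (Nat.cast_nonneg _))
      _ = _ := by ring
  calc (S.card : ℝ) * (N * M) = ∑ _t ∈ S, (N : ℝ) * M := by rw [Finset.sum_const, nsmul_eq_mul]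
    _ ≤ ∑ t ∈ S, q ^ 2 * ∑ n ∈ range N, ∑ m ∈ range M,
      (if t.1 + (n : ZMod p) * z ∈ A ∧ t.2 + (m : ZMod p) * θ ∈ B then (1 : ℝ) else 0) :=
        Finset.sum_le_sum h1
    _ = q ^ 2 * ∑ n ∈ range N, ∑ m ∈ range M, ∑ t ∈ S,
      (if t.1 + (n : ZMod p) * z ∈ A ∧ t.2 + (m : ZMod p) * θ ∈ B then (1 : ℝ) else 0) := by
        rw [← Finset.mul_sum, Finset.sum_comm]
        congr 1
        exact sum_congr rfl fun n _ => Finset.sum_comm
    _ ≤ _ := by
        refine mul_le_mul_of_nonneg_left ?_ (by positivity)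
        refine Finset.sum_le_sum fun n _ => Finset.sum_le_sum fun m _ => ?_
        rw [Finset.sum_boole]
        norm_cast
        refine Finset.card_le_card_of_injOn (fun t => (t.1 + (n : ZMod p) * z,
          t.2 + (m : ZMod p) * θ)) ?_ ?_
        · intro t ht
          obtain ⟨h2, h3⟩ := mem_filter.1 (Finset.mem_coe.1 ht)
          refine Finset.mem_coe.2 (mem_filter.2 ⟨mem_product.2 ⟨h3.1, h3.2⟩, ?_⟩)
          show P ((t.1 + (n : ZMod p) * z - (n : ZMod p) * z) +
            (t.2 + (m : ZMod p) * θ - (m : ZMod p) * θ))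
          rw [add_sub_cancel_right, add_sub_cancel_right]
          exact (mem_filter.1 h2).2
        · intro t _ t' _ htt
          have h2 := Prod.ext_iff.1 htt
          exact Prod.ext (add_left_injective _ h2.1) (add_left_injective _ h2.2)

end Pool.Agent.H58BU
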