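import Pool.Agent.H58BU.P

/-! # The averaged bound with exceptional elements -/

set_option autoImplicit false
set_option linter.unusedSectionVars false

namespace Pool.Agent.H58BU

open Finset Pool.Agent.TH7.PG

/-- dropping the exceptional elements of both sets -/
theorem drop_two {p : ℕ} [Fact p.Prime] (A B : Finset (ZMod p)) (P Q : ZMod p → Prop)
    [DecidablePred P] [DecidablePred Q] (F : ZMod p → ZMod p → ℂ) (hF : ∀ a b, ‖F a b‖ ≤ 1) :
    ‖∑ a ∈ A, ∑ b ∈ B, F a b‖ ≤ ‖∑ a ∈ A.filter P, ∑ b ∈ B.filter Q, F a b‖ +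
      (((A.filter fun a => ¬ P a).card : ℝ) * B.card +
        A.card * ((B.filter fun b => ¬ Q b).card : ℝ)) := by
  classical
  have hb : ∀ S T : Finset (ZMod p), ‖∑ a ∈ S, ∑ b ∈ T, F a b‖ ≤ S.card * T.card := by
    intro S T
    calc ‖∑ a ∈ S, ∑ b ∈ T, F a b‖ ≤ ∑ a ∈ S, ∑ b ∈ T, (1 : ℝ) :=
          (norm_sum_le _ _).trans (Finset.sum_le_sum fun a _ =>
            (norm_sum_le _ _).trans (Finset.sum_le_sum fun b _ => hF a b))
      _ = _ := by simp
  have e1 : ∑ a ∈ A, ∑ b ∈ B, F a b = ∑ a ∈ A.filter P, ∑ b ∈ B.filter Q, F a b +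
      (∑ a ∈ A.filter P, ∑ b ∈ B.filter (fun b => ¬ Q b), F a b +
        ∑ a ∈ A.filter (fun a => ¬ P a), ∑ b ∈ B, F a b) := by
    rw [← Finset.sum_filter_add_sum_filter_not A P, ← add_assoc, ← Finset.sum_add_distrib]
    congr 1
    exact Finset.sum_congr rfl fun a _ => (Finset.sum_filter_add_sum_filter_not B Q _).symm
  rw [e1]
  refine (norm_add_le _ _).trans (add_le_add le_rfl ((norm_add_le _ _).trans ?_))
  have h1 := hb (A.filter P) (B.filter fun b => ¬ Q b)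
  have h2 := hb (A.filter fun a => ¬ P a) B
  have h3 : ((A.filter P).card : ℝ) * (B.filter fun b => ¬ Q b).card ≤
      A.card * ((B.filter fun b => ¬ Q b).card : ℝ) :=
    mul_le_mul_of_nonneg_right (by exact_mod_cast Finset.card_le_card (filter_subset _ _))
      (Nat.cast_nonneg _)
  linarith

theorem cut_avg {p : ℕ} [Fact p.Prime] (χ : DirichletCharacter ℂ p) (L : ℕ) (hL : 1 ≤ L)
    (Bd : ℝ) (hBd : 0 ≤ Bd) (Y : Finset ℕ) (hY : ∀ y ∈ Y, ((y : ℕ) : ZMod p) ≠ 0) (N₁ h : ℕ)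
    (θ : ZMod p) (A B U V : Finset (ZMod p)) (eA eB : ℝ)
    (hEA : ∑ n ∈ range N₁, ∑ y ∈ Y, (((A.filter fun a => ¬ ∀ i : Fin L,
      a - ((i : ℕ) : ZMod p) * (y : ZMod p) - (n : ZMod p) ∈ U).card : ℕ) : ℝ) ≤
        N₁ * Y.card * (eA * A.card))
    (hEB : ∑ y ∈ Y, (((B.filter fun b => ¬ ∀ j : Fin L,
      b - (((j : ℕ) : ZMod p) + 1) * ((y : ZMod p) * θ) ∈ V).card : ℕ) : ℝ) ≤
        Y.card * (eB * B.card))
    (f g : ZMod p → ℂ) (hf : ∀ x, ‖f x‖ ≤ 1) (hg : ∀ x, ‖g x‖ ≤ 1) (Z : ℝ)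
    (hZ : ∑ w ∈ (Bad χ L Bd θ).image (fun w => w - θ), ∑ y ∈ Y,
      wn N₁ h (rp U V) 0 (w * (y : ZMod p)) ≤ N₁ * Y.card * Z)
    (hY0 : 0 < Y.card) (hN0 : 0 < N₁) :
    ‖∑ a ∈ A, ∑ b ∈ B, f a * g b * χ (a + b)‖ ≤
      Real.sqrt ((1 + Bd) / L) * ((U.card : ℝ) * V.card) + Z + (eA + eB) * (A.card * B.card) := by
  classical
  have hYpos : (0 : ℝ) < N₁ * Y.card := by
    have h1 : (0 : ℝ) < N₁ := by exact_mod_cast hN0
    have h2 : (0 : ℝ) < Y.card := by exact_mod_cast hY0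
    exact mul_pos h1 h2
  have hterm : ∀ n ∈ range N₁, ∀ y ∈ Y, ‖∑ a ∈ A, ∑ b ∈ B, f a * g b * χ (a + b)‖ ≤
      (Real.sqrt ((1 + Bd) / L) * ((U.card : ℝ) * V.card) +
      (((((U.image fun u => u + (n : ZMod p)) ×ˢ V).filter
        fun t => (t.1 + t.2) / (y : ZMod p) ∈
          (Bad χ L Bd θ).image (fun w => w - θ)).card : ℕ) : ℝ)) +
      ((((A.filter fun a => ¬ ∀ i : Fin L,
        a - ((i : ℕ) : ZMod p) * (y : ZMod p) - (n : ZMod p) ∈ U).card : ℕ) : ℝ) * B.card +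
      A.card * (((B.filter fun b => ¬ ∀ j : Fin L,
        b - (((j : ℕ) : ZMod p) + 1) * ((y : ZMod p) * θ) ∈ V).card : ℕ) : ℝ)) := by
    intro n _ y hy
    have h1 := drop_two A B (fun a => ∀ i : Fin L,
      a - ((i : ℕ) : ZMod p) * (y : ZMod p) - (n : ZMod p) ∈ U) (fun b => ∀ j : Fin L,
      b - (((j : ℕ) : ZMod p) + 1) * ((y : ZMod p) * θ) ∈ V)
      (fun a b => f a * g b * χ (a + b)) (fun a b => by
        rw [norm_mul, norm_mul]
        have := mul_le_mul (mul_le_mul (hf a) (hg b) (norm_nonneg _) zero_le_one)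
          (χ.norm_le_one (a + b)) (norm_nonneg _) (by norm_num)
        simpa using this)
    refine h1.trans (add_le_add ?_ le_rfl)
    set A1 := A.filter fun a => ∀ i : Fin L,
      a - ((i : ℕ) : ZMod p) * (y : ZMod p) - (n : ZMod p) ∈ U with hA1
    set B1 := B.filter fun b => ∀ j : Fin L,
      b - (((j : ℕ) : ZMod p) + 1) * ((y : ZMod p) * θ) ∈ V with hB1
    obtain ⟨c, hc⟩ : ∃ c : ZMod p, c = (y : ZMod p) * θ := ⟨_, rfl⟩
    have hshift : ∑ a ∈ A1, ∑ b ∈ B1, f a * g b * χ (a + b) =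
        ∑ a ∈ A1.image (fun a => a + c), ∑ b ∈ B1.image (fun b => b - c),
          f (a - c) * g (b + c) * χ (a + b) := by
      rw [Finset.sum_image fun a _ b _ hab => add_left_injective c hab]
      refine Finset.sum_congr rfl fun a _ => ?_
      rw [Finset.sum_image fun a _ b _ hab => sub_left_injective hab]
      refine Finset.sum_congr rfl fun b _ => ?_
      rw [add_sub_cancel_right, sub_add_cancel]
      congr 2
      ring
    rw [hshift]
    have h2 := shift_bound χ L hL Bd hBd (y : ZMod p) ((y : ZMod p) * θ) (hY y hy)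
      (A1.image fun a => a + c) (B1.image fun b => b - c)
      (U.image fun u => u + ((n : ZMod p) + c)) V
      (fun a' ha' i => by
        obtain ⟨a, ha, rfl⟩ := mem_image.1 ha'
        refine mem_image.2 ⟨_, (mem_filter.1 ha).2 i, ?_⟩
        ring)
      (fun b' hb' j => by
        obtain ⟨b, hb, rfl⟩ := mem_image.1 hb'
        have := (mem_filter.1 hb).2 j
        have e : b - c - ((j : ℕ) : ZMod p) * ((y : ZMod p) * θ) =
            b - (((j : ℕ) : ZMod p) + 1) * ((y : ZMod p) * θ) := by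
          rw [hc]
          ring
        rw [e]
        exact this)
      (fun a => f (a - c)) (fun b => g (b + c)) (fun x => hf _) (fun x => hg _)
    rw [card_image_of_injective _ (add_left_injective ((n : ZMod p) + c)),
      mul_div_cancel_left₀ _ (hY y hy)] at h2
    refine h2.trans (add_le_add le_rfl ?_)
    norm_cast
    refine Finset.card_le_card_of_injOn (fun t => (t.1 - c, t.2)) ?_ ?_
    · intro t ht
      obtain ⟨h3, h4⟩ := mem_filter.1 (Finset.mem_coe.1 ht)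
      obtain ⟨h5, h6⟩ := mem_product.1 h3
      obtain ⟨u, hu, hu2⟩ := mem_image.1 h5
      refine Finset.mem_coe.2 (mem_filter.2 ⟨mem_product.2 ⟨mem_image.2 ⟨u, hu, ?_⟩, h6⟩, ?_⟩)
      · show u + (n : ZMod p) = t.1 - c
        rw [← hu2]
        ring
      · refine mem_image.2 ⟨_, h4, ?_⟩
        show (t.1 + t.2) / (y : ZMod p) - θ = (t.1 - c + t.2) / (y : ZMod p)
        have hy0 := hY y hy
        rw [hc]
        field_simp
        ring
    · intro t _ t' _ htt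
      have h3 := Prod.ext_iff.1 htt
      exact Prod.ext (sub_left_injective h3.1) h3.2
  have h1 : ∑ n ∈ range N₁, ∑ y ∈ Y, ‖∑ a ∈ A, ∑ b ∈ B, f a * g b * χ (a + b)‖ ≤ _ :=
    Finset.sum_le_sum fun n hn => Finset.sum_le_sum fun y hy => hterm n hn y hy
  simp only [Finset.sum_add_distrib, Finset.sum_const, nsmul_eq_mul, card_range,
    ← Finset.sum_mul, ← Finset.mul_sum] at h1
  have h3 := (count_two Y hY N₁ h U V ((Bad χ L Bd θ).image fun w => w - θ)).trans hZ
  have hEA' := mul_le_mul_of_nonneg_right hEA (Nat.cast_nonneg (α := ℝ) B.card)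
  have hEB' := mul_le_mul_of_nonneg_left hEB (Nat.cast_nonneg (α := ℝ) (N₁ * A.card))
  push_cast at hEB'
  have h2 : ((N₁ : ℝ) * Y.card) * ‖∑ a ∈ A, ∑ b ∈ B, f a * g b * χ (a + b)‖ ≤
      (N₁ * Y.card) * (Real.sqrt ((1 + Bd) / L) * ((U.card : ℝ) * V.card) + Z +
        (eA + eB) * (A.card * B.card)) := by
    nlinarith [h1, h3, hEA', hEB']
  exact le_of_mul_le_mul_left h2 hYpos

end Pool.Agent.H58BU
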