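import Pool.Agent.H58BU.Q

/-! # Exceptional elements and the cells -/

set_option autoImplicit false
set_option linter.unusedSectionVars false

namespace Pool.Agent.H58BU

open Finset Pool.Agent.TH7.PG

theorem ex_gen {p : ℕ} [Fact p.Prime] (A : Finset (ZMod p)) (L : ℕ) (I : Finset ℕ) (N : ℕ)
    (P : ZMod p → ℕ → Prop) [∀ a n, Decidable (P a n)] (s : Fin L → ℕ → ℕ)
    (hs : ∀ i, ∀ n ∈ I, s i n < N) (hinj : ∀ i, ∀ n ∈ I, ∀ m ∈ I, s i n = s i m → n = m) :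
    ∑ n ∈ I, (((A.filter fun a => ¬ ∀ i : Fin L, P a (s i n)).card : ℕ) : ℝ) ≤
      L * (((A ×ˢ range N).filter fun t : ZMod p × ℕ => ¬ P t.1 t.2).card : ℝ) := by
  classical
  have h1 : ∀ n ∈ I, (((A.filter fun a => ¬ ∀ i : Fin L, P a (s i n)).card : ℕ) : ℝ) ≤
      ∑ i : Fin L, (((A.filter fun a => ¬ P a (s i n)).card : ℕ) : ℝ) := by
    intro n _
    norm_cast
    refine le_trans (Finset.card_le_card ?_) (Finset.card_biUnion_le (s := univ)
      (t := fun i : Fin L => A.filter fun a => ¬ P a (s i n)))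
    intro a ha
    obtain ⟨h2, h3⟩ := mem_filter.1 ha
    push Not at h3
    obtain ⟨i, hi⟩ := h3
    exact mem_biUnion.2 ⟨i, mem_univ _, mem_filter.2 ⟨h2, hi⟩⟩
  refine (Finset.sum_le_sum h1).trans ?_
  rw [Finset.sum_comm]
  have h2 : ∀ i : Fin L, ∑ n ∈ I, (((A.filter fun a => ¬ P a (s i n)).card : ℕ) : ℝ) ≤
      (((A ×ˢ range N).filter fun t : ZMod p × ℕ => ¬ P t.1 t.2).card : ℝ) := by
    intro i
    norm_cast
    rw [← Finset.card_sigma]
    refine Finset.card_le_card_of_injOn (fun t => (t.2, s i t.1)) ?_ ?_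
    · intro t ht
      obtain ⟨h3, h4⟩ := Finset.mem_sigma.1 (Finset.mem_coe.1 ht)
      obtain ⟨h5, h6⟩ := mem_filter.1 h4
      exact Finset.mem_coe.2 (mem_filter.2 ⟨mem_product.2 ⟨h5, mem_range.2 (hs i _ h3)⟩, h6⟩)
    · intro t ht t' ht' htt
      obtain ⟨h3, _⟩ := Finset.mem_sigma.1 (Finset.mem_coe.1 ht)
      obtain ⟨h3', _⟩ := Finset.mem_sigma.1 (Finset.mem_coe.1 ht')
      have h5 := Prod.ext_iff.1 htt
      have h6 : t.1 = t'.1 := hinj i _ h3 _ h3' h5.2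
      have h7 : t.2 = t'.2 := h5.1
      exact Sigma.ext h6 (heq_of_eq h7)
  refine (Finset.sum_le_sum fun i _ => h2 i).trans (le_of_eq ?_)
  rw [Finset.sum_const, nsmul_eq_mul, card_univ, Fintype.card_fin]

/-- the union of the cells with indices in `J` -/
theorem cell_prog {p : ℕ} [Fact p.Prime] (M N : ℕ) (hM : 1 ≤ M) (hMN : M ≤ N) (J : Finset ℕ)
    (c : ZMod p) : ∃ T : Finset (ZMod p), T.card ≤ J.card ∧
      ∀ x : ZMod p, x.val / M ∈ J → ∃ s ∈ T, ∃ n < N, x + c = s - (n : ZMod p) := by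
  classical
  refine ⟨J.image fun j => ((j * M + (M - 1) : ℕ) : ZMod p) + c, Finset.card_image_le, ?_⟩
  intro x hx
  refine ⟨_, mem_image.2 ⟨_, hx, rfl⟩, M - 1 - x.val % M, by omega, ?_⟩
  have h1 : x.val % M ≤ M - 1 := by
    have := Nat.mod_lt x.val (show 0 < M by omega)
    omega
  have h2 : x = ((x.val / M * M + x.val % M : ℕ) : ZMod p) := by
    rw [Nat.div_add_mod', ZMod.natCast_zmod_val]
  have h3 : ((M - 1 - x.val % M : ℕ) : ZMod p) = ((M - 1 : ℕ) : ZMod p) -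
      ((x.val % M : ℕ) : ZMod p) := Nat.cast_sub h1
  rw [h3]
  calc x + c = ((x.val / M * M + x.val % M : ℕ) : ZMod p) + c := by rw [← h2]
    _ = _ := by
        push_cast
        ring

theorem wn_add {p : ℕ} (N h : ℕ) (r1 r2 : ZMod p → ℝ) (t : ZMod p) :
    wn N h (fun s => r1 s + r2 s) 0 t = wn N h r1 0 t + wn N h r2 0 t := by
  unfold wn
  rw [← Finset.sum_add_distrib]

/-- the concentration of the popular sums -/
theorem pop_cells {p : ℕ} [Fact p.Prime] (A U B V : Finset (ZMod p)) (θ : ZMod p)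
    (N M N₁ : ℕ) (hN₁ : 1 ≤ N₁) (hN₁N : N₁ ≤ N) (hM : 0 < M) (q : ℝ) (hq : 0 < q) (J : Finset ℕ)
    (δ R : ℝ) (hJ : (J.card : ℝ) * (N * M) ≤ R)
    (hT : ∀ T : Finset (ZMod p), (T.card : ℝ) * (N * M) ≤ R →
      (((A ×ˢ B).filter fun t => ∃ s ∈ T, ∃ n < N, t.1 + t.2 = s - (n : ZMod p)).card : ℝ) ≤ δ) :
    ∑ s : ZMod p, (if s.val / N₁ ∈ J then rp (pop A U 1 N q) (pop B V θ M q) s else 0) ≤
      q ^ 2 * δ := by
  classical
  have hNM : (0 : ℝ) < N * M := by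
    have h1 : (0 : ℝ) < N := by exact_mod_cast (lt_of_lt_of_le hN₁ hN₁N)
    have h2 : (0 : ℝ) < M := by exact_mod_cast hM
    exact mul_pos h1 h2
  have h1 : ∑ s : ZMod p, (if s.val / N₁ ∈ J then rp (pop A U 1 N q) (pop B V θ M q) s else 0) =
      (((pop A U 1 N q ×ˢ pop B V θ M q).filter fun t => (t.1 + t.2).val / N₁ ∈ J).card : ℝ) := by
    have h2 := sum_rp (pop A U 1 N q) (pop B V θ M q)
      (fun s => if s.val / N₁ ∈ J then (1 : ℝ) else 0)
    rw [← Finset.sum_boole, Finset.sum_product]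
    rw [h2]
    refine sum_congr rfl fun s _ => ?_
    split_ifs <;> simp
  rw [h1]
  have h2 := pop_conc A U B V 1 θ N M q hq (fun x : ZMod p => x.val / N₁ ∈ J)
  have h3 : ∀ n ∈ range N, ∀ m ∈ range M, (((A ×ˢ B).filter fun t =>
      ((t.1 - (n : ZMod p) * 1) + (t.2 - (m : ZMod p) * θ)).val / N₁ ∈ J).card : ℝ) ≤ δ := by
    intro n _ m _
    obtain ⟨T, hTc, hT2⟩ := cell_prog N₁ N hN₁ hN₁N J ((n : ZMod p) + (m : ZMod p) * θ)
    refine le_trans ?_ (hT T (le_trans (mul_le_mul_of_nonneg_right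
      (by exact_mod_cast hTc) hNM.le) hJ))
    norm_cast
    refine Finset.card_le_card fun t ht => ?_
    obtain ⟨h4, h5⟩ := mem_filter.1 ht
    refine mem_filter.2 ⟨h4, ?_⟩
    obtain ⟨s, hs, k, hk, e⟩ := hT2 _ h5
    refine ⟨s, hs, k, hk, ?_⟩
    rw [← e, mul_one]
    abel
  have h4 : ∑ n ∈ range N, ∑ m ∈ range M, (((A ×ˢ B).filter fun t =>
      ((t.1 - (n : ZMod p) * 1) + (t.2 - (m : ZMod p) * θ)).val / N₁ ∈ J).card : ℝ) ≤
      (N * M) * δ := by
    refine (Finset.sum_le_sum fun n hn => Finset.sum_le_sum fun m hm => h3 n hn m hm).trans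
      (le_of_eq ?_)
    simp only [Finset.sum_const, nsmul_eq_mul, card_range]
    ring
  have h5 : (((pop A U 1 N q ×ˢ pop B V θ M q).filter
      fun t => (t.1 + t.2).val / N₁ ∈ J).card : ℝ) * (N * M) ≤ (q ^ 2 * δ) * (N * M) := by
    refine h2.trans ?_
    calc q ^ 2 * _ ≤ q ^ 2 * ((N * M) * δ) := mul_le_mul_of_nonneg_left h4 (by positivity)
      _ = _ := by ring
  exact le_of_mul_le_mul_right h5 hNM

end Pool.Agent.H58BU
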