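import Pool.Agent.H58BU.R

/-! # Non concentration below the square root: power saving -/

set_option autoImplicit false
set_option linter.unusedSectionVars false

namespace Pool.Agent.H58BU

open Finset Pool.Agent.TH7.PG

theorem cut_num (q ab : ℝ) (hq : 6 ≤ q) (hab : 0 ≤ ab) :
    1 / q ^ 4 * ab + (q ^ 12) ^ 2 * (1 / q ^ 128 * ab) +
      (2 * q ^ 2 / q ^ 12 + 2 * q ^ 5 / q ^ 12) * ab ≤ q ^ 2 * (1 / q ^ 4 * ab) := by
  have hq0 : 0 < q := by linarith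
  have hq1 : 1 ≤ q := by linarith
  have h1 : (q ^ 12) ^ 2 * (1 / q ^ 128) ≤ 1 / q ^ 4 := by
    rw [← pow_mul, mul_one_div, div_le_div_iff₀ (by positivity) (by positivity), ← pow_add,
      one_mul]
    exact pow_le_pow_right₀ hq1 (by norm_num)
  have h2 : 2 * q ^ 2 / q ^ 12 ≤ 2 * (1 / q ^ 4) := by
    rw [mul_one_div, div_le_div_iff₀ (by positivity) (by positivity), mul_assoc, ← pow_add]
    exact mul_le_mul_of_nonneg_left (pow_le_pow_right₀ hq1 (by norm_num)) (by norm_num)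
  have h3 : 2 * q ^ 5 / q ^ 12 ≤ 2 * (1 / q ^ 4) := by
    rw [mul_one_div, div_le_div_iff₀ (by positivity) (by positivity), mul_assoc, ← pow_add]
    exact mul_le_mul_of_nonneg_left (pow_le_pow_right₀ hq1 (by norm_num)) (by norm_num)
  have h4 : (0 : ℝ) < 1 / q ^ 4 := by positivity
  have h5 : 6 * (1 / q ^ 4) ≤ q ^ 2 * (1 / q ^ 4) :=
    mul_le_mul_of_nonneg_right (by nlinarith) h4.le
  calc 1 / q ^ 4 * ab + (q ^ 12) ^ 2 * (1 / q ^ 128 * ab) +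
      (2 * q ^ 2 / q ^ 12 + 2 * q ^ 5 / q ^ 12) * ab =
      (1 / q ^ 4 + (q ^ 12) ^ 2 * (1 / q ^ 128) + (2 * q ^ 2 / q ^ 12 + 2 * q ^ 5 / q ^ 12)) *
        ab := by ring
    _ ≤ (q ^ 2 * (1 / q ^ 4)) * ab := mul_le_mul_of_nonneg_right (by linarith) hab
    _ = _ := by ring

theorem cut_one (ε : ℝ) (hε : 0 < ε) (hε1 : ε ≤ 1) : ∃ τ : ℝ, 0 < τ ∧ ∃ p₀ : ℕ,
    ∀ (p : ℕ) [Fact p.Prime], p₀ ≤ p → ∀ χ : DirichletCharacter ℂ p, χ ≠ 1 →
    ∀ (A U B V : Finset (ZMod p)) (θ : ZMod p) (N N' : ℕ), θ ≠ 0 → (p : ℝ) ^ ε ≤ N →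
      (p : ℝ) ^ ε ≤ N' → N ≤ p →
      (∀ a ∈ A, ∀ n < N, a - (n : ZMod p) ∈ U) → (U.card : ℝ) ≤ (p : ℝ) ^ τ * A.card →
      (∀ b ∈ B, ∀ n < N', b - (n : ZMod p) * θ ∈ V) → (V.card : ℝ) ≤ (p : ℝ) ^ τ * B.card →
      (∀ T : Finset (ZMod p), (T.card : ℝ) * (N * (min N N' : ℕ)) ≤ (p : ℝ) ^ (1 / 2 + ε) →
        (((A ×ˢ B).filter fun t => ∃ s ∈ T, ∃ n < N, t.1 + t.2 = s - (n : ZMod p)).card : ℝ) ≤
          (p : ℝ) ^ (-ε) * (A.card * B.card)) →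
      ∀ f g : ZMod p → ℂ, ‖∑ a ∈ A, ∑ b ∈ B, f a * g b * χ (a + b)‖ ≤ (p : ℝ) ^ (-τ) *
        ((Real.sqrt A.card * Real.sqrt B.card) *
          (Real.sqrt (∑ a ∈ A, ‖f a‖ ^ 2) * Real.sqrt (∑ b ∈ B, ‖g b‖ ^ 2))) := by
  classical
  obtain ⟨κ, hκ⟩ : ∃ κ : ℝ, κ = ε / 128 := ⟨_, rfl⟩
  have hεκ : ε = 128 * κ := by rw [hκ]; ring
  have hκ0 : 0 < κ := by rw [hκ]; positivity
  have hκ64 : κ ≤ 1 / 64 := by rw [hκ]; linarith
  have hκ1 : κ ≤ 1 := by linarith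
  have hκκ0 : 0 < κ * κ := mul_pos hκ0 hκ0
  set k : ℕ := ⌈1 / κ⌉₊ with hk
  have hk1 : 1 ≤ κ * k := by
    have h1 : 1 / κ ≤ k := Nat.le_ceil _
    rw [div_le_iff₀ hκ0] at h1
    linarith
  have hk2 : κ * k ≤ 2 := by
    have h1 : (k : ℝ) < 1 / κ + 1 := Nat.ceil_lt_add_one (by positivity)
    have h2 : κ * k < κ * (1 / κ + 1) := mul_lt_mul_of_pos_left h1 hκ0
    have h3 : κ * (1 / κ + 1) = 1 + κ := by
      field_simp
    linarith
  have hkn : 1 ≤ k := by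
    rw [hk]
    exact Nat.one_le_ceil_iff.2 (by positivity)
  set C₁ : ℝ := (4 * k : ℝ) ^ (2 * k) * 2 ^ k + 4 * k with hC₁
  have hC0 : 0 ≤ C₁ := by positivity
  obtain ⟨p₁, hp₁⟩ := large 6 κ hκ0
  obtain ⟨p₂, hp₂⟩ := large (128 * (1 + k) * C₁) κ hκ0
  obtain ⟨p₃, hp₃⟩ := large 3 (κ * κ / 8) (by positivity)
  obtain ⟨p₄, hp₄⟩ := large 3 (κ * κ / 4 / 12) (by positivity)
  obtain ⟨p₅, hp₅⟩ := half_params κ hκ0 hκ64 k hk1 hkn
  refine ⟨κ * κ / 16, by positivity, max p₅ (max (max p₁ p₂) (max p₃ p₄)), ?_⟩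
  intro p hpf hp' χ hχ A U B V θ N N' hθ hN hN' hNp hAU hA hBV hB hT
  have hp5 := hp₅ p ((le_max_left _ _).trans hp')
  have hp : max (max p₁ p₂) (max p₃ p₄) ≤ p := (le_max_right _ _).trans hp'
  have hp1 := hp₁ p (((le_max_left _ _).trans (le_max_left _ _)).trans hp)
  have hp2 := hp₂ p (((le_max_right _ _).trans (le_max_left _ _)).trans hp)
  have hp3 := hp₃ p (((le_max_left _ _).trans (le_max_right _ _)).trans hp)
  have hp4 := hp₄ p (((le_max_right _ _).trans (le_max_right _ _)).trans hp)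
  have hpR : (1 : ℝ) ≤ p := by exact_mod_cast (Fact.out : p.Prime).one_lt.le
  have hp0 : (0 : ℝ) < p := by linarith
  have hab0 : (0 : ℝ) ≤ (A.card : ℝ) * B.card := mul_nonneg (Nat.cast_nonneg _) (Nat.cast_nonneg _)
  rw [hεκ] at hN hN' hT
  obtain ⟨Nm, hNm⟩ : ∃ Nm : ℕ, Nm = min N N' := ⟨_, rfl⟩
  rw [← hNm] at hT
  have hNmN : Nm ≤ N := by rw [hNm]; exact min_le_left _ _
  have hNmN' : Nm ≤ N' := by rw [hNm]; exact min_le_right _ _
  have hNm1 : (p : ℝ) ^ (64 * κ) ≤ Nm := by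
    have e1 : (p : ℝ) ^ (64 * κ) ≤ (p : ℝ) ^ (128 * κ) :=
      Real.rpow_le_rpow_of_exponent_le hpR (by linarith)
    rcases le_total N N' with h1 | h1
    · rw [hNm, min_eq_left h1]
      exact e1.trans hN
    · rw [hNm, min_eq_right h1]
      exact e1.trans hN'
  obtain ⟨h, Y0, W, Y, hh1, hkh0, hW0, hYW, hδ, hY0p, hY, hYc, hLY, hY01, hYpos⟩ :=
    hp5 Nm hNm1 (hNmN.trans hNp)
  set L : ℕ := ⌊(p : ℝ) ^ κ⌋₊ with hL
  have hLle : (L : ℝ) ≤ (p : ℝ) ^ κ := Nat.floor_le (by positivity)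
  have hLge : (p : ℝ) ^ κ / 2 ≤ L := by
    have := Nat.lt_floor_add_one ((p : ℝ) ^ κ)
    rw [← hL] at this
    linarith
  have hL1 : 1 ≤ L := by
    rw [hL]
    exact Nat.le_floor (by push_cast; linarith)
  have hL1' : (1 : ℝ) ≤ L := by exact_mod_cast hL1
  have hLp : L ≤ p := by
    have h1 : (L : ℝ) ≤ p := by
      refine hLle.trans ?_
      calc (p : ℝ) ^ κ ≤ (p : ℝ) ^ (1 : ℝ) := Real.rpow_le_rpow_of_exponent_le hpR hκ1
        _ = p := Real.rpow_one _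
    exact_mod_cast h1
  have hLpos : (0 : ℝ) < L := by linarith
  set Bd : ℝ := (L : ℝ) ^ (1 - κ) with hBd
  have hBd0 : 0 < Bd := by positivity
  set G : ℝ := ((4 * k : ℝ) ^ (2 * k) * (L : ℝ) ^ k * p +
    (4 * k) * (L : ℝ) ^ (2 * k) * Real.sqrt p) / Bd ^ (2 * k) with hG
  have hG0 : 0 ≤ G := by positivity
  have hX : ((Bad χ L Bd θ).card : ℝ) ≤ C₁ * (p : ℝ) ^ (1 / 2 + 4 * κ + 2 * κ) :=
    (bad_card χ L hLp Bd G hG0 (fun h hh => G_bound χ hχ k L hL1 hLp Bd hBd0 h hh) _ hθ).trans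
      (M_num p κ κ k L hpR hκ0 hκ0 (by linarith) hk1 hk2 hL1' hLge hLle)
  obtain ⟨X, hXdef⟩ : ∃ X : Finset (ZMod p), X = (Bad χ L Bd θ).image (fun w => w - θ) := ⟨_, rfl⟩
  have hXc : (X.card : ℝ) ≤ C₁ * (p : ℝ) ^ (1 / 2 + 4 * κ + 2 * κ) := by
    refine le_trans ?_ hX
    rw [hXdef]
    exact_mod_cast Finset.card_image_le
  -- the short shifts
  have hN4 : (4 : ℝ) ≤ N := by
    refine le_trans ?_ hN
    refine le_trans (le_trans ?_ hp1) (Real.rpow_le_rpow_of_exponent_le hpR (by linarith))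
    norm_num
  have hN4' : 4 ≤ N := by exact_mod_cast hN4
  obtain ⟨N₁, hN₁⟩ : ∃ N₁ : ℕ, N₁ = (N + 1) / 2 := ⟨_, rfl⟩
  have hkh : k * h ≤ N₁ := by
    have e1 : Nm / 2 + k * h ≤ Nm := hkh0
    omega
  have hLY' : L * Y0 ≤ Nm / 2 := hLY
  have hN₁0 : 0 < N₁ := by omega
  have hN₁N : N₁ ≤ N := by omega
  have hN₁2 : (N : ℝ) ≤ 2 * N₁ := by
    have h1 : N ≤ 2 * N₁ := by omega
    exact_mod_cast h1
  have hNm0 : 0 < Nm := by
    have h1 : (0 : ℝ) < Nm := lt_of_lt_of_le (Real.rpow_pos_of_pos hp0 _) hNm1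
    exact_mod_cast h1
  have hYz : ∀ y ∈ Y, ((y : ℕ) : ZMod p) ≠ 0 := by
    intro y hy h
    rw [ZMod.natCast_eq_zero_iff] at h
    have := Nat.le_of_dvd (hY y hy).1.pos h
    have := (hY y hy).2.2
    omega
  have hjy : ∀ y ∈ Y, ∀ j : Fin L, ((j : ℕ) + 1) * y < Nm := by
    intro y hy j
    have h2 : ((j : ℕ) + 1) * y ≤ L * Y0 := Nat.mul_le_mul j.2 (hY y hy).2.2
    omega
  have hiy : ∀ y ∈ Y, ∀ i : Fin L, (i : ℕ) * y < Nm / 2 := by
    intro y hy i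
    have h2 : ((i : ℕ) + 1) * y ≤ L * Y0 := Nat.mul_le_mul i.2 (hY y hy).2.2
    have h3 : 0 < y := (hY y hy).1.pos
    have h4 : ((i : ℕ) + 1) * y = (i : ℕ) * y + y := by ring
    omega
  have hr : p < ⌈(p : ℝ) ^ κ⌉₊ ^ (k + 1) := by
    have h1 : (p : ℝ) < ((⌈(p : ℝ) ^ κ⌉₊ ^ (k + 1) : ℕ) : ℝ) := by
      push_cast
      calc (p : ℝ) = (p : ℝ) ^ (1 : ℝ) := (Real.rpow_one _).symm
        _ < (p : ℝ) ^ (κ * (k + 1 : ℕ)) := by
            refine Real.rpow_lt_rpow_of_exponent_lt ?_ ?_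
            · exact_mod_cast (Fact.out : p.Prime).one_lt
            · push_cast
              linarith
        _ = ((p : ℝ) ^ κ) ^ (k + 1) := by rw [Real.rpow_mul hp0.le, Real.rpow_natCast]
        _ ≤ ((⌈(p : ℝ) ^ κ⌉₊ : ℕ) : ℝ) ^ (k + 1) :=
            pow_le_pow_left₀ (by positivity) (Nat.le_ceil _) _
    exact_mod_cast h1
  -- powers of `q = p ^ κ`
  obtain ⟨q, hq⟩ : ∃ q : ℝ, q = (p : ℝ) ^ κ := ⟨_, rfl⟩
  have hqn : ∀ n : ℕ, q ^ n = (p : ℝ) ^ (n * κ) := by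
    intro n
    rw [hq, ← Real.rpow_natCast, ← Real.rpow_mul hp0.le]
    congr 1
    ring
  have hq6 : 6 ≤ q := by
    rw [hq]
    exact hp1
  have hq1 : 1 ≤ q := by linarith
  have hq0 : 0 < q := by linarith
  have hq12 : 0 < q ^ 12 := pow_pos hq0 12
  have hUA : (U.card : ℝ) ≤ q * A.card := by
    refine hA.trans (mul_le_mul_of_nonneg_right ?_ (Nat.cast_nonneg _))
    rw [hq]
    exact Real.rpow_le_rpow_of_exponent_le hpR (by nlinarith)
  have hVB : (V.card : ℝ) ≤ q * B.card := by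
    refine hB.trans (mul_le_mul_of_nonneg_right ?_ (Nat.cast_nonneg _))
    rw [hq]
    exact Real.rpow_le_rpow_of_exponent_le hpR (by nlinarith)
  have hUV : (U.card : ℝ) * V.card ≤ q ^ 2 * (A.card * B.card) := by
    calc (U.card : ℝ) * V.card ≤ (q * A.card) * (q * B.card) :=
          mul_le_mul hUA hVB (Nat.cast_nonneg _) (mul_nonneg hq0.le (Nat.cast_nonneg _))
      _ = _ := by ring
  have hsq : (p : ℝ) ^ (1 / 2 : ℝ) = Real.sqrt p := (Real.sqrt_eq_rpow _).symm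
  have hsqrt0 : 0 < Real.sqrt p := Real.sqrt_pos.2 hp0
  -- the popular elements
  obtain ⟨Up, hUp⟩ : ∃ Up : Finset (ZMod p), Up = pop A U 1 N (q ^ 12) := ⟨_, rfl⟩
  obtain ⟨Vp, hVp⟩ : ∃ Vp : Finset (ZMod p), Vp = pop B V θ Nm (q ^ 12) := ⟨_, rfl⟩
  have hUpU : (Up.card : ℝ) ≤ U.card := by
    rw [hUp]
    exact_mod_cast Finset.card_le_card (pop_sub _ _ _ _ _)
  have hVpV : (Vp.card : ℝ) ≤ V.card := by
    rw [hVp]
    exact_mod_cast Finset.card_le_card (pop_sub _ _ _ _ _)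
  have hUVp : (Up.card : ℝ) * Vp.card ≤ U.card * V.card :=
    mul_le_mul hUpU hVpV (Nat.cast_nonneg _) (Nat.cast_nonneg _)
  have hpe1 := pop_err A U 1 N (q ^ 12) (fun a ha n hn => by rw [mul_one]; exact hAU a ha n hn)
  have hpe2 := pop_err B V θ Nm (q ^ 12) (fun b hb n hn => hBV b hb n (lt_of_lt_of_le hn hNmN'))
  rw [← hUp] at hpe1
  rw [← hVp] at hpe2
  have hEA : ∑ n ∈ range N₁, ∑ y ∈ Y, (((A.filter fun a => ¬ ∀ i : Fin L,
      a - ((i : ℕ) : ZMod p) * (y : ZMod p) - (n : ZMod p) ∈ Up).card : ℕ) : ℝ) ≤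
        N₁ * Y.card * ((2 * q ^ 2 / q ^ 12) * A.card) := by
    rw [Finset.sum_comm]
    have h1 : ∀ y ∈ Y, ∑ n ∈ range N₁, (((A.filter fun a => ¬ ∀ i : Fin L,
        a - ((i : ℕ) : ZMod p) * (y : ZMod p) - (n : ZMod p) ∈ Up).card : ℕ) : ℝ) ≤
          N₁ * ((2 * q ^ 2 / q ^ 12) * A.card) := by
      intro y hy
      have h2 := ex_gen A L (range N₁) N (fun a n => a - (n : ZMod p) * 1 ∈ Up)
        (fun i n => (i : ℕ) * y + n) (fun i n hn => by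
          have := hiy y hy i
          have := mem_range.1 hn
          omega) (fun i n _ m _ hnm => by omega)
      have h3 : ∀ n : ℕ, (A.filter fun a => ¬ ∀ i : Fin L,
          a - ((i : ℕ) : ZMod p) * (y : ZMod p) - (n : ZMod p) ∈ Up) =
          A.filter fun a => ¬ ∀ i : Fin L, a - (((i : ℕ) * y + n : ℕ) : ZMod p) * 1 ∈ Up := by
        intro n
        refine Finset.filter_congr fun a _ => not_congr (forall_congr' fun i => ?_)
        have e : a - ((i : ℕ) : ZMod p) * (y : ZMod p) - (n : ZMod p) =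
            a - (((i : ℕ) * y + n : ℕ) : ZMod p) * 1 := by
          push_cast
          ring
        rw [e]
      rw [Finset.sum_congr rfl fun n _ => by rw [h3 n]]
      refine h2.trans ?_
      obtain ⟨E, hE⟩ : ∃ E : ℝ, E = (((A ×ˢ range N).filter fun t : ZMod p × ℕ =>
        t.1 - (t.2 : ZMod p) * 1 ∉ Up).card : ℝ) := ⟨_, rfl⟩
      rw [← hE] at hpe1
      rw [← hE]
      have hE0 : 0 ≤ E := by rw [hE]; exact Nat.cast_nonneg _
      have h4 : q ^ 12 * E ≤ q * A.card * (2 * N₁) := hpe1.trans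
        (mul_le_mul hUA hN₁2 (Nat.cast_nonneg _) (mul_nonneg hq0.le (Nat.cast_nonneg _)))
      have h5 : (L : ℝ) * E ≤ q * E := mul_le_mul_of_nonneg_right (by rw [hq]; exact hLle) hE0
      refine h5.trans ?_
      have h6 : E ≤ q * A.card * (2 * N₁) / q ^ 12 := by
        rw [le_div_iff₀ hq12]
        linarith
      calc q * E ≤ q * (q * A.card * (2 * N₁) / q ^ 12) := mul_le_mul_of_nonneg_left h6 hq0.le
        _ = _ := by ring
    refine (Finset.sum_le_sum h1).trans (le_of_eq ?_)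
    rw [Finset.sum_const, nsmul_eq_mul]
    ring
  have hNmY : (Nm : ℝ) ≤ 2 * q ^ 3 * Y.card := by
    have h2 : (Nm : ℝ) * (p : ℝ) ^ (-(3 * κ)) ≤ 2 * Y.card := by linarith
    have h3 : (p : ℝ) ^ (-(3 * κ)) * q ^ 3 = 1 := by
      rw [hqn, ← Real.rpow_add hp0]
      norm_num
    calc (Nm : ℝ) = Nm * (p : ℝ) ^ (-(3 * κ)) * q ^ 3 := by rw [mul_assoc, h3, mul_one]
      _ ≤ 2 * Y.card * q ^ 3 := mul_le_mul_of_nonneg_right h2 (by positivity)
      _ = 2 * q ^ 3 * Y.card := by ring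
  have hEB : ∑ y ∈ Y, (((B.filter fun b => ¬ ∀ j : Fin L,
      b - (((j : ℕ) : ZMod p) + 1) * ((y : ZMod p) * θ) ∈ Vp).card : ℕ) : ℝ) ≤
        Y.card * ((2 * q ^ 5 / q ^ 12) * B.card) := by
    have h2 := ex_gen B L Y Nm (fun b n => b - (n : ZMod p) * θ ∈ Vp)
      (fun j y => ((j : ℕ) + 1) * y) (fun j y hy => hjy y hy j)
      (fun j n _ m _ hnm => Nat.eq_of_mul_eq_mul_left (by omega) hnm)
    have h3 : ∀ y : ℕ, (B.filter fun b => ¬ ∀ j : Fin L,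
        b - (((j : ℕ) : ZMod p) + 1) * ((y : ZMod p) * θ) ∈ Vp) =
        B.filter fun b => ¬ ∀ j : Fin L, b - ((((j : ℕ) + 1) * y : ℕ) : ZMod p) * θ ∈ Vp := by
      intro y
      refine Finset.filter_congr fun b _ => not_congr (forall_congr' fun j => ?_)
      have e : b - (((j : ℕ) : ZMod p) + 1) * ((y : ZMod p) * θ) =
          b - ((((j : ℕ) + 1) * y : ℕ) : ZMod p) * θ := by
        push_cast
        ring
      rw [e]
    rw [Finset.sum_congr rfl fun y _ => by rw [h3 y]]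
    refine h2.trans ?_
    obtain ⟨E, hE⟩ : ∃ E : ℝ, E = (((B ×ˢ range Nm).filter fun t : ZMod p × ℕ =>
      t.1 - (t.2 : ZMod p) * θ ∉ Vp).card : ℝ) := ⟨_, rfl⟩
    rw [← hE] at hpe2
    rw [← hE]
    have hE0 : 0 ≤ E := by rw [hE]; exact Nat.cast_nonneg _
    have h4 : q ^ 12 * E ≤ q * B.card * (2 * q ^ 3 * Y.card) := hpe2.trans
      (mul_le_mul hVB hNmY (Nat.cast_nonneg _) (mul_nonneg hq0.le (Nat.cast_nonneg _)))
    have h5 : (L : ℝ) * E ≤ q * E := mul_le_mul_of_nonneg_right (by rw [hq]; exact hLle) hE0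
    refine h5.trans ?_
    have h6 : E ≤ q * B.card * (2 * q ^ 3 * Y.card) / q ^ 12 := by
      rw [le_div_iff₀ hq12]
      linarith
    calc q * E ≤ q * (q * B.card * (2 * q ^ 3 * Y.card) / q ^ 12) :=
          mul_le_mul_of_nonneg_left h6 hq0.le
      _ = _ := by ring
  rcases A.eq_empty_or_nonempty with hA0 | hAne
  · intro f g
    rw [hA0]
    simp
  rcases B.eq_empty_or_nonempty with hB0 | hBne
  · intro f g
    rw [hB0]
    simp
  obtain ⟨a₀, ha₀⟩ := hAne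
  obtain ⟨b₀, hb₀⟩ := hBne
  have hU0 : (0 : ℝ) < U.card := by
    have h1 := hAU a₀ ha₀ 0 (by omega)
    exact_mod_cast Finset.card_pos.2 ⟨_, h1⟩
  have hV0 : (0 : ℝ) < V.card := by
    have h1 := hBV b₀ hb₀ 0 (by omega)
    exact_mod_cast Finset.card_pos.2 ⟨_, h1⟩
  obtain ⟨u, hu⟩ : ∃ u : ℝ, u = (U.card : ℝ) * V.card := ⟨_, rfl⟩
  have hu0 : 0 < u := by rw [hu]; exact mul_pos hU0 hV0
  rw [← hu] at hUV hUVp
  obtain ⟨s, hs⟩ : ∃ s : ℝ, s = Real.sqrt p := ⟨_, rfl⟩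
  have hs0 : 0 < s := by rw [hs]; exact hsqrt0
  have hN₁R : (0 : ℝ) < N₁ := by exact_mod_cast hN₁0
  have hNmR : (0 : ℝ) < Nm := by exact_mod_cast hNm0
  have hq64 : 0 < q ^ 64 := pow_pos hq0 64
  have hsq64 : 0 < s * q ^ 64 := mul_pos hs0 hq64
  obtain ⟨lam, hlam⟩ : ∃ lam : ℝ, lam = 2 * N₁ * Nm * u / (6 * (s * q ^ 64)) := ⟨_, rfl⟩
  have hlam0 : 0 ≤ lam := by
    rw [hlam]
    exact div_nonneg (mul_nonneg (mul_nonneg (mul_nonneg (by norm_num) hN₁R.le) hNmR.le) hu0.le)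
      (mul_nonneg (by norm_num) hsq64.le)
  have hlam1 : 6 * lam * (s * q ^ 64) = 2 * N₁ * Nm * u := by
    rw [hlam]
    field_simp
  obtain ⟨J, hJ1, hJ2⟩ := cut N₁ hN₁0 (hN₁N.trans hNp) (rp Up Vp) (rp_nonneg _ _) lam hlam0
  rw [sum_rp_one] at hJ1
  have hJ1' : (J.card : ℝ) * lam ≤ u := hJ1.trans hUVp
  have hR : (p : ℝ) ^ (1 / 2 + 128 * κ) = s * q ^ 128 := by
    rw [hqn, Real.rpow_add hp0, hsq, hs]
    norm_num
  have hJ3 : (J.card : ℝ) * (N * Nm) ≤ (p : ℝ) ^ (1 / 2 + 128 * κ) := by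
    have h1 : ((J.card : ℝ) * (2 * N₁ * Nm)) * u ≤ (6 * (s * q ^ 64)) * u := by
      calc ((J.card : ℝ) * (2 * N₁ * Nm)) * u = J.card * (2 * N₁ * Nm * u) := by ring
        _ = J.card * (6 * lam * (s * q ^ 64)) := by rw [hlam1]
        _ = (J.card * lam) * (6 * (s * q ^ 64)) := by ring
        _ ≤ u * (6 * (s * q ^ 64)) := mul_le_mul_of_nonneg_right hJ1'
            (mul_nonneg (by norm_num) hsq64.le)
        _ = _ := by ring
    have h2 : (J.card : ℝ) * (2 * N₁ * Nm) ≤ 6 * (s * q ^ 64) := le_of_mul_le_mul_right h1 hu0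
    rw [hR]
    calc (J.card : ℝ) * (N * Nm) ≤ J.card * (2 * N₁ * Nm) := by
          refine mul_le_mul_of_nonneg_left ?_ (Nat.cast_nonneg _)
          exact mul_le_mul_of_nonneg_right hN₁2 hNmR.le
      _ ≤ 6 * (s * q ^ 64) := h2
      _ ≤ q * (s * q ^ 64) := mul_le_mul_of_nonneg_right hq6 hsq64.le
      _ = s * q ^ 65 := by ring
      _ ≤ s * q ^ 128 := mul_le_mul_of_nonneg_left (pow_le_pow_right₀ hq1 (by norm_num)) hs0.le
  obtain ⟨r1, hr1⟩ : ∃ r1 : ZMod p → ℝ, r1 = fun x => if x.val / N₁ ∈ J then 0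
    else rp Up Vp x := ⟨_, rfl⟩
  obtain ⟨r2, hr2⟩ : ∃ r2 : ZMod p → ℝ, r2 = fun x => if x.val / N₁ ∈ J then rp Up Vp x
    else 0 := ⟨_, rfl⟩
  have hr1n : ∀ x, 0 ≤ r1 x := by
    intro x
    rw [hr1]
    dsimp only
    split_ifs
    · exact le_rfl
    · exact rp_nonneg _ _ _
  have hr2n : ∀ x, 0 ≤ r2 x := by
    intro x
    rw [hr2]
    dsimp only
    split_ifs
    · exact rp_nonneg _ _ _
    · exact le_rfl
  have hr12 : rp Up Vp = fun x => r1 x + r2 x := by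
    funext x
    rw [hr1, hr2]
    dsimp only
    split_ifs <;> simp
  have hr1s : ∑ x, r1 x ≤ u := by
    refine le_trans ?_ ((sum_rp_one Up Vp).trans_le hUVp)
    refine Finset.sum_le_sum fun x _ => ?_
    rw [hr12]
    have := hr2n x
    linarith
  have hr1s0 : 0 ≤ ∑ x, r1 x := sum_nonneg fun x _ => hr1n x
  have hJ2' : ∀ t : ZMod p, ∑ i ∈ range N₁, r1 (t + (i : ZMod p)) ≤ 3 * lam := by
    intro t
    rw [hr1]
    exact hJ2 t
  have hen := energyW Y W Y0 ⌈(p : ℝ) ^ κ⌉₊ k k h N₁ hW0 hYW (fun y hy => (hY y hy).1)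
    (fun y hy => (hY y hy).2.2) hY0p (fun y hy => (hY y hy).2.1) hr hh1 hδ hN₁0 hkh r1 hr1n
    (3 * lam) hJ2'
  obtain ⟨Z1, hZ1⟩ : ∃ Z : ℝ, Z = ∑ w ∈ X, ∑ y ∈ Y, wn N₁ h r1 0 (w * (y : ZMod p)) := ⟨_, rfl⟩
  have hZ1le : Z1 ≤ N₁ * Y.card * (1 / q ^ 4 * (A.card * B.card)) := by
    have hcs : Z1 ^ 2 ≤ X.card * ∑ w : ZMod p, (∑ y ∈ Y,
        wn N₁ h r1 0 (w / (y : ZMod p))) ^ 2 := by
      rw [hZ1, ← energy_symm Y hYz (wn N₁ h r1 0)]
      refine (sq_sum_le_card_mul_sum_sq (s := X)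
        (f := fun w => ∑ y ∈ Y, wn N₁ h r1 0 (w * (y : ZMod p)))).trans ?_
      refine mul_le_mul_of_nonneg_left ?_ (Nat.cast_nonneg _)
      exact Finset.sum_le_sum_of_subset_of_nonneg (subset_univ _) fun _ _ _ => sq_nonneg _
    have hen2 : ∑ w : ZMod p, (∑ y ∈ Y, wn N₁ h r1 0 (w / (y : ZMod p))) ^ 2 ≤
        4 * ((Y.card : ℝ) ^ 2 * ((2 * N₁) * u) ^ 2 / p) +
          2 * (1 + k) * (Y.card * ((2 * N₁) * (6 * lam * u))) := by
      refine hen.trans (add_le_add ?_ ?_)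
      · have h1 : (N₁ * ∑ x, r1 x) ^ 2 ≤ (N₁ * u) ^ 2 :=
          pow_le_pow_left₀ (mul_nonneg hN₁R.le hr1s0)
            (mul_le_mul_of_nonneg_left hr1s hN₁R.le) 2
        have h2 : (Y.card : ℝ) ^ 2 * (N₁ * ∑ x, r1 x) ^ 2 / p ≤
            (Y.card : ℝ) ^ 2 * (N₁ * u) ^ 2 / p :=
          div_le_div_of_nonneg_right (mul_le_mul_of_nonneg_left h1 (sq_nonneg _)) hp0.le
        calc _ ≤ 16 * ((Y.card : ℝ) ^ 2 * (N₁ * u) ^ 2 / p) :=
              mul_le_mul_of_nonneg_left h2 (by norm_num)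
          _ = _ := by ring
      · have h1 : 3 * lam * (N₁ * ∑ x, r1 x) ≤ 3 * lam * (N₁ * u) :=
          mul_le_mul_of_nonneg_left (mul_le_mul_of_nonneg_left hr1s hN₁R.le)
            (mul_nonneg (by norm_num) hlam0)
        have hk0 : (0 : ℝ) ≤ k := Nat.cast_nonneg _
        calc _ ≤ 8 * (1 + (k : ℝ)) * (Y.card * (3 * lam * (N₁ * u))) :=
              mul_le_mul_of_nonneg_left (mul_le_mul_of_nonneg_left h1 (Nat.cast_nonneg _))
                (mul_nonneg (by norm_num) (by linarith))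
          _ = _ := by ring
    have h1 : Z1 ^ 2 * q ^ 8 ≤ (N₁ * Y.card * (A.card * B.card)) ^ 2 := by
      refine two_num p q C₁ Z1 X.card u (A.card * B.card) Y.card k
        (2 * N₁) Nm N₁ (6 * lam * u) hp0 hq1 hC0
        (Nat.cast_nonneg _) hab0 hu0.le
        (Nat.cast_nonneg _) (mul_nonneg (by norm_num) hN₁R.le) hNmR.le
        (mul_nonneg (mul_nonneg (by norm_num) hlam0) hu0.le)
        ?_ hUV ?_ (by linarith) hNmY ?_ ?_ ?_
      · refine hXc.trans (le_of_eq ?_)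
        rw [hqn, add_assoc, Real.rpow_add hp0, hsq]
        congr 3
        push_cast
        ring
      · rw [hqn, ← hsq]
        refine Real.rpow_le_rpow_of_exponent_le hpR ?_
        push_cast
        linarith
      · rw [← hs]
        refine le_of_eq ?_
        calc 6 * lam * u * (s * q ^ 64) = (6 * lam * (s * q ^ 64)) * u := by ring
          _ = (2 * N₁ * Nm * u) * u := by rw [hlam1]
          _ = _ := by ring
      · rw [hq]
        exact hp2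
      · exact hcs.trans (mul_le_mul_of_nonneg_left hen2 (Nat.cast_nonneg _))
    have h2 : Z1 ^ 2 ≤ (N₁ * Y.card * (1 / q ^ 4 * (A.card * B.card))) ^ 2 := by
      rw [e_aux _ _ _ q hq0, le_div_iff₀ (pow_pos hq0 8)]
      exact h1
    refine le_of_sq_le_sq h2 ?_
    exact mul_nonneg (mul_nonneg (Nat.cast_nonneg _) (Nat.cast_nonneg _))
      (mul_nonneg (by positivity) hab0)
  have hneg : (p : ℝ) ^ (-(128 * κ)) = 1 / q ^ 128 := by
    rw [hqn, Real.rpow_neg hp0.le, one_div]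
    norm_num
  have hZ2le : ∑ w ∈ X, ∑ y ∈ Y, wn N₁ h r2 0 (w * (y : ZMod p)) ≤
      N₁ * Y.card * ((q ^ 12) ^ 2 * (1 / q ^ 128 * (A.card * B.card))) := by
    refine (wn_mass Y hYz N₁ h r2 hr2n X).trans ?_
    refine mul_le_mul_of_nonneg_left ?_ (mul_nonneg (Nat.cast_nonneg _) (Nat.cast_nonneg _))
    have h1 := pop_cells A U B V θ N Nm N₁ hN₁0 hN₁N hNm0 (q ^ 12) hq12 J
      ((p : ℝ) ^ (-(128 * κ)) * (A.card * B.card)) _ hJ3 hT
    rw [hneg] at h1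
    rw [← hUp, ← hVp] at h1
    rw [hr2]
    exact h1
  have hZ : ∑ w ∈ (Bad χ L Bd θ).image (fun w => w - θ), ∑ y ∈ Y,
      wn N₁ h (rp Up Vp) 0 (w * (y : ZMod p)) ≤
        N₁ * Y.card * (1 / q ^ 4 * (A.card * B.card) +
          (q ^ 12) ^ 2 * (1 / q ^ 128 * (A.card * B.card))) := by
    rw [← hXdef, hr12]
    simp only [wn_add, Finset.sum_add_distrib]
    rw [← hZ1, mul_add]
    exact add_le_add hZ1le hZ2le
  have hR2 : Real.sqrt ((1 + Bd) / L) ≤ 2 * (p : ℝ) ^ (-(κ * κ / 2)) :=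
    R_num p κ κ L hpR hκ0 hκ0 (by linarith) hL1' hLge
  have hq4 : (p : ℝ) ^ (-(4 * κ)) = 1 / q ^ 4 := by
    rw [hqn, Real.rpow_neg hp0.le, one_div]
    norm_num
  have hbdd : ∀ f g : ZMod p → ℂ, (∀ x, ‖f x‖ ≤ 1) → (∀ x, ‖g x‖ ≤ 1) →
      ‖∑ a ∈ A, ∑ b ∈ B, f a * g b * χ (a + b)‖ ≤
        (p : ℝ) ^ (-(κ * κ / 4)) * (A.card * B.card) := by
    intro f g hf hg
    have hsb := cut_avg χ L hL1 Bd hBd0.le Y hYz N₁ h θ A B Up Vp (2 * q ^ 2 / q ^ 12)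
      (2 * q ^ 5 / q ^ 12) hEA hEB f g hf hg _ hZ hYpos hN₁0
    refine hsb.trans ?_
    have hU : u ≤ ((p : ℝ) ^ (κ * κ / 16)) ^ 2 * ((A.card : ℝ) * B.card) := by
      rw [hu]
      calc _ ≤ ((p : ℝ) ^ (κ * κ / 16) * A.card) * ((p : ℝ) ^ (κ * κ / 16) * B.card) :=
            mul_le_mul hA hB (Nat.cast_nonneg _)
              (mul_nonneg (Real.rpow_nonneg hp0.le _) (Nat.cast_nonneg _))
        _ = _ := by ring
    have h1 := local_num p κ κ (4 * κ) (4 * κ) ((A.card : ℝ) * B.card) u q hpR hκ0 hκ0 le_rfl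
      (by nlinarith) le_rfl hab0 hU hu0.le hq.le hq0.le _ hR2
      (Real.sqrt_nonneg _) hp3
    rw [hq4] at h1
    have h2 := cut_num q ((A.card : ℝ) * B.card) hq6 hab0
    have h3 : Real.sqrt ((1 + Bd) / L) * ((Up.card : ℝ) * Vp.card) ≤
        Real.sqrt ((1 + Bd) / L) * u := mul_le_mul_of_nonneg_left hUVp (Real.sqrt_nonneg _)
    linarith
  intro f g
  have h1 := linf_to_l2_pow A B (fun a b => χ (a + b)) (fun a b => χ.norm_le_one _) p (κ * κ / 4)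
    hpR hp4 hbdd f g
  have e1 : κ * κ / 4 / 4 = κ * κ / 16 := by ring
  rw [e1] at h1
  exact h1

end Pool.Agent.H58BU
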