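import Pool.Agent.H58BU.S

/-! # Non concentration below the square root: progressions of any differences -/

set_option autoImplicit false
set_option linter.unusedSectionVars false

namespace Pool.Agent.H58BU

open Finset Pool.Agent.TH7.PG
open scoped Pointwise

theorem cut_any (ε : ℝ) (hε : 0 < ε) : ∃ τ : ℝ, 0 < τ ∧ ∃ p₀ : ℕ,
    ∀ (p : ℕ) [Fact p.Prime], p₀ ≤ p → ∀ χ : DirichletCharacter ℂ p, χ ≠ 1 →
    ∀ (A U B V : Finset (ZMod p)) (z z' : ZMod p) (N N' : ℕ), z ≠ 0 → z' ≠ 0 →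
      (p : ℝ) ^ ε ≤ N → (p : ℝ) ^ ε ≤ N' → N ≤ p →
      (∀ a ∈ A, ∀ n < N, a + (n : ZMod p) * z ∈ U) → (U.card : ℝ) ≤ (p : ℝ) ^ τ * A.card →
      (∀ b ∈ B, ∀ n < N', b + (n : ZMod p) * z' ∈ V) → (V.card : ℝ) ≤ (p : ℝ) ^ τ * B.card →
      (∀ T : Finset (ZMod p), (T.card : ℝ) * (N * (min N N' : ℕ)) ≤ (p : ℝ) ^ (1 / 2 + ε) →
        (((A ×ˢ B).filter fun t => ∃ s ∈ T, ∃ n < N,
          t.1 + t.2 = s + (n : ZMod p) * z).card : ℝ) ≤
            (p : ℝ) ^ (-ε) * (A.card * B.card)) →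
      ∀ f g : ZMod p → ℂ, ‖∑ a ∈ A, ∑ b ∈ B, f a * g b * χ (a + b)‖ ≤ (p : ℝ) ^ (-τ) *
        ((Real.sqrt A.card * Real.sqrt B.card) *
          (Real.sqrt (∑ a ∈ A, ‖f a‖ ^ 2) * Real.sqrt (∑ b ∈ B, ‖g b‖ ^ 2))) := by
  classical
  set ε' : ℝ := min ε 1 with hε'
  have hε'0 : 0 < ε' := lt_min hε one_pos
  have hε'1 : ε' ≤ 1 := min_le_right _ _
  have hε'ε : ε' ≤ ε := min_le_left _ _
  obtain ⟨τ, hτ, p₀, h⟩ := cut_one ε' hε'0 hε'1
  refine ⟨τ, hτ, p₀, ?_⟩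
  intro p hpf hp χ hχ A U B V z z' N N' hz hz'' hN hN' hNp hAU hA hBV hB hT f g
  have hpR : (1 : ℝ) ≤ p := by exact_mod_cast (Fact.out : p.Prime).one_lt.le
  have hp0 : (0 : ℝ) < p := by linarith
  have hw : -z ≠ 0 := neg_ne_zero.2 hz
  have hz' : (-z)⁻¹ ≠ 0 := inv_ne_zero hw
  have hinj : Function.Injective fun x : ZMod p => x * (-z)⁻¹ := mul_left_injective₀ hz'
  have hle : (p : ℝ) ^ ε' ≤ (p : ℝ) ^ ε := Real.rpow_le_rpow_of_exponent_le hpR hε'ε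
  have hle2 : (p : ℝ) ^ (1 / 2 + ε') ≤ (p : ℝ) ^ (1 / 2 + ε) :=
    Real.rpow_le_rpow_of_exponent_le hpR (by linarith)
  have hle3 : (p : ℝ) ^ (-ε) ≤ (p : ℝ) ^ (-ε') :=
    Real.rpow_le_rpow_of_exponent_le hpR (by linarith)
  have hzz : ∀ x : ZMod p, x * (-z)⁻¹ * (-z) = x := fun x => by
    rw [mul_assoc, inv_mul_cancel₀ hw, mul_one]
  set A' : Finset (ZMod p) := A.image fun x => x * (-z)⁻¹ with hA'
  set U' : Finset (ZMod p) := U.image fun x => x * (-z)⁻¹ with hU'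
  set B' : Finset (ZMod p) := B.image fun x => x * (-z)⁻¹ with hB'
  set V' : Finset (ZMod p) := V.image fun x => x * (-z)⁻¹ with hV'
  have hcA : A'.card = A.card := card_image_of_injective _ hinj
  have hcU : U'.card = U.card := card_image_of_injective _ hinj
  have hcB : B'.card = B.card := card_image_of_injective _ hinj
  have hcV : V'.card = V.card := card_image_of_injective _ hinj
  have hAU' : ∀ a ∈ A', ∀ n < N, a - (n : ZMod p) ∈ U' := by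
    intro a' ha' n hn
    obtain ⟨a, ha, rfl⟩ := mem_image.1 ha'
    refine mem_image.2 ⟨a + (n : ZMod p) * z, hAU a ha n hn, ?_⟩
    show (a + (n : ZMod p) * z) * (-z)⁻¹ = a * (-z)⁻¹ - (n : ZMod p)
    have h1 : z * (-z)⁻¹ = -1 := by
      rw [inv_neg, mul_neg, mul_inv_cancel₀ hz]
    rw [add_mul, mul_assoc, h1]
    ring
  have hBV' : ∀ b ∈ B', ∀ n < N', b - (n : ZMod p) * (-(z' * (-z)⁻¹)) ∈ V' := by
    intro b' hb' n hn
    obtain ⟨b, hb, rfl⟩ := mem_image.1 hb'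
    refine mem_image.2 ⟨b + (n : ZMod p) * z', hBV b hb n hn, ?_⟩
    show (b + (n : ZMod p) * z') * (-z)⁻¹ = b * (-z)⁻¹ - (n : ZMod p) * (-(z' * (-z)⁻¹))
    ring
  have hT' : ∀ T : Finset (ZMod p), (T.card : ℝ) * (N * (min N N' : ℕ)) ≤
      (p : ℝ) ^ (1 / 2 + ε') →
      (((A' ×ˢ B').filter fun t => ∃ s ∈ T, ∃ n < N, t.1 + t.2 = s - (n : ZMod p)).card : ℝ) ≤
        (p : ℝ) ^ (-ε') * (A'.card * B'.card) := by
    intro T hTc
    rw [hcA, hcB]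
    have h1 := hT (T.image fun s => s * (-z)) (by
      refine le_trans (mul_le_mul_of_nonneg_right ?_
        (mul_nonneg (Nat.cast_nonneg _) (Nat.cast_nonneg _))) (hTc.trans hle2)
      exact_mod_cast Finset.card_image_le)
    refine le_trans ?_ (h1.trans (mul_le_mul_of_nonneg_right hle3
      (mul_nonneg (Nat.cast_nonneg _) (Nat.cast_nonneg _))))
    norm_cast
    refine Finset.card_le_card_of_injOn (fun t => (t.1 * (-z), t.2 * (-z))) ?_ ?_
    · intro t ht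
      obtain ⟨h2, s, hs, n, hn, e⟩ := mem_filter.1 (Finset.mem_coe.1 ht)
      obtain ⟨h3, h4⟩ := mem_product.1 h2
      have hB : ∀ (S : Finset (ZMod p)) x, x ∈ (S.image fun x => x * (-z)⁻¹) →
          x * (-z) ∈ S := by
        intro S x hx
        obtain ⟨y, hy, rfl⟩ := mem_image.1 hx
        rw [hzz]
        exact hy
      refine Finset.mem_coe.2 (mem_filter.2 ⟨mem_product.2 ⟨hB _ _ h3, hB _ _ h4⟩,
        s * (-z), mem_image.2 ⟨s, hs, rfl⟩, n, hn, ?_⟩)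
      show t.1 * (-z) + t.2 * (-z) = s * (-z) + (n : ZMod p) * z
      rw [← add_mul, e]
      ring
    · intro t _ t' _ htt
      have h2 := Prod.ext_iff.1 htt
      exact Prod.ext (mul_right_cancel₀ hw h2.1) (mul_right_cancel₀ hw h2.2)
  have hmain := h p hp χ hχ A' U' B' V' (-(z' * (-z)⁻¹)) N N'
    (neg_ne_zero.2 (mul_ne_zero hz'' hz')) (hle.trans hN) (hle.trans hN') hNp hAU'
    (by rw [hcA, hcU]; exact hA) hBV' (by rw [hcB, hcV]; exact hB) hT'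
    (fun x => f (x * (-z)) * χ (-z)) (fun x => g (x * (-z)))
  have e1 : ∑ a ∈ A', ∑ b ∈ B', f (a * (-z)) * χ (-z) * g (b * (-z)) * χ (a + b) =
      ∑ a ∈ A, ∑ b ∈ B, f a * g b * χ (a + b) := by
    rw [hA', Finset.sum_image fun a _ b _ hab => hinj hab]
    refine Finset.sum_congr rfl fun a _ => ?_
    rw [hB', Finset.sum_image fun a _ b _ hab => hinj hab]
    refine Finset.sum_congr rfl fun b _ => ?_
    rw [hzz, hzz]
    have e2 : χ (a + b) = χ (-z) * χ (a * (-z)⁻¹ + b * (-z)⁻¹) := by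
      rw [← map_mul]
      congr 1
      rw [mul_add, mul_comm (-z) (a * (-z)⁻¹), mul_comm (-z) (b * (-z)⁻¹), hzz, hzz]
    rw [e2]
    ring
  have e3 : ∑ a ∈ A', ‖f (a * (-z)) * χ (-z)‖ ^ 2 ≤ ∑ a ∈ A, ‖f a‖ ^ 2 := by
    rw [hA', Finset.sum_image fun a _ b _ hab => hinj hab]
    refine Finset.sum_le_sum fun a _ => ?_
    rw [hzz, norm_mul]
    refine pow_le_pow_left₀ (mul_nonneg (norm_nonneg _) (norm_nonneg _)) ?_ 2
    exact mul_le_of_le_one_right (norm_nonneg _) (χ.norm_le_one _)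
  have e4 : ∑ b ∈ B', ‖g (b * (-z))‖ ^ 2 = ∑ b ∈ B, ‖g b‖ ^ 2 := by
    rw [hB', Finset.sum_image fun a _ b _ hab => hinj hab]
    refine Finset.sum_congr rfl fun b _ => ?_
    rw [hzz]
  rw [e1, hcA, hcB, e4] at hmain
  refine hmain.trans ?_
  refine mul_le_mul_of_nonneg_left (mul_le_mul_of_nonneg_left (mul_le_mul_of_nonneg_right
    (Real.sqrt_le_sqrt e3) (Real.sqrt_nonneg _)) (mul_nonneg (Real.sqrt_nonneg _)
      (Real.sqrt_nonneg _))) (Real.rpow_nonneg hp0.le _)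

/-- the same without a bound for `N` -/
theorem cut_full (ε : ℝ) (hε : 0 < ε) : ∃ τ : ℝ, 0 < τ ∧ ∃ p₀ : ℕ,
    ∀ (p : ℕ) [Fact p.Prime], p₀ ≤ p → ∀ χ : DirichletCharacter ℂ p, χ ≠ 1 →
    ∀ (A B : Finset (ZMod p)) (z z' : ZMod p) (N N' : ℕ), z ≠ 0 → z' ≠ 0 →
      (p : ℝ) ^ ε ≤ N → (p : ℝ) ^ ε ≤ N' →
      ((A + (range N).image fun i : ℕ => (i : ZMod p) * z).card : ℝ) ≤ (p : ℝ) ^ τ * A.card →
      ((B + (range N').image fun i : ℕ => (i : ZMod p) * z').card : ℝ) ≤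
        (p : ℝ) ^ τ * B.card →
      (∀ T : Finset (ZMod p), (T.card : ℝ) * (N * (min N N' : ℕ)) ≤ (p : ℝ) ^ (1 / 2 + ε) →
        (((A ×ˢ B).filter fun t =>
          t.1 + t.2 ∈ T + (range N).image fun i : ℕ => (i : ZMod p) * z).card : ℝ) ≤
            (p : ℝ) ^ (-ε) * (A.card * B.card)) →
      ∀ f g : ZMod p → ℂ, ‖∑ a ∈ A, ∑ b ∈ B, f a * g b * χ (a + b)‖ ≤ (p : ℝ) ^ (-τ) *
        ((Real.sqrt A.card * Real.sqrt B.card) *
          (Real.sqrt (∑ a ∈ A, ‖f a‖ ^ 2) * Real.sqrt (∑ b ∈ B, ‖g b‖ ^ 2))) := by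
  classical
  obtain ⟨ε', hε'⟩ : ∃ ε' : ℝ, ε' = min ε 1 := ⟨_, rfl⟩
  have hε'0 : 0 < ε' := by rw [hε']; exact lt_min hε one_pos
  have hε'1 : ε' ≤ 1 := by rw [hε']; exact min_le_right _ _
  have hε'ε : ε' ≤ ε := by rw [hε']; exact min_le_left _ _
  obtain ⟨τ, hτ, p₀, h⟩ := cut_any ε' hε'0
  refine ⟨τ, hτ, p₀, ?_⟩
  intro p hpf hp χ hχ A B z z' N N' hz hz' hN hN' hA hB hT
  have hp2 : 2 ≤ p := (Fact.out : p.Prime).two_le
  have hpR1 : (1 : ℝ) < p := by exact_mod_cast (Fact.out : p.Prime).one_lt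
  have hpR : (1 : ℝ) ≤ p := hpR1.le
  have hp0 : (0 : ℝ) < p := by linarith
  have hle : (p : ℝ) ^ ε' ≤ (p : ℝ) ^ ε := Real.rpow_le_rpow_of_exponent_le hpR hε'ε
  have hle2 : (p : ℝ) ^ (1 / 2 + ε') ≤ (p : ℝ) ^ (1 / 2 + ε) :=
    Real.rpow_le_rpow_of_exponent_le hpR (by linarith)
  have hle3 : (p : ℝ) ^ (-ε) ≤ (p : ℝ) ^ (-ε') :=
    Real.rpow_le_rpow_of_exponent_le hpR (by linarith)
  have hmem : ∀ (S : Finset (ZMod p)) (w : ZMod p) (M K : ℕ), M ≤ K → ∀ a ∈ S, ∀ n < M,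
      a + (n : ZMod p) * w ∈ S + (range K).image fun i : ℕ => (i : ZMod p) * w := by
    intro S w M K hMK a ha n hn
    exact Finset.add_mem_add ha (mem_image.2 ⟨n, mem_range.2 (by omega), rfl⟩)
  rcases le_or_gt N p with hNp | hNp
  · refine h p hp χ hχ A _ B _ z z' N N' hz hz' (hle.trans hN) (hle.trans hN') hNp
      (hmem A z N N le_rfl) hA (hmem B z' N' N' le_rfl) hB ?_
    intro T hTc
    refine le_trans ?_ ((hT T (hTc.trans hle2)).trans (mul_le_mul_of_nonneg_right hle3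
      (mul_nonneg (Nat.cast_nonneg _) (Nat.cast_nonneg _))))
    norm_cast
    refine Finset.card_le_card fun t ht => ?_
    obtain ⟨h2, s, hs, n, hn, e⟩ := mem_filter.1 ht
    refine mem_filter.2 ⟨h2, ?_⟩
    rw [e]
    exact hmem T z N N le_rfl s hs n hn
  · have hpε : (p : ℝ) ^ ε' ≤ (p : ℕ) := by
      calc (p : ℝ) ^ ε' ≤ (p : ℝ) ^ (1 : ℝ) := Real.rpow_le_rpow_of_exponent_le hpR hε'1
        _ = p := Real.rpow_one _
    refine h p hp χ hχ A _ B _ z z' p N' hz hz' hpε (hle.trans hN') le_rfl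
      (hmem A z p N hNp.le) hA (hmem B z' N' N' le_rfl) hB ?_
    intro T hTc
    have hT0 : T = ∅ := by
      by_contra hne
      have h1 : (1 : ℝ) ≤ T.card := by
        exact_mod_cast Finset.card_pos.2 (Finset.nonempty_iff_ne_empty.2 hne)
      have h2 : (p : ℝ) ^ ε' ≤ (min p N' : ℕ) := by
        rcases le_total p N' with h3 | h3
        · rw [min_eq_left h3]
          exact hpε
        · rw [min_eq_right h3]
          exact hle.trans hN'
      have h3 : (p : ℝ) * (p : ℝ) ^ ε' ≤ (T.card : ℝ) * (p * (min p N' : ℕ)) := by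
        calc (p : ℝ) * (p : ℝ) ^ ε' ≤ p * (min p N' : ℕ) := mul_le_mul_of_nonneg_left h2 hp0.le
          _ = 1 * (p * (min p N' : ℕ)) := (one_mul _).symm
          _ ≤ _ := mul_le_mul_of_nonneg_right h1
              (mul_nonneg hp0.le (Nat.cast_nonneg _))
      have h4 : (p : ℝ) ^ (1 / 2 + ε') < (p : ℝ) * (p : ℝ) ^ ε' := by
        calc (p : ℝ) ^ (1 / 2 + ε') < (p : ℝ) ^ (1 + ε') :=
              Real.rpow_lt_rpow_of_exponent_lt hpR1 (by linarith)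
          _ = (p : ℝ) * (p : ℝ) ^ ε' := by rw [Real.rpow_add hp0, Real.rpow_one]
      linarith
    rw [hT0]
    simp only [Finset.notMem_empty, false_and, exists_false, Finset.filter_false,
      Finset.card_empty, Nat.cast_zero]
    exact mul_nonneg (Real.rpow_nonneg hp0.le _)
      (mul_nonneg (Nat.cast_nonneg _) (Nat.cast_nonneg _))

end Pool.Agent.H58BU
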