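import Pool.Agent.H58BU.T
import Pool.Agent.N397.PQ.Main

/-! # Sets of bounded doubling below the square root -/

set_option autoImplicit false
set_option linter.unusedSectionVars false

namespace Pool.Agent.H58BU

open Finset Pool.Agent.TH7.PG Pool.Agent.N397.PQ Pool.Agent.W27.SD
open scoped Pointwise

/-- a set of bounded doubling is covered by few translates of a system with a long progression -/
theorem sys_prog {K ε : ℝ} (hK1 : 1 ≤ K) (hε : 0 < ε) (hε1 : ε ≤ 1) :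
    ∃ (C : ℝ) (D : ℕ) (κ : ℝ), 1 ≤ C ∧ 0 < κ ∧ ∃ p₀ : ℕ,
    ∀ (p : ℕ) [Fact p.Prime], p₀ ≤ p → ∀ P : Finset (ZMod p), (p : ℝ) ^ ε ≤ P.card →
      ((P + P).card : ℝ) ≤ K * P.card →
      ∃ (S : Sys p D) (T : Finset (ZMod p)) (z : ZMod p) (N : ℕ), z ≠ 0 ∧ N ≤ p ∧
        (p : ℝ) ^ κ ≤ N ∧ (∀ n < N, (n : ZMod p) * z ∈ S.S 1) ∧ (T.card : ℝ) ≤ C ∧
        ((S.S 1).card : ℝ) ≤ C * P.card ∧ ∀ a ∈ P, ∃ t ∈ T, a - t ∈ S.S 1 := by
  classical
  have hC := CK_ge_one hK1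
  obtain ⟨D, hD⟩ : ∃ D : ℕ, D = ⌊300 * Real.log (2 * K)⌋₊ + 1 := ⟨_, rfl⟩
  have hD1 : (1 : ℝ) ≤ D := by
    rw [hD]
    push_cast
    have : (0 : ℝ) ≤ (⌊300 * Real.log (2 * K)⌋₊ : ℝ) := Nat.cast_nonneg _
    linarith
  have hD0 : (0 : ℝ) < D := by linarith
  obtain ⟨κ, hκ⟩ : ∃ κ : ℝ, κ = ε / (4 * D) := ⟨_, rfl⟩
  have hκ0 : 0 < κ := by rw [hκ]; positivity
  have hκD : κ * D = ε / 4 := by
    rw [hκ]
    field_simp
  have hκ1 : κ ≤ 1 := by nlinarith
  obtain ⟨p₁, hp₁⟩ := large (2 * CK K) (ε / 4) (by positivity)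
  obtain ⟨p₂, hp₂⟩ := large 3 κ hκ0
  refine ⟨CK K, D, κ, hC, hκ0, max p₁ p₂, ?_⟩
  intro p _ hp P hPc hPK
  have hp1 := hp₁ p ((le_max_left _ _).trans hp)
  have hp2 := hp₂ p ((le_max_right _ _).trans hp)
  have hpR : (1 : ℝ) ≤ p := by exact_mod_cast (Fact.out : p.Prime).one_lt.le
  have hp0 : (0 : ℝ) < p := by linarith
  have hP0 : (0 : ℝ) < P.card := lt_of_lt_of_le (Real.rpow_pos_of_pos hp0 _) hPc
  have hPne : P.Nonempty := by rw [← card_pos]; exact_mod_cast hP0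
  rcases gap_zmod hPne hPK hK1 with h | ⟨k, v, L, T, hk, hinj, hvol, hT, hcov⟩
  · refine ⟨topSys p _, {0}, 1, p, one_ne_zero, le_rfl, ?_, fun _ _ => mem_univ _,
      by simpa using hC, ?_, fun a _ => ⟨0, mem_singleton_self _, mem_univ _⟩⟩
    · calc (p : ℝ) ^ κ ≤ (p : ℝ) ^ (1 : ℝ) := Real.rpow_le_rpow_of_exponent_le hpR hκ1
        _ = p := Real.rpow_one _
    · have e : ((topSys p D).S 1).card = p := by
        show (univ : Finset (ZMod p)).card = p
        rw [card_univ, ZMod.card]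
      rw [e]
      exact h
  · have hkD : k ≤ D := by
      rw [hD]
      exact (Nat.le_floor hk).trans (Nat.le_succ _)
    -- a long side
    have hcovS : ∀ a ∈ P, ∃ t ∈ T, a - t ∈ boxS v L 1 := by
      intro a ha
      obtain ⟨t, ht, c, hc, e⟩ := hcov a ha
      refine ⟨t, ht, ?_⟩
      rw [mem_boxS]
      refine ⟨c, fun i => ?_, ?_⟩
      · rw [one_mul]
        exact_mod_cast hc i
      · rw [e, lf]
        simp [zsmul_eq_mul]
    have hPle : (P.card : ℝ) ≤ CK K * ∏ i, (2 * (L i : ℝ) + 1) := by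
      have h1 : P ⊆ T + boxS v L 1 := by
        intro a ha
        obtain ⟨t, ht, h⟩ := hcovS a ha
        rw [Finset.mem_add]
        exact ⟨t, ht, a - t, h, by ring⟩
      have h2 : P.card ≤ T.card * ∏ i, (2 * L i + 1) :=
        ((card_le_card h1).trans Finset.card_add_le).trans
          (Nat.mul_le_mul_left _ (box_card v L))
      have h3 : (P.card : ℝ) ≤ T.card * ∏ i, (2 * (L i : ℝ) + 1) := by exact_mod_cast h2
      exact h3.trans (mul_le_mul_of_nonneg_right hT (Finset.prod_nonneg fun i _ => by positivity))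
    have hlong : ∃ i, (p : ℝ) ^ (2 * κ) ≤ 2 * (L i : ℝ) + 1 := by
      by_contra hne
      push Not at hne
      have h1 : ∏ i, (2 * (L i : ℝ) + 1) ≤ ((p : ℝ) ^ (2 * κ)) ^ D := by
        calc ∏ i, (2 * (L i : ℝ) + 1) ≤ ∏ _i : Fin k, (p : ℝ) ^ (2 * κ) :=
              Finset.prod_le_prod (fun i _ => by positivity) fun i _ => (hne i).le
          _ = ((p : ℝ) ^ (2 * κ)) ^ k := by rw [Finset.prod_const, card_univ, Fintype.card_fin]
          _ ≤ ((p : ℝ) ^ (2 * κ)) ^ D :=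
              pow_le_pow_right₀ (Real.one_le_rpow hpR (by positivity)) hkD
      have h2 : ((p : ℝ) ^ (2 * κ)) ^ D = (p : ℝ) ^ (ε / 2) := by
        rw [← Real.rpow_natCast, ← Real.rpow_mul hp0.le]
        congr 1
        linarith
      rw [h2] at h1
      have h3 : (p : ℝ) ^ ε ≤ CK K * (p : ℝ) ^ (ε / 2) :=
        hPc.trans (hPle.trans (mul_le_mul_of_nonneg_left h1 (by linarith)))
      have h4 : (p : ℝ) ^ ε = (p : ℝ) ^ (ε / 2) * (p : ℝ) ^ (ε / 2) := by
        rw [← Real.rpow_add hp0]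
        congr 1
        ring
      have h5 : 0 < (p : ℝ) ^ (ε / 2) := Real.rpow_pos_of_pos hp0 _
      rw [h4] at h3
      have h6 : (p : ℝ) ^ (ε / 2) ≤ CK K := le_of_mul_le_mul_right h3 h5
      have h7 : (p : ℝ) ^ (ε / 4) ≤ (p : ℝ) ^ (ε / 2) :=
        Real.rpow_le_rpow_of_exponent_le hpR (by linarith)
      linarith
    obtain ⟨i, hi⟩ := hlong
    have h2κ : (p : ℝ) ^ (2 * κ) = (p : ℝ) ^ κ * (p : ℝ) ^ κ := by
      rw [← Real.rpow_add hp0]
      congr 1
      ring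
    have hκpos : 0 < (p : ℝ) ^ κ := Real.rpow_pos_of_pos hp0 _
    have hLi : 1 ≤ L i := by
      by_contra hc
      have h1 : L i = 0 := by omega
      rw [h1, h2κ] at hi
      push_cast at hi
      nlinarith
    have hvi : v i ≠ 0 := by
      intro h0
      have h1 := hinj (Pi.single i 1) 0 (fun j => by
        by_cases hj : j = i
        · subst hj
          rw [Pi.single_eq_same]
          simpa using (show (1 : ℤ) ≤ (L j : ℤ) by exact_mod_cast hLi)
        · rw [Pi.single_eq_of_ne hj]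
          simp) (fun j => by simp) (by
          rw [Finset.sum_eq_single i]
          · simp [h0]
          · intro j _ hj
            rw [Pi.single_eq_of_ne hj]
            simp
          · intro h
            exact absurd (mem_univ _) h)
      have h2 := congrFun h1 i
      rw [Pi.single_eq_same] at h2
      simp at h2
    refine ⟨boxSys D hkD v L, T, v i, L i + 1, hvi, ?_, ?_, ?_, hT, ?_, hcovS⟩
    · have h1 : 2 * L i + 1 ≤ ∏ j, (2 * L j + 1) :=
        Finset.single_le_prod' (f := fun j => 2 * L j + 1) (fun j _ => by omega) (mem_univ i)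
      have h2 : P.card ≤ p := (card_le_univ P).trans (le_of_eq (ZMod.card p))
      omega
    · push_cast
      nlinarith
    · intro n hn
      show (n : ZMod p) * v i ∈ boxS v L 1
      rw [mem_boxS]
      refine ⟨Pi.single i (n : ℤ), fun j => ?_, ?_⟩
      · by_cases hj : j = i
        · subst hj
          rw [Pi.single_eq_same, one_mul]
          have : (n : ℝ) ≤ L j := by exact_mod_cast (by omega : n ≤ L j)
          simpa using this
        · rw [Pi.single_eq_of_ne hj]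
          simp
      · unfold lf
        rw [Finset.sum_eq_single i]
        · simp
        · intro j _ hj
          rw [Pi.single_eq_of_ne hj]
          simp
        · intro h
          exact absurd (mem_univ _) h
    · have h1 : ((boxSys D hkD v L).S 1).card ≤ P.card := (box_card v L).trans hvol
      have h2 : (((boxSys D hkD v L).S 1).card : ℝ) ≤ P.card := by exact_mod_cast h1
      nlinarith

/-- **sets of bounded doubling, non concentration** -/
theorem bd_main (ε K : ℝ) (hε : 0 < ε) : ∃ c : ℝ, 0 < c ∧ ∀ δ : ℝ, 0 < δ →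
    ∃ τ : ℝ, 0 < τ ∧ ∃ p₀ : ℕ, ∀ (p : ℕ) [Fact p.Prime], p₀ ≤ p →
    ∀ χ : DirichletCharacter ℂ p, χ ≠ 1 → ∀ A B P Q : Finset (ZMod p),
      (p : ℝ) ^ ε ≤ P.card → (p : ℝ) ^ ε ≤ Q.card →
      ((P + P).card : ℝ) ≤ K * P.card → ((Q + Q).card : ℝ) ≤ K * Q.card →
      ((A + P).card : ℝ) ≤ (p : ℝ) ^ τ * A.card → ((B + Q).card : ℝ) ≤ (p : ℝ) ^ τ * B.card →
      (∀ X : Finset (ZMod p), (X.card : ℝ) ≤ (p : ℝ) ^ (1 / 2 - c) →
        (((A ×ˢ B).filter fun t => t.1 + t.2 ∈ X).card : ℝ) ≤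
          (p : ℝ) ^ (-δ) * (A.card * B.card)) →
      ∀ f g : ZMod p → ℂ, ‖∑ a ∈ A, ∑ b ∈ B, f a * g b * χ (a + b)‖ ≤ (p : ℝ) ^ (-τ) *
        ((Real.sqrt A.card * Real.sqrt B.card) *
          (Real.sqrt (∑ a ∈ A, ‖f a‖ ^ 2) * Real.sqrt (∑ b ∈ B, ‖g b‖ ^ 2))) := by
  classical
  obtain ⟨ε', hε'⟩ : ∃ ε' : ℝ, ε' = min ε 1 := ⟨_, rfl⟩
  have hε'0 : 0 < ε' := by rw [hε']; exact lt_min hε one_pos
  have hε'1 : ε' ≤ 1 := by rw [hε']; exact min_le_right _ _
  have hε'ε : ε' ≤ ε := by rw [hε']; exact min_le_left _ _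
  obtain ⟨C, D, κ, hC, hκ0, p₁, hsys⟩ := sys_prog (K := max K 1) (le_max_right _ _) hε'0 hε'1
  refine ⟨κ / 2, by positivity, ?_⟩
  intro δ hδ
  obtain ⟨ε₁, hε₁⟩ : ∃ ε₁ : ℝ, ε₁ = min (κ / 2) δ := ⟨_, rfl⟩
  have hε₁0 : 0 < ε₁ := by rw [hε₁]; exact lt_min (by positivity) hδ
  have hε₁κ : ε₁ ≤ κ / 2 := by rw [hε₁]; exact min_le_left _ _
  have hε₁δ : ε₁ ≤ δ := by rw [hε₁]; exact min_le_right _ _
  obtain ⟨τ₁, hτ₁, p₂, hcut⟩ := cut_any ε₁ hε₁0
  obtain ⟨C', hC'⟩ : ∃ C' : ℝ, C' = C ^ 3 * 5 ^ D := ⟨_, rfl⟩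
  have hC'1 : 1 ≤ C' := by
    rw [hC']
    have a1 : (1 : ℝ) ≤ C ^ 3 := one_le_pow₀ hC
    have a2 : (1 : ℝ) ≤ 5 ^ D := one_le_pow₀ (by norm_num)
    nlinarith
  obtain ⟨p₃, hp₃⟩ := large (5 ^ D * C') (τ₁ / 2) (by positivity)
  refine ⟨τ₁ / 2, by positivity, p₁ + p₂ + p₃, ?_⟩
  intro p _ hp χ hχ A B P Q hP hQ hPK hQK hA hB hX f g
  have hpR : (1 : ℝ) ≤ p := by exact_mod_cast (Fact.out : p.Prime).one_lt.le
  have hp0 : (0 : ℝ) < p := by linarith
  have hp3 := hp₃ p (by omega)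
  have hle : (p : ℝ) ^ ε' ≤ (p : ℝ) ^ ε := Real.rpow_le_rpow_of_exponent_le hpR hε'ε
  have hK : ∀ R : Finset (ZMod p), ((R + R).card : ℝ) ≤ K * R.card →
      ((R + R).card : ℝ) ≤ max K 1 * R.card := fun R hR =>
    hR.trans (mul_le_mul_of_nonneg_right (le_max_left _ _) (Nat.cast_nonneg _))
  obtain ⟨S, T, z, N, hz, hNp, hN, hNS, hT, hS, hcovP⟩ := hsys p (by omega) P (hle.trans hP)
    (hK P hPK)
  obtain ⟨S', T', z', N', hz', hNp', hN', hNS', hT', hS', hcovQ⟩ :=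
    hsys p (by omega) Q (hle.trans hQ) (hK Q hQK)
  have hne : ∀ R : Finset (ZMod p), (p : ℝ) ^ ε ≤ R.card → R.Nonempty := by
    intro R hR
    have h1 : (0 : ℝ) < R.card := lt_of_lt_of_le (Real.rpow_pos_of_pos hp0 _) hR
    rw [← card_pos]
    exact_mod_cast h1
  obtain ⟨G, hG, hcovG⟩ := inv_cover hC A P T S (hne P hP) hT hS hcovP
  obtain ⟨H, hH, hcovH⟩ := inv_cover hC B Q T' S' (hne Q hQ) hT' hS' hcovQ
  rw [← hC'] at hG hH
  have hU : ∀ (A P G : Finset (ZMod p)) (S : Sys p D),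
      (G.card : ℝ) * (S.S 1).card ≤ C' * (A + P).card →
      ((A + P).card : ℝ) ≤ (p : ℝ) ^ (τ₁ / 2) * A.card →
      ((G + S.S (1 + 1)).card : ℝ) ≤ (p : ℝ) ^ τ₁ * A.card := by
    intro A P G S hG hA
    obtain ⟨F, hF, hFcov⟩ := S.cover 2 1 zero_le_one
    have h1 : S.S (1 + 1) ⊆ F + S.S 1 := by
      intro x hx
      have hx' : x ∈ S.S ((2 : ℕ) * 1) := by
        rw [show ((2 : ℕ) : ℝ) * 1 = 1 + 1 by norm_num]
        exact hx
      obtain ⟨t, ht, h⟩ := hFcov x hx'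
      rw [Finset.mem_add]
      exact ⟨t, ht, x - t, h, by ring⟩
    have h2 : (G + S.S (1 + 1)).card ≤ G.card * (5 ^ D * (S.S 1).card) :=
      Finset.card_add_le.trans (Nat.mul_le_mul_left _ (((card_le_card h1).trans
        Finset.card_add_le).trans (Nat.mul_le_mul_right _ (by simpa using hF))))
    have h3 : ((G + S.S (1 + 1)).card : ℝ) ≤ G.card * (5 ^ D * (S.S 1).card) := by
      exact_mod_cast h2
    have hA0 : (0 : ℝ) ≤ A.card := Nat.cast_nonneg _
    have hp4 : (p : ℝ) ^ τ₁ = (p : ℝ) ^ (τ₁ / 2) * (p : ℝ) ^ (τ₁ / 2) := by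
      rw [← Real.rpow_add hp0]
      congr 1
      ring
    calc ((G + S.S (1 + 1)).card : ℝ) ≤ 5 ^ D * (G.card * (S.S 1).card) :=
          h3.trans (le_of_eq (by ring))
      _ ≤ 5 ^ D * (C' * ((p : ℝ) ^ (τ₁ / 2) * A.card)) :=
          mul_le_mul_of_nonneg_left (hG.trans (mul_le_mul_of_nonneg_left hA (by linarith)))
            (by positivity)
      _ = (5 ^ D * C') * ((p : ℝ) ^ (τ₁ / 2) * A.card) := by ring
      _ ≤ (p : ℝ) ^ (τ₁ / 2) * ((p : ℝ) ^ (τ₁ / 2) * A.card) :=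
          mul_le_mul_of_nonneg_right hp3 (by positivity)
      _ = _ := by rw [hp4]; ring
  have hmem : ∀ (A G : Finset (ZMod p)) (S : Sys p D) (z : ZMod p) (N : ℕ),
      (∀ n < N, (n : ZMod p) * z ∈ S.S 1) → (∀ a ∈ A, ∃ x ∈ G, a - x ∈ S.S 1) →
      ∀ a ∈ A, ∀ n < N, a + (n : ZMod p) * z ∈ G + S.S (1 + 1) := by
    intro A G S z N hz hcov a ha n hn
    obtain ⟨x, hx, h⟩ := hcov a ha
    rw [Finset.mem_add]
    exact ⟨x, hx, (a - x) + (n : ZMod p) * z, S.add_mem 1 1 _ _ h (hz n hn), by ring⟩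
  have hκε : (p : ℝ) ^ ε₁ ≤ (p : ℝ) ^ κ := Real.rpow_le_rpow_of_exponent_le hpR (by linarith)
  have hmain := hcut p (by omega) χ hχ A (G + S.S (1 + 1)) B (H + S'.S (1 + 1)) z z' N N' hz hz'
    (hκε.trans hN) (hκε.trans hN') hNp (hmem A G S z N hNS hcovG) (hU A P G S hG hA)
    (hmem B H S' z' N' hNS' hcovH) (hU B Q H S' hH hB) (by
      intro T₀ hT₀
      have hN0 : (0 : ℝ) < N := lt_of_lt_of_le (Real.rpow_pos_of_pos hp0 _) hN
      have hmin : (p : ℝ) ^ κ ≤ (min N N' : ℕ) := by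
        rcases le_total N N' with h1 | h1
        · rw [min_eq_left h1]
          exact hN
        · rw [min_eq_right h1]
          exact hN'
      have h1 := hX (T₀ + (range N).image fun n : ℕ => (n : ZMod p) * z) (by
        have h2 : ((T₀ + (range N).image fun n : ℕ => (n : ZMod p) * z).card : ℝ) ≤
            T₀.card * N := by
          have h3 : (T₀ + (range N).image fun n : ℕ => (n : ZMod p) * z).card ≤ T₀.card * N :=
            Finset.card_add_le.trans (Nat.mul_le_mul_left _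
              (Finset.card_image_le.trans (le_of_eq (card_range N))))
          exact_mod_cast h3
        refine h2.trans ?_
        have h3 : (T₀.card * N : ℝ) * (p : ℝ) ^ κ ≤ (p : ℝ) ^ (1 / 2 + ε₁) := by
          calc (T₀.card * N : ℝ) * (p : ℝ) ^ κ ≤ (T₀.card * N) * (min N N' : ℕ) :=
                mul_le_mul_of_nonneg_left hmin (by positivity)
            _ = T₀.card * (N * (min N N' : ℕ)) := by ring
            _ ≤ _ := hT₀
        have h4 : (p : ℝ) ^ (1 / 2 + ε₁) ≤ (p : ℝ) ^ (1 / 2 - κ / 2) * (p : ℝ) ^ κ := by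
          rw [← Real.rpow_add hp0]
          exact Real.rpow_le_rpow_of_exponent_le hpR (by linarith)
        exact le_of_mul_le_mul_right (h3.trans h4) (Real.rpow_pos_of_pos hp0 _))
      refine le_trans ?_ (h1.trans (mul_le_mul_of_nonneg_right
        (Real.rpow_le_rpow_of_exponent_le hpR (by linarith))
        (mul_nonneg (Nat.cast_nonneg _) (Nat.cast_nonneg _))))
      norm_cast
      refine Finset.card_le_card fun t ht => ?_
      obtain ⟨h2, s, hs, n, hn, e⟩ := mem_filter.1 ht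
      refine mem_filter.2 ⟨h2, ?_⟩
      rw [e]
      exact Finset.add_mem_add hs (mem_image.2 ⟨n, mem_range.2 hn, rfl⟩)) f g
  refine hmain.trans (mul_le_mul_of_nonneg_right
    (Real.rpow_le_rpow_of_exponent_le hpR (by linarith)) (by positivity))

end Pool.Agent.H58BU
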