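import Pool.Agent.H58BU.U

/-! # Large sumsets of sets of bounded doubling do not allow concentration -/

set_option autoImplicit false
set_option linter.unusedSectionVars false

namespace Pool.Agent.H58BU

open Finset Pool.Agent.TH7.PG Pool.Agent.N397.PQ Pool.Agent.W27.SD
open scoped Pointwise

theorem sys_mul {p D : ℕ} [Fact p.Prime] (S : Sys p D) (m : ℕ) (r : ℝ) (hr : r = m) :
    ((S.S r).card : ℝ) ≤ (2 * m + 1) ^ D * (S.S 1).card := by
  obtain ⟨F, hF, hFcov⟩ := S.cover m 1 zero_le_one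
  have h1 : S.S r ⊆ F + S.S 1 := by
    intro x hx
    have hx' : x ∈ S.S (m * 1) := by
      rw [mul_one, ← hr]
      exact hx
    obtain ⟨t, ht, h⟩ := hFcov x hx'
    rw [Finset.mem_add]
    exact ⟨t, ht, x - t, h, by ring⟩
  have h2 : (S.S r).card ≤ (2 * m + 1) ^ D * (S.S 1).card :=
    ((card_le_card h1).trans Finset.card_add_le).trans (Nat.mul_le_mul_right _ hF)
  exact_mod_cast h2

/-- the intersection of two systems and their sum -/
theorem inter_sum {p D : ℕ} [Fact p.Prime] (S S' : Sys p D) :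
    (((S.S (1 + 1) ∩ S'.S (1 + 1)).card : ℕ) : ℝ) * (S.S 1 + S'.S 1).card ≤
      (7 ^ D * (S.S 1).card) * (7 ^ D * (S'.S 1).card) := by
  classical
  have h1 : ∀ s ∈ S.S 1 + S'.S 1, ∃ x ∈ S.S 1, ∃ y ∈ S'.S 1, x + y = s := fun s hs =>
    Finset.mem_add.1 hs
  choose! α hα hα2 using h1
  have h2 : ((S.S (1 + 1) ∩ S'.S (1 + 1)) ×ˢ (S.S 1 + S'.S 1)).card ≤
      (S.S (1 + (1 + 1)) ×ˢ S'.S (1 + (1 + 1))).card := by
    refine Finset.card_le_card_of_injOn (fun t => (α t.2 + t.1, (t.2 - α t.2) - t.1)) ?_ ?_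
    · intro t ht
      obtain ⟨h3, h4⟩ := mem_product.1 (Finset.mem_coe.1 ht)
      obtain ⟨h5, h6⟩ := mem_inter.1 h3
      obtain ⟨y, hy, e⟩ := hα2 _ h4
      refine Finset.mem_coe.2 (mem_product.2 ⟨S.add_mem _ _ _ _ (hα _ h4) h5, ?_⟩)
      show (t.2 - α t.2) - t.1 ∈ S'.S (1 + (1 + 1))
      have e2 : (t.2 - α t.2) - t.1 = y + -t.1 := by
        have : t.2 - α t.2 = y := sub_eq_of_eq_add' e.symm
        rw [this]
        ring
      rw [e2]
      exact S'.add_mem _ _ _ _ hy (S'.neg_mem _ _ h6)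
    · intro t _ t' _ htt
      have h3 := Prod.ext_iff.1 htt
      have h4 : α t.2 + t.1 = α t'.2 + t'.1 := h3.1
      have h5 : (t.2 - α t.2) - t.1 = (t'.2 - α t'.2) - t'.1 := h3.2
      have h6 : t.2 = t'.2 := by
        calc t.2 = ((t.2 - α t.2) - t.1) + (α t.2 + t.1) := by ring
          _ = ((t'.2 - α t'.2) - t'.1) + (α t'.2 + t'.1) := by rw [h4, h5]
          _ = t'.2 := by ring
      refine Prod.ext ?_ h6
      rw [h6] at h4
      exact add_left_cancel h4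
  rw [card_product, card_product] at h2
  have h3 := sys_mul S 3 (1 + (1 + 1)) (by norm_num)
  have h4 := sys_mul S' 3 (1 + (1 + 1)) (by norm_num)
  have e7 : (2 * ((3 : ℕ) : ℝ) + 1) = 7 := by norm_num
  rw [e7] at h3 h4
  calc (((S.S (1 + 1) ∩ S'.S (1 + 1)).card : ℕ) : ℝ) * (S.S 1 + S'.S 1).card ≤
      ((S.S (1 + (1 + 1))).card : ℝ) * (S'.S (1 + (1 + 1))).card := by exact_mod_cast h2
    _ ≤ _ := mul_le_mul h3 h4 (Nat.cast_nonneg _) (by positivity)

/-- pairs with the sum in a set, pieces -/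
theorem piece_count {p D : ℕ} [Fact p.Prime] (S S' : Sys p D) (A B G H X : Finset (ZMod p))
    (hA : ∀ a ∈ A, ∃ x ∈ G, a - x ∈ S.S 1) (hB : ∀ b ∈ B, ∃ y ∈ H, b - y ∈ S'.S 1) :
    ((A ×ˢ B).filter fun t => t.1 + t.2 ∈ X).card ≤
      (G.card * H.card * X.card) * (S.S (1 + 1) ∩ S'.S (1 + 1)).card := by
  classical
  choose! u hu hu2 using hA
  choose! w hw hw2 using hB
  have h1 := Finset.card_le_mul_card_image_of_maps_to
    (s := (A ×ˢ B).filter fun t => t.1 + t.2 ∈ X) (t := (G ×ˢ H) ×ˢ X)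
    (f := fun t : ZMod p × ZMod p => ((u t.1, w t.2), t.1 + t.2)) (fun t ht => by
      obtain ⟨h2, h3⟩ := mem_filter.1 ht
      obtain ⟨h4, h5⟩ := mem_product.1 h2
      exact mem_product.2 ⟨mem_product.2 ⟨hu _ h4, hw _ h5⟩, h3⟩)
    (S.S (1 + 1) ∩ S'.S (1 + 1)).card (fun y _ => by
      rcases Finset.eq_empty_or_nonempty (((A ×ˢ B).filter fun t => t.1 + t.2 ∈ X).filter
        fun t => ((u t.1, w t.2), t.1 + t.2) = y) with h0 | ⟨t₀, ht₀⟩
      · rw [h0]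
        simp
      · have key : ∀ t ∈ (((A ×ˢ B).filter fun t => t.1 + t.2 ∈ X).filter
            fun t => ((u t.1, w t.2), t.1 + t.2) = y), t.1 - y.1.1 ∈ S.S 1 ∧
            t.2 - y.1.2 ∈ S'.S 1 ∧ t.1 + t.2 = y.2 := by
          intro t ht
          obtain ⟨h2, h3⟩ := mem_filter.1 ht
          obtain ⟨h4, h5⟩ := mem_product.1 (mem_filter.1 h2).1
          have h6 := Prod.ext_iff.1 h3
          have h7 := Prod.ext_iff.1 h6.1
          have e1 : u t.1 = y.1.1 := h7.1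
          have e2 : w t.2 = y.1.2 := h7.2
          have h8 := hu2 _ h4
          have h9 := hw2 _ h5
          rw [e1] at h8
          rw [e2] at h9
          exact ⟨h8, h9, h6.2⟩
        obtain ⟨k1, k2, k3⟩ := key t₀ ht₀
        refine Finset.card_le_card_of_injOn (fun t => t.1 - t₀.1) ?_ ?_
        · intro t ht
          obtain ⟨l1, l2, l3⟩ := key t (Finset.mem_coe.1 ht)
          refine Finset.mem_coe.2 (mem_inter.2 ⟨?_, ?_⟩)
          · show t.1 - t₀.1 ∈ S.S (1 + 1)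
            have e : t.1 - t₀.1 = (t.1 - y.1.1) + -(t₀.1 - y.1.1) := by ring
            rw [e]
            exact S.add_mem _ _ _ _ l1 (S.neg_mem _ _ k1)
          · show t.1 - t₀.1 ∈ S'.S (1 + 1)
            have e : t.1 - t₀.1 = (t₀.2 - y.1.2) + -(t.2 - y.1.2) := by
              have h2 : t.1 + t.2 = t₀.1 + t₀.2 := l3.trans k3.symm
              calc t.1 - t₀.1 = (t.1 + t.2) - t.2 - t₀.1 := by ring
                _ = (t₀.1 + t₀.2) - t.2 - t₀.1 := by rw [h2]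
                _ = _ := by ring
            rw [e]
            exact S'.add_mem _ _ _ _ k2 (S'.neg_mem _ _ l2)
        · intro t ht t' ht' htt
          obtain ⟨_, _, l3⟩ := key t (Finset.mem_coe.1 ht)
          obtain ⟨_, _, l3'⟩ := key t' (Finset.mem_coe.1 ht')
          have h2 : t.1 = t'.1 := sub_left_injective htt
          refine Prod.ext h2 ?_
          have h3 : t.1 + t.2 = t'.1 + t'.2 := l3.trans l3'.symm
          rw [h2] at h3
          exact add_left_cancel h3)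
  refine h1.trans (le_of_eq ?_)
  rw [card_product, card_product]
  ring

/-- no concentration if the sumset of `P` and `Q` is large -/
theorem bd_conc (K c : ℝ) (hc : 0 < c) : ∃ τ : ℝ, 0 < τ ∧ ∃ p₀ : ℕ,
    ∀ (p : ℕ) [Fact p.Prime], p₀ ≤ p → ∀ A B P Q : Finset (ZMod p),
      ((P + P).card : ℝ) ≤ K * P.card → ((Q + Q).card : ℝ) ≤ K * Q.card →
      ((A + P).card : ℝ) ≤ (p : ℝ) ^ τ * A.card → ((B + Q).card : ℝ) ≤ (p : ℝ) ^ τ * B.card →
      (p : ℝ) ^ (1 / 2 - c / 2) ≤ (P + Q).card →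
      ∀ X : Finset (ZMod p), (X.card : ℝ) ≤ (p : ℝ) ^ (1 / 2 - c) →
        (((A ×ˢ B).filter fun t => t.1 + t.2 ∈ X).card : ℝ) ≤
          (p : ℝ) ^ (-(c / 8)) * (A.card * B.card) := by
  classical
  obtain ⟨C, D, hC, hsys⟩ := sys_cover (K := max K 1) (le_max_right _ _)
  obtain ⟨C', hC'⟩ : ∃ C' : ℝ, C' = C ^ 3 * 5 ^ D := ⟨_, rfl⟩
  have hC'1 : 1 ≤ C' := by
    rw [hC']
    have a1 : (1 : ℝ) ≤ C ^ 3 := one_le_pow₀ hC
    have a2 : (1 : ℝ) ≤ 5 ^ D := one_le_pow₀ (by norm_num)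
    nlinarith
  obtain ⟨E, hE⟩ : ∃ E : ℝ, E = C ^ 2 * (7 ^ D * 7 ^ D) * (C' * C') := ⟨_, rfl⟩
  obtain ⟨p₁, hp₁⟩ := large E (c / 4) (by positivity)
  refine ⟨c / 32, by positivity, p₁, ?_⟩
  intro p _ hp A B P Q hPK hQK hA hB hPQ X hX
  have hpR : (1 : ℝ) ≤ p := by exact_mod_cast (Fact.out : p.Prime).one_lt.le
  have hp0 : (0 : ℝ) < p := by linarith
  have hp1 := hp₁ p hp
  have hPQ0 : (0 : ℝ) < (P + Q).card := lt_of_lt_of_le (Real.rpow_pos_of_pos hp0 _) hPQ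
  have hPQne : (P + Q).Nonempty := by rw [← card_pos]; exact_mod_cast hPQ0
  have hPne : P.Nonempty := hPQne.of_add_left
  have hQne : Q.Nonempty := hPQne.of_add_right
  have hK : ∀ R : Finset (ZMod p), ((R + R).card : ℝ) ≤ K * R.card →
      ((R + R).card : ℝ) ≤ max K 1 * R.card := fun R hR =>
    hR.trans (mul_le_mul_of_nonneg_right (le_max_left _ _) (Nat.cast_nonneg _))
  obtain ⟨S, T, hT, hS, hcovP⟩ := hsys p P hPne (hK P hPK)
  obtain ⟨S', T', hT', hS', hcovQ⟩ := hsys p Q hQne (hK Q hQK)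
  obtain ⟨G, hG, hcovG⟩ := inv_cover hC A P T S hPne hT hS hcovP
  obtain ⟨H, hH, hcovH⟩ := inv_cover hC B Q T' S' hQne hT' hS' hcovQ
  rw [← hC'] at hG hH
  have h1 : (P + Q).card ≤ (T.card * T'.card) * (S.S 1 + S'.S 1).card := by
    have h2 : P + Q ⊆ (T + T') + (S.S 1 + S'.S 1) := by
      intro x hx
      obtain ⟨a, ha, b, hb, rfl⟩ := Finset.mem_add.1 hx
      obtain ⟨t, ht, h3⟩ := hcovP a ha
      obtain ⟨t', ht', h4⟩ := hcovQ b hb
      refine Finset.mem_add.2 ⟨t + t', Finset.add_mem_add ht ht', (a - t) + (b - t'),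
        Finset.add_mem_add h3 h4, by ring⟩
    exact ((card_le_card h2).trans Finset.card_add_le).trans
      (Nat.mul_le_mul_right _ Finset.card_add_le)
  have h1' : ((P + Q).card : ℝ) ≤ (C * C) * (S.S 1 + S'.S 1).card := by
    have h2 : ((P + Q).card : ℝ) ≤ (T.card * T'.card) * (S.S 1 + S'.S 1).card := by
      exact_mod_cast h1
    refine h2.trans (mul_le_mul_of_nonneg_right ?_ (Nat.cast_nonneg _))
    exact mul_le_mul hT hT' (Nat.cast_nonneg _) (by linarith)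
  obtain ⟨I, hI⟩ : ∃ I : ℝ, I = (((S.S (1 + 1) ∩ S'.S (1 + 1)).card : ℕ) : ℝ) := ⟨_, rfl⟩
  have hI0 : 0 ≤ I := by rw [hI]; exact Nat.cast_nonneg _
  have h3 := inter_sum S S'
  rw [← hI] at h3
  have h4 : (((A ×ˢ B).filter fun t => t.1 + t.2 ∈ X).card : ℝ) ≤
      (G.card * H.card * X.card) * I := by
    rw [hI]
    exact_mod_cast piece_count S S' A B G H X hcovG hcovH
  obtain ⟨Φ, hΦ⟩ : ∃ Φ : ℝ, Φ = (((A ×ˢ B).filter fun t => t.1 + t.2 ∈ X).card : ℝ) := ⟨_, rfl⟩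
  rw [← hΦ] at h4 ⊢
  have hΦ0 : 0 ≤ Φ := by rw [hΦ]; exact Nat.cast_nonneg _
  have hGA : (G.card : ℝ) * (S.S 1).card ≤ C' * ((p : ℝ) ^ (c / 32) * A.card) :=
    hG.trans (mul_le_mul_of_nonneg_left hA (by linarith))
  have hHB : (H.card : ℝ) * (S'.S 1).card ≤ C' * ((p : ℝ) ^ (c / 32) * B.card) :=
    hH.trans (mul_le_mul_of_nonneg_left hB (by linarith))
  have hab0 : (0 : ℝ) ≤ (A.card : ℝ) * B.card := mul_nonneg (Nat.cast_nonneg _) (Nat.cast_nonneg _)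
  have h5 : Φ * (P + Q).card ≤ E * ((p : ℝ) ^ (c / 32) * (p : ℝ) ^ (c / 32)) * X.card *
      (A.card * B.card) := by
    calc Φ * (P + Q).card ≤ ((G.card * H.card * X.card) * I) *
          ((C * C) * (S.S 1 + S'.S 1).card) :=
          mul_le_mul h4 h1' (Nat.cast_nonneg _) (by positivity)
      _ = (G.card * H.card * X.card) * (C * C) * (I * (S.S 1 + S'.S 1).card) := by ring
      _ ≤ (G.card * H.card * X.card) * (C * C) *
          ((7 ^ D * (S.S 1).card) * (7 ^ D * (S'.S 1).card)) :=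
          mul_le_mul_of_nonneg_left h3 (by positivity)
      _ = (X.card * (C * C) * (7 ^ D * 7 ^ D)) *
          ((G.card * (S.S 1).card) * (H.card * (S'.S 1).card)) := by ring
      _ ≤ (X.card * (C * C) * (7 ^ D * 7 ^ D)) *
          ((C' * ((p : ℝ) ^ (c / 32) * A.card)) * (C' * ((p : ℝ) ^ (c / 32) * B.card))) := by
          refine mul_le_mul_of_nonneg_left ?_ (by positivity)
          exact mul_le_mul hGA hHB (by positivity) (by positivity)
      _ = _ := by rw [hE]; ring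
  have h6 : Φ * (p : ℝ) ^ (1 / 2 - c / 2) ≤ (p : ℝ) ^ (-(c / 8)) * (A.card * B.card) *
      (p : ℝ) ^ (1 / 2 - c / 2) := by
    calc Φ * (p : ℝ) ^ (1 / 2 - c / 2) ≤ Φ * (P + Q).card :=
          mul_le_mul_of_nonneg_left hPQ hΦ0
      _ ≤ E * ((p : ℝ) ^ (c / 32) * (p : ℝ) ^ (c / 32)) * X.card * (A.card * B.card) := h5
      _ ≤ (p : ℝ) ^ (c / 4) * ((p : ℝ) ^ (c / 32) * (p : ℝ) ^ (c / 32)) *
          (p : ℝ) ^ (1 / 2 - c) * (A.card * B.card) := by
          refine mul_le_mul_of_nonneg_right ?_ hab0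
          exact mul_le_mul (mul_le_mul_of_nonneg_right hp1 (by positivity)) hX
            (Nat.cast_nonneg _) (by positivity)
      _ = (p : ℝ) ^ (c / 4 + (c / 32 + c / 32) + (1 / 2 - c)) * (A.card * B.card) := by
          rw [Real.rpow_add hp0, Real.rpow_add hp0, Real.rpow_add hp0]
      _ ≤ (p : ℝ) ^ (-(c / 8) + (1 / 2 - c / 2)) * (A.card * B.card) := by
          refine mul_le_mul_of_nonneg_right ?_ hab0
          exact Real.rpow_le_rpow_of_exponent_le hpR (by linarith)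
      _ = _ := by
          rw [Real.rpow_add hp0]
          ring
  exact le_of_mul_le_mul_right h6 (Real.rpow_pos_of_pos hp0 _)

/-- **sets of bounded doubling**: a large sumset, or no concentration -/
theorem bd_final (ε K : ℝ) (hε : 0 < ε) : ∃ c : ℝ, 0 < c ∧ ∀ δ : ℝ, 0 < δ →
    ∃ τ : ℝ, 0 < τ ∧ ∃ p₀ : ℕ, ∀ (p : ℕ) [Fact p.Prime], p₀ ≤ p →
    ∀ χ : DirichletCharacter ℂ p, χ ≠ 1 → ∀ A B P Q : Finset (ZMod p),
      (p : ℝ) ^ ε ≤ P.card → (p : ℝ) ^ ε ≤ Q.card →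
      ((P + P).card : ℝ) ≤ K * P.card → ((Q + Q).card : ℝ) ≤ K * Q.card →
      ((A + P).card : ℝ) ≤ (p : ℝ) ^ τ * A.card → ((B + Q).card : ℝ) ≤ (p : ℝ) ^ τ * B.card →
      ((p : ℝ) ^ (1 / 2 - c) ≤ (P + Q).card ∨
        ∀ X : Finset (ZMod p), (X.card : ℝ) ≤ (p : ℝ) ^ (1 / 2 - c) →
        (((A ×ˢ B).filter fun t => t.1 + t.2 ∈ X).card : ℝ) ≤
          (p : ℝ) ^ (-δ) * (A.card * B.card)) →
      ∀ f g : ZMod p → ℂ, ‖∑ a ∈ A, ∑ b ∈ B, f a * g b * χ (a + b)‖ ≤ (p : ℝ) ^ (-τ) *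
        ((Real.sqrt A.card * Real.sqrt B.card) *
          (Real.sqrt (∑ a ∈ A, ‖f a‖ ^ 2) * Real.sqrt (∑ b ∈ B, ‖g b‖ ^ 2))) := by
  classical
  obtain ⟨c, hc, h⟩ := bd_main ε K hε
  refine ⟨c / 2, by positivity, ?_⟩
  intro δ hδ
  obtain ⟨τ₁, hτ₁, p₁, h1⟩ := h (min δ (c / 8)) (lt_min hδ (by positivity))
  obtain ⟨τ₂, hτ₂, p₂, h2⟩ := bd_conc K c hc
  obtain ⟨τ, hτ⟩ : ∃ τ : ℝ, τ = min τ₁ τ₂ := ⟨_, rfl⟩
  have hττ₁ : τ ≤ τ₁ := by rw [hτ]; exact min_le_left _ _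
  have hττ₂ : τ ≤ τ₂ := by rw [hτ]; exact min_le_right _ _
  refine ⟨τ, by rw [hτ]; exact lt_min hτ₁ hτ₂, p₁ + p₂, ?_⟩
  intro p _ hp χ hχ A B P Q hP hQ hPK hQK hA hB hX f g
  have hpR : (1 : ℝ) ≤ p := by exact_mod_cast (Fact.out : p.Prime).one_lt.le
  have hle : ∀ (S : Finset (ZMod p)) (s t : ℝ), s ≤ t →
      (p : ℝ) ^ s * S.card ≤ (p : ℝ) ^ t * S.card := fun S s t hst =>
    mul_le_mul_of_nonneg_right (Real.rpow_le_rpow_of_exponent_le hpR hst) (Nat.cast_nonneg _)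
  refine (h1 p (by omega) χ hχ A B P Q hP hQ hPK hQK (hA.trans (hle A _ _ hττ₁))
    (hB.trans (hle B _ _ hττ₁)) ?_ f g).trans (mul_le_mul_of_nonneg_right
      (Real.rpow_le_rpow_of_exponent_le hpR (by linarith)) (by positivity))
  intro X hXc
  rcases hX with hPQ | hX
  · refine (h2 p (by omega) A B P Q hPK hQK (hA.trans (hle A _ _ hττ₂))
      (hB.trans (hle B _ _ hττ₂)) hPQ X hXc).trans ?_
    refine mul_le_mul_of_nonneg_right (Real.rpow_le_rpow_of_exponent_le hpR ?_)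
      (mul_nonneg (Nat.cast_nonneg _) (Nat.cast_nonneg _))
    have := min_le_right δ (c / 8)
    linarith
  · refine (hX X (hXc.trans (Real.rpow_le_rpow_of_exponent_le hpR (by linarith)))).trans ?_
    refine mul_le_mul_of_nonneg_right (Real.rpow_le_rpow_of_exponent_le hpR ?_)
      (mul_nonneg (Nat.cast_nonneg _) (Nat.cast_nonneg _))
    have := min_le_left δ (c / 8)
    linarith

end Pool.Agent.H58BU
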