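import Pool.Agent.H58BU.V
import Pool.Agent.H58BU.L

/-! # A set of bounded doubling and an arbitrary set below the square root -/

set_option autoImplicit false
set_option linter.unusedSectionVars false

namespace Pool.Agent.H58BU

open Finset Pool.Agent.TH7.PG Pool.Agent.N397.PQ Pool.Agent.W27.SD
open scoped Pointwise

theorem TT_local {p : ℕ} [Fact p.Prime] (z : ZMod p) (N : ℕ) (U B E : Finset (ZMod p)) (R : ℕ)
    (hE : ∀ u ∈ U, ∀ u₁ ∈ U, ∀ m : ℤ, |m| < N → (m : ZMod p) * z - (u - u₁) ∈ E)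
    (hR : ∀ x : ZMod p, (B.filter fun b => b - x ∈ E).card ≤ R) :
    (TT z N U B).card ≤ 2 * N * (U.card * (B.card * (B.card * R))) := by
  classical
  set F : ((ZMod p × ZMod p) × ((ZMod p × ZMod p) × (ZMod p × ZMod p))) →
    ZMod p × (ZMod p × (Σ _ : ZMod p, ZMod p)) := fun t =>
      (t.1.1, (t.2.1.2, ⟨t.2.2.1, t.2.1.1⟩)) with hF
  have h1 : ∀ a ∈ (TT z N U B).image F, ((TT z N U B).filter fun x => F x = a).card ≤ 2 * N := by
    intro a _
    have h2 : ((TT z N U B).filter fun x => F x = a) ⊆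
        (Ioo (-(N : ℤ)) N).image fun m : ℤ =>
          ((a.1, a.1 + a.2.2.2 - a.2.2.1 - (m : ZMod p) * z),
            ((a.2.2.2, a.2.1), (a.2.2.1, a.2.1 - a.2.2.2 + a.2.2.1))) := by
      intro t ht
      obtain ⟨h3, h4⟩ := mem_filter.1 ht
      unfold TT at h3
      obtain ⟨_, h5, m, hm, hm2⟩ := mem_filter.1 h3
      refine mem_image.2 ⟨m, mem_Ioo.2 (abs_lt.1 hm), ?_⟩
      rw [← h4]
      refine Prod.ext (Prod.ext rfl ?_) (Prod.ext rfl (Prod.ext rfl ?_))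
      · show t.1.1 + t.2.1.1 - t.2.2.1 - (m : ZMod p) * z = t.1.2
        rw [← hm2]
        ring
      · show t.2.1.2 - t.2.1.1 + t.2.2.1 = t.2.2.2
        rw [h5]
        ring
    refine (card_le_card h2).trans (card_image_le.trans ?_)
    rw [Int.card_Ioo]
    omega
  have h2 : (TT z N U B).image F ⊆ U ×ˢ (B ×ˢ (B.sigma fun b₁ => B.filter fun b => b - b₁ ∈ E)) := by
    intro a ha
    obtain ⟨t, ht, rfl⟩ := mem_image.1 ha
    unfold TT at ht
    obtain ⟨h3, h4, m, hm, hm2⟩ := mem_filter.1 ht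
    obtain ⟨h5, h6⟩ := mem_product.1 h3
    obtain ⟨h7, h8⟩ := mem_product.1 h6
    obtain ⟨h9, h10⟩ := mem_product.1 h7
    obtain ⟨h11, h12⟩ := mem_product.1 h8
    obtain ⟨h13, h14⟩ := mem_product.1 h5
    refine mem_product.2 ⟨h13, mem_product.2 ⟨h10, Finset.mem_sigma.2 ⟨h11,
      mem_filter.2 ⟨h9, ?_⟩⟩⟩⟩
    have h15 := hE _ h13 _ h14 m hm
    have e : (m : ZMod p) * z - (t.1.1 - t.1.2) = t.2.1.1 - t.2.2.1 := by
      rw [← hm2]
      ring
    rw [e] at h15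
    exact h15
  have h3 := Finset.card_le_mul_card_image (TT z N U B) (2 * N) h1
  refine h3.trans (Nat.mul_le_mul_left _ ?_)
  refine (card_le_card h2).trans ?_
  rw [card_product, card_product, card_sigma]
  refine Nat.mul_le_mul_left _ (Nat.mul_le_mul_left _ ?_)
  calc ∑ b₁ ∈ B, (B.filter fun b => b - b₁ ∈ E).card ≤ ∑ _b₁ ∈ B, R :=
        Finset.sum_le_sum fun b₁ _ => hR b₁
    _ = B.card * R := by rw [Finset.sum_const, smul_eq_mul]

/-- **bounded doubling against an arbitrary set** -/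
theorem kb_main (ε K : ℝ) (hε : 0 < ε) : ∃ c : ℝ, 0 < c ∧
    ∃ τ : ℝ, 0 < τ ∧ ∃ p₀ : ℕ, ∀ (p : ℕ) [Fact p.Prime], p₀ ≤ p →
    ∀ χ : DirichletCharacter ℂ p, χ ≠ 1 → ∀ (A B P : Finset (ZMod p)) (M : ℕ),
      (p : ℝ) ^ ε ≤ P.card → (p : ℝ) ^ ε ≤ B.card →
      ((P + P).card : ℝ) ≤ K * P.card → ((A + P).card : ℝ) ≤ (p : ℝ) ^ τ * A.card →
      (∀ x : ZMod p, (B.filter fun b => b - x ∈ P - P).card ≤ M) →
      M * (p : ℝ) ^ (1 - c) ≤ P.card * (B.card : ℝ) ^ 2 →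
      ∀ f g : ZMod p → ℂ, ‖∑ a ∈ A, ∑ b ∈ B, f a * g b * χ (a + b)‖ ≤ (p : ℝ) ^ (-τ) *
        ((Real.sqrt A.card * Real.sqrt B.card) *
          (Real.sqrt (∑ a ∈ A, ‖f a‖ ^ 2) * Real.sqrt (∑ b ∈ B, ‖g b‖ ^ 2))) := by
  classical
  obtain ⟨ε', hε'⟩ : ∃ ε' : ℝ, ε' = min ε 1 := ⟨_, rfl⟩
  have hε'0 : 0 < ε' := by rw [hε']; exact lt_min hε one_pos
  have hε'1 : ε' ≤ 1 := by rw [hε']; exact min_le_right _ _
  have hε'ε : ε' ≤ ε := by rw [hε']; exact min_le_left _ _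
  obtain ⟨C, D, κ, hC, hκ0, p₁, hsys⟩ := sys_prog (K := max K 1) (le_max_right _ _) hε'0 hε'1
  obtain ⟨ε₁, hε₁⟩ : ∃ ε₁ : ℝ, ε₁ = min (κ / 4) ε' := ⟨_, rfl⟩
  have hε₁0 : 0 < ε₁ := by rw [hε₁]; exact lt_min (by positivity) hε'0
  have hε₁κ : ε₁ ≤ κ / 4 := by rw [hε₁]; exact min_le_left _ _
  have hε₁ε : ε₁ ≤ ε := by
    refine le_trans ?_ hε'ε
    rw [hε₁]
    exact min_le_right _ _
  refine ⟨κ / 4, by positivity, ?_⟩
  obtain ⟨τ₁, hτ₁, p₂, hite⟩ := ite_any ε₁ hε₁0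
  obtain ⟨C', hC'⟩ : ∃ C' : ℝ, C' = C ^ 3 * 5 ^ D := ⟨_, rfl⟩
  have hC'1 : 1 ≤ C' := by
    rw [hC']
    have a1 : (1 : ℝ) ≤ C ^ 3 := one_le_pow₀ hC
    have a2 : (1 : ℝ) ≤ 5 ^ D := one_le_pow₀ (by norm_num)
    nlinarith
  obtain ⟨C₂, hC₂⟩ : ∃ C₂ : ℝ, C₂ = C * 13 ^ D * C := ⟨_, rfl⟩
  have hC₂0 : 0 ≤ C₂ := by rw [hC₂]; positivity
  obtain ⟨p₃, hp₃⟩ := large C' (τ₁ / 2) (by positivity)
  obtain ⟨p₄, hp₄⟩ := large (5 ^ D) τ₁ hτ₁
  obtain ⟨p₅, hp₅⟩ := large (2 * C₂ * C) (κ / 2) (by positivity)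
  refine ⟨τ₁ / 8, by positivity, p₁ + p₂ + p₃ + p₄ + p₅, ?_⟩
  intro p _ hp χ hχ A B P M hP hB hPK hA hM hMB f g
  have hpR : (1 : ℝ) ≤ p := by exact_mod_cast (Fact.out : p.Prime).one_lt.le
  have hp0 : (0 : ℝ) < p := by linarith
  have hp3 := hp₃ p (by omega)
  have hp4 := hp₄ p (by omega)
  have hp5 := hp₅ p (by omega)
  have hle : (p : ℝ) ^ ε' ≤ (p : ℝ) ^ ε := Real.rpow_le_rpow_of_exponent_le hpR hε'ε
  have hP0 : (0 : ℝ) < P.card := lt_of_lt_of_le (Real.rpow_pos_of_pos hp0 _) hP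
  have hPne : P.Nonempty := by rw [← card_pos]; exact_mod_cast hP0
  have hB0 : (0 : ℝ) < B.card := lt_of_lt_of_le (Real.rpow_pos_of_pos hp0 _) hB
  obtain ⟨S, T, z, N, hz, hNp, hN, hNS, hT, hS, hcovP⟩ := hsys p (by omega) P (hle.trans hP)
    (hPK.trans (mul_le_mul_of_nonneg_right (le_max_left _ _) (Nat.cast_nonneg _)))
  obtain ⟨G, hG, hcovG⟩ := inv_cover hC A P T S hPne hT hS hcovP
  rw [← hC'] at hG
  have hN0 : (0 : ℝ) < N := lt_of_lt_of_le (Real.rpow_pos_of_pos hp0 _) hN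
  -- sizes
  have hPS : (P.card : ℝ) ≤ C * (S.S 1).card := by
    have h1 : P ⊆ T + S.S 1 := by
      intro a ha
      obtain ⟨t, ht, h⟩ := hcovP a ha
      rw [Finset.mem_add]
      exact ⟨t, ht, a - t, h, by ring⟩
    have h2 : P.card ≤ T.card * (S.S 1).card := (card_le_card h1).trans Finset.card_add_le
    have h3 : (P.card : ℝ) ≤ T.card * (S.S 1).card := by exact_mod_cast h2
    exact h3.trans (mul_le_mul_of_nonneg_right hT (Nat.cast_nonneg _))
  have hS0 : (0 : ℝ) < (S.S 1).card := by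
    have h1 := S.zero_mem 1 zero_le_one
    exact_mod_cast Finset.card_pos.2 ⟨_, h1⟩
  -- covering of `S 5` by translates of `P - P`
  obtain ⟨W, hW⟩ : ∃ W : Finset (ZMod p), W = S.S 5 := ⟨_, rfl⟩
  have hWP : ((W + P).card : ℝ) ≤ C₂ * P.card := by
    have h1 : W + P ⊆ T + S.S (5 + 1) := by
      intro x hx
      obtain ⟨w, hw, a, ha, rfl⟩ := Finset.mem_add.1 hx
      obtain ⟨t, ht, h⟩ := hcovP a ha
      rw [hW] at hw
      rw [Finset.mem_add]
      exact ⟨t, ht, w + (a - t), S.add_mem 5 1 _ _ hw h, by ring⟩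
    have h2 : (W + P).card ≤ T.card * (S.S (5 + 1)).card :=
      (card_le_card h1).trans Finset.card_add_le
    have h3 : ((W + P).card : ℝ) ≤ T.card * (S.S (5 + 1)).card := by exact_mod_cast h2
    have h4 := sys_mul S 6 (5 + 1) (by norm_num)
    have e7 : (2 * ((6 : ℕ) : ℝ) + 1) = 13 := by norm_num
    rw [e7] at h4
    calc ((W + P).card : ℝ) ≤ T.card * (S.S (5 + 1)).card := h3
      _ ≤ C * (13 ^ D * (S.S 1).card) := mul_le_mul hT h4 (Nat.cast_nonneg _) (by linarith)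
      _ ≤ C * (13 ^ D * (C * P.card)) := by
          refine mul_le_mul_of_nonneg_left (mul_le_mul_of_nonneg_left hS (by positivity))
            (by linarith)
      _ = C₂ * P.card := by rw [hC₂]; ring
  obtain ⟨F, -, hF, hFcov⟩ := Finset.ruzsa_covering_add (A := W) (B := P) (K := C₂) hPne hWP
  have hR : ∀ x : ZMod p, (B.filter fun b => b - x ∈ W).card ≤ F.card * M := by
    intro x
    have h1 : (B.filter fun b => b - x ∈ W) ⊆ F.biUnion fun t =>
        B.filter fun b => b - (x + t) ∈ P - P := by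
      intro b hb
      obtain ⟨h2, h3⟩ := mem_filter.1 hb
      obtain ⟨t, ht, d, hd, e⟩ := Finset.mem_add.1 (hFcov h3)
      refine mem_biUnion.2 ⟨t, ht, mem_filter.2 ⟨h2, ?_⟩⟩
      have e2 : b - (x + t) = d := by
        have : b - (x + t) = (b - x) - t := by ring
        rw [this, ← e]
        ring
      rw [e2]
      exact hd
    refine (card_le_card h1).trans (card_biUnion_le.trans ?_)
    refine (Finset.sum_le_sum fun t _ => hM (x + t)).trans (le_of_eq ?_)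
    rw [Finset.sum_const, smul_eq_mul]
  -- the local bound
  have hlocal : ∀ x : ZMod p, ∀ A₁ : Finset (ZMod p), (∀ a ∈ A₁, a - x ∈ S.S 1) →
      ‖∑ a ∈ A₁, ∑ b ∈ B, f a * g b * χ (a + b)‖ ≤
        ((p : ℝ) ^ (-τ₁) * (Real.sqrt (S.S 1).card * Real.sqrt B.card)) *
          (Real.sqrt (∑ a ∈ A₁, ‖f a‖ ^ 2) * Real.sqrt (∑ b ∈ B, ‖g b‖ ^ 2)) := by
    intro x A₁ hA₁
    obtain ⟨X, hX⟩ : ∃ X : Finset (ZMod p), X = (S.S 1).image fun s => x + s := ⟨_, rfl⟩
    obtain ⟨U, hU⟩ : ∃ U : Finset (ZMod p), U = (S.S (1 + 1)).image fun s => x + s := ⟨_, rfl⟩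
    have hXc : X.card = (S.S 1).card := by
      rw [hX]
      exact card_image_of_injective _ (add_right_injective x)
    have hUc : U.card = (S.S (1 + 1)).card := by
      rw [hU]
      exact card_image_of_injective _ (add_right_injective x)
    have hAX : A₁ ⊆ X := by
      intro a ha
      rw [hX]
      exact mem_image.2 ⟨a - x, hA₁ a ha, by ring⟩
    have hXU : ∀ a ∈ X, ∀ n < N, a + (n : ZMod p) * z ∈ U := by
      intro a ha n hn
      rw [hX] at ha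
      obtain ⟨s, hs, rfl⟩ := mem_image.1 ha
      rw [hU]
      exact mem_image.2 ⟨s + (n : ZMod p) * z, S.add_mem 1 1 _ _ hs (hNS n hn), by ring⟩
    have hU1 : (U.card : ℝ) ≤ (p : ℝ) ^ τ₁ * X.card := by
      rw [hUc, hXc]
      have h4 := sys_mul S 2 (1 + 1) (by norm_num)
      have e7 : (2 * ((2 : ℕ) : ℝ) + 1) = 5 := by norm_num
      rw [e7] at h4
      exact h4.trans (mul_le_mul_of_nonneg_right hp4 (Nat.cast_nonneg _))
    have hU0 : (S.S 1).card ≤ U.card := by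
      rw [hUc]
      exact card_le_card (S.mono _ _ (by norm_num))
    have hTT : (TT z N U B).card ≤ 2 * N * (U.card * (B.card * (B.card * (F.card * M)))) := by
      refine TT_local z N U B W (F.card * M) ?_ hR
      intro u hu u₁ hu₁ m hm
      rw [hU] at hu hu₁
      obtain ⟨s, hs, rfl⟩ := mem_image.1 hu
      obtain ⟨s₁, hs₁, rfl⟩ := mem_image.1 hu₁
      have hmS : (m : ZMod p) * z ∈ S.S 1 := by
        obtain ⟨k, hk | hk⟩ := m.eq_nat_or_neg
        · rw [hk, Nat.abs_cast] at hm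
          have h2 := hNS k (by exact_mod_cast hm)
          rw [hk, Int.cast_natCast]
          exact h2
        · rw [hk, abs_neg, Nat.abs_cast] at hm
          have h2 := S.neg_mem 1 _ (hNS k (by exact_mod_cast hm))
          rw [hk, Int.cast_neg, Int.cast_natCast, neg_mul]
          exact h2
      have e : (m : ZMod p) * z - ((x + s) - (x + s₁)) = (m : ZMod p) * z + (-s + s₁) := by ring
      rw [e, hW]
      refine S.mono (1 + ((1 + 1) + (1 + 1))) 5 (by norm_num) ?_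
      exact S.add_mem _ _ _ _ hmS (S.add_mem _ _ _ _ (S.neg_mem _ _ hs) hs₁)
    have hTT' : ((TT z N U B).card : ℝ) ≤
        2 * N * (U.card * (B.card * (B.card * (F.card * M)))) := by exact_mod_cast hTT
    have hcond : ((TT z N U B).card : ℝ) * (p : ℝ) ^ (1 + ε₁) ≤
        (N : ℝ) ^ 2 * ((U.card : ℝ) ^ 2 * (B.card : ℝ) ^ 4) := by
      have hb2 : (0 : ℝ) ≤ (B.card : ℝ) ^ 2 := sq_nonneg _
      have hUR : ((S.S 1).card : ℝ) ≤ U.card := by exact_mod_cast hU0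
      have key : 2 * (F.card * M) * (p : ℝ) ^ (1 + ε₁) ≤ N * (U.card * (B.card : ℝ) ^ 2) := by
        have k1 : (2 * C₂ * C) * (p : ℝ) ^ (1 + ε₁) ≤ (N : ℝ) * (p : ℝ) ^ (1 - κ / 4) := by
          calc (2 * C₂ * C) * (p : ℝ) ^ (1 + ε₁) ≤ (p : ℝ) ^ (κ / 2) * (p : ℝ) ^ (1 + ε₁) :=
                mul_le_mul_of_nonneg_right hp5 (Real.rpow_nonneg hp0.le _)
            _ = (p : ℝ) ^ (κ / 2 + (1 + ε₁)) := by rw [← Real.rpow_add hp0]
            _ ≤ (p : ℝ) ^ (κ + (1 - κ / 4)) :=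
                Real.rpow_le_rpow_of_exponent_le hpR (by linarith)
            _ = (p : ℝ) ^ κ * (p : ℝ) ^ (1 - κ / 4) := by rw [Real.rpow_add hp0]
            _ ≤ _ := mul_le_mul_of_nonneg_right hN (Real.rpow_nonneg hp0.le _)
        have hM0 : (0 : ℝ) ≤ M := Nat.cast_nonneg _
        have hC0 : 0 < C := by linarith
        have k2 : C * (2 * (F.card * M) * (p : ℝ) ^ (1 + ε₁)) ≤
            C * (N * (U.card * (B.card : ℝ) ^ 2)) := by
          calc C * (2 * (F.card * M) * (p : ℝ) ^ (1 + ε₁)) ≤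
              C * (2 * (C₂ * M) * (p : ℝ) ^ (1 + ε₁)) := by
                refine mul_le_mul_of_nonneg_left ?_ hC0.le
                refine mul_le_mul_of_nonneg_right ?_ (Real.rpow_nonneg hp0.le _)
                refine mul_le_mul_of_nonneg_left ?_ (by norm_num)
                exact mul_le_mul_of_nonneg_right hF hM0
            _ = M * ((2 * C₂ * C) * (p : ℝ) ^ (1 + ε₁)) := by ring
            _ ≤ M * ((N : ℝ) * (p : ℝ) ^ (1 - κ / 4)) := mul_le_mul_of_nonneg_left k1 hM0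
            _ = N * (M * (p : ℝ) ^ (1 - κ / 4)) := by ring
            _ ≤ N * (P.card * (B.card : ℝ) ^ 2) := mul_le_mul_of_nonneg_left hMB hN0.le
            _ ≤ N * ((C * (S.S 1).card) * (B.card : ℝ) ^ 2) :=
                mul_le_mul_of_nonneg_left (mul_le_mul_of_nonneg_right hPS hb2) hN0.le
            _ ≤ N * ((C * U.card) * (B.card : ℝ) ^ 2) := by
                refine mul_le_mul_of_nonneg_left (mul_le_mul_of_nonneg_right ?_ hb2) hN0.le
                exact mul_le_mul_of_nonneg_left hUR hC0.le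
            _ = _ := by ring
        exact le_of_mul_le_mul_left k2 hC0
      calc ((TT z N U B).card : ℝ) * (p : ℝ) ^ (1 + ε₁) ≤
          (2 * N * (U.card * (B.card * (B.card * (F.card * M))))) * (p : ℝ) ^ (1 + ε₁) :=
            mul_le_mul_of_nonneg_right hTT' (Real.rpow_nonneg hp0.le _)
        _ = (N * (U.card * (B.card : ℝ) ^ 2)) * (2 * (F.card * M) * (p : ℝ) ^ (1 + ε₁)) := by ring
        _ ≤ (N * (U.card * (B.card : ℝ) ^ 2)) * (N * (U.card * (B.card : ℝ) ^ 2)) :=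
            mul_le_mul_of_nonneg_left key (mul_nonneg hN0.le (mul_nonneg (Nat.cast_nonneg _) hb2))
        _ = _ := by ring
    have hκε : (p : ℝ) ^ ε₁ ≤ N :=
      (Real.rpow_le_rpow_of_exponent_le hpR (by linarith)).trans hN
    have hBε : (p : ℝ) ^ ε₁ ≤ B.card := (Real.rpow_le_rpow_of_exponent_le hpR hε₁ε).trans hB
    have hmain := hite p (by omega) χ hχ X U B z N hz hκε hNp hXU hU1 hBε hcond
      (fun a => if a ∈ A₁ then f a else 0) g
    have e1 : ∑ a ∈ X, ∑ b ∈ B, (if a ∈ A₁ then f a else 0) * g b * χ (a + b) =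
        ∑ a ∈ A₁, ∑ b ∈ B, f a * g b * χ (a + b) := by
      rw [← Finset.sum_subset hAX (fun a _ ha => by simp [if_neg ha])]
      refine Finset.sum_congr rfl fun a ha => ?_
      rw [if_pos ha]
    have e2 : ∑ a ∈ X, ‖(if a ∈ A₁ then f a else 0)‖ ^ 2 = ∑ a ∈ A₁, ‖f a‖ ^ 2 := by
      rw [← Finset.sum_subset hAX (fun a _ ha => by simp [if_neg ha])]
      exact Finset.sum_congr rfl fun a ha => by rw [if_pos ha]
    rw [e1, e2, hXc] at hmain
    refine hmain.trans (le_of_eq ?_)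
    ring
  -- the pieces
  choose! u hu using hcovG
  obtain ⟨Θ, hΘ⟩ : ∃ Θ : ℝ, Θ = (p : ℝ) ^ (-τ₁) * (Real.sqrt (S.S 1).card * Real.sqrt B.card) :=
    ⟨_, rfl⟩
  have hΘ0 : 0 ≤ Θ := by rw [hΘ]; positivity
  have hmain := pieces A B G {0} u (fun _ => 0) (fun a ha => (hu a ha).1)
    (fun b _ => mem_singleton_self _) (fun a b => χ (a + b)) Θ hΘ0 f g (by
      intro x _ y hy
      have hy0 : (B.filter fun b => (fun _ : ZMod p => (0 : ZMod p)) b = y) = B := by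
        rw [mem_singleton.1 hy]
        exact Finset.filter_true_of_mem fun _ _ => rfl
      rw [hy0, hΘ]
      refine hlocal x _ ?_
      intro a ha
      rw [mem_filter] at ha
      rw [← ha.2]
      exact (hu a ha.1).2)
  refine hmain.trans ?_
  rw [← mul_assoc ((p : ℝ) ^ (-(τ₁ / 8)))]
  apply mul_le_mul_of_nonneg_right _ (by positivity)
  rw [card_singleton, Nat.cast_one, Real.sqrt_one, mul_one]
  have n1 : Real.sqrt (S.S 1).card * Real.sqrt G.card ≤
      Real.sqrt (C' * (p : ℝ) ^ (τ₁ / 8)) * Real.sqrt A.card := by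
    rw [← Real.sqrt_mul (Nat.cast_nonneg _), ← Real.sqrt_mul (by positivity)]
    apply Real.sqrt_le_sqrt
    calc ((S.S 1).card : ℝ) * G.card = G.card * (S.S 1).card := by ring
      _ ≤ C' * (A + P).card := hG
      _ ≤ C' * ((p : ℝ) ^ (τ₁ / 8) * A.card) := mul_le_mul_of_nonneg_left hA (by linarith)
      _ = _ := by ring
  have n2 : Real.sqrt (C' * (p : ℝ) ^ (τ₁ / 8)) ≤ (p : ℝ) ^ (τ₁ / 2) := by
    refine Real.sqrt_le_iff.2 ⟨Real.rpow_nonneg hp0.le _, ?_⟩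
    calc C' * (p : ℝ) ^ (τ₁ / 8) ≤ (p : ℝ) ^ (τ₁ / 2) * (p : ℝ) ^ (τ₁ / 8) :=
          mul_le_mul_of_nonneg_right hp3 (Real.rpow_nonneg hp0.le _)
      _ = (p : ℝ) ^ (τ₁ / 2 + τ₁ / 8) := by rw [← Real.rpow_add hp0]
      _ ≤ (p : ℝ) ^ (τ₁ / 2 * (2 : ℕ)) := Real.rpow_le_rpow_of_exponent_le hpR (by
          push_cast
          linarith)
      _ = ((p : ℝ) ^ (τ₁ / 2)) ^ 2 := by rw [Real.rpow_mul hp0.le, Real.rpow_natCast]
  calc Θ * Real.sqrt G.card = (p : ℝ) ^ (-τ₁) * ((Real.sqrt (S.S 1).card * Real.sqrt G.card) *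
        Real.sqrt B.card) := by rw [hΘ]; ring
    _ ≤ (p : ℝ) ^ (-τ₁) * (((p : ℝ) ^ (τ₁ / 2) * Real.sqrt A.card) * Real.sqrt B.card) := by
        refine mul_le_mul_of_nonneg_left (mul_le_mul_of_nonneg_right
          (n1.trans (mul_le_mul_of_nonneg_right n2 (Real.sqrt_nonneg _)))
          (Real.sqrt_nonneg _)) (Real.rpow_nonneg hp0.le _)
    _ = ((p : ℝ) ^ (-τ₁) * (p : ℝ) ^ (τ₁ / 2)) * (Real.sqrt A.card * Real.sqrt B.card) := by ring
    _ = (p : ℝ) ^ (-τ₁ + τ₁ / 2) * (Real.sqrt A.card * Real.sqrt B.card) := by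
        rw [← Real.rpow_add hp0]
    _ ≤ _ := mul_le_mul_of_nonneg_right (Real.rpow_le_rpow_of_exponent_le hpR (by linarith))
        (by positivity)

end Pool.Agent.H58BU
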