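import Pool.Agent.H58BU.W
import Mathlib.Combinatorics.Additive.PluenneckeRuzsa

/-! # A set of bounded doubling and an arbitrary set with `p^(1/2-c)` elements -/

set_option autoImplicit false
set_option linter.unusedSectionVars false

namespace Pool.Agent.H58BU

open Finset Pool.Agent.TH7.PG
open scoped Pointwise

theorem diff_le {p : ℕ} [Fact p.Prime] (P : Finset (ZMod p)) (K : ℝ) (hP : P.Nonempty)
    (hK : ((P + P).card : ℝ) ≤ K * P.card) : ((P - P).card : ℝ) ≤ K ^ 2 * P.card := by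
  have h1 := Finset.ruzsa_triangle_inequality_sub_add_add P P P
  have h2 : ((P - P).card : ℝ) * P.card ≤ (P + P).card * (P + P).card := by exact_mod_cast h1
  have hP0 : (0 : ℝ) < P.card := by exact_mod_cast hP.card_pos
  have h3 : ((P - P).card : ℝ) * P.card ≤ (K ^ 2 * P.card) * P.card := by
    calc ((P - P).card : ℝ) * P.card ≤ (P + P).card * (P + P).card := h2
      _ ≤ (K * P.card) * (K * P.card) :=
          mul_le_mul hK hK (Nat.cast_nonneg _) ((Nat.cast_nonneg _).trans hK)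
      _ = _ := by ring
  exact le_of_mul_le_mul_right h3 hP0

theorem kb_final (ε K : ℝ) (hε : 0 < ε) : ∃ c : ℝ, 0 < c ∧
    ∃ τ : ℝ, 0 < τ ∧ ∃ p₀ : ℕ, ∀ (p : ℕ) [Fact p.Prime], p₀ ≤ p →
    ∀ χ : DirichletCharacter ℂ p, χ ≠ 1 → ∀ A B P : Finset (ZMod p),
      (p : ℝ) ^ ε ≤ P.card → ((P + P).card : ℝ) ≤ K * P.card →
      ((A + P).card : ℝ) ≤ (p : ℝ) ^ τ * A.card →
      ((p : ℝ) ^ (1 / 2 - c) ≤ B.card ∨
        ((p : ℝ) ^ ε ≤ B.card ∧ ∃ M : ℕ,
          (∀ x : ZMod p, (B.filter fun b => b - x ∈ P - P).card ≤ M) ∧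
          M * (p : ℝ) ^ (1 - c) ≤ P.card * (B.card : ℝ) ^ 2)) →
      ∀ f g : ZMod p → ℂ, ‖∑ a ∈ A, ∑ b ∈ B, f a * g b * χ (a + b)‖ ≤ (p : ℝ) ^ (-τ) *
        ((Real.sqrt A.card * Real.sqrt B.card) *
          (Real.sqrt (∑ a ∈ A, ‖f a‖ ^ 2) * Real.sqrt (∑ b ∈ B, ‖g b‖ ^ 2))) := by
  classical
  obtain ⟨ε', hε'⟩ : ∃ ε' : ℝ, ε' = min ε (1 / 4) := ⟨_, rfl⟩
  have hε'0 : 0 < ε' := by rw [hε']; exact lt_min hε (by norm_num)
  have hε'1 : ε' ≤ 1 / 4 := by rw [hε']; exact min_le_right _ _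
  have hε'ε : ε' ≤ ε := by rw [hε']; exact min_le_left _ _
  obtain ⟨c₀, hc₀, τ, hτ, p₁, h⟩ := kb_main ε' K hε'0
  obtain ⟨c, hc⟩ : ∃ c : ℝ, c = min (c₀ / 4) (1 / 4) := ⟨_, rfl⟩
  have hc0 : 0 < c := by rw [hc]; exact lt_min (by positivity) (by norm_num)
  have hc1 : c ≤ c₀ / 4 := by rw [hc]; exact min_le_left _ _
  have hc2 : c ≤ 1 / 4 := by rw [hc]; exact min_le_right _ _
  obtain ⟨p₂, hp₂⟩ := large (K ^ 2) (c₀ / 2) (by positivity)
  refine ⟨c, hc0, τ, hτ, p₁ + p₂, ?_⟩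
  intro p _ hp χ hχ A B P hP hPK hA hB f g
  have hpR : (1 : ℝ) ≤ p := by exact_mod_cast (Fact.out : p.Prime).one_lt.le
  have hp0 : (0 : ℝ) < p := by linarith
  have hp2 := hp₂ p (by omega)
  have hle : (p : ℝ) ^ ε' ≤ (p : ℝ) ^ ε := Real.rpow_le_rpow_of_exponent_le hpR hε'ε
  have hP0 : (0 : ℝ) < P.card := lt_of_lt_of_le (Real.rpow_pos_of_pos hp0 _) hP
  have hPne : P.Nonempty := by rw [← card_pos]; exact_mod_cast hP0
  rcases hB with hB | ⟨hB, M, hM, hMB⟩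
  · have hBε : (p : ℝ) ^ ε' ≤ B.card :=
      (Real.rpow_le_rpow_of_exponent_le hpR (by linarith)).trans hB
    refine h p (by omega) χ hχ A B P (P - P).card (hle.trans hP) hBε hPK hA ?_ ?_ f g
    · intro x
      refine Finset.card_le_card_of_injOn (fun b => b - x) ?_ ?_
      · intro b hb
        exact Finset.mem_coe.2 (mem_filter.1 (Finset.mem_coe.1 hb)).2
      · intro b _ b' _ hbb
        exact sub_left_injective hbb
    · have hd := diff_le P K hPne hPK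
      have hB2 : (p : ℝ) ^ (1 - 2 * c) ≤ (B.card : ℝ) ^ 2 := by
        have h1 := pow_le_pow_left₀ (Real.rpow_nonneg hp0.le (1 / 2 - c)) hB 2
        rw [← Real.rpow_natCast, ← Real.rpow_mul hp0.le] at h1
        refine le_trans (le_of_eq ?_) h1
        congr 1
        push_cast
        ring
      calc ((P - P).card : ℝ) * (p : ℝ) ^ (1 - c₀) ≤ (K ^ 2 * P.card) * (p : ℝ) ^ (1 - c₀) :=
            mul_le_mul_of_nonneg_right hd (Real.rpow_nonneg hp0.le _)
        _ ≤ ((p : ℝ) ^ (c₀ / 2) * P.card) * (p : ℝ) ^ (1 - c₀) :=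
            mul_le_mul_of_nonneg_right (mul_le_mul_of_nonneg_right hp2 hP0.le)
              (Real.rpow_nonneg hp0.le _)
        _ = P.card * ((p : ℝ) ^ (c₀ / 2) * (p : ℝ) ^ (1 - c₀)) := by ring
        _ = P.card * (p : ℝ) ^ (c₀ / 2 + (1 - c₀)) := by rw [← Real.rpow_add hp0]
        _ ≤ P.card * (p : ℝ) ^ (1 - 2 * c) := by
            refine mul_le_mul_of_nonneg_left ?_ hP0.le
            exact Real.rpow_le_rpow_of_exponent_le hpR (by linarith)
        _ ≤ _ := mul_le_mul_of_nonneg_left hB2 hP0.le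
  · refine h p (by omega) χ hχ A B P M (hle.trans hP) (hle.trans hB) hPK hA hM ?_ f g
    refine le_trans ?_ hMB
    exact mul_le_mul_of_nonneg_left (Real.rpow_le_rpow_of_exponent_le hpR (by linarith))
      (Nat.cast_nonneg _)

end Pool.Agent.H58BU
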